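import Mathlib

/-! Coding mathematical objects by sets. -/

namespace Pool.Agent.MP_c70ddc_lc.H1

universe u v

/-- von Neumann numerals -/
def num : ℕ → ZFSet.{0}
  | 0 => ∅
  | n + 1 => insert (num n) (num n)

lemma mem_num {x : ZFSet} {n : ℕ} : x ∈ num n ↔ ∃ m, m < n ∧ x = num m := by
  induction n with
  | zero => simp [num]
  | succ n ih =>
    simp only [num, ZFSet.mem_insert_iff, ih]
    constructor
    · rintro (rfl | ⟨m, hm, rfl⟩)
      · exact ⟨n, n.lt_succ_self, rfl⟩
      · exact ⟨m, hm.trans n.lt_succ_self, rfl⟩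
    · rintro ⟨m, hm, rfl⟩
      rcases Nat.lt_succ_iff_lt_or_eq.1 hm with h | h
      · exact Or.inr ⟨m, h, rfl⟩
      · exact Or.inl (h ▸ rfl)

lemma num_inj : Function.Injective num := by
  intro a b h
  rcases lt_trichotomy a b with h1 | h1 | h1
  · have : num a ∈ num b := mem_num.2 ⟨a, h1, rfl⟩
    rw [h] at this
    exact absurd this (ZFSet.mem_irrefl _)
  · exact h1
  · have : num b ∈ num a := mem_num.2 ⟨b, h1, rfl⟩
    rw [h] at this
    exact absurd this (ZFSet.mem_irrefl _)

/-- an injective coding of the elements of `α` by sets -/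
class Cd (α : Type u) where
  cd : α → ZFSet.{0}
  inj : Function.Injective cd

export Cd (cd)

/-- naturals are numerals -/
instance cdNat : Cd ℕ := ⟨num, num_inj⟩

/-- a rational is the numeral of its number in the standard enumeration -/
instance cdRat : Cd ℚ :=
  ⟨fun q => num (Encodable.encode q), num_inj.comp Encodable.encode_injective⟩

/-- a binary word is the numeral of its number in the standard enumeration -/
instance cdWord : Cd (List Bool) :=
  ⟨fun s => num (Encodable.encode s), num_inj.comp Encodable.encode_injective⟩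

/-- Kuratowski pairs -/
instance cdProd {α : Type u} {β : Type v} [Cd α] [Cd β] : Cd (α × β) :=
  ⟨fun p => ZFSet.pair (cd p.1) (cd p.2), fun _ _ h =>
    Prod.ext (Cd.inj (ZFSet.pair_inj.1 h).1) (Cd.inj (ZFSet.pair_inj.1 h).2)⟩

/-- a set is the set of the codes of its elements -/
noncomputable instance cdSet {α : Type} [Cd α] : Cd (Set α) :=
  ⟨fun S => ZFSet.range fun x : S => cd x.1, fun S S' h => by
    have key : ∀ {A B : Set α}, (ZFSet.range fun x : A => cd x.1) =
        (ZFSet.range fun x : B => cd x.1) → A ⊆ B := by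
      intro A B e a ha
      have : cd a ∈ ZFSet.range fun x : B => cd x.1 := e ▸ ZFSet.mem_range.2 ⟨⟨a, ha⟩, rfl⟩
      obtain ⟨b, hb⟩ := ZFSet.mem_range.1 this
      exact Cd.inj hb ▸ b.2
    exact (key h).antisymm (key h.symm)⟩

/-- a function is its graph -/
noncomputable instance cdFun {ι : Type} {β : Type v} [Cd ι] [Cd β] : Cd (ι → β) :=
  ⟨fun f => ZFSet.range fun i => ZFSet.pair (cd i) (cd (f i)), fun f g h => funext fun i => by
    have : ZFSet.pair (cd i) (cd (f i)) ∈ ZFSet.range fun j => ZFSet.pair (cd j) (cd (g j)) := by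
      have e : (ZFSet.range fun j => ZFSet.pair (cd j) (cd (f j))) =
        ZFSet.range fun j => ZFSet.pair (cd j) (cd (g j)) := h
      exact e ▸ ZFSet.mem_range.2 ⟨i, rfl⟩
    obtain ⟨j, hj⟩ := ZFSet.mem_range.1 this
    obtain ⟨h1, h2⟩ := ZFSet.pair_inj.1 hj
    exact (Cd.inj h1 ▸ Cd.inj h2 :).symm⟩

/-- a real is its Dedekind cut -/
noncomputable instance cdReal : Cd ℝ :=
  ⟨fun r => cd {q : ℚ | (q : ℝ) < r}, fun r s h => by
    have e := Set.ext_iff.1 (Cd.inj h)
    exact eq_of_forall_rat_lt_iff_lt e⟩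

/-- the object `a` belongs to `W` -/
class InW {α : Type u} [Cd α] (W : ZFSet.{0}) (a : α) : Prop where
  mem : cd a ∈ W

/-- the graph of `f` restricted to `S` -/
def gr {α β : Type} (S : Set α) (f : α → β) : Set (α × β) := {p | p.1 ∈ S ∧ p.2 = f p.1}

end Pool.Agent.MP_c70ddc_lc.H1
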