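import Pool.Agent.MP_c70ddc_lc.H1.KSet

/-! Recursion, arithmetic, numberings and finiteness (module KC). -/

namespace Pool.Agent.MP_c70ddc_lc.H1

universe u v w

variable {M : Md} {α : Type u} {β : Type v} [Cd α] [Cd β]

set_option synthInstance.maxSize 100000

/-- the value of the graph `h` at `x` -/
noncomputable def zap (h x : ZFSet.{0}) : ZFSet.{0} :=
  ZFSet.sUnion ((ZFSet.sUnion (ZFSet.sUnion h)).sep fun y => ZFSet.pair x y ∈ h)

lemma zap_eq {h x y : ZFSet.{0}} (h1 : ZFSet.pair x y ∈ h)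
    (h2 : ∀ y', ZFSet.pair x y' ∈ h → y' = y) : zap h x = y := by
  ext z
  simp only [zap, ZFSet.mem_sUnion, ZFSet.mem_sep]
  refine ⟨fun ⟨y', ⟨_, h3⟩, hz⟩ => h2 _ h3 ▸ hz, fun hz => ⟨y, ⟨⟨{x, y}, ⟨_, h1, ?_⟩, ?_⟩, h1⟩, hz⟩⟩
  · simp [ZFSet.pair]
  · simp

lemma DfF.zap {s t : α → ZFSet.{0}} (hs : DfF M s) (ht : DfF M t) :
    DfF M fun a => zap (s a) (t a) := by
  unfold H1.zap
  infer_instance
instance (priority := 7000) DfF_zap_inst {s t : α → ZFSet.{0}} [hs : DfF M s] [ht : DfF M t] :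
    DfP M fun a => zap (s a) (t a) :=
  ⟨DfF.zap hs ht⟩

open Classical in
/-- decoding, with default value `d` -/
noncomputable def dec (d : β) (z : ZFSet.{0}) : β := if h : ∃ b : β, cd b = z then h.choose else d

@[simp] lemma dec_cd (d b : β) : dec d (cd b) = b := by
  have h : ∃ b' : β, cd b' = cd b := ⟨b, rfl⟩
  rw [dec, dif_pos h]
  exact Cd.inj h.choose_spec

lemma DfF.dec [TyD M β] {d : α → β} {s : α → ZFSet.{0}} (hd : DfF M d) (hs : DfF M s) :
    DfF M fun a => dec (d a) (s a) := by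
  classical
  have h0 : DfF M fun z : ZFSet => ∃ b : β, H1.cd b = z := TyD.df
  have h1 : DfF M fun a => ∃ b : β, H1.cd b = s a := h0.comp hs
  refine DfF.recode ((h1.ite (d := fun _ => inferInstance) hs hd.cd).congr fun a _ => ?_)
  split_ifs with h
  · obtain ⟨b, hb⟩ := h
    rw [← hb, dec_cd]
  · rw [H1.dec, dif_neg h]
instance (priority := 7000) DfF_dec_inst [TyD M β] {d : α → β} {s : α → ZFSet.{0}} [hd : DfF M d]
    [hs : DfF M s] :
    DfP M fun a => dec (d a) (s a) :=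
  ⟨DfF.dec hd hs⟩

/-- the recursion theorem -/
theorem DfF.wfRec [TyD M α] {R : α → α → Prop} (hwf : WellFounded R)
    (hR : DfF M fun x : α × α => R x.1 x.2)
    (hs : ∀ a, InW M.W a → ∃ z ∈ M.W, ∀ b, R b a → H1.cd b ∈ z)
    {F : α → β} {G : α → ZFSet.{0} → β} (hG : DfF M fun x : α × ZFSet => G x.1 x.2)
    (hF : ∀ a, InW M.W a → ∀ h ∈ M.W, (∀ b, R b a → H1.zap h (H1.cd b) = H1.cd (F b)) →
      G a h = F a) : DfF M F := by
  let res : ZFSet → α → ZFSet := fun g a =>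
    g.sep fun w => ∃ b, InW M.W b ∧ R b a ∧ ∃ y, y ∈ M.W ∧ w = ZFSet.pair (H1.cd b) y
  have hres : DfF M fun x : ZFSet × α => res x.1 x.2 := inferInstance
  let good : ZFSet → Prop := fun g => ∀ w, w ∈ g → ∃ a, InW M.W a ∧
    w = ZFSet.pair (H1.cd a) (H1.cd (G a (res g a))) ∧
      ∀ b, InW M.W b → R b a → ∃ y, y ∈ M.W ∧ ZFSet.pair (H1.cd b) y ∈ g
  have hgood : DfF M good := inferInstance
  have pre : ∀ a, InW M.W a → ∀ b, R b a → InW M.W b := fun a ha b hb => by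
    obtain ⟨z, hz, h⟩ := hs a ha
    exact ⟨M.h.trans _ hz _ (h b hb)⟩
  have val : ∀ g ∈ M.W, ∀ a, InW M.W a →
      (∀ b y, R b a → ZFSet.pair (H1.cd b) y ∈ g → y = H1.cd (F b)) →
      (∀ b, InW M.W b → R b a → ∃ y, y ∈ M.W ∧ ZFSet.pair (H1.cd b) y ∈ g) →
      G a (res g a) = F a := by
    intro g hg a ha h1 h2
    refine hF a ha _ (hres.inW (InW.pair ⟨hg⟩ ha)).mem fun b hb => ?_
    obtain ⟨y, hy, hy'⟩ := h2 b (pre a ha b hb) hb
    obtain rfl := h1 b y hb hy'
    exact zap_eq (ZFSet.mem_sep.2 ⟨hy', b, pre a ha b hb, hb, _, hy, rfl⟩)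
      fun y' h => h1 b y' hb (ZFSet.mem_sep.1 h).1
  have uniq : ∀ g ∈ M.W, good g → ∀ a y, ZFSet.pair (H1.cd a) y ∈ g → y = H1.cd (F a) := by
    intro g hg hg' a
    induction a using hwf.induction with
    | _ a ih =>
      intro y hy
      obtain ⟨a', ha', e, h2⟩ := hg' _ hy
      obtain ⟨e1, e2⟩ := ZFSet.pair_inj.1 e
      obtain rfl := Cd.inj e1
      rw [e2, val g hg a ha' (fun b y hb => ih b hb y) h2]
  have ex : ∀ a, InW M.W a → ∃ g, InW M.W g ∧ good g ∧
      ZFSet.pair (H1.cd a) (H1.cd (F a)) ∈ g := by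
    intro a
    induction a using hwf.induction with
    | _ a ih =>
      intro ha
      obtain ⟨z, hz, hz'⟩ := hs a ha
      obtain ⟨t, ht, ht'⟩ := DfF.coll (M := M) (p := fun (b : α) (g : ZFSet) => good g ∧
        ∃ y, y ∈ M.W ∧ ZFSet.pair (H1.cd b) y ∈ g) inferInstance hz
      have ht : InW M.W t := ⟨ht⟩
      let u := ZFSet.sUnion (t.sep good)
      have hu : InW M.W u := inferInstance
      have hu1 : ∀ b y, ZFSet.pair (H1.cd b) y ∈ u → y = H1.cd (F b) := by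
        intro b y hy
        obtain ⟨g, hg, hy⟩ := ZFSet.mem_sUnion.1 hy
        rw [ZFSet.mem_sep] at hg
        exact uniq g (M.h.trans _ ht.mem _ hg.1) hg.2 b y hy
      have hu2 : ∀ b, InW M.W b → R b a → ∃ y, y ∈ M.W ∧ ZFSet.pair (H1.cd b) y ∈ u := by
        intro b hb hba
        obtain ⟨g, hg, hg1, hg2⟩ := ih b hba hb
        obtain ⟨g', h1, h2, y, hy, h3⟩ := ht' b (hz' b hba) ⟨g, hg, hg1, _,
          (ka_pair_mem.1 (M.h.trans _ hg.mem _ hg2)).2, hg2⟩
        exact ⟨y, hy, ZFSet.mem_sUnion.2 ⟨g', ZFSet.mem_sep.2 ⟨h1, h2⟩, h3⟩⟩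
      have hFa : InW M.W (F a) := val u hu.mem a ha (fun b y _ => hu1 b y) hu2 ▸
        hG.inW (a := (a, res u a)) (ha.pair (hres.inW (hu.pair ha)))
      let g := Insert.insert (ZFSet.pair (H1.cd a) (H1.cd (F a))) u
      have hg : InW M.W g := inferInstance
      have hg1 : ∀ b y, ZFSet.pair (H1.cd b) y ∈ g → y = H1.cd (F b) := by
        intro b y hy
        rcases ZFSet.mem_insert_iff.1 hy with e | hy
        · obtain ⟨e1, e2⟩ := ZFSet.pair_inj.1 e
          rw [Cd.inj e1, e2]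
        · exact hu1 b y hy
      have fin : ∀ c, InW M.W c →
          (∀ b, InW M.W b → R b c → ∃ y, y ∈ M.W ∧ ZFSet.pair (H1.cd b) y ∈ u) →
          ∃ a', InW M.W a' ∧ ZFSet.pair (H1.cd c) (H1.cd (F c)) =
            ZFSet.pair (H1.cd a') (H1.cd (G a' (res g a'))) ∧
            ∀ b, InW M.W b → R b a' → ∃ y, y ∈ M.W ∧ ZFSet.pair (H1.cd b) y ∈ g := by
        intro c hc h
        have h' : ∀ b, InW M.W b → R b c → ∃ y, y ∈ M.W ∧ ZFSet.pair (H1.cd b) y ∈ g :=
          fun b hb hbc => (h b hb hbc).imp fun y hy => ⟨hy.1, ZFSet.mem_insert_of_mem _ hy.2⟩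
        exact ⟨c, hc, by rw [val g hg.mem c hc (fun b y _ => hg1 b y) h'], h'⟩
      refine ⟨g, hg, fun w hw => ?_, ZFSet.mem_insert _ _⟩
      rcases ZFSet.mem_insert_iff.1 hw with rfl | hw
      · exact fin a ha hu2
      · obtain ⟨g', hg', hw'⟩ := ZFSet.mem_sUnion.1 hw
        obtain ⟨c, hc, e, h⟩ := (ZFSet.mem_sep.1 hg').2 w hw'
        rw [e] at hw
        rw [e, hu1 c _ hw]
        exact fin c hc fun b hb hbc => (h b hb hbc).imp fun y hy =>
          ⟨hy.1, ZFSet.mem_sUnion.2 ⟨g', hg', hy.2⟩⟩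
  refine DfF.recode (DfF.of_graph (p := fun (a : α) (y : ZFSet) => ∃ g, InW M.W g ∧ good g ∧
    ZFSet.pair (H1.cd a) y ∈ g) (DfF.exW (DfF.and (hgood.comp DfF.id.snd) inferInstance))
    (fun a ha => ?_) fun a y ha _ => ?_)
  · obtain ⟨g, hg, -, h⟩ := ex a ha
    exact ⟨(ka_pair_mem.1 (M.h.trans _ hg.mem _ h)).2⟩
  · exact ⟨fun ⟨g, hg, h1, h2⟩ => uniq g hg.mem h1 a y h2, fun e => e ▸ ex a ha⟩

section nat

variable {f g : α → ℕ}

lemma DfF.nlt (hf : DfF M f) (hg : DfF M g) : DfF M fun a => f a < g a :=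
  (hf.num.zmem hg.num).congr_iff fun _ _ => num_mem_num
instance (priority := 7000) DfF_nlt_inst [hf : DfF M f] [hg : DfF M g] :
    DfP M fun a => f a < g a :=
  ⟨DfF.nlt hf hg⟩
lemma DfF.nle (hf : DfF M f) (hg : DfF M g) : DfF M fun a => f a ≤ g a :=
  (hg.nlt hf).not.congr_iff fun _ _ => not_lt
instance (priority := 7000) DfF_nle_inst [hf : DfF M f] [hg : DfF M g] :
    DfP M fun a => f a ≤ g a :=
  ⟨DfF.nle hf hg⟩

lemma DfF.nsucc (hf : DfF M f) : DfF M fun a => f a + 1 := DfF.recode (hf.num.zinsert hf.num)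

theorem DfF.natRec [TyD M α] [TyD M β] {z : α → β} {s : α → ℕ → β → β} (hz : DfF M z)
    (hs : DfF M fun x : α × ℕ × β => s x.1 x.2.1 x.2.2) {F : α → ℕ → β} (h0 : ∀ a, F a 0 = z a)
    (h1 : ∀ a n, F a (n + 1) = s a n (F a n)) : DfF M fun x : α × ℕ => F x.1 x.2 := by
  classical
  have hp : DfF M fun n : ℕ => n - 1 := DfF.of_graph (p := fun n m : ℕ => n = 0 ∧ m = 0 ∨ n = m + 1)
    (DfF.or inferInstance (DfF.id.fst.eq DfF.id.snd.nsucc)) (fun _ _ => inW_num _)
    fun a b _ _ => by omega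
  have hp' : DfF M fun x : (α × ℕ) × ZFSet => x.1.2 - 1 := hp.comp DfF.id.fst.snd
  refine DfF.wfRec (R := fun y x : α × ℕ => y.1 = x.1 ∧ x.2 = y.2 + 1)
    (G := fun x h => if x.2 = 0 then z x.1 else
      s x.1 (x.2 - 1) (H1.dec (z x.1) (H1.zap h (H1.cd (x.1, x.2 - 1)))))
    (Subrelation.wf (r := InvImage (· < ·) Prod.snd) (fun {x y} h => by
      change x.2 < y.2
      omega) (InvImage.wf _ wellFounded_lt))
    (DfF.and inferInstance (DfF.id.snd.snd.eq DfF.id.fst.snd.nsucc)) (fun x hx => ?_) ?_ ?_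
  · have h1 := hx.fst
    have : InW M.W ({H1.cd (x.1, x.2 - 1)} : ZFSet) := inferInstance
    refine ⟨_, this.mem, fun y hy => ZFSet.mem_singleton.2 ?_⟩
    rw [hy.2, ← hy.1]
    rfl
  · have hz' : DfF M fun x : (α × ℕ) × ZFSet => z x.1.1 := hz.comp DfF.id.fst.fst
    exact DfF.ite inferInstance hz' (hs.comp (DfF.id.fst.fst.prodMk (hp'.prodMk
      (hz'.dec (DfF.id.snd.zap (DfF.id.fst.fst.prodMk hp').cd)))))
  · rintro ⟨a, n⟩ - h - e
    cases n with
    | zero => simp [h0]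
    | succ n =>
      have := e (a, n) ⟨rfl, rfl⟩
      simp only [Nat.add_sub_cancel, this, dec_cd, h1]
      simp

lemma DfF.nadd (hf : DfF M f) (hg : DfF M g) : DfF M fun a => f a + g a :=
  (DfF.natRec (F := fun a n : ℕ => a + n) (z := fun a => a) (s := fun _ _ b => b + 1) DfF.id
    DfF.id.snd.snd.nsucc (fun _ => rfl) fun _ _ => rfl).comp2 hf hg
instance (priority := 7000) DfF_nadd_inst [hf : DfF M f] [hg : DfF M g] :
    DfP M fun a => f a + g a :=
  ⟨DfF.nadd hf hg⟩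
lemma DfF.nmul (hf : DfF M f) (hg : DfF M g) : DfF M fun a => f a * g a :=
  (DfF.natRec (F := fun a n : ℕ => a * n) (z := fun _ => 0) (s := fun a _ b => b + a) inferInstance
    inferInstance (fun _ => rfl) fun _ _ => rfl).comp2 hf hg
instance (priority := 7000) DfF_nmul_inst [hf : DfF M f] [hg : DfF M g] :
    DfP M fun a => f a * g a :=
  ⟨DfF.nmul hf hg⟩
lemma DfF.nsub (hf : DfF M f) (hg : DfF M g) : DfF M fun a => f a - g a :=
  DfF.of_graph (p := fun a m => f a ≤ g a ∧ m = 0 ∨ g a ≤ f a ∧ f a = g a + m) inferInstance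
    (fun _ _ => inW_num _) fun a b _ _ => by omega
instance (priority := 7000) DfF_nsub_inst [hf : DfF M f] [hg : DfF M g] :
    DfP M fun a => f a - g a :=
  ⟨DfF.nsub hf hg⟩
lemma DfF.nmax (hf : DfF M f) (hg : DfF M g) : DfF M fun a => max (f a) (g a) :=
  ((hf.nle hg).ite (d := fun _ => inferInstance) hg hf).congr fun _ _ => (max_def _ _).symm
instance (priority := 7000) DfF_nmax_inst [hf : DfF M f] [hg : DfF M g] :
    DfP M fun a => max (f a) (g a) :=
  ⟨DfF.nmax hf hg⟩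
lemma DfF.npair (hf : DfF M f) (hg : DfF M g) : DfF M fun a => Nat.pair (f a) (g a) := by
  unfold Nat.pair
  infer_instance
instance (priority := 7000) DfF_npair_inst [hf : DfF M f] [hg : DfF M g] :
    DfP M fun a => Nat.pair (f a) (g a) :=
  ⟨DfF.npair hf hg⟩
lemma DfF.unpair (hf : DfF M f) : DfF M fun a => Nat.unpair (f a) :=
  DfF.of_graph (p := fun a (m : ℕ × ℕ) => f a = Nat.pair m.1 m.2) inferInstance
    (fun _ _ => InW.hf _) fun a b _ _ =>
      ⟨fun e => by simp [e], fun e => by simp [e]⟩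
instance (priority := 7000) DfF_unpair_inst [hf : DfF M f] :
    DfP M fun a => Nat.unpair (f a) :=
  ⟨DfF.unpair hf⟩
lemma DfF.nsInf {S : α → Set ℕ} (hS : DfF M S) : DfF M fun a => sInf (S a) :=
  DfF.of_graph (p := fun a m => (m ∈ S a ∧ ∀ k, k ∈ S a → m ≤ k) ∨ (m = 0 ∧ S a = ∅)) inferInstance
    (fun _ _ => inW_num _) fun a b _ _ => by
      rcases (S a).eq_empty_or_nonempty with e | e
      · simp [e]
      · simp only [e.ne_empty, and_false, or_false]
        exact ⟨fun h => le_antisymm (h.2 _ (Nat.sInf_mem e)) (Nat.sInf_le h.1),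
          fun h => h ▸ ⟨Nat.sInf_mem e, fun _ hk => Nat.sInf_le hk⟩⟩
instance (priority := 7000) DfF_nsInf_inst {S : α → Set ℕ} [hS : DfF M S] :
    DfP M fun a => sInf (S a) :=
  ⟨DfF.nsInf hS⟩
lemma DfF.nsum {k : α → ℕ → ℕ} (hk : DfF M fun x : α × ℕ => k x.1 x.2) (hf : DfF M f) :
    DfF M fun a => ∑ i ∈ Finset.range (f a), k a i := by
  have h := DfF.natRec (M := M) (F := fun (k : ℕ → ℕ) n => ∑ i ∈ Finset.range n, k i)
    (z := fun _ => 0) (s := fun k n b => b + k n) inferInstance inferInstance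
    (fun _ => rfl) fun _ _ => Finset.sum_range_succ _ _
  exact h.comp ((DfF.lam hk).prodMk hf)
instance (priority := 7000) DfF_nsum_inst {k : α → ℕ → ℕ} [hk : DfF M fun x : α × ℕ => k x.1 x.2]
    [hf : DfF M f] :
    DfP M fun a => ∑ i ∈ Finset.range (f a), k a i :=
  ⟨DfF.nsum hk hf⟩
lemma DfF.cons {x : α → β} {v : α → ℕ → β} (hx : DfF M x) (hv : DfF M v) :
    DfF M fun a => cons (x a) (v a) := by
  have : DfF M fun a n => if n = 0 then x a else v a (n - 1) := inferInstance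
  refine this.congr fun a _ => funext fun n => ?_
  cases n <;> simp
instance (priority := 7000) DfF_cons_inst {x : α → β} {v : α → ℕ → β} [hx : DfF M x]
    [hv : DfF M v] :
    DfP M fun a => cons (x a) (v a) :=
  ⟨DfF.cons hx hv⟩
lemma DfF.pile {k l : α → ℕ → ℕ} (hk : DfF M k) (hl : DfF M l) : DfF M fun a => k a ≤ l a :=
  (inferInstance : DfF M fun a => ∀ i, k a i ≤ l a i)
instance (priority := 7000) DfF_pile_inst {k l : α → ℕ → ℕ} [hk : DfF M k] [hl : DfF M l] :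
    DfP M fun a => k a ≤ l a :=
  ⟨DfF.pile hk hl⟩

end nat

section enc

variable {κ κ' : Type}

instance enBool : En Bool := ⟨Bool.toNat, fun a b => by cases a <;> cases b <;> simp⟩
instance cdBool : Cd Bool := Cd.ofEn Bool
instance enRat : En ℚ := ⟨Encodable.encode, Encodable.encode_injective⟩
instance enWord : En (List Bool) := ⟨Encodable.encode, Encodable.encode_injective⟩

lemma HF.ofEn [En κ] (h : InW M.W (Set.range (enc : κ → ℕ))) : @HF M κ (Cd.ofEn κ) := by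
  let := Cd.ofEn κ
  refine ⟨⟨?_⟩⟩
  have : cd (Set.univ : Set κ) = cd (Set.range (enc : κ → ℕ)) := by
    ext z
    simp only [mem_cd_set, Set.mem_univ, true_and, Set.exists_range_iff]
    rfl
  exact this ▸ h.mem
lemma EnD.ofEn [En κ] : @EnD M κ (Cd.ofEn κ) _ := by
  let := Cd.ofEn κ
  exact ⟨DfF.recode (DfF.id (α := κ)).cd⟩

instance : HF M Bool := HF.ofEn (InW.finite (Set.finite_range _) fun _ _ => inW_num _)
instance : EnD M Bool := EnD.ofEn
instance : EnD M ℕ := ⟨DfF.id⟩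
instance : EnD M ℚ := EnD.ofEn
instance : EnD M (List Bool) := EnD.ofEn

lemma DfF.decide {p : α → Prop} {d : ∀ a, Decidable (p a)} (hp : DfF M p) :
    DfF M fun a => @decide (p a) (d a) :=
  (hp.ite (d := d) (DfF.constHF true) (DfF.constHF false)).congr fun a _ => by
    by_cases h : p a <;> simp [h]
instance (priority := 7000) DfF_decide_inst {p : α → Prop} {d : ∀ a, Decidable (p a)}
    [hp : DfF M p] :
    DfP M fun a => @decide (p a) (d a) :=
  ⟨DfF.decide hp⟩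

variable [Cd κ] [Cd κ'] [En κ] [En κ']

lemma DfF.enc [EnD M κ] {f : α → κ} (hf : DfF M f) : DfF M fun a => enc (f a) := EnD.df.comp hf
instance (priority := 7000) DfF_enc_inst [EnD M κ] {f : α → κ} [hf : DfF M f] :
    DfP M fun a => enc (f a) :=
  ⟨DfF.enc hf⟩

instance [EnD M κ] [EnD M κ'] : EnD M (κ × κ') :=
  ⟨(inferInstance : DfF M fun p : κ × κ' => Nat.pair (H1.enc p.1) (H1.enc p.2))⟩

lemma InW.of_enc [HF M κ] [EnD M κ] {S : Set κ} (h : InW M.W (H1.enc '' S)) : InW M.W S := by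
  generalize hA : H1.enc '' S = A at h
  have : InW M.W {a : κ | H1.enc a ∈ A} := inferInstance
  rwa [← hA, show {a : κ | H1.enc a ∈ H1.enc '' S} = S from Set.preimage_image_eq S En.inj] at this
lemma DfF.pred_of_enc [HF M κ] [EnD M κ] {p : κ → Prop} (h : InW M.W (H1.enc '' {a | p a})) :
    DfF M p := by
  have h1 := h.of_enc
  exact DfF.id.mem (DfF.const h1)
lemma DfF.of_enc [HF M κ] [EnD M κ] [HF M κ'] [EnD M κ'] {f : κ → κ'}
    (h : InW M.W (H1.enc '' {p : κ × κ' | p.2 = f p.1})) : DfF M f :=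
  DfF.of_graph (p := fun a b => b = f a) (DfF.pred_of_enc h) (fun _ _ => InW.hf _)
    fun _ _ _ _ => Iff.rfl
lemma exists_enum [HF M κ] [EnD M κ] [Nonempty κ] :
    ∃ e : ℕ → κ, InW M.W e ∧ ∀ a, e (H1.enc a) = a := by
  classical
  obtain ⟨d⟩ := ‹Nonempty κ›
  have he : ∀ a : κ, Function.invFun H1.enc (H1.enc a) = a := Function.leftInverse_invFun En.inj
  refine ⟨fun n => if ∃ a : κ, H1.enc a = n then Function.invFun H1.enc n else d,
    DfF.inW_fun (DfF.of_graph (p := fun n (a : κ) => H1.enc a = n ∨ (¬ ∃ b : κ, H1.enc b = n) ∧ a = d)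
      inferInstance (fun _ _ => InW.hf _) fun n a _ _ => ?_), fun a => by simp [he]⟩
  split_ifs with h
  · obtain ⟨b, rfl⟩ := h
    simp [he, En.inj.eq_iff]
  · simp only [h, not_false_iff, true_and, or_iff_right_iff_imp]
    exact fun e => absurd ⟨a, e⟩ h

end enc

section avail

lemma Avail.base (S : Set ℕ) : Avail fun W => InW W S := ⟨fun _ => S, fun _ h => h 0⟩
lemma Avail.mono {P Q : ZFSet.{0} → Prop} (h : ∀ W, P W → Q W) (hP : Avail P) : Avail Q :=
  hP.imp fun _ h' W hW => h W (h' W hW)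
lemma Avail.and {P Q : ZFSet.{0} → Prop} (hP : Avail P) (hQ : Avail Q) :
    Avail fun W => P W ∧ Q W := by
  obtain ⟨F, hF⟩ := hP
  obtain ⟨G, hG⟩ := hQ
  refine ⟨fun n => if n.unpair.1 = 0 then F n.unpair.2 else G n.unpair.2, fun W h =>
    ⟨hF W fun i => ?_, hG W fun i => ?_⟩⟩
  · simpa using h (Nat.pair 0 i)
  · simpa using h (Nat.pair 1 i)
lemma Avail.exists_set {P : ZFSet.{0} → Prop} (hP : Avail P) :
    ∃ ρ : Set ℕ, ∀ M : Md, InW M.W ρ → P M.W := by
  obtain ⟨F, hF⟩ := hP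
  refine ⟨{n | n.unpair.2 ∈ F n.unpair.1}, fun M h => hF _ fun i => ?_⟩
  generalize hρ : {n : ℕ | n.unpair.2 ∈ F n.unpair.1} = ρ at h
  have : InW M.W {n | Nat.pair i n ∈ ρ} := inferInstance
  simpa [← hρ] using this

end avail

section finite

variable {κ : Type} [Cd κ]

open Classical in
/-- a finite modification of a constant function lies in `W` -/
lemma InW.piecewise [HF M κ] {z : κ → β} {A : Set κ} (hA : A.Finite) (hz : ∀ i ∈ A, InW M.W (z i))
    {d : β} (hd : InW M.W d) : InW M.W fun i => if i ∈ A then z i else d := by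
  induction A, hA using Set.Finite.induction_on with
  | empty => simpa using (inferInstance : InW M.W fun _ : κ => d)
  | @insert a A _ _ ih =>
    have h1 := ih fun i hi => hz i (Or.inr hi)
    have h2 := hz a (Or.inl rfl)
    generalize hy : (fun i => if i ∈ A then z i else d) = y at h1
    generalize hc : z a = c at h2
    have : InW M.W fun i => if i = a then c else y i := inferInstance
    convert this using 2 with i
    by_cases h : i = a <;> simp [h, ← hy, hc]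

lemma exists_inW_eq (z : ℕ → β) (n : ℕ) (hz : ∀ i, i < n → InW M.W (z i)) {d : β} (hd : InW M.W d) :
    ∃ z' : ℕ → β, InW M.W z' ∧ ∀ i, i < n → z' i = z i := by
  classical
  exact ⟨_, InW.piecewise (Set.finite_lt_nat n) hz hd, fun i hi => if_pos hi⟩

lemma exists_inW_enum {S : Set κ} (hS : S.Finite) (h : ∀ a ∈ S, InW M.W a) (hne : S ≠ ∅) :
    ∃ e : ℕ → κ, InW M.W e ∧ (∀ i, i < S.ncard → ∀ j, j < S.ncard → e i = e j → i = j) ∧
      S = e '' {i | i < S.ncard} := by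
  classical
  obtain ⟨d, hd⟩ := Set.nonempty_iff_ne_empty.2 hne
  let l := hS.toFinset.toList
  have hl : l.length = S.ncard := by simp [l, Set.ncard_eq_toFinset_card S hS]
  have hm : ∀ a, a ∈ l ↔ a ∈ S := by simp [l]
  obtain ⟨e, he, he'⟩ := exists_inW_eq (M := M) (fun i => l.getD i d) l.length
    (fun i hi => h _ ((hm _).1 (by simp [hi]))) (h d hd)
  rw [← hl]
  refine ⟨e, he, fun i hi j hj e' => ?_, Set.ext fun a => ?_⟩
  · rw [he' i hi, he' j hj] at e'
    exact (List.Nodup.getElem_inj_iff (Finset.nodup_toList _) (hi := hi) (hj := hj)).1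
      (by simpa [hi, hj] using e')
  · rw [← hm, List.mem_iff_getElem]
    exact ⟨fun ⟨i, hi, e⟩ => ⟨i, hi, by simp [he' i hi, hi, e]⟩,
      fun ⟨i, hi, e⟩ => ⟨i, hi, by simpa [he' i hi, show i < l.length from hi] using e⟩⟩

lemma DfF.finite [Ty M κ] {S : α → Set κ} (hS : DfF M S) : DfF M fun a => (S a).Finite := by
  have : DfF M fun a => S a = ∅ ∨ ∃ e : ℕ → κ, InW M.W e ∧ ∃ n, S a = e '' {i | i < n} :=
    inferInstance
  refine this.congr_iff fun a ha => ⟨?_, fun h => ?_⟩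
  · rintro (e | ⟨e, -, n, h⟩)
    · exact e ▸ Set.finite_empty
    · exact h ▸ (Set.finite_lt_nat n).image e
  · refine or_iff_not_imp_left.2 fun hne => ?_
    obtain ⟨e, he, -, h⟩ := exists_inW_enum h (fun _ => (hS.inW ha).of_mem) hne
    exact ⟨e, he, _, h⟩
instance (priority := 7000) DfF_finite_inst [Ty M κ] {S : α → Set κ} [hS : DfF M S] :
    DfP M fun a => (S a).Finite :=
  ⟨DfF.finite hS⟩
lemma DfF.ncard [Ty M κ] {S : α → Set κ} (hS : DfF M S) : DfF M fun a => (S a).ncard := by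
  refine DfF.of_graph (p := fun a n => (n = 0 ∧ (S a = ∅ ∨ ¬ (S a).Finite)) ∨
    (S a ≠ ∅ ∧ ∃ e : ℕ → κ, InW M.W e ∧ (∀ i, i < n → ∀ j, j < n → e i = e j → i = j) ∧
      S a = e '' {i | i < n})) inferInstance (fun _ _ => inW_num _) fun a n ha _ => ⟨?_, ?_⟩
  · rintro (⟨rfl, e | e⟩ | ⟨-, e, -, h1, h2⟩)
    · simp [e]
    · exact (Set.Infinite.ncard e).symm
    · rw [h2, Set.InjOn.ncard_image (s := {i | i < n}) fun i hi j hj => h1 i hi j hj]
      exact (Set.ncard_Iio_nat n).symm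
  · rintro rfl
    by_cases h1 : S a = ∅
    · simp [h1]
    by_cases h2 : (S a).Finite
    · exact Or.inr ⟨h1, exists_inW_enum h2 (fun _ => (hS.inW ha).of_mem) h1⟩
    · exact Or.inl ⟨Set.Infinite.ncard h2, Or.inr h2⟩
instance (priority := 7000) DfF_ncard_inst [Ty M κ] {S : α → Set κ} [hS : DfF M S] :
    DfP M fun a => (S a).ncard :=
  ⟨DfF.ncard hS⟩
lemma DfF.ctW [Ty M κ] {S : α → Set κ} (hS : DfF M S) : DfF M fun a => CtW M.W (S a) := by
  unfold CtW
  infer_instance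
instance (priority := 7000) DfF_ctW_inst [Ty M κ] {S : α → Set κ} [hS : DfF M S] :
    DfP M fun a => CtW M.W (S a) :=
  ⟨DfF.ctW hS⟩

end finite

end Pool.Agent.MP_c70ddc_lc.H1
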