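import Pool.Agent.MP_c70ddc_lc.H1.FDefs
import Pool.Agent.MP_c70ddc_lc.H1.KRec

/-! Definability and basic properties of the forcing relation (module FA). -/

namespace Pool.Agent.MP_c70ddc_lc.H1

universe u

set_option synthInstance.maxSize 100000

variable {M : Md} {ι : Type} [Cd ι] [Ty M ι] {F : Fo M ι} {α : Type u} [Cd α]

instance Fo.inW_P : InW M.W F.P := F.hP
instance Fo.inW_top : InW M.W F.top := F.hP.of_mem F.top_mem

section plain

variable {G : Set ι} {σ τ z : ZFSet.{0}} {p q : ι} {φ : Fml} {v w : ℕ → ZFSet.{0}}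

omit [Ty M ι]

lemma fa_mem_uu {a b c : ZFSet.{0}} (h : ZFSet.pair a b ∈ c) :
    a ∈ ZFSet.sUnion (ZFSet.sUnion c) :=
  ZFSet.mem_sUnion.2 ⟨{a}, ZFSet.mem_sUnion.2 ⟨_, h, by simp [ZFSet.pair]⟩,
    ZFSet.mem_singleton.2 rfl⟩

lemma mem_val : z ∈ val G σ ↔ ∃ τ, ∃ q ∈ G, ZFSet.pair τ (cd q) ∈ σ ∧ z = val G τ := by
  rw [val, ZFSet.mem_range]
  constructor
  · rintro ⟨⟨⟨y, hy⟩, q, hq, h⟩, rfl⟩
    exact ⟨y, q, hq, h, rfl⟩
  · rintro ⟨τ, q, hq, h, rfl⟩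
    exact ⟨⟨⟨τ, fa_mem_uu h⟩, q, hq, h⟩, rfl⟩
lemma mem_ext {W : ZFSet.{0}} : z ∈ ext W G ↔ ∃ σ ∈ W, val G σ = z := mem_zim
lemma Fo.mem_chk : z ∈ F.chk σ ↔ ∃ y ∈ σ, z = ZFSet.pair (F.chk y) (cd F.top) := by
  rw [Fo.chk, ZFSet.mem_range]
  constructor
  · rintro ⟨⟨y, hy⟩, rfl⟩
    exact ⟨y, hy, rfl⟩
  · rintro ⟨y, hy, rfl⟩
    exact ⟨⟨y, hy⟩, rfl⟩
lemma Fo.val_chk (h : F.top ∈ G) (x : ZFSet.{0}) : val G (F.chk x) = x := by
  induction x using ZFSet.inductionOn with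
  | _ x ih =>
    ext z
    rw [mem_val]
    constructor
    · rintro ⟨τ, q, -, h1, rfl⟩
      obtain ⟨y, hy, e⟩ := Fo.mem_chk.1 h1
      rw [(ZFSet.pair_inj.1 e).1, ih y hy]
      exact hy
    · intro hz
      exact ⟨F.chk z, F.top, h, Fo.mem_chk.2 ⟨z, hz, rfl⟩, (ih z hz).symm⟩
lemma Fo.val_upn (h : F.top ∈ G) : val G (F.upn σ τ) = {val G σ, val G τ} := by
  ext z
  rw [mem_val, ZFSet.mem_pair]
  constructor
  · rintro ⟨ρ, q, -, h1, rfl⟩
    rcases ZFSet.mem_pair.1 h1 with e | e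
    · exact Or.inl (by rw [(ZFSet.pair_inj.1 e).1])
    · exact Or.inr (by rw [(ZFSet.pair_inj.1 e).1])
  · rintro (rfl | rfl)
    · exact ⟨σ, F.top, h, ZFSet.mem_pair.2 (Or.inl rfl), rfl⟩
    · exact ⟨τ, F.top, h, ZFSet.mem_pair.2 (Or.inr rfl), rfl⟩
lemma Fo.val_opn (h : F.top ∈ G) : val G (F.opn σ τ) = ZFSet.pair (val G σ) (val G τ) := by
  rw [Fo.opn, Fo.val_upn h, Fo.val_upn h, Fo.val_upn h, ZFSet.pair]
  have e : ({val G σ, val G σ} : ZFSet) = {val G σ} := by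
    ext z; simp
  rw [e]
lemma Fo.Gen.top_mem (h : F.Gen G) : F.top ∈ G := by
  obtain ⟨p, hp, -⟩ := h.gen F.P F.hP fun p hp => ⟨p, hp, F.refl p, hp⟩
  exact h.up p hp _ F.top_mem (F.le_top p)
lemma Fo.Ent.mem (h : F.Ent σ τ q) (hσ : σ ∈ M.W) : τ ∈ M.W :=
  M.h.trans _ (M.h.union _ (M.h.union _ hσ)) _ (fa_mem_uu h.1)

lemma Fo.FEq.mono (h : F.FEq σ τ p) (hq : F.le q p) : F.FEq σ τ q := by
  rw [Fo.FEq] at h ⊢
  exact ⟨fun a b e r hr h1 h2 => h.1 a b e r hr (F.trans _ _ _ h1 hq) h2,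
    fun a b e r hr h1 h2 => h.2 a b e r hr (F.trans _ _ _ h1 hq) h2⟩
lemma Fo.FMem.mono (h : F.FMem σ τ p) (hq : F.le q p) : F.FMem σ τ q :=
  fun r hr h1 => h r hr (F.trans _ _ _ h1 hq)
lemma Fo.Frc.mono (h : F.Frc φ v p) (hq : F.le q p) : F.Frc φ v q := by
  induction φ generalizing v with
  | rel k i j =>
    cases k with
    | zero => exact Fo.FMem.mono h hq
    | succ k => exact h
  | eq i j => exact Fo.FEq.mono h hq
  | bot => exact h
  | imp a b _ _ => exact fun r hr h1 => h r hr (F.trans _ _ _ h1 hq)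
  | all a ih => exact fun x hx => ih (h x hx)
lemma Fo.feq_refl (σ : ZFSet.{0}) (p : ι) : F.FEq σ σ p := by
  have key : ∀ o : Ordinal.{0}, ∀ σ : ZFSet.{0}, σ.rank = o → ∀ p, F.FEq σ σ p := by
    intro o
    induction o using WellFoundedLT.induction with
    | _ o ih =>
      intro σ e p
      rw [Fo.FEq]
      exact ⟨fun a b h r hr _ h2 => ⟨r, hr, F.refl r, a, b, h, h2,
          ih _ (e ▸ rank_lt_of_pair_mem h.1) a rfl r⟩,
        fun a b h r hr _ h2 => ⟨r, hr, F.refl r, a, b, h, h2,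
          ih _ (e ▸ rank_lt_of_pair_mem h.1) a rfl r⟩⟩
  exact key _ σ rfl p
lemma Fo.frc_of_dense (hp : p ∈ F.P)
    (h : ∀ q ∈ F.P, F.le q p → ∃ r ∈ F.P, F.le r q ∧ F.Frc φ v r) : F.Frc φ v p := by
  induction φ generalizing v p with
  | rel k i j =>
    cases k with
    | zero =>
      intro r hr h1
      obtain ⟨r', hr', h2, h3⟩ := h r hr h1
      obtain ⟨s, hs, h4, h5⟩ := h3 r' hr' (F.refl r')
      exact ⟨s, hs, F.trans _ _ _ h4 h2, h5⟩
    | succ k =>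
      obtain ⟨r, -, -, h3⟩ := h p hp (F.refl p)
      exact h3
  | eq i j =>
    change F.FEq _ _ _
    rw [Fo.FEq]
    refine ⟨fun a b e r hr h1 h2 => ?_, fun a b e r hr h1 h2 => ?_⟩
    · obtain ⟨r', hr', h3, h4⟩ := h r hr h1
      change F.FEq _ _ _ at h4
      rw [Fo.FEq] at h4
      obtain ⟨s, hs, h5, h6⟩ := h4.1 a b e r' hr' (F.refl r') (F.trans _ _ _ h3 h2)
      exact ⟨s, hs, F.trans _ _ _ h5 h3, h6⟩
    · obtain ⟨r', hr', h3, h4⟩ := h r hr h1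
      change F.FEq _ _ _ at h4
      rw [Fo.FEq] at h4
      obtain ⟨s, hs, h5, h6⟩ := h4.2 a b e r' hr' (F.refl r') (F.trans _ _ _ h3 h2)
      exact ⟨s, hs, F.trans _ _ _ h5 h3, h6⟩
  | bot =>
    obtain ⟨r, -, -, h3⟩ := h p hp (F.refl p)
    exact h3
  | imp a b _ ihb =>
    intro q hq h1 h2
    refine ihb hq fun q' hq' h3 => ?_
    obtain ⟨r, hr, h4, h5⟩ := h q' hq' (F.trans _ _ _ h3 h1)
    exact ⟨r, hr, h4, h5 r hr (F.refl r) (h2.mono (F.trans _ _ _ h4 h3))⟩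
  | all a ih =>
    intro x hx
    refine ih hp fun q hq h1 => ?_
    obtain ⟨r, hr, h2, h3⟩ := h q hq h1
    exact ⟨r, hr, h2, h3 x hx⟩
lemma Fo.frc_congr (h : ∀ i, i < φ.bound → v i = w i) : F.Frc φ v p ↔ F.Frc φ w p := by
  induction φ generalizing v w p with
  | rel k i j =>
    cases k with
    | zero =>
      change F.FMem _ _ _ ↔ F.FMem _ _ _
      rw [h i (by simp only [Fml.bound]; omega), h j (by simp only [Fml.bound]; omega)]
    | succ k => exact Iff.rfl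
  | eq i j =>
    change F.FEq _ _ _ ↔ F.FEq _ _ _
    rw [h i (by simp only [Fml.bound]; omega), h j (by simp only [Fml.bound]; omega)]
  | bot => exact Iff.rfl
  | imp a b iha ihb =>
    refine forall_congr' fun q => forall_congr' fun _ => forall_congr' fun _ => ?_
    exact imp_congr (iha fun i hi => h i (by simp only [Fml.bound]; omega))
      (ihb fun i hi => h i (by simp only [Fml.bound]; omega))
  | all a iha =>
    refine forall_congr' fun x => forall_congr' fun _ => iha fun i hi => ?_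
    cases i with
    | zero => rfl
    | succ i => exact h i (by simp only [Fml.bound]; omega)

end plain

variable {s t : α → ZFSet.{0}} {p q : α → ι}

lemma DfF.fle (hp : DfF M p) (hq : DfF M q) : DfF M fun a => F.le (p a) (q a) := F.hle.comp2 hp hq
instance (priority := 9000) DfF_fle_inst [hp : DfF M p] [hq : DfF M q] :
    DfP M fun a => F.le (p a) (q a) :=
  ⟨DfF.fle hp hq⟩
lemma DfF.ent (hs : DfF M s) (ht : DfF M t) (hp : DfF M p) :
    DfF M fun a => F.Ent (s a) (t a) (p a) := by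
  unfold Fo.Ent
  infer_instance
instance (priority := 9000) DfF_ent_inst [hs : DfF M s] [ht : DfF M t] [hp : DfF M p] :
    DfP M fun a => F.Ent (s a) (t a) (p a) :=
  ⟨DfF.ent hs ht hp⟩
/-- one unfolding step of the forcing relation for equality, with lookups in `h` -/
def faStep (F : Fo M ι) (σ τ h : ZFSet.{0}) (p : ι) : Prop :=
  (∀ σ', σ' ∈ M.W → ∀ q, q ∈ F.P → F.Ent σ σ' q → ∀ r, r ∈ F.P → F.le r p → F.le r q →
    ∃ s, s ∈ F.P ∧ F.le s r ∧ ∃ τ', τ' ∈ M.W ∧ ∃ q', q' ∈ F.P ∧ F.Ent τ τ' q' ∧ F.le s q' ∧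
      cd s ∈ zap h (ZFSet.pair σ' τ')) ∧
  (∀ τ', τ' ∈ M.W → ∀ q', q' ∈ F.P → F.Ent τ τ' q' → ∀ r, r ∈ F.P → F.le r p → F.le r q' →
    ∃ s, s ∈ F.P ∧ F.le s r ∧ ∃ σ', σ' ∈ M.W ∧ ∃ q, q ∈ F.P ∧ F.Ent σ σ' q ∧ F.le s q ∧
      cd s ∈ zap h (ZFSet.pair σ' τ'))

lemma fa_step_df : DfF M fun x : ((ZFSet × ZFSet) × ZFSet) × ι =>
    faStep F x.1.1.1 x.1.1.2 x.1.2 x.2 := by
  unfold faStep
  have hP : ∀ {γ : Type 1} [Cd γ], DfF M fun _ : γ => F.P := DfF.const F.hP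
  refine DfF.and ?_ ?_
  all_goals
    refine DfF.zallW (DfF.ball hP (DfF.imp inferInstance (DfF.ball hP (DfF.imp inferInstance
      (DfF.imp inferInstance (DfF.bex hP (DfF.and inferInstance (DfF.zexW (DfF.bex hP
        (DfF.and inferInstance (DfF.and inferInstance ?_)))))))))))
    exact DfF.zmem (DfF.cd inferInstance)
      (DfF.zap inferInstance (DfF.zpair inferInstance inferInstance))

lemma fa_feq_set : DfF M fun x : ZFSet × ZFSet => {p : ι | InW M.W p ∧ F.FEq x.1 x.2 p} := by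
  refine DfF.wfRec (R := fun b a : ZFSet × ZFSet =>
      (∃ q, q ∈ F.P ∧ F.Ent a.1 b.1 q) ∧ ∃ q, q ∈ F.P ∧ F.Ent a.2 b.2 q)
    (G := fun a h => {p : ι | InW M.W p ∧ faStep F a.1 a.2 h p}) ?_ inferInstance ?_
    (DfF.setW (s := fun (x : (ZFSet × ZFSet) × ZFSet) p => faStep F x.1.1 x.1.2 x.2 p)
      fa_step_df) ?_
  · refine Subrelation.wf (r := InvImage (· < ·) fun a : ZFSet × ZFSet => a.1.rank) ?_
      (InvImage.wf _ wellFounded_lt)
    rintro b a ⟨⟨q, -, h⟩, -⟩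
    exact rank_lt_of_pair_mem h.1
  · intro a ha
    have hz : DfF M fun a : ZFSet × ZFSet =>
        ZFSet.prod (ZFSet.sUnion (ZFSet.sUnion a.1)) (ZFSet.sUnion (ZFSet.sUnion a.2)) :=
      inferInstance
    refine ⟨_, inW_zf.1 (hz.inW ha), ?_⟩
    rintro ⟨b1, b2⟩ ⟨⟨q, -, h⟩, q', -, h'⟩
    exact ZFSet.pair_mem_prod.2 ⟨fa_mem_uu h.1, fa_mem_uu h'.1⟩
  · rintro ⟨σ, τ⟩ ha h - hh
    have hσ : σ ∈ M.W := inW_zf.1 ha.fst
    have hτ : τ ∈ M.W := inW_zf.1 ha.snd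
    have look : ∀ {σ' τ' : ZFSet} {q q' s : ι}, F.Ent σ σ' q → F.Ent τ τ' q' → s ∈ F.P →
        (cd s ∈ zap h (ZFSet.pair σ' τ') ↔ F.FEq σ' τ' s) := by
      intro σ' τ' q q' s e e' hs
      have := hh (σ', τ') ⟨⟨q, e.2, e⟩, q', e'.2, e'⟩
      rw [cd_prod, cd_zf, cd_zf] at this
      rw [this, cd_mem_cd]
      exact ⟨fun h => h.2, fun h => ⟨F.hP.of_mem hs, h⟩⟩
    ext p
    refine and_congr_right fun _ => ?_
    change faStep F σ τ h p ↔ F.FEq σ τ p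
    rw [Fo.FEq]
    refine and_congr ⟨fun H a b e r hr h1 h2 => ?_, fun H a _ b _ e r hr h1 h2 => ?_⟩
      ⟨fun H a b e r hr h1 h2 => ?_, fun H a _ b _ e r hr h1 h2 => ?_⟩
    · obtain ⟨s, hs, h3, c, -, d, -, e', h4, h5⟩ := H a (e.mem hσ) b e.2 e r hr h1 h2
      exact ⟨s, hs, h3, c, d, e', h4, (look e e' hs).1 h5⟩
    · obtain ⟨s, hs, h3, c, d, e', h4, h5⟩ := H a b e r hr h1 h2
      exact ⟨s, hs, h3, c, e'.mem hτ, d, e'.2, e', h4, (look e e' hs).2 h5⟩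
    · obtain ⟨s, hs, h3, c, -, d, -, e', h4, h5⟩ := H a (e.mem hτ) b e.2 e r hr h1 h2
      exact ⟨s, hs, h3, c, d, e', h4, (look e' e hs).1 h5⟩
    · obtain ⟨s, hs, h3, c, d, e', h4, h5⟩ := H a b e r hr h1 h2
      exact ⟨s, hs, h3, c, e'.mem hσ, d, e'.2, e', h4, (look e' e hs).2 h5⟩

lemma DfF.feq (hs : DfF M s) (ht : DfF M t) (hp : DfF M p) :
    DfF M fun a => F.FEq (s a) (t a) (p a) := by
  have h1 : DfF M fun a => {p : ι | InW M.W p ∧ F.FEq (s a) (t a) p} :=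
    DfF.comp2 (k := fun σ τ : ZFSet => {p : ι | InW M.W p ∧ F.FEq σ τ p}) fa_feq_set hs ht
  refine (DfF.mem hp h1).congr_iff fun a ha => ?_
  exact ⟨fun h => h.2, fun h => ⟨hp.inW ha, h⟩⟩
instance (priority := 9000) DfF_feq_inst [hs : DfF M s] [ht : DfF M t] [hp : DfF M p] :
    DfP M fun a => F.FEq (s a) (t a) (p a) :=
  ⟨DfF.feq hs ht hp⟩
lemma DfF.fmem (hs : DfF M s) (ht : DfF M t) (hp : DfF M p) :
    DfF M fun a => F.FMem (s a) (t a) (p a) := by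
  have h1 : DfF M fun a => ∀ r, r ∈ F.P → F.le r (p a) → ∃ u, u ∈ F.P ∧ F.le u r ∧
      ∃ τ', τ' ∈ M.W ∧ ∃ q, q ∈ F.P ∧ F.Ent (t a) τ' q ∧ F.le u q ∧ F.FEq (s a) τ' u :=
    inferInstance
  refine h1.congr_iff fun a ha => ?_
  have hτ : t a ∈ M.W := inW_zf.1 (ht.inW ha)
  constructor
  · intro H r hr h1
    obtain ⟨u, hu, h2, c, -, d, -, e, h3⟩ := H r hr h1
    exact ⟨u, hu, h2, c, d, e, h3⟩
  · intro H r hr h1
    obtain ⟨u, hu, h2, c, d, e, h3⟩ := H r hr h1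
    exact ⟨u, hu, h2, c, e.mem hτ, d, e.2, e, h3⟩
instance (priority := 9000) DfF_fmem_inst [hs : DfF M s] [ht : DfF M t] [hp : DfF M p] :
    DfP M fun a => F.FMem (s a) (t a) (p a) :=
  ⟨DfF.fmem hs ht hp⟩
lemma fa_frc (φ : Fml) : DfF M fun x : (ℕ → ZFSet.{0}) × ι => F.Frc φ x.1 x.2 := by
  have hv : ∀ i : ℕ, DfF M fun x : (ℕ → ZFSet.{0}) × ι => x.1 i := fun i =>
    DfF.app (DfF.fst DfF.id) (DfF.constHF i)
  have hF : DfF M fun _ : (ℕ → ZFSet.{0}) × ι => False := DfF.constHF False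
  induction φ with
  | rel k i j =>
    cases k with
    | zero => exact DfF.fmem (hv i) (hv j) (DfF.snd DfF.id)
    | succ k => exact hF
  | eq i j => exact DfF.feq (hv i) (hv j) (DfF.snd DfF.id)
  | bot => exact hF
  | imp a b iha ihb =>
    refine DfF.ball (S := fun _ => F.P) (DfF.const F.hP) (DfF.imp inferInstance (DfF.imp ?_ ?_))
    · exact DfF.comp2 (k := fun v p => F.Frc a v p) iha (DfF.fst (DfF.fst DfF.id))
        (DfF.snd DfF.id)
    · exact DfF.comp2 (k := fun v p => F.Frc b v p) ihb (DfF.fst (DfF.fst DfF.id))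
        (DfF.snd DfF.id)
  | all a ih =>
    refine DfF.zallW ?_
    exact DfF.comp2 (k := fun v p => F.Frc a v p) ih
      (DfF.cons (DfF.snd DfF.id) (DfF.fst (DfF.fst DfF.id))) (DfF.snd (DfF.fst DfF.id))

lemma DfF.frc (φ : Fml) {v : α → ℕ → ZFSet.{0}} (hv : DfF M v) (hp : DfF M p) :
    DfF M fun a => F.Frc φ (v a) (p a) :=
  DfF.comp2 (k := fun v p => F.Frc φ v p) (fa_frc φ) hv hp
instance (priority := 9000) DfF_frc_inst (φ : Fml) {v : α → ℕ → ZFSet.{0}} [hv : DfF M v]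
    [hp : DfF M p] :
    DfP M fun a => F.Frc φ (v a) (p a) :=
  ⟨DfF.frc φ hv hp⟩
omit [Ty M ι] in
lemma fa_chk : DfF M F.chk := by
  refine DfF.wfRec (R := fun b a : ZFSet => b ∈ a)
    (G := fun a h => zim (fun y => ZFSet.pair (zap h y) (cd F.top)) a) ZFSet.mem_wf inferInstance
    (fun a ha => ⟨a, inW_zf.1 ha, fun b hb => hb⟩) inferInstance ?_
  intro a _ h _ hh
  ext z
  rw [mem_zim, Fo.mem_chk]
  constructor
  · rintro ⟨y, hy, rfl⟩
    exact ⟨y, hy, by rw [show zap h y = F.chk y from hh y hy]⟩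
  · rintro ⟨y, hy, rfl⟩
    exact ⟨y, hy, by rw [show zap h y = F.chk y from hh y hy]⟩

lemma DfF.chk (hs : DfF M s) : DfF M fun a => F.chk (s a) := fa_chk.comp hs
instance (priority := 9000) DfF_chk_inst [hs : DfF M s] :
    DfP M fun a => F.chk (s a) :=
  ⟨DfF.chk hs⟩
lemma DfF.upn (hs : DfF M s) (ht : DfF M t) : DfF M fun a => F.upn (s a) (t a) := by
  have hc : DfF M fun _ : α => H1.cd F.top := DfF.cd (DfF.const Fo.inW_top)
  exact DfF.zinsert (DfF.zpair hs hc) (DfF.zsingleton (DfF.zpair ht hc))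
instance (priority := 9000) DfF_upn_inst [hs : DfF M s] [ht : DfF M t] :
    DfP M fun a => F.upn (s a) (t a) :=
  ⟨DfF.upn hs ht⟩
lemma DfF.opn (hs : DfF M s) (ht : DfF M t) : DfF M fun a => F.opn (s a) (t a) :=
  DfF.upn (DfF.upn hs hs) (DfF.upn hs ht)
instance (priority := 9000) DfF_opn_inst [hs : DfF M s] [ht : DfF M t] :
    DfP M fun a => F.opn (s a) (t a) :=
  ⟨DfF.opn hs ht⟩

end Pool.Agent.MP_c70ddc_lc.H1
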