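import Pool.Agent.MP_c70ddc_lc.H1.KRec

/-! Absoluteness of well-foundedness and countability inside the model (module KD). -/

namespace Pool.Agent.MP_c70ddc_lc.H1

variable {M : Md} {κ : Type} [Cd κ] [Ty M κ]

set_option synthInstance.maxSize 100000
set_option linter.unusedSectionVars false

lemma kd_iter {f : κ → κ} (hf : DfF M f) {a : κ} (ha : InW M.W a) :
    InW M.W fun n : ℕ => f^[n] a := by
  have h1 : DfF M fun x : ℕ × ℕ => (fun (_ : ℕ) (n : ℕ) => f^[n] a) x.1 x.2 :=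
    DfF.natRec (F := fun (_ : ℕ) (n : ℕ) => f^[n] a) (z := fun _ : ℕ => a)
      (s := fun _ _ b => f b) (DfF.const ha)
      (hf.comp (DfF.id.snd.snd)) (fun _ => rfl) (fun _ n => Function.iterate_succ_apply' f n a)
  exact DfF.inW_fun (h1.comp (f := fun n : ℕ => (n, n)) (DfF.id.prodMk DfF.id))

/-- the rank levels of the well-founded part -/
noncomputable def kd_lev (W : ZFSet.{0}) (R : κ → κ → Prop) : ZFSet.{0} → Set κ :=
  ZFSet.mem_wf.fix fun ξ IH =>
    {a | InW W a ∧ ∀ b, InW W b → R b a → ∃ ζ, ∃ h : ζ ∈ ξ, b ∈ IH ζ h}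

omit [Ty M κ] in
lemma kd_lev_eq (W : ZFSet.{0}) (R : κ → κ → Prop) (ξ : ZFSet.{0}) :
    kd_lev W R ξ = {a | InW W a ∧ ∀ b, InW W b → R b a → ∃ ζ, ζ ∈ ξ ∧ b ∈ kd_lev W R ζ} := by
  unfold kd_lev
  rw [WellFounded.fix_eq]
  simp only [exists_prop]

lemma kd_lev_df {R : κ → κ → Prop} (hR : DfF M fun x : κ × κ => R x.1 x.2) :
    DfF M (kd_lev M.W R) := by
  refine DfF.wfRec (R := fun b a : ZFSet => b ∈ a) ZFSet.mem_wf inferInstance
    (fun a ha => ⟨a, ha.mem, fun b hb => hb⟩)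
    (G := fun ξ h => {a | InW M.W a ∧ ∀ b, InW M.W b → R b a → ∃ ζ, ζ ∈ ξ ∧ cd b ∈ zap h ζ})
    (DfF.setW (DfF.allW (DfF.imp (hR.comp2 DfF.id.snd DfF.id.fst.snd)
      (DfF.zbex DfF.id.fst.fst.fst (DfF.zmem DfF.id.fst.snd.cd
        (DfF.zap DfF.id.fst.fst.fst.snd DfF.id.snd)))))) ?_
  intro ξ _ h _ hh
  rw [kd_lev_eq]
  ext a
  simp only [Set.mem_ofPred_eq]
  refine and_congr_right fun _ => forall_congr' fun b => forall_congr' fun _ =>
    forall_congr' fun _ => exists_congr fun ζ => and_congr_right fun hζ => ?_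
  have := hh ζ hζ
  rw [cd_zf] at this
  rw [this, cd_mem_cd]

/-- a descending chain through elements of `W` can be found in `W` -/
theorem exists_chain [Ch M] {R : κ → κ → Prop} (hR : DfF M fun x : κ × κ => R x.1 x.2)
    (z : ℕ → κ) (hz : ∀ n, InW M.W (z n)) (h : ∀ n, R (z (n + 1)) (z n)) :
    ∃ z' : ℕ → κ, InW M.W z' ∧ z' 0 = z 0 ∧ ∀ n, R (z' (n + 1)) (z' n) := by
  have hg := kd_lev_df hR
  have c1 : ∀ ξ : ZFSet.{0}, ∀ n, z n ∉ kd_lev M.W R ξ := by
    intro ξ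
    induction ξ using ZFSet.mem_wf.induction with
    | _ ξ ih =>
      intro n hn
      rw [kd_lev_eq] at hn
      obtain ⟨ζ, h1, h2⟩ := hn.2 _ (hz (n + 1)) (h n)
      exact ih ζ h1 _ h2
  set A : Set κ := {a | InW M.W a ∧ ¬ ∃ ξ, ξ ∈ M.W ∧ a ∈ kd_lev M.W R ξ} with hAdef
  have hA : InW M.W A := InW.of_df (DfF.setW inferInstance)
  obtain ⟨t, ht, ht2⟩ := DfF.coll (M := M) (α := κ) (β := ZFSet.{0})
    (p := fun b ξ => b ∈ kd_lev M.W R ξ) inferInstance (Ty.univ (M := M) (β := κ)).mem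
  have c2 : ∀ a ∈ A, ∃ b, InW M.W b ∧ (b ∈ A ∧ R b a) := by
    intro a ha
    by_contra hc
    refine ha.2 ⟨t, ht, ?_⟩
    rw [kd_lev_eq]
    refine ⟨ha.1, fun b hb hba => ?_⟩
    have hbA : b ∉ A := fun hb2 => hc ⟨b, hb, hb2, hba⟩
    have : ∃ ξ, ξ ∈ M.W ∧ b ∈ kd_lev M.W R ξ := by
      by_contra h3
      exact hbA ⟨hb, h3⟩
    obtain ⟨ξ, h1, h2⟩ := this
    exact ht2 b (cd_mem_cd.2 hb) ⟨ξ, inW_zf.2 h1, h2⟩
  obtain ⟨f, hf, hf2⟩ := DfF.choice (M := M) (p := fun a b => b ∈ A ∧ R b a) inferInstance hA c2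
    (hz 0)
  have h0 : z 0 ∈ A := ⟨hz 0, fun ⟨ξ, _, h2⟩ => c1 ξ 0 h2⟩
  have hall : ∀ n, f^[n] (z 0) ∈ A := by
    intro n
    induction n with
    | zero => exact h0
    | succ n ih => rw [Function.iterate_succ_apply']; exact (hf2 _ ih).1
  refine ⟨fun n => f^[n] (z 0), kd_iter hf (hz 0), rfl, fun n => ?_⟩
  simp only [Function.iterate_succ_apply']
  exact (hf2 _ (hall n)).2

/-- a sequence in a definable countable intersection of open sets can be found in `W` -/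
theorem exists_seq [Ch M] {Q : ℕ → (ℕ → κ) → Prop} (hQ : DfF M fun x : ℕ × (ℕ → κ) => Q x.1 x.2)
    (z : ℕ → κ) (hz : ∀ n, InW M.W (z n))
    (hloc : ∀ n, ∃ k, ∀ z', InW M.W z' → (∀ i, i < k → z' i = z i) → Q n z') :
    ∃ z' : ℕ → κ, InW M.W z' ∧ ∀ n, Q n z' := by
  choose k hk using hloc
  let K : ℕ → ℕ := fun n => Nat.rec 0 (fun n m => m + k n + 1) n
  have hK : ∀ n, K (n + 1) = K n + k n + 1 := fun n => rfl
  choose w hw hw2 using fun n => exists_inW_eq (M := M) z (K n) (fun i _ => hz i) (hz 0)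
  obtain ⟨s, hs, hs0, hs1⟩ := exists_chain (M := M) (κ := ℕ × ℕ × (ℕ → κ))
    (R := fun b a => b.1 = a.1 + 1 ∧ a.2.1 < b.2.1 ∧ (∀ i, i < a.2.1 → b.2.2 i = a.2.2 i) ∧
      ∀ y : ℕ → κ, InW M.W y → (∀ i, i < b.2.1 → y i = b.2.2 i) → Q a.1 y) inferInstance
    (fun n => (n, K n, w n)) (fun n => (InW.hf n).pair ((InW.hf _).pair (hw n))) (by
      intro n
      refine ⟨rfl, ?_, fun i hi => ?_, fun y hy hy2 => hk n y hy fun i hi => ?_⟩
      · show K n < K (n + 1)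
        rw [hK]; omega
      · have hi' : i < K n := hi
        show w (n + 1) i = w n i
        rw [hw2 n i hi', hw2 (n + 1) i (by rw [hK]; omega)]
      · have hi' : i < K (n + 1) := by rw [hK]; omega
        rw [hy2 i hi']
        exact hw2 (n + 1) i hi')
  have e1 : ∀ n, (s n).1 = n := by
    intro n
    induction n with
    | zero => rw [hs0]
    | succ n ih => rw [(hs1 n).1, ih]
  have mono : StrictMono fun n => (s n).2.1 := strictMono_nat_of_lt_succ fun n => (hs1 n).2.1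
  have agree : ∀ n m, n ≤ m → ∀ i, i < (s n).2.1 → (s m).2.2 i = (s n).2.2 i := by
    intro n m hnm i hi
    induction m, hnm using Nat.le_induction with
    | base => rfl
    | succ m hm ih => rw [(hs1 m).2.2.1 i (hi.trans_le (mono.monotone hm)), ih]
  have hsd := hs.dfF
  have hy : InW M.W fun i => (s (i + 1)).2.2 i := DfF.inW_fun inferInstance
  refine ⟨_, hy, fun n => ?_⟩
  have := (hs1 n).2.2.2 _ hy fun i hi => ?_
  · rwa [e1] at this
  · have h2 : i < (s (i + 1)).2.1 := lt_of_lt_of_le i.lt_succ_self (mono.le_apply (x := i + 1))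
    rw [← agree (n + 1) (max (n + 1) (i + 1)) (le_max_left _ _) i hi,
      agree (i + 1) _ (le_max_right _ _) i h2]

omit [Ty M κ] in
lemma CtW.mono {W : ZFSet.{0}} {S S' : Set κ} (h : CtW W S') (hS : S ⊆ S') : CtW W S :=
  let ⟨e, he, h2⟩ := h
  ⟨e, he, hS.trans h2⟩

lemma ctW_of_finite {S : Set κ} (hS : S.Finite) (h : ∀ a ∈ S, InW M.W a) {d : κ} (hd : InW M.W d) :
    CtW M.W S := by
  obtain ⟨n, f, -, rfl⟩ := hS.fin_param
  obtain ⟨e, he, he2⟩ := exists_inW_eq (M := M) (fun i => if hi : i < n then f ⟨i, hi⟩ else d) n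
    (fun i hi => by simp only [dif_pos hi]; exact h _ ⟨_, rfl⟩) hd
  refine ⟨e, he, ?_⟩
  rintro _ ⟨i, rfl⟩
  exact ⟨i, by rw [he2 i i.2]; simp⟩

lemma ctW_iUnion [Ch M] {F : ℕ → Set κ} (hF : InW M.W F) (h : ∀ n, CtW M.W (F n)) :
    CtW M.W (⋃ n, F n) := by
  have hFd := hF.dfF
  obtain ⟨d, hd, -⟩ := h 0
  obtain ⟨g, hg, hg2⟩ := DfF.choice (M := M) (κ := ℕ) (β := ℕ → κ)
    (p := fun n e => F n ⊆ Set.range e) inferInstance HF.univ (fun n _ => h n) hd
  refine ⟨fun m => g (Nat.unpair m).1 (Nat.unpair m).2,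
    DfF.inW_fun (DfF.app (hg.comp DfF.id.unpair.fst) DfF.id.unpair.snd), ?_⟩
  intro a ha
  obtain ⟨n, hn⟩ := Set.mem_iUnion.1 ha
  obtain ⟨i, hi⟩ := hg2 n (Set.mem_univ n) hn
  exact ⟨Nat.pair n i, by simpa using hi⟩

lemma CtW.image {κ' : Type} [Cd κ'] {S : Set κ} (h : CtW M.W S) {f : κ → κ'} (hf : DfF M f) :
    CtW M.W (f '' S) := by
  obtain ⟨e, he, h2⟩ := h
  refine ⟨fun n => f (e n), DfF.inW_fun (hf.comp he.dfF), ?_⟩
  rintro _ ⟨a, ha, rfl⟩
  obtain ⟨n, rfl⟩ := h2 ha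
  exact ⟨n, rfl⟩

lemma CtW.of_injOn {κ' : Type} [Cd κ'] {S : Set κ} (hS : InW M.W S) {f : κ → κ'} (hf : DfF M f)
    (hi : Set.InjOn f S) (h : CtW M.W (f '' S)) {d : κ} (hd : InW M.W d) : CtW M.W S := by
  classical
  obtain ⟨e, he, h2⟩ := h
  have hed := he.dfF
  let e' : ℕ → κ := fun n => if h : ∃ a, a ∈ S ∧ f a = e n then h.choose else d
  have key : ∀ n b, ((b ∈ S ∧ f b = e n) ∨ ((¬ ∃ a, a ∈ S ∧ f a = e n) ∧ b = d)) ↔ b = e' n := by
    intro n b
    by_cases hn : ∃ a, a ∈ S ∧ f a = e n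
    · simp only [e', dif_pos hn]
      have := hn.choose_spec
      constructor
      · rintro (⟨h3, h4⟩ | ⟨h3, -⟩)
        · exact hi h3 this.1 (h4.trans this.2.symm)
        · exact absurd hn h3
      · rintro rfl
        exact Or.inl this
    · simp only [e', dif_neg hn]
      constructor
      · rintro (⟨h3, h4⟩ | ⟨-, h3⟩)
        · exact absurd ⟨b, h3, h4⟩ hn
        · exact h3
      · rintro rfl
        exact Or.inr ⟨hn, rfl⟩
  have he' : DfF M e' := by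
    refine DfF.of_graph
      (p := fun n b => (b ∈ S ∧ f b = e n) ∨ ((¬ ∃ a, a ∈ S ∧ f a = e n) ∧ b = d))
      inferInstance (fun n _ => ?_) fun n b _ _ => key n b
    rcases (key n _).2 rfl with h3 | h3
    · exact hS.of_mem h3.1
    · rw [h3.2]; exact hd
  refine ⟨e', DfF.inW_fun he', fun a ha => ?_⟩
  obtain ⟨n, hn⟩ := h2 ⟨a, ha, rfl⟩
  exact ⟨n, ((key n a).1 (Or.inl ⟨ha, hn.symm⟩)).symm⟩

lemma cantor {e : κ → Set κ} (he : DfF M e) :
    ∃ S : Set κ, InW M.W S ∧ ∀ a, InW M.W a → e a ≠ S := by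
  refine ⟨{a | InW M.W a ∧ ¬ a ∈ e a}, InW.of_df (DfF.setW inferInstance), fun a ha h => ?_⟩
  have : a ∈ e a ↔ InW M.W a ∧ ¬ a ∈ e a := Set.ext_iff.1 h a
  tauto

lemma not_ctW_pow : ¬ CtW M.W {r : Set ℕ | InW M.W r} := by
  rintro ⟨e, he, h⟩
  obtain ⟨S, hS, h2⟩ := cantor he.dfF
  obtain ⟨n, hn⟩ := h hS
  exact h2 n (InW.hf n) hn

/-- a number that codes the first `n` values of `u` -/
def kd_code (u : ℕ → ℕ) : ℕ → ℕ
  | 0 => 0
  | n + 1 => Nat.pair (kd_code u n) (u n)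

lemma kd_code_eq {u v : ℕ → ℕ} {n : ℕ} : kd_code u n = kd_code v n ↔ ∀ i, i < n → u i = v i := by
  induction n with
  | zero => simp [kd_code]
  | succ n ih =>
    simp only [kd_code, Nat.pair_eq_pair, ih]
    constructor
    · rintro ⟨h1, h2⟩ i hi
      rcases Nat.lt_succ_iff_lt_or_eq.1 hi with h | rfl
      · exact h1 i h
      · exact h2
    · exact fun h => ⟨fun i hi => h i (hi.trans n.lt_succ_self), h n n.lt_succ_self⟩

/-- condensation points -/
theorem exists_cond [Ch M] {S : Set κ} (hS : InW M.W S) (hne : S.Nonempty) (hn : ¬ CtW M.W S)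
    {c : κ → ℕ → ℕ} (hc : DfF M c) : ∃ x ∈ S, ∃ e : ℕ → κ, InW M.W e ∧ Function.Injective e ∧
      (∀ n, e n ∈ S) ∧ ∀ n i, i < n → c (e n) i = c x i := by
  classical
  obtain ⟨d, hdS⟩ := hne
  have hd := hS.of_mem hdS
  have hcode : DfF M fun x : κ × ℕ => (fun y n => kd_code (c y) n) x.1 x.2 :=
    DfF.natRec (M := M) (F := fun y n => kd_code (c y) n) (z := fun _ : κ => 0)
      (s := fun y n m => Nat.pair m (c y n)) (DfF.constHF 0)
      (DfF.npair DfF.id.snd.snd (DfF.app (hc.comp DfF.id.fst) DfF.id.snd.fst))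
      (fun _ => rfl) (fun _ _ => rfl)
  have hx : ∃ x ∈ S, ∀ n, {y | y ∈ S ∧ ∀ i, i < n → c y i = c x i}.Infinite := by
    by_contra hcon
    push Not at hcon
    let T : ℕ → Set κ := fun m => {y | y ∈ S ∧ kd_code (c y) (Nat.unpair m).1 = (Nat.unpair m).2}
    have hT : DfF M T :=
      DfF.sep (DfF.const hS) (DfF.eq (DfF.comp2 (k := fun y n => kd_code (c y) n) hcode DfF.id.snd
        DfF.id.fst.unpair.fst)
        DfF.id.fst.unpair.snd)
    have hF : InW M.W fun m => if (T m).Finite then T m else ∅ := DfF.inW_fun inferInstance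
    refine hn ((ctW_iUnion hF fun m => ?_).mono fun x hx => ?_)
    · by_cases hm : (T m).Finite
      · simp only [if_pos hm]
        exact ctW_of_finite hm (fun a ha => hS.of_mem ha.1) hd
      · simp only [if_neg hm]
        exact ctW_of_finite Set.finite_empty (fun a ha => ha.elim) hd
    · obtain ⟨n, hn⟩ := hcon x hx
      refine Set.mem_iUnion.2 ⟨Nat.pair n (kd_code (c x) n), ?_⟩
      have e : T (Nat.pair n (kd_code (c x) n)) = {y | y ∈ S ∧ ∀ i, i < n → c y i = c x i} := by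
        simp only [T, Nat.unpair_pair, kd_code_eq]
      rw [e, if_pos hn]
      exact ⟨hx, fun _ _ => rfl⟩
  obtain ⟨x, hxS, hx⟩ := hx
  have hxW := hS.of_mem hxS
  obtain ⟨f, hf1, hf2⟩ := exists_seq_of_forall_finset_exists
    (fun p : ℕ × κ => p.2 ∈ S ∧ ∀ i, i < p.1 → c p.2 i = c x i)
    (fun p q => p.1 < q.1 ∧ p.2 ≠ q.2) (by
      intro s _
      obtain ⟨y, hy, hy2⟩ := (hx (s.sup Prod.fst + 1)).exists_notMem_finset (s.image Prod.snd)
      refine ⟨(s.sup Prod.fst + 1, y), hy, fun p hp => ⟨?_, ?_⟩⟩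
      · exact Nat.lt_succ_of_le (Finset.le_sup (f := Prod.fst) hp)
      · rintro rfl
        exact hy2 (Finset.mem_image_of_mem _ hp))
  have mono : StrictMono fun n => (f n).1 := fun m n h => (hf2 m n h).1
  obtain ⟨e, he, he2⟩ := exists_seq (M := M)
    (Q := fun n z => z n ∈ S ∧ (∀ i, i < n → c (z n) i = c x i) ∧ ∀ m, m < n → ¬ z m = z n)
    inferInstance (fun n => (f n).2) (fun n => hS.of_mem (hf1 n).1) (by
      intro n
      refine ⟨n + 1, fun z _ hz => ?_⟩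
      rw [hz n n.lt_succ_self]
      refine ⟨(hf1 n).1, fun i hi => (hf1 n).2 i (hi.trans_le (mono.le_apply (x := n))),
        fun m hm => ?_⟩
      rw [hz m (hm.trans n.lt_succ_self)]
      exact (hf2 m n hm).2)
  refine ⟨x, hxS, e, he, fun m n hmn => ?_, fun n => (he2 n).1, fun n => (he2 n).2.1⟩
  rcases lt_trichotomy m n with h | h | h
  · exact absurd hmn ((he2 n).2.2 m h)
  · exact h
  · exact absurd hmn.symm ((he2 m).2.2 n h)

/-- an uncountable family of functions has an infinite bounded subfamily -/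
theorem exists_bdd_seq [Ch M] {S : Set κ} (hS : InW M.W S) (hne : S.Nonempty) (hn : ¬ CtW M.W S)
    {c : κ → ℕ → ℕ} (hc : DfF M c) : ∃ (e : ℕ → κ) (b : ℕ → ℕ), InW M.W e ∧ InW M.W b ∧
      Function.Injective e ∧ (∀ n, e n ∈ S) ∧ ∀ n, c (e n) ≤ b := by
  obtain ⟨x, hxS, e, he, h1, h2, h3⟩ := exists_cond hS hne hn hc
  have hxW := hS.of_mem hxS
  have hed := he.dfF
  refine ⟨e, fun i => c x i + ∑ n ∈ Finset.range (i + 1), c (e n) i, he,
    DfF.inW_fun (DfF.nadd (hc.inW hxW).dfF (DfF.nsum (k := fun i n => c (e n) i)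
      (DfF.app (hc.comp (hed.comp DfF.id.snd)) DfF.id.fst) inferInstance)), h1, h2, fun n i => ?_⟩
  rcases lt_or_ge i n with h | h
  · rw [h3 n i h]
    exact Nat.le_add_right _ _
  · exact (Finset.single_le_sum (f := fun n => c (e n) i) (fun _ _ => Nat.zero_le _)
      (Finset.mem_range.2 (Nat.lt_succ_of_le h))).trans (Nat.le_add_left _ _)

end Pool.Agent.MP_c70ddc_lc.H1
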