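import Pool.Agent.MP_c70ddc_lc.H1.FTruth
import Pool.Agent.MP_c70ddc_lc.H1.KAbs

/-! Covering for ccc forcing; Cohen forcing (module FD). -/

namespace Pool.Agent.MP_c70ddc_lc.H1

set_option synthInstance.maxSize 100000

variable {M : Md}

/-- a new function with old values is covered by an old function with countably many values -/
theorem Fo.Gen.cover [Ch M] {ι : Type} [Cd ι] [Ty M ι] {F : Fo M ι} {G : Set ι} (hG : F.Gen G)
    (hc : F.CCC) {κ κ' : Type} [Cd κ] [Cd κ'] [Ty M κ] [Ty M κ'] {S : Set κ} (hS : InW M.W S)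
    {g : κ → κ'} (hg : InW (ext M.W G) (gr S g)) (hv : ∀ a ∈ S, InW M.W (g a)) {d : κ'}
    (hd : InW M.W d) : ∃ Φ : κ → ℕ → κ', DfF M Φ ∧ ∀ a ∈ S, ∃ n, g a = Φ a n := by
  obtain ⟨gd, hgd, hval⟩ := mem_ext.1 hg.mem
  have hgd' : InW M.W gd := inW_zf.2 hgd
  have tr : ∀ a b, InW M.W a → InW M.W b → ((a, b) ∈ gr S g ↔
      ∃ p ∈ G, F.FMem (F.opn (F.chk (cd a)) (F.chk (cd b))) gd p) := fun a b ha hb => by
    have h1 : InW M.W (F.opn (F.chk (cd a)) (F.chk (cd b))) := inferInstance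
    rw [← hG.val_mem_iff (inW_zf.1 h1) hgd, hval, Fo.val_opn hG.top_mem, Fo.val_chk hG.top_mem,
      Fo.val_chk hG.top_mem, ← cd_prod, cd_mem_cd]
  have hB : DfF M fun p : ι => ∃ a : κ, InW M.W a ∧ ∃ b : κ', InW M.W b ∧ ∃ b' : κ', InW M.W b' ∧
      ¬ b = b' ∧ F.FMem (F.opn (F.chk (cd a)) (F.chk (cd b))) gd p ∧
        F.FMem (F.opn (F.chk (cd a)) (F.chk (cd b'))) gd p := inferInstance
  generalize hBad : (fun p : ι => ∃ a : κ, InW M.W a ∧ ∃ b : κ', InW M.W b ∧ ∃ b' : κ',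
      InW M.W b' ∧ ¬ b = b' ∧ F.FMem (F.opn (F.chk (cd a)) (F.chk (cd b))) gd p ∧
        F.FMem (F.opn (F.chk (cd a)) (F.chk (cd b'))) gd p) = Bad at hB
  obtain ⟨p0, hp0, -, hD⟩ := hG.gen
    {p | p ∈ F.P ∧ ((∀ q, q ∈ F.P → F.le q p → ¬ Bad q) ∨ Bad p)} inferInstance fun p hp => by
      by_cases h : ∀ q, q ∈ F.P → F.le q p → ¬ Bad q
      · exact ⟨p, hp, F.refl p, hp, Or.inl h⟩
      · push Not at h
        obtain ⟨q, hq, h1, h2⟩ := h
        exact ⟨q, hq, h1, hq, Or.inr h2⟩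
  subst hBad
  have hD := hD.resolve_right (by
    rintro ⟨a, ha, b, hb, b', hb', hne, h1, h2⟩
    exact hne (((tr a b ha hb).2 ⟨p0, hp0, h1⟩).2.trans ((tr a b' ha hb').2 ⟨p0, hp0, h2⟩).2.symm))
  have hp0' : InW M.W p0 := F.hP.of_mem (hG.sub hp0)
  have hBd : DfF M fun a : κ => {b : κ' | InW M.W b ∧ ∃ p, p ∈ F.P ∧ F.le p p0 ∧
      F.FMem (F.opn (F.chk (cd a)) (F.chk (cd b))) gd p} := inferInstance
  have hct : ∀ a ∈ S, CtW M.W {b : κ' | InW M.W b ∧ ∃ p, p ∈ F.P ∧ F.le p p0 ∧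
      F.FMem (F.opn (F.chk (cd a)) (F.chk (cd b))) gd p} := fun a haS => by
    have ha : InW M.W a := hS.of_mem haS
    have hBa := hBd.inW ha
    obtain ⟨w, hw, hw'⟩ := DfF.choice (p := fun (b : κ') (p : ι) => p ∈ F.P ∧ F.le p p0 ∧
      F.FMem (F.opn (F.chk (cd a)) (F.chk (cd b))) gd p) inferInstance hBa
      (fun b hb => by
        obtain ⟨p, hp⟩ := hb.2
        exact ⟨p, F.hP.of_mem hp.1, hp⟩) hp0'
    have key : ∀ b b', InW M.W b ∧ _ → InW M.W b' ∧ _ → ∀ r ∈ F.P, F.le r (w b) →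
        F.le r (w b') → b = b' := fun b b' hb hb' r hr h1 h2 => by
      by_contra hne
      exact hD r hr (F.trans _ _ _ h1 (hw' b hb).2.1)
        ⟨a, ha, b, hb.1, b', hb'.1, hne, (hw' b hb).2.2.mono h1, (hw' b' hb').2.2.mono h2⟩
    refine CtW.of_injOn hBa hw (fun b hb b' hb' h => ?_) (hc _ ?_ ?_ ?_) hd
    · exact key b b' hb hb' (w b) (hw' b hb).1 (F.refl _) (h ▸ F.refl _)
    · exact (DfF.image (g := fun (_ : ℕ) b => w b) inferInstance (DfF.const hBa)).inW (inW_num 0)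
    · rintro _ ⟨b, hb, rfl⟩
      exact (hw' b hb).1
    · rintro _ ⟨b, hb, rfl⟩ _ ⟨b', hb', rfl⟩ ⟨r, hr, h1, h2⟩
      rw [key b b' hb hb' r hr h1 h2]
  obtain ⟨Φ, hΦ, hΦ'⟩ := DfF.choice (p := fun (a : κ) (e : ℕ → κ') =>
    {b : κ' | InW M.W b ∧ ∃ p, p ∈ F.P ∧ F.le p p0 ∧
      F.FMem (F.opn (F.chk (cd a)) (F.chk (cd b))) gd p} ⊆ Set.range e)
    (DfF.subset (hBd.comp (DfF.fst DfF.id)) inferInstance) hS hct (d := fun _ => d) inferInstance
  refine ⟨Φ, hΦ, fun a haS => ?_⟩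
  obtain ⟨p, hp, h1⟩ := (tr a (g a) (hS.of_mem haS) (hv a haS)).1 ⟨haS, rfl⟩
  obtain ⟨r, hr, h2, h3⟩ := hG.dir p hp p0 hp0
  obtain ⟨n, hn⟩ := hΦ' a haS ⟨hv a haS, r, hG.sub hr, h3, h1.mono h2⟩
  exact ⟨n, hn.symm⟩

/-- pairwise conflicting families of bounded finite sets are finite -/
lemma fcover_finite {X : Type} (f : X → X) (n : ℕ) : ∀ (R : Set X) (A : Set (Set X)),
    (∀ p ∈ A, R ⊆ p ∧ p.Finite ∧ (p \ R).ncard ≤ n ∧ ∀ x ∈ p, f x ∉ p) →
    (∀ p ∈ A, ∀ q ∈ A, p ≠ q → ∃ x ∈ p, f x ∈ q) → A.Finite := by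
  induction n with
  | zero =>
    intro R A h _
    refine (Set.finite_singleton R).subset fun p hp => ?_
    obtain ⟨h1, h2, h3, -⟩ := h p hp
    have := (Set.ncard_eq_zero (h2.subset Set.sdiff_subset)).1 (Nat.le_zero.1 h3)
    exact (Set.sdiff_eq_empty.1 this).antisymm h1
  | succ n ih =>
    intro R A h hA
    rcases A.eq_empty_or_nonempty with rfl | ⟨p0, hp0⟩
    · exact Set.finite_empty
    obtain ⟨h1, h2, -, h4⟩ := h p0 hp0
    refine ((h2.biUnion (t := fun x => {q | q ∈ A ∧ f x ∈ q}) fun x hx => ?_).insert p0).subset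
      fun q hq => ?_
    · refine ih (insert (f x) R) _ (fun q hq => ?_) fun p hp q hq => hA p hp.1 q hq.1
      obtain ⟨k1, k2, k3, k4⟩ := h q hq.1
      refine ⟨Set.insert_subset hq.2 k1, k2, ?_, k4⟩
      have : (q \ insert (f x) R).ncard < (q \ R).ncard :=
        Set.ncard_lt_ncard ⟨Set.sdiff_subset_sdiff_right (Set.subset_insert _ _), fun hs =>
          (hs ⟨hq.2, fun hR => h4 x hx (h1 hR)⟩).2 (Set.mem_insert _ _)⟩
          (k2.subset Set.sdiff_subset)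
      omega
    · by_cases e : p0 = q
      · exact Or.inl e.symm
      · obtain ⟨x, hx, hxq⟩ := hA p0 hp0 q hq e
        exact Or.inr (Set.mem_biUnion hx ⟨hq, hxq⟩)

variable (M) (κ : Type) [Cd κ] [Ty M κ]

/-- Cohen conditions for adding a real for every element of `κ` in the model -/
def CohP : Set (Set (κ × ℕ × Bool)) :=
  {p | InW M.W p ∧ p.Finite ∧ ∀ a n, (a, n, true) ∈ p → (a, n, false) ∉ p}

lemma inW_cohP : InW M.W (CohP M κ) := by
  have e : CohP M κ = {p | InW M.W p ∧ p.Finite ∧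
      ∀ x, x ∈ p → x.2.2 = true → ¬ (x.1, x.2.1, false) ∈ p} := by
    ext p
    refine and_congr_right fun _ => and_congr_right fun _ =>
      ⟨fun h x hx h1 => h x.1 x.2.1 (by rw [← h1]; exact hx), fun h a n hx => h _ hx rfl⟩
  rw [e]
  infer_instance

/-- Cohen forcing -/
def cohen : Fo M (Set (κ × ℕ × Bool)) where
  P := CohP M κ
  le p q := q ⊆ p
  top := ∅
  hP := inW_cohP M κ
  hle := inferInstance
  refl _ := le_rfl
  trans _ _ _ h h' := h'.trans h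
  top_mem := ⟨inferInstance, Set.finite_empty, fun _ _ h => h.elim⟩
  le_top _ := Set.empty_subset _

theorem cohen_ccc [Ch M] : (cohen M κ).CCC := by
  intro A hA hP hanti
  have hF : InW M.W fun n : ℕ => {p | p ∈ A ∧ p.ncard ≤ n} := inferInstance
  refine (ctW_iUnion hF fun n => ctW_of_finite ?_ (fun p hp => hA.of_mem hp.1)
    (d := ∅) inferInstance).mono fun p hp => Set.mem_iUnion.2 ⟨_, hp, le_rfl⟩
  refine fcover_finite (fun x => (x.1, x.2.1, !x.2.2)) n ∅ _ (fun p hp => ?_)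
    fun p hp q hq hne => ?_
  · refine ⟨Set.empty_subset _, (hP hp.1).2.1, by simpa using hp.2, ?_⟩
    rintro ⟨a, m, _ | _⟩ h1 h2
    · exact (hP hp.1).2.2 a m h2 h1
    · exact (hP hp.1).2.2 a m h1 h2
  · by_contra hcon
    push Not at hcon
    have h1 := (hP hp.1).1
    have h2 := (hP hq.1).1
    refine hne (hanti p hp.1 q hq.1 ⟨p ∪ q, ⟨inferInstance, (hP hp.1).2.1.union (hP hq.1).2.1, ?_⟩,
      Set.subset_union_left, Set.subset_union_right⟩)
    rintro a m (h | h) (h' | h')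
    · exact (hP hp.1).2.2 a m h h'
    · exact hcon _ h h'
    · exact hcon _ h' h
    · exact (hP hq.1).2.2 a m h h'

variable {M κ}

/-- the generic reals -/
def cohR (G : Set (Set (κ × ℕ × Bool))) (a : κ) : Set ℕ := {n | ∃ p ∈ G, (a, n, true) ∈ p}

theorem cohR_injOn {G : Set (Set (κ × ℕ × Bool))} (hG : (cohen M κ).Gen G) :
    Set.InjOn (cohR G) {a | InW M.W a} := by
  intro a ha b hb hab
  have ha : InW M.W a := ha
  have hb : InW M.W b := hb
  by_contra hne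
  have hP := inW_cohP M κ
  obtain ⟨p, hp, -, n, h1, h2⟩ := hG.gen
    {p | p ∈ CohP M κ ∧ ∃ n : ℕ, (a, n, true) ∈ p ∧ (b, n, false) ∈ p} inferInstance
    fun p hp => by
      obtain ⟨n, hn⟩ := (hp.2.1.image fun x => x.2.1).exists_notMem
      have hn : ∀ c d, (c, n, d) ∉ p := fun c d h => hn ⟨_, h, rfl⟩
      have := hp.1
      have hq : insert (a, n, true) (insert (b, n, false) p) ∈ CohP M κ := by
        refine ⟨inferInstance, (hp.2.1.insert _).insert _, fun c m h h' => ?_⟩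
        simp only [Set.mem_insert_iff, Prod.mk.injEq, Bool.true_eq_false, Bool.false_eq_true,
          and_false, and_true, false_or] at h h'
        rcases h with ⟨rfl, rfl⟩ | h <;> rcases h' with ⟨e, e'⟩ | h'
        · exact hne e
        · exact hn _ _ h'
        · exact hn _ _ (e' ▸ h)
        · exact hp.2.2 c m h h'
      exact ⟨_, hq, (Set.subset_insert _ _).trans (Set.subset_insert _ _), hq, n,
        Set.mem_insert _ _, Set.mem_insert_of_mem _ (Set.mem_insert _ _)⟩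
  obtain ⟨q, hq, h3⟩ : n ∈ cohR G b := hab ▸ ⟨p, hp, h1⟩
  obtain ⟨r, hr, h4, h5⟩ := hG.dir p hp q hq
  exact (hG.sub hr).2.2 b n (h5 h3) (h4 h2)

end Pool.Agent.MP_c70ddc_lc.H1
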