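import Pool.Agent.MP_c70ddc_lc.H1.KDefs

/-! Forcing over a transitive model: definitions. -/

namespace Pool.Agent.MP_c70ddc_lc.H1

/-- a forcing notion in the model -/
structure Fo (M : Md) (ι : Type) [Cd ι] where
  P : Set ι
  le : ι → ι → Prop
  top : ι
  hP : InW M.W P
  hle : DfF M fun x : ι × ι => le x.1 x.2
  refl : ∀ p, le p p
  trans : ∀ p q r, le p q → le q r → le p r
  top_mem : top ∈ P
  le_top : ∀ p, le p top

lemma rank_lt_of_pair_mem {σ τ q : ZFSet.{0}} (h : ZFSet.pair τ q ∈ σ) : τ.rank < σ.rank := by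
  have h1 : τ ∈ ({τ} : ZFSet) := ZFSet.mem_singleton.2 rfl
  have h2 : ({τ} : ZFSet) ∈ ZFSet.pair τ q := by simp [ZFSet.pair]
  exact (ZFSet.rank_lt_of_mem h1).trans ((ZFSet.rank_lt_of_mem h2).trans (ZFSet.rank_lt_of_mem h))

variable {M : Md} {ι : Type} [Cd ι] (F : Fo M ι)

namespace Fo

/-- `τ` with condition `q` is an entry of the name `σ` -/
def Ent (σ τ : ZFSet.{0}) (q : ι) : Prop := ZFSet.pair τ (cd q) ∈ σ ∧ q ∈ F.P

/-- `p` forces `σ = τ` -/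
def FEq (σ τ : ZFSet.{0}) (p : ι) : Prop :=
  (∀ σ' q, ∀ _ : F.Ent σ σ' q, ∀ r ∈ F.P, F.le r p → F.le r q →
    ∃ s ∈ F.P, F.le s r ∧ ∃ τ' q', F.Ent τ τ' q' ∧ F.le s q' ∧ FEq σ' τ' s) ∧
  (∀ τ' q', F.Ent τ τ' q' → ∀ r ∈ F.P, F.le r p → F.le r q' →
    ∃ s ∈ F.P, F.le s r ∧ ∃ σ' q, ∃ _ : F.Ent σ σ' q, F.le s q ∧ FEq σ' τ' s)
termination_by σ.rank
decreasing_by all_goals exact rank_lt_of_pair_mem (And.left ‹F.Ent σ _ _›)

/-- `p` forces `σ ∈ τ` -/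
def FMem (σ τ : ZFSet.{0}) (p : ι) : Prop :=
  ∀ r ∈ F.P, F.le r p → ∃ s ∈ F.P, F.le s r ∧ ∃ τ' q, F.Ent τ τ' q ∧ F.le s q ∧ F.FEq σ τ' s

/-- the forcing relation -/
def Frc : Fml → (ℕ → ZFSet.{0}) → ι → Prop
  | .rel 0 i j, v, p => F.FMem (v i) (v j) p
  | .rel (_ + 1) _ _, _, _ => False
  | .eq i j, v, p => F.FEq (v i) (v j) p
  | .bot, _, _ => False
  | .imp φ ψ, v, p => ∀ q ∈ F.P, F.le q p → Frc φ v q → Frc ψ v q
  | .all φ, v, p => ∀ σ ∈ M.W, Frc φ (cons σ v) p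

/-- generic filters -/
structure Gen (G : Set ι) : Prop where
  sub : G ⊆ F.P
  up : ∀ p ∈ G, ∀ q ∈ F.P, F.le p q → q ∈ G
  dir : ∀ p ∈ G, ∀ q ∈ G, ∃ r ∈ G, F.le r p ∧ F.le r q
  gen : ∀ D : Set ι, InW M.W D → (∀ p ∈ F.P, ∃ q ∈ F.P, F.le q p ∧ q ∈ D) → ∃ p ∈ G, p ∈ D

/-- canonical names of ground model sets -/
noncomputable def chk (x : ZFSet.{0}) : ZFSet.{0} :=
  ZFSet.range fun y : x => ZFSet.pair (chk y.1) (cd F.top)
termination_by x.rank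
decreasing_by exact ZFSet.rank_lt_of_mem y.2

/-- a name for the unordered pair -/
noncomputable def upn (σ τ : ZFSet.{0}) : ZFSet.{0} :=
  {ZFSet.pair σ (cd F.top), ZFSet.pair τ (cd F.top)}

/-- a name for the ordered pair -/
noncomputable def opn (σ τ : ZFSet.{0}) : ZFSet.{0} := F.upn (F.upn σ σ) (F.upn σ τ)

/-- antichains in the model are countable in the model -/
def CCC : Prop := ∀ A : Set ι, InW M.W A → A ⊆ F.P →
  (∀ p ∈ A, ∀ q ∈ A, (∃ r ∈ F.P, F.le r p ∧ F.le r q) → p = q) → CtW M.W A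

end Fo

/-- the value of a name -/
noncomputable def val (G : Set ι) (σ : ZFSet.{0}) : ZFSet.{0} :=
  ZFSet.range fun x : {y : (ZFSet.sUnion (ZFSet.sUnion σ)) // ∃ q ∈ G, ZFSet.pair y.1 (cd q) ∈ σ} =>
    val G x.1.1
termination_by σ.rank
decreasing_by exact rank_lt_of_pair_mem x.2.choose_spec.2

/-- the generic extension -/
noncomputable def ext (W : ZFSet.{0}) (G : Set ι) : ZFSet.{0} := zim (val G) W

/-- only membership is interpreted -/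
def IMem (k : ℕ) (a b : ZFSet.{0}) : Prop := k = 0 ∧ a ∈ b

/-- the model has a definable well-order -/
def Md.WO (M : Md) : Prop :=
  ∃ R : ZFSet.{0} → ZFSet.{0} → Prop, (DfF M fun x : ZFSet × ZFSet => R x.1 x.2) ∧ WellFounded R ∧
    ∀ a ∈ M.W, ∀ b ∈ M.W, R a b ∨ a = b ∨ R b a

end Pool.Agent.MP_c70ddc_lc.H1
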