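import Pool.Agent.MP_c70ddc_lc.H1.FTruth

/-! The generic extension is a model (module FC). -/

namespace Pool.Agent.MP_c70ddc_lc.H1

set_option synthInstance.maxSize 100000

variable {M : Md} {ι : Type} [Cd ι] [Ty M ι] {F : Fo M ι} {G : Set ι}

lemma fc_dom {σ τ c : ZFSet.{0}} (h : ZFSet.pair τ c ∈ σ) :
    τ ∈ ZFSet.sUnion (ZFSet.sUnion σ) :=
  ZFSet.mem_sUnion.2 ⟨{τ}, ZFSet.mem_sUnion.2 ⟨_, h, by simp [ZFSet.pair]⟩, by simp⟩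

omit [Ty M ι] in
lemma fc_val_dom {σ z : ZFSet.{0}} (h : z ∈ val G σ) :
    ∃ τ ∈ ZFSet.sUnion (ZFSet.sUnion σ), z = val G τ := by
  obtain ⟨τ, q, -, h1, h2⟩ := mem_val.1 h
  exact ⟨τ, fc_dom h1, h2⟩

omit [Ty M ι] in
lemma fc_val_dom2 {σ y z : ZFSet.{0}} (h : y ∈ val G σ) (h' : z ∈ y) :
    ∃ τ ∈ ZFSet.sUnion (ZFSet.sUnion (ZFSet.sUnion (ZFSet.sUnion (ZFSet.sUnion σ)))),
      z = val G τ := by
  obtain ⟨ρ, h1, rfl⟩ := fc_val_dom h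
  obtain ⟨τ, q, -, h2, h3⟩ := mem_val.1 h'
  exact ⟨τ, fc_dom (ZFSet.mem_sUnion.2 ⟨ρ, h1, h2⟩), h3⟩

lemma fc_domW {σ : ZFSet.{0}} (h : σ ∈ M.W) : ZFSet.sUnion (ZFSet.sUnion σ) ∈ M.W :=
  M.h.union _ (M.h.union _ h)

omit [Ty M ι] in
lemma fc_val_mem {σ : ZFSet.{0}} (h : σ ∈ M.W) : val G σ ∈ ext M.W G := mem_ext.2 ⟨σ, h, rfl⟩

omit [Ty M ι] in
/-- a set of values that is described by a definable relation has a name -/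
lemma fc_name (hG : F.Gen G) {A b : ZFSet.{0}} (hA : A ∈ M.W) (Q : ZFSet.{0} → ι → Prop)
    (hQ : DfF M fun x : ZFSet × ι => Q x.1 x.2) (h1 : ∀ z ∈ b, ∃ τ ∈ A, z = val G τ ∧
      ∃ p ∈ G, Q τ p) (h2 : ∀ τ ∈ A, ∀ p ∈ G, Q τ p → val G τ ∈ b) :
    ∃ σ ∈ M.W, σ ⊆ A.prod (cd F.P) ∧ val G σ = b := by
  have := inW_zf.2 hA
  have h3 : InW M.W ((A.prod (cd F.P)).sep fun z =>
      ∃ τ, τ ∈ A ∧ ∃ p, p ∈ F.P ∧ z = ZFSet.pair τ (cd p) ∧ Q τ p) := inferInstance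
  refine ⟨_, inW_zf.1 h3, fun z hz => (ZFSet.mem_sep.1 hz).1, ZFSet.ext fun z => ?_⟩
  simp only [mem_val, ZFSet.mem_sep, ZFSet.pair_mem_prod, cd_mem_cd, ZFSet.pair_inj]
  constructor
  · rintro ⟨τ, q, hq, ⟨-, τ', g1, p, -, ⟨rfl, g2⟩, g3⟩, rfl⟩
    exact h2 τ g1 q hq (Cd.inj g2 ▸ g3)
  · intro hz
    obtain ⟨τ, g1, rfl, p, g2, g3⟩ := h1 z hz
    exact ⟨τ, p, g2, ⟨⟨g1, hG.sub g2⟩, τ, g1, p, hG.sub g2, ⟨rfl, rfl⟩, g3⟩, rfl⟩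

omit [Ty M ι] in
lemma fc_ext (hG : F.Gen G) {A b : ZFSet.{0}} (hA : A ∈ M.W) (Q : ZFSet.{0} → ι → Prop)
    (hQ : DfF M fun x : ZFSet × ι => Q x.1 x.2) (h1 : ∀ z ∈ b, ∃ τ ∈ A, z = val G τ ∧
      ∃ p ∈ G, Q τ p) (h2 : ∀ τ ∈ A, ∀ p ∈ G, Q τ p → val G τ ∈ b) : b ∈ ext M.W G := by
  obtain ⟨σ, h3, -, h4⟩ := fc_name hG hA Q hQ h1 h2
  exact mem_ext.2 ⟨σ, h3, h4⟩

omit [Ty M ι] in
lemma fc_zim (hG : F.Gen G) {A : ZFSet.{0}} (hA : A ∈ M.W) : zim (val G) A ∈ ext M.W G :=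
  fc_ext hG hA (fun _ _ => True) inferInstance
    (fun z hz => by
      obtain ⟨τ, h1, h2⟩ := mem_zim.1 hz
      exact ⟨τ, h1, h2.symm, _, hG.top_mem, trivial⟩)
    fun τ h _ _ _ => mem_zim.2 ⟨τ, h, rfl⟩

theorem Fo.Gen.subset (hG : F.Gen G) : M.W ⊆ ext M.W G := by
  intro x hx
  have := inW_zf.2 hx
  exact mem_ext.2 ⟨F.chk x, (inferInstance : InW M.W (F.chk x)).mem, Fo.val_chk hG.top_mem x⟩

theorem Fo.Gen.inW_ext (hG : F.Gen G) {β : Type*} [Cd β] {b : β} (h : InW M.W b) :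
    InW (ext M.W G) b := ⟨hG.subset h.mem⟩

theorem Fo.Gen.inW_gen (hG : F.Gen G) : InW (ext M.W G) G := by
  refine ⟨fc_ext hG (inferInstance : InW M.W (zim F.chk (cd F.P))).mem
    (fun τ p => τ = F.chk (cd p)) inferInstance (fun z hz => ?_) ?_⟩
  · obtain ⟨p, hp, rfl⟩ := mem_cd_set.1 hz
    exact ⟨_, mem_zim.2 ⟨_, cd_mem_cd.2 (hG.sub hp), rfl⟩, (Fo.val_chk hG.top_mem _).symm,
      p, hp, rfl⟩
  · rintro τ - p hp rfl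
    rw [Fo.val_chk hG.top_mem]
    exact cd_mem_cd.2 hp

omit [Ty M ι] in
/-- names for a valuation -/
lemma fc_names {v : ℕ → ZFSet.{0}} (hv : ∀ i, v i ∈ ext M.W G) (n : ℕ) :
    ∃ w : ℕ → ZFSet.{0}, InW M.W w ∧ ∀ i, i < n → v i = val G (w i) := by
  choose w h1 h2 using fun i => mem_ext.1 (hv i)
  obtain ⟨w', h3, h4⟩ := exists_inW_eq (M := M) w n (fun i _ => inW_zf.2 (h1 i))
    (d := w 0) (inW_zf.2 (h1 0))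
  exact ⟨w', h3, fun i hi => by rw [h4 i hi, h2]⟩

lemma fc_cons_eq {v w : ℕ → ZFSet.{0}} {n : ℕ} (h : ∀ i, i < n → v i = w i) (x : ZFSet.{0}) :
    ∀ i, i < n → cons x v i = cons x w i
  | 0, _ => rfl
  | i + 1, hi => h i (by omega)

theorem Fo.Gen.mdl0 (hG : F.Gen G) : Mdl0 (ext M.W G) IMem where
  h0 a b := by simp [IMem]
  trans a ha b hb := by
    obtain ⟨σ, hσ, rfl⟩ := mem_ext.1 ha
    obtain ⟨τ, h, rfl⟩ := fc_val_dom hb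
    exact fc_val_mem (M.h.trans _ (fc_domW hσ) _ h)
  pair a ha b hb := by
    obtain ⟨σ, hσ, rfl⟩ := mem_ext.1 ha
    obtain ⟨τ, hτ, rfl⟩ := mem_ext.1 hb
    have := inW_zf.2 hσ
    have := inW_zf.2 hτ
    exact mem_ext.2 ⟨_, (inferInstance : InW M.W (F.upn σ τ)).mem, Fo.val_upn hG.top_mem⟩
  union a ha := by
    obtain ⟨σ, hσ, rfl⟩ := mem_ext.1 ha
    have := inW_zf.2 hσ
    have hA := fc_domW (M.h.union _ (fc_domW hσ))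
    refine fc_ext hG hA (fun ρ p => ∃ τ, τ ∈ M.W ∧ F.FMem ρ τ p ∧ F.FMem τ σ p) inferInstance
      (fun z hz => ?_) ?_
    · obtain ⟨y, h1, h2⟩ := ZFSet.mem_sUnion.1 hz
      obtain ⟨ρ, h3, rfl⟩ := fc_val_dom2 h1 h2
      obtain ⟨τ, h4, rfl⟩ := fc_val_dom h1
      have h5 := M.h.trans _ (fc_domW hσ) _ h4
      obtain ⟨p, hp, h6⟩ := (hG.val_mem_iff (M.h.trans _ hA _ h3) h5).1 h2
      obtain ⟨q, hq, h7⟩ := (hG.val_mem_iff h5 hσ).1 h1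
      obtain ⟨r, hr, h8, h9⟩ := hG.dir p hp q hq
      exact ⟨ρ, h3, rfl, r, hr, τ, h5, h6.mono h8, h7.mono h9⟩
    · rintro ρ h1 p hp ⟨τ, h2, h3, h4⟩
      exact ZFSet.mem_sUnion.2 ⟨_, (hG.val_mem_iff h2 hσ).2 ⟨p, hp, h4⟩,
        (hG.val_mem_iff (M.h.trans _ hA _ h1) h2).2 ⟨p, hp, h3⟩⟩
  power a ha := by
    obtain ⟨σ, hσ, rfl⟩ := mem_ext.1 ha
    have := inW_zf.2 hσ
    have hA := fc_domW hσ
    refine ⟨_, fc_zim hG (inW_zf.1 (inferInstance : InW M.W (M.W.sep fun z =>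
      z ⊆ (ZFSet.sUnion (ZFSet.sUnion σ)).prod (cd F.P)))), fun x hx h => ?_⟩
    obtain ⟨τ, hτ, rfl⟩ := mem_ext.1 hx
    have := inW_zf.2 hτ
    obtain ⟨ρ, h1, h2, h3⟩ := fc_name hG (b := val G τ) hA (fun ρ p => F.FMem ρ τ p) inferInstance
      (fun z hz => by
        obtain ⟨ρ, h1, rfl⟩ := fc_val_dom (h hz)
        exact ⟨ρ, h1, rfl, (hG.val_mem_iff (M.h.trans _ hA _ h1) hτ).1 hz⟩)
      fun ρ h1 p hp h2 => (hG.val_mem_iff (M.h.trans _ hA _ h1) hτ).2 ⟨p, hp, h2⟩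
    exact mem_zim.2 ⟨ρ, ZFSet.mem_sep.2 ⟨h1, h2⟩, h3⟩
  omega := hG.subset M.h.omega
  sep φ v hv a ha := by
    obtain ⟨σ, hσ, rfl⟩ := mem_ext.1 ha
    obtain ⟨w, hw, h⟩ := fc_names hv φ.bound
    have := inW_zf.2 hσ
    have hA := fc_domW hσ
    have key : ∀ τ ∈ M.W, Sat (ext M.W G : Set ZFSet) IMem φ (cons (val G τ) v) ↔
        ∃ p ∈ G, F.Frc φ (cons τ w) p := fun τ hτ => by
      rw [← hG.truth φ (cons_mem (D := (M.W : Set ZFSet)) hτ fun i => inW_zf.1 (hw.app i)), comp_cons]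
      exact sat_congr (fc_cons_eq h _)
    refine fc_ext hG hA (fun τ p => F.FMem τ σ p ∧ F.Frc φ (cons τ w) p) inferInstance
      (fun z hz => ?_) ?_
    · obtain ⟨h1, h2⟩ := ZFSet.mem_sep.1 hz
      obtain ⟨τ, h3, rfl⟩ := fc_val_dom h1
      have h4 := M.h.trans _ hA _ h3
      obtain ⟨p, hp, h5⟩ := (hG.val_mem_iff h4 hσ).1 h1
      obtain ⟨q, hq, h6⟩ := (key τ h4).1 h2
      obtain ⟨r, hr, h7, h8⟩ := hG.dir p hp q hq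
      exact ⟨τ, h3, rfl, r, hr, h5.mono h7, h6.mono h8⟩
    · rintro τ h1 p hp ⟨h2, h3⟩
      have h4 := M.h.trans _ hA _ h1
      exact ZFSet.mem_sep.2 ⟨(hG.val_mem_iff h4 hσ).2 ⟨p, hp, h2⟩, (key τ h4).2 ⟨p, hp, h3⟩⟩
  coll φ v hv a ha := by
    obtain ⟨σ, hσ, rfl⟩ := mem_ext.1 ha
    obtain ⟨w, hw, h⟩ := fc_names hv φ.bound
    have := inW_zf.2 hσ
    have hA := fc_domW hσ
    have key : ∀ ρ ∈ M.W, ∀ τ ∈ M.W,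
        Sat (ext M.W G : Set ZFSet) IMem φ (cons (val G ρ) (cons (val G τ) v)) ↔
        ∃ p ∈ G, F.Frc φ (cons ρ (cons τ w)) p := fun ρ hρ τ hτ => by
      rw [← hG.truth φ (cons_mem (D := (M.W : Set ZFSet)) hρ
        (cons_mem hτ fun i => inW_zf.1 (hw.app i))), comp_cons, comp_cons]
      exact sat_congr (fc_cons_eq (fc_cons_eq h _) _)
    obtain ⟨t, ht, h1⟩ := DfF.coll (M := M) (α := ZFSet × ι) (β := ZFSet)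
      (p := fun x ρ => F.Frc φ (cons ρ (cons x.1 w)) x.2) inferInstance
      (inferInstance : InW M.W ((ZFSet.sUnion (ZFSet.sUnion σ)).prod (cd F.P))).mem
    refine ⟨_, fc_zim hG ht, ?_⟩
    rintro x hx ⟨y, hy, h2⟩
    obtain ⟨τ, h3, rfl⟩ := fc_val_dom hx
    obtain ⟨ρ, hρ, rfl⟩ := mem_ext.1 hy
    have h4 := M.h.trans _ hA _ h3
    obtain ⟨p, hp, h5⟩ := (key ρ hρ τ h4).1 h2
    obtain ⟨ρ', h6, h7⟩ := h1 (τ, p) (ZFSet.pair_mem_prod.2 ⟨h3, cd_mem_cd.2 (hG.sub hp)⟩)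
      ⟨ρ, inW_zf.2 hρ, h5⟩
    exact ⟨_, mem_zim.2 ⟨ρ', h6, rfl⟩, (key ρ' (M.h.trans _ ht _ h6) τ h4).2 ⟨p, hp, h7⟩⟩

/-- the graph of `val` on a ground model set lies in the extension -/
theorem Fo.Gen.val_graph (hG : F.Gen G) {s : ZFSet.{0}} (hs : s ∈ M.W) :
    zim (fun τ => ZFSet.pair τ (val G τ)) s ∈ ext M.W G := by
  have := inW_zf.2 hs
  have h := fc_zim hG (inferInstance : InW M.W (zim (fun τ => F.opn (F.chk τ) τ) s)).mem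
  have e : zim (val G) (zim (fun τ => F.opn (F.chk τ) τ) s) =
      zim (fun τ => ZFSet.pair τ (val G τ)) s := ZFSet.ext fun z => by
    simp [Fo.val_opn hG.top_mem, Fo.val_chk hG.top_mem]
  exact e ▸ h

lemma fc_sel {a A r h : ZFSet.{0}} (ha : a ∈ M.W) (hA : A ∈ M.W) (hr : r ∈ M.W) (hh : h ∈ M.W) :
    ((a.prod (ZFSet.sUnion a)).sep fun z =>
      ∃ x, x ∈ a ∧ ∃ t, t ∈ A ∧ ∃ y, y ∈ x ∧ z = ZFSet.pair x y ∧ ZFSet.pair t y ∈ h ∧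
        ∀ s, s ∈ A → ZFSet.pair s t ∈ r → ∀ y', y' ∈ x → ¬ ZFSet.pair s y' ∈ h) ∈ M.W := by
  have := inW_zf.2 ha
  have := inW_zf.2 hA
  have := inW_zf.2 hr
  have := inW_zf.2 hh
  exact inW_zf.1 inferInstance

theorem Fo.Gen.mdl (hG : F.Gen G) (hw : M.WO) : Mdl (ext M.W G) IMem := by
  refine ⟨hG.mdl0, fun a ha => ?_⟩
  obtain ⟨R, hR, wf, tri⟩ := hw
  obtain ⟨σ, hσ, e⟩ := mem_ext.1 ha
  obtain ⟨A, hA, cov⟩ : ∃ A ∈ M.W, ∀ x ∈ a, ∀ y ∈ x, ∃ τ ∈ A, y = val G τ :=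
    ⟨_, fc_domW (M.h.union _ (fc_domW hσ)), fun x hx y hy => fc_val_dom2 (e ▸ hx) hy⟩
  obtain ⟨r, hr, r1⟩ : ∃ r ∈ M.W, ∀ s ∈ A, ∀ t ∈ A, ZFSet.pair s t ∈ r ↔ R s t := by
    have := inW_zf.2 hA
    refine ⟨_, (inferInstance : InW M.W ((A.prod A).sep fun z =>
      ∃ s, s ∈ A ∧ ∃ t, t ∈ A ∧ z = ZFSet.pair s t ∧ R s t)).mem, fun s hs t ht => ?_⟩
    simp only [cd_zf, ZFSet.mem_sep, ZFSet.pair_mem_prod, ZFSet.pair_inj]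
    exact ⟨fun ⟨_, _, _, _, _, ⟨e1, e2⟩, h⟩ => e1 ▸ e2 ▸ h,
      fun h => ⟨⟨hs, ht⟩, s, hs, t, ht, ⟨rfl, rfl⟩, h⟩⟩
  obtain ⟨h, hh, h1⟩ : ∃ h ∈ ext M.W G, ∀ t ∈ A, ∀ y, ZFSet.pair t y ∈ h ↔ y = val G t := by
    refine ⟨_, hG.val_graph hA, fun t ht y => ?_⟩
    simp only [mem_zim, ZFSet.pair_inj]
    exact ⟨fun ⟨_, _, e1, e2⟩ => e1 ▸ e2.symm, fun e => ⟨t, ht, rfl, e.symm⟩⟩
  refine ⟨_, fc_sel (M := ⟨ext M.W G, IMem, hG.mdl0⟩) ha (hG.subset hA) (hG.subset hr) hh,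
    fun x hx hne => ?_⟩
  obtain ⟨y₀, hy₀⟩ := ZFSet.eq_empty_or_nonempty x |>.resolve_left hne
  obtain ⟨t₀, g1, rfl⟩ := cov x hx y₀ hy₀
  obtain ⟨t, ⟨g2, g3⟩, g4⟩ := wf.has_min {t | t ∈ A ∧ val G t ∈ x} ⟨t₀, g1, hy₀⟩
  simp only [ZFSet.mem_sep, ZFSet.pair_mem_prod, ZFSet.pair_inj]
  refine ⟨val G t, g3, ⟨⟨hx, ZFSet.mem_sUnion.2 ⟨x, hx, g3⟩⟩, x, hx, t, g2, _, g3, ⟨rfl, rfl⟩,
    (h1 t g2 _).2 rfl, fun s hs k1 y' k2 k3 => ?_⟩, ?_⟩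
  · exact g4 s ⟨hs, (h1 s hs _).1 k3 ▸ k2⟩ ((r1 s hs t g2).1 k1)
  · rintro y' ⟨-, _, -, t', k1, _, k2, ⟨rfl, rfl⟩, k3, k4⟩
    obtain rfl := (h1 t' k1 _).1 k3
    rcases tri t (M.h.trans _ hA _ g2) t' (M.h.trans _ hA _ k1) with k | k | k
    · exact absurd ((h1 t g2 _).2 rfl) (k4 t g2 ((r1 t g2 t' k1).2 k) _ g3)
    · rw [k]
    · exact absurd k (g4 t' ⟨k1, k2⟩)

end Pool.Agent.MP_c70ddc_lc.H1
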