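import Pool.Agent.MP_c70ddc_lc.H1.FBasic

/-! Generic filters and the truth lemma (module FB). -/

namespace Pool.Agent.MP_c70ddc_lc.H1

set_option synthInstance.maxSize 100000

variable {M : Md} {ι : Type} [Cd ι] [Ty M ι] {F : Fo M ι} {G : Set ι} {σ τ : ZFSet.{0}}

omit [Ty M ι] in
theorem Fo.exists_gen (F : Fo M ι) (h : (M.W : Set ZFSet).Countable) : ∃ G, F.Gen G := by
  classical
  set 𝒟 : Set (Set ι) :=
    {D | InW M.W D ∧ ∀ p ∈ F.P, ∃ q ∈ F.P, F.le q p ∧ q ∈ D} with h𝒟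
  have hc : 𝒟.Countable := by
    refine Set.MapsTo.countable_of_injOn (f := fun D : Set ι => cd D) ?_ Cd.inj.injOn h
    intro D hD
    exact hD.1.mem
  have hne : 𝒟.Nonempty := ⟨F.P, F.hP, fun p hp => ⟨p, hp, F.refl p, hp⟩⟩
  obtain ⟨e, he⟩ := hc.exists_eq_range hne
  have hd : ∀ n (p : F.P), ∃ q : F.P, F.le q.1 p.1 ∧ q.1 ∈ e n := by
    intro n p
    have : e n ∈ 𝒟 := he ▸ Set.mem_range_self n
    obtain ⟨q, hq, h1, h2⟩ := this.2 p.1 p.2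
    exact ⟨⟨q, hq⟩, h1, h2⟩
  choose nx hnx1 hnx2 using hd
  let c : ℕ → F.P := fun n => Nat.rec ⟨F.top, F.top_mem⟩ (fun n p => nx n p) n
  have hc1 : ∀ n, c (n + 1) = nx n (c n) := fun _ => rfl
  have hmono : ∀ m n, m ≤ n → F.le (c n).1 (c m).1 := by
    intro m n hmn
    induction hmn with
    | refl => exact F.refl _
    | step _ ih => exact F.trans _ _ _ (hnx1 _ _) ih
  refine ⟨{q | q ∈ F.P ∧ ∃ n, F.le (c n).1 q}, fun q hq => hq.1, ?_, ?_, ?_⟩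
  · rintro p ⟨-, n, hn⟩ q hq hpq
    exact ⟨hq, n, F.trans _ _ _ hn hpq⟩
  · rintro p ⟨-, m, hm⟩ q ⟨-, n, hn⟩
    exact ⟨(c (max m n)).1, ⟨(c _).2, _, F.refl _⟩,
      F.trans _ _ _ (hmono _ _ (le_max_left _ _)) hm,
      F.trans _ _ _ (hmono _ _ (le_max_right _ _)) hn⟩
  · intro D hD hdense
    have : D ∈ Set.range e := he ▸ (⟨hD, hdense⟩ : D ∈ 𝒟)
    obtain ⟨n, rfl⟩ := this
    exact ⟨(c (n + 1)).1, ⟨(c (n + 1)).2, n + 1, F.refl _⟩, hc1 n ▸ hnx2 n (c n)⟩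

omit [Ty M ι] in
/-- a definable dense property is met by a generic filter -/
lemma fb_meet (hG : F.Gen G) {d : ι → Prop} (hd : DfF M d)
    (h : ∀ p ∈ F.P, ∃ q ∈ F.P, F.le q p ∧ d q) : ∃ p ∈ G, d p := by
  have hD : InW M.W {q | q ∈ F.P ∧ d q} :=
    InW.of_df (DfF.sep (S := fun _ : ℕ => F.P) (s := fun _ q => d q) (DfF.const F.hP)
      (hd.comp (DfF.snd DfF.id)))
  obtain ⟨p, hp, h2⟩ := hG.gen _ hD fun p hp => by
    obtain ⟨q, hq, h1, h2⟩ := h p hp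
    exact ⟨q, hq, h1, hq, h2⟩
  exact ⟨p, hp, h2.2⟩

/-- a definable property that is dense below an element of a generic filter is met -/
lemma fb_meet_below (hG : F.Gen G) {d : ι → Prop} (hd : DfF M d) {r : ι} (hr : r ∈ G)
    (h : ∀ p ∈ F.P, F.le p r → ∃ q ∈ F.P, F.le q p ∧ d q) : ∃ p ∈ G, d p := by
  have hrW : InW M.W r := F.hP.of_mem (hG.sub hr)
  have hd' : DfF M fun q => d q ∨ ¬ ∃ s, s ∈ F.P ∧ F.le s q ∧ F.le s r := inferInstance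
  obtain ⟨p, hp, h2⟩ := fb_meet hG hd' fun p hp => by
    by_cases hc : ∃ s, s ∈ F.P ∧ F.le s p ∧ F.le s r
    · obtain ⟨s, hs, h1, h2⟩ := hc
      obtain ⟨q, hq, h3, h4⟩ := h s hs h2
      exact ⟨q, hq, F.trans _ _ _ h3 h1, Or.inl h4⟩
    · exact ⟨p, hp, F.refl p, Or.inr hc⟩
  rcases h2 with h2 | h2
  · exact ⟨p, hp, h2⟩
  · obtain ⟨s, hs, h3, h4⟩ := hG.dir p hp r hr
    exact absurd ⟨s, hG.sub hs, h3, h4⟩ h2

omit [Ty M ι] in
lemma fb_dir3 (hG : F.Gen G) {a b c : ι} (ha : a ∈ G) (hb : b ∈ G) (hc : c ∈ G) :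
    ∃ s ∈ G, F.le s a ∧ F.le s b ∧ F.le s c := by
  obtain ⟨r, hr, h1, h2⟩ := hG.dir a ha b hb
  obtain ⟨s, hs, h3, h4⟩ := hG.dir r hr c hc
  exact ⟨s, hs, F.trans _ _ _ h3 h1, F.trans _ _ _ h3 h2, h4⟩

omit [Ty M ι] in
lemma fb_val_mem (hG : F.Gen G) {σ' : ZFSet.{0}} {q s : ι} (h : F.Ent σ σ' q) (hs : s ∈ G)
    (hsq : F.le s q) : val G σ' ∈ val G σ :=
  mem_val.2 ⟨σ', q, hG.up s hs q h.2 hsq, h.1, rfl⟩

omit [Ty M ι] in
lemma fb_of_mem_val (hG : F.Gen G) {z : ZFSet.{0}} (h : z ∈ val G σ) :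
    ∃ σ' q, q ∈ G ∧ F.Ent σ σ' q ∧ z = val G σ' := by
  obtain ⟨σ', q, hq, h1, h2⟩ := mem_val.1 h
  exact ⟨σ', q, hq, ⟨h1, hG.sub hq⟩, h2⟩

/-- some entry of `τ` above `s` is forced by `s` to be equal to `σ` -/
def fbR (F : Fo M ι) (σ τ : ZFSet.{0}) (s : ι) : Prop :=
  ∃ τ', τ' ∈ M.W ∧ ∃ q', q' ∈ F.P ∧ F.Ent τ τ' q' ∧ F.le s q' ∧ F.FEq σ τ' s

/-- some entry of `σ` above `s` is forced by `s` to be equal to `τ` -/
def fbL (F : Fo M ι) (σ τ : ZFSet.{0}) (s : ι) : Prop :=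
  ∃ σ', σ' ∈ M.W ∧ ∃ q, q ∈ F.P ∧ F.Ent σ σ' q ∧ F.le s q ∧ F.FEq σ' τ s

lemma fb_dfR : DfF M fun x : (ZFSet.{0} × ZFSet.{0}) × ι => fbR F x.1.1 x.1.2 x.2 := by
  unfold fbR
  infer_instance

lemma fb_dfL : DfF M fun x : (ZFSet.{0} × ZFSet.{0}) × ι => fbL F x.1.1 x.1.2 x.2 := by
  unfold fbL
  infer_instance

section
universe u
variable {α : Type u} [Cd α] {s t : α → ZFSet.{0}} {p : α → ι}

lemma fb_dfR' (hs : DfF M s) (ht : DfF M t) (hp : DfF M p) :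
    DfF M fun a => fbR F (s a) (t a) (p a) :=
  DfF.comp (f := fun a => ((s a, t a), p a)) (fb_dfR (F := F)) ((hs.prodMk ht).prodMk hp)

lemma fb_dfL' (hs : DfF M s) (ht : DfF M t) (hp : DfF M p) :
    DfF M fun a => fbL F (s a) (t a) (p a) :=
  DfF.comp (f := fun a => ((s a, t a), p a)) (fb_dfL (F := F)) ((hs.prodMk ht).prodMk hp)

instance (priority := 9000) fb_dfR_inst [hs : DfF M s] [ht : DfF M t] [hp : DfF M p] :
    DfP M fun a => fbR F (s a) (t a) (p a) :=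
  ⟨fb_dfR' hs ht hp⟩

instance (priority := 9000) fb_dfL_inst [hs : DfF M s] [ht : DfF M t] [hp : DfF M p] :
    DfP M fun a => fbL F (s a) (t a) (p a) :=
  ⟨fb_dfL' hs ht hp⟩

end

lemma fb_val_eq_iff (hG : F.Gen G) (σ : ZFSet.{0}) : σ ∈ M.W → ∀ τ ∈ M.W,
    (val G σ = val G τ ↔ ∃ p ∈ G, F.FEq σ τ p) := by
  induction σ using (InvImage.wf ZFSet.rank (wellFounded_lt (α := Ordinal))).induction with
  | _ σ ih =>
  intro hσ τ hτ
  have ih' : ∀ {σ' q}, F.Ent σ σ' q → ∀ τ' ∈ M.W,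
      (val G σ' = val G τ' ↔ ∃ p ∈ G, F.FEq σ' τ' p) := fun h =>
    ih _ (rank_lt_of_pair_mem h.1) (h.mem hσ)
  have hσW : InW M.W σ := inW_zf.2 hσ
  have hτW : InW M.W τ := inW_zf.2 hτ
  constructor
  · intro e
    have hd : DfF M fun p : ι => F.FEq σ τ p ∨
        (∃ σ', σ' ∈ M.W ∧ ∃ q, q ∈ F.P ∧ F.Ent σ σ' q ∧ F.le p q ∧
          ∀ s, s ∈ F.P → F.le s p → ¬ fbR F σ' τ s) ∨
        (∃ τ', τ' ∈ M.W ∧ ∃ q', q' ∈ F.P ∧ F.Ent τ τ' q' ∧ F.le p q' ∧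
          ∀ s, s ∈ F.P → F.le s p → ¬ fbL F σ τ' s) :=
      DfF.or (DfF.feq (.const hσW) (.const hτW) .id) (DfF.or inferInstance inferInstance)
    obtain ⟨p, hp, h⟩ := fb_meet hG hd fun p hp => by
      by_cases hc : F.FEq σ τ p
      · exact ⟨p, hp, F.refl p, Or.inl hc⟩
      · rw [Fo.FEq, not_and_or] at hc
        rcases hc with hc | hc
        · push Not at hc
          obtain ⟨σ', q, h1, r, hr, h2, h3, h4⟩ := hc
          refine ⟨r, hr, h2, Or.inr (Or.inl ⟨σ', h1.mem hσ, q, h1.2, h1, h3, ?_⟩)⟩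
          rintro s hs hsr ⟨τ', -, q', -, h5, h6, h7⟩
          exact h4 s hs hsr τ' q' h5 h6 h7
        · push Not at hc
          obtain ⟨τ', q', h1, r, hr, h2, h3, h4⟩ := hc
          refine ⟨r, hr, h2, Or.inr (Or.inr ⟨τ', h1.mem hτ, q', h1.2, h1, h3, ?_⟩)⟩
          rintro s hs hsr ⟨σ', -, q, -, h5, h6, h7⟩
          exact h4 s hs hsr σ' q h5 h6 h7
    rcases h with h | ⟨σ', -, q, -, h1, h2, h3⟩ | ⟨τ', -, q', -, h1, h2, h3⟩
    · exact ⟨p, hp, h⟩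
    · have hm := fb_val_mem hG h1 hp h2
      rw [e] at hm
      obtain ⟨τ', q', hq', h4, h5⟩ := fb_of_mem_val hG hm
      obtain ⟨s0, hs0, h6⟩ := (ih' h1 τ' (h4.mem hτ)).1 h5
      obtain ⟨s, hs, h7, h8, h9⟩ := fb_dir3 hG hp hq' hs0
      exact absurd ⟨τ', h4.mem hτ, q', h4.2, h4, h8, h6.mono h9⟩ (h3 s (hG.sub hs) h7)
    · have hm := fb_val_mem hG h1 hp h2
      rw [← e] at hm
      obtain ⟨σ', q, hq, h4, h5⟩ := fb_of_mem_val hG hm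
      obtain ⟨s0, hs0, h6⟩ := (ih' h4 τ' (h1.mem hτ)).1 h5.symm
      obtain ⟨s, hs, h7, h8, h9⟩ := fb_dir3 hG hp hq hs0
      exact absurd ⟨σ', h4.mem hσ, q, h4.2, h4, h8, h6.mono h9⟩ (h3 s (hG.sub hs) h7)
  · rintro ⟨p, hp, h⟩
    rw [Fo.FEq] at h
    refine ZFSet.ext fun z => ⟨fun hz => ?_, fun hz => ?_⟩
    · obtain ⟨σ', q, hq, h1, rfl⟩ := fb_of_mem_val hG hz
      obtain ⟨r, hr, h2, h3⟩ := hG.dir p hp q hq
      have hσ' : InW M.W σ' := inW_zf.2 (h1.mem hσ)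
      have hd : DfF M fun s : ι => fbR F σ' τ s := fb_dfR' (.const hσ') (.const hτW) .id
      obtain ⟨s, hs, τ', hτ', q', -, h4, h5, h6⟩ := fb_meet_below hG hd hr fun r' hr' hle => by
        obtain ⟨s, hs, h4, τ', q', h5, h6, h7⟩ :=
          h.1 σ' q h1 r' hr' (F.trans _ _ _ hle h2) (F.trans _ _ _ hle h3)
        exact ⟨s, hs, h4, τ', h5.mem hτ, q', h5.2, h5, h6, h7⟩
      rw [(ih' h1 τ' hτ').2 ⟨s, hs, h6⟩]
      exact fb_val_mem hG h4 hs h5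
    · obtain ⟨τ', q', hq', h1, rfl⟩ := fb_of_mem_val hG hz
      obtain ⟨r, hr, h2, h3⟩ := hG.dir p hp q' hq'
      have hτ' : InW M.W τ' := inW_zf.2 (h1.mem hτ)
      have hd : DfF M fun s : ι => fbL F σ τ' s := fb_dfL' (.const hσW) (.const hτ') .id
      obtain ⟨s, hs, σ', -, q, -, h4, h5, h6⟩ := fb_meet_below hG hd hr fun r' hr' hle => by
        obtain ⟨s, hs, h4, σ', q, h5, h6, h7⟩ :=
          h.2 τ' q' h1 r' hr' (F.trans _ _ _ hle h2) (F.trans _ _ _ hle h3)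
        exact ⟨s, hs, h4, σ', h5.mem hσ, q, h5.2, h5, h6, h7⟩
      rw [← (ih' h4 τ' (h1.mem hτ)).2 ⟨s, hs, h6⟩]
      exact fb_val_mem hG h4 hs h5

theorem Fo.Gen.val_eq_iff (hG : F.Gen G) (hσ : σ ∈ M.W) (hτ : τ ∈ M.W) :
    val G σ = val G τ ↔ ∃ p ∈ G, F.FEq σ τ p := fb_val_eq_iff hG σ hσ τ hτ

theorem Fo.Gen.val_mem_iff (hG : F.Gen G) (hσ : σ ∈ M.W) (hτ : τ ∈ M.W) :
    val G σ ∈ val G τ ↔ ∃ p ∈ G, F.FMem σ τ p := by
  constructor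
  · intro h
    obtain ⟨τ', q, hq, h1, h2⟩ := fb_of_mem_val hG h
    obtain ⟨s0, hs0, h3⟩ := (hG.val_eq_iff hσ (h1.mem hτ)).1 h2
    obtain ⟨p, hp, h4, h5⟩ := hG.dir q hq s0 hs0
    exact ⟨p, hp, fun r hr hrp => ⟨r, hr, F.refl r, τ', q, h1, F.trans _ _ _ hrp h4,
      h3.mono (F.trans _ _ _ hrp h5)⟩⟩
  · rintro ⟨p, hp, h⟩
    have hσW : InW M.W σ := inW_zf.2 hσ
    have hτW : InW M.W τ := inW_zf.2 hτ
    have hd : DfF M fun s : ι => fbR F σ τ s := fb_dfR' (.const hσW) (.const hτW) .id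
    obtain ⟨s, hs, τ', hτ', q', -, h4, h5, h6⟩ := fb_meet_below hG hd hp fun r hr hle => by
      obtain ⟨s, hs, h4, τ', q', h5, h6, h7⟩ := h r hr hle
      exact ⟨s, hs, h4, τ', h5.mem hτ, q', h5.2, h5, h6, h7⟩
    rw [(hG.val_eq_iff hσ hτ').2 ⟨s, hs, h6⟩]
    exact fb_val_mem hG h4 hs h5

lemma fb_df_frc (φ : Fml) {v : ℕ → ZFSet.{0}} (hv : ∀ i, v i ∈ M.W) :
    DfF M fun p : ι => F.Frc φ v p := by
  obtain ⟨v', h1, h2⟩ := exists_inW_eq (M := M) v φ.bound (fun i _ => inW_zf.2 (hv i))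
    (inW_zf.2 (hv 0))
  exact (DfF.frc (F := F) φ (DfF.const h1) DfF.id).congr_iff fun p _ => Fo.frc_congr h2

lemma fb_df_frc_cons (φ : Fml) {v : ℕ → ZFSet.{0}} (hv : ∀ i, v i ∈ M.W) :
    DfF M fun x : ZFSet.{0} × ι => F.Frc φ (cons x.1 v) x.2 := by
  obtain ⟨v', h1, h2⟩ := exists_inW_eq (M := M) v φ.bound (fun i _ => inW_zf.2 (hv i))
    (inW_zf.2 (hv 0))
  refine (DfF.frc (F := F) φ (DfF.cons (DfF.fst DfF.id) (DfF.const h1))
    (DfF.snd DfF.id)).congr_iff fun x _ => Fo.frc_congr fun i hi => ?_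
  cases i with
  | zero => rfl
  | succ i => exact h2 i (by omega)

theorem Fo.Gen.truth (hG : F.Gen G) (φ : Fml) {v : ℕ → ZFSet.{0}} (hv : ∀ i, v i ∈ M.W) :
    Sat (ext M.W G : Set ZFSet) IMem φ (val G ∘ v) ↔ ∃ p ∈ G, F.Frc φ v p := by
  induction φ generalizing v with
  | rel k i j =>
    cases k with
    | zero =>
      refine Iff.trans ?_ (hG.val_mem_iff (hv i) (hv j))
      exact ⟨fun h => h.2, fun h => ⟨rfl, h⟩⟩
    | succ k =>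
      exact ⟨fun h => absurd h.1 (Nat.succ_ne_zero k), fun ⟨_, _, h⟩ => h.elim⟩
  | eq i j => exact hG.val_eq_iff (hv i) (hv j)
  | bot => exact ⟨fun h => h.elim, fun ⟨_, _, h⟩ => h.elim⟩
  | imp φ ψ ih1 ih2 =>
    rw [sat_imp, ih1 hv, ih2 hv]
    constructor
    · intro h
      have h0 := fb_df_frc (F := F) (.imp φ ψ) hv
      have h1 := fb_df_frc (F := F) φ hv
      have h2 := fb_df_frc (F := F) ψ hv
      have h3 : DfF M fun q : ι => ∀ r, r ∈ F.P → F.le r q → ¬ F.Frc ψ v r :=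
        DfF.ball (S := fun _ => F.P) (s := fun q r => F.le r q → ¬ F.Frc ψ v r) (DfF.const F.hP)
          ((DfF.fle (DfF.snd DfF.id) (DfF.fst DfF.id)).imp (h2.comp (DfF.snd DfF.id)).not)
      obtain ⟨q, hq, h4⟩ := fb_meet hG (h0.or (h1.and h3)) fun p hp => by
        by_cases hc : F.Frc (.imp φ ψ) v p
        · exact ⟨p, hp, F.refl p, Or.inl hc⟩
        · have hc' : ¬ ∀ q ∈ F.P, F.le q p → F.Frc φ v q → F.Frc ψ v q := hc
          push Not at hc'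
          obtain ⟨q, hq, h5, h6, h7⟩ := hc'
          have h8 := mt (Fo.frc_of_dense hq) h7
          push Not at h8
          obtain ⟨q', hq', h9, h10⟩ := h8
          exact ⟨q', hq', F.trans _ _ _ h9 h5, Or.inr ⟨h6.mono h9, h10⟩⟩
      rcases h4 with h4 | ⟨h4, h5⟩
      · exact ⟨q, hq, h4⟩
      · obtain ⟨r0, hr0, h6⟩ := h ⟨q, hq, h4⟩
        obtain ⟨r, hr, h7, h8⟩ := hG.dir q hq r0 hr0
        exact absurd (h6.mono h8) (h5 r (hG.sub hr) h7)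
    · rintro ⟨p, hp, h⟩ ⟨q, hq, h1⟩
      obtain ⟨r, hr, h2, h3⟩ := hG.dir p hp q hq
      exact ⟨r, hr, h r (hG.sub hr) h2 (h1.mono h3)⟩
  | all φ ih =>
    have key : Sat (ext M.W G : Set ZFSet) IMem (.all φ) (val G ∘ v) ↔
        ∀ σ ∈ M.W, ∃ p ∈ G, F.Frc φ (cons σ v) p := by
      rw [sat_all]
      constructor
      · intro h σ hσ
        have h1 := h (val G σ) (mem_ext.2 ⟨σ, hσ, rfl⟩)
        rw [← comp_cons] at h1
        exact (ih (cons_mem (D := (M.W : Set ZFSet)) hσ hv)).1 h1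
      · intro h x hx
        obtain ⟨σ, hσ, rfl⟩ := mem_ext.1 hx
        rw [← comp_cons]
        exact (ih (cons_mem (D := (M.W : Set ZFSet)) hσ hv)).2 (h σ hσ)
    rw [key]
    constructor
    · intro h
      have h0 := fb_df_frc (F := F) (.all φ) hv
      have h1 := fb_df_frc_cons (F := F) φ hv
      have h3 : DfF M fun q : ι =>
          ∃ σ, σ ∈ M.W ∧ ∀ r, r ∈ F.P → F.le r q → ¬ F.Frc φ (cons σ v) r := by
        refine DfF.zexW (r := fun q σ => ∀ r, r ∈ F.P → F.le r q → ¬ F.Frc φ (cons σ v) r) ?_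
        refine DfF.ball (S := fun _ => F.P)
          (s := fun (x : ι × ZFSet) r => F.le r x.1 → ¬ F.Frc φ (cons x.2 v) r) (DfF.const F.hP) ?_
        refine (DfF.fle (DfF.snd DfF.id) (DfF.fst (DfF.fst DfF.id))).imp (DfF.not ?_)
        exact DfF.comp (f := fun x : (ι × ZFSet) × ι => (x.1.2, x.2)) h1
          ((DfF.snd (DfF.fst DfF.id)).prodMk (DfF.snd DfF.id))
      obtain ⟨q, hq, h4⟩ := fb_meet hG (h0.or h3) fun p hp => by
        by_cases hc : F.Frc (.all φ) v p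
        · exact ⟨p, hp, F.refl p, Or.inl hc⟩
        · have hc' : ¬ ∀ σ ∈ M.W, F.Frc φ (cons σ v) p := hc
          push Not at hc'
          obtain ⟨σ, hσ, h7⟩ := hc'
          have h8 := mt (Fo.frc_of_dense hp) h7
          push Not at h8
          obtain ⟨q', hq', h9, h10⟩ := h8
          exact ⟨q', hq', h9, Or.inr ⟨σ, hσ, h10⟩⟩
      rcases h4 with h4 | ⟨σ, hσ, h5⟩
      · exact ⟨q, hq, h4⟩
      · obtain ⟨r0, hr0, h6⟩ := h σ hσ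
        obtain ⟨r, hr, h7, h8⟩ := hG.dir q hq r0 hr0
        exact absurd (h6.mono h8) (h5 r (hG.sub hr) h7)
    · rintro ⟨p, hp, h⟩ σ hσ
      exact ⟨p, hp, h σ hσ⟩

end Pool.Agent.MP_c70ddc_lc.H1
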