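import Pool.Agent.MP_c70ddc_lc.H1.KDefs

/-! Closure properties of definable functions (module KA). -/

namespace Pool.Agent.MP_c70ddc_lc.H1

universe u v w

variable {M : Md} {α : Type u} {β : Type v} {γ : Type w} [Cd α] [Cd β] [Cd γ]

section ka

lemma ka_mix_mem {v c : ℕ → ZFSet.{0}} (hv : ∀ i, v i ∈ M.W) (hc : ∀ i, c i ∈ M.W) :
    ∀ i, mix v c i ∈ M.W := fun i => by
  unfold mix; split_ifs
  exacts [hv _, hc _]

lemma ka_mix_even (v c : ℕ → ZFSet.{0}) (i : ℕ) : mix v c (2 * i) = v i := by simp [mix]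

lemma ka_mix_odd (v c : ℕ → ZFSet.{0}) (i : ℕ) : mix v c (2 * i + 1) = c i := by
  have h1 : (2 * i + 1) % 2 ≠ 0 := by omega
  have h2 : (2 * i + 1) / 2 = i := by omega
  simp only [mix, h1, h2, if_false]

lemma ka_nat_cases {P : ℕ → Prop} (h0 : ∀ i, P (2 * i)) (h1 : ∀ i, P (2 * i + 1)) (n : ℕ) :
    P n := by
  obtain ⟨i, rfl | rfl⟩ := Nat.even_or_odd' n
  exacts [h0 i, h1 i]

/-- a renaming given on even and on odd numbers -/
def kaEO (f g : ℕ → ℕ) : ℕ → ℕ := fun n => if n % 2 = 0 then f (n / 2) else g (n / 2)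

lemma ka_eo_even (f g : ℕ → ℕ) (i : ℕ) : kaEO f g (2 * i) = f i := by simp [kaEO]

lemma ka_eo_odd (f g : ℕ → ℕ) (i : ℕ) : kaEO f g (2 * i + 1) = g i := by
  have h1 : (2 * i + 1) % 2 ≠ 0 := by omega
  have h2 : (2 * i + 1) / 2 = i := by omega
  simp only [kaEO, h1, h2, if_false]

/-- the renaming that moves the new variable out of the interleaving -/
def kaS : ℕ → ℕ := kaEO (cons 0 fun k => 2 * k + 1) fun k => 2 * k + 1 + 1

lemma ka_mix_cons (x : ZFSet.{0}) (v c : ℕ → ZFSet.{0}) :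
    cons x (mix v c) ∘ kaS = mix (cons x v) c := by
  funext n
  refine ka_nat_cases (P := fun n => (cons x (mix v c) ∘ kaS) n = mix (cons x v) c n)
    (fun i => ?_) (fun i => ?_) n
  · simp only [Function.comp, kaS, ka_eo_even, ka_mix_even]
    cases i with
    | zero => rfl
    | succ i => simp only [cons_succ, ka_mix_even]
  · simp only [Function.comp, kaS, ka_eo_odd, ka_mix_odd, cons_succ]

variable {P P' : (ℕ → ZFSet.{0}) → Prop}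

lemma ka_congr (h : DU M P) (e : ∀ v, (∀ i, v i ∈ M.W) → (P v ↔ P' v)) : DU M P' := by
  obtain ⟨φ, c, hc, h⟩ := h
  exact ⟨φ, c, hc, fun v hv => (h v hv).trans (e v hv)⟩

lemma ka_rel (k i j : ℕ) : DU M fun v => M.I k (v i) (v j) :=
  ⟨.rel k (2 * i) (2 * j), fun _ => ZFSet.omega, fun _ => M.h.omega, fun v _ => by
    rw [sat_rel, ka_mix_even, ka_mix_even]⟩

lemma ka_mem (i j : ℕ) : DU M fun v => v i ∈ v j :=
  ka_congr (ka_rel 0 i j) fun _ _ => M.h.h0 _ _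

lemma ka_eq (i j : ℕ) : DU M fun v => v i = v j :=
  ⟨.eq (2 * i) (2 * j), fun _ => ZFSet.omega, fun _ => M.h.omega, fun v _ => by
    rw [sat_eq, ka_mix_even, ka_mix_even]⟩

lemma ka_const (i : ℕ) {c : ZFSet.{0}} (hc : c ∈ M.W) : DU M fun v => v i = c :=
  ⟨.eq (2 * i) (2 * 0 + 1), fun _ => c, fun _ => hc, fun v _ => by
    rw [sat_eq, ka_mix_even, ka_mix_odd]⟩

lemma ka_bot : DU M fun _ => False :=
  ⟨.bot, fun _ => ZFSet.omega, fun _ => M.h.omega, fun _ _ => Iff.rfl⟩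

lemma ka_imp (h : DU M P) (h' : DU M P') : DU M fun v => P v → P' v := by
  obtain ⟨φ, c, hc, h⟩ := h
  obtain ⟨ψ, d, hd, h'⟩ := h'
  refine ⟨.imp (φ.ren (kaEO (2 * ·) fun k => 2 * (2 * k) + 1))
    (ψ.ren (kaEO (2 * ·) fun k => 2 * (2 * k + 1) + 1)), mix c d, ka_mix_mem hc hd, fun v hv => ?_⟩
  have e1 : mix v (mix c d) ∘ kaEO (2 * ·) (fun k => 2 * (2 * k) + 1) = mix v c :=
    funext (ka_nat_cases (fun i => by simp only [Function.comp, ka_eo_even, ka_mix_even])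
      fun i => by simp only [Function.comp, ka_eo_odd, ka_mix_even, ka_mix_odd])
  have e2 : mix v (mix c d) ∘ kaEO (2 * ·) (fun k => 2 * (2 * k + 1) + 1) = mix v d :=
    funext (ka_nat_cases (fun i => by simp only [Function.comp, ka_eo_even, ka_mix_even])
      fun i => by simp only [Function.comp, ka_eo_odd, ka_mix_odd])
  rw [sat_imp, sat_ren, sat_ren, e1, e2, h v hv, h' v hv]

lemma ka_all (h : DU M P) : DU M fun v => ∀ x ∈ M.W, P (cons x v) := by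
  obtain ⟨φ, c, hc, h⟩ := h
  refine ⟨.all (φ.ren kaS), c, hc, fun v hv => ?_⟩
  rw [sat_all]
  refine forall_congr' fun x => forall_congr' fun hx => ?_
  rw [sat_ren, ka_mix_cons]
  exact h _ (cons_mem (D := (M.W : Set ZFSet)) hx hv)

lemma ka_ren (h : DU M P) (σ : ℕ → ℕ) : DU M fun v => P (v ∘ σ) := by
  obtain ⟨φ, c, hc, h⟩ := h
  refine ⟨φ.ren (kaEO (fun k => 2 * σ k) fun k => 2 * k + 1), c, hc, fun v hv => ?_⟩
  have e : mix v c ∘ kaEO (fun k => 2 * σ k) (fun k => 2 * k + 1) = mix (v ∘ σ) c :=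
    funext (ka_nat_cases (fun i => by simp only [Function.comp, ka_eo_even, ka_mix_even])
      fun i => by simp only [Function.comp, ka_eo_odd, ka_mix_odd])
  rw [sat_ren, e]
  exact h _ fun i => hv _

lemma ka_not (h : DU M P) : DU M fun v => ¬ P v := ka_imp h ka_bot

lemma ka_and (h : DU M P) (h' : DU M P') : DU M fun v => P v ∧ P' v :=
  ka_congr (ka_not (ka_imp h (ka_not h'))) fun _ _ => by tauto

lemma ka_or (h : DU M P) (h' : DU M P') : DU M fun v => P v ∨ P' v :=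
  ka_congr (ka_imp (ka_not h) h') fun _ _ => by tauto

lemma ka_iff (h : DU M P) (h' : DU M P') : DU M fun v => P v ↔ P' v :=
  ka_congr (ka_and (ka_imp h h') (ka_imp h' h)) fun _ _ => iff_def.symm

lemma ka_ex (h : DU M P) : DU M fun v => ∃ x ∈ M.W, P (cons x v) :=
  ka_congr (ka_not (ka_all (ka_not h))) fun _ _ => by simp

lemma ka_app2 {R : ZFSet.{0} → ZFSet.{0} → Prop} (h : DU M fun v => R (v 0) (v 1)) (i j : ℕ) :
    DU M fun v => R (v i) (v j) := ka_ren h (cons i fun _ => j)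

lemma ka_app1 {Q : ZFSet.{0} → Prop} (h : DU M fun v => Q (v 0)) (i : ℕ) :
    DU M fun v => Q (v i) := ka_ren h fun _ => i

lemma ka_ext {y z : ZFSet.{0}} (hy : y ∈ M.W) (hz : z ∈ M.W) :
    (∀ t ∈ M.W, t ∈ y ↔ t ∈ z) ↔ y = z :=
  ⟨fun h => ZFSet.ext fun t => ⟨fun ht => (h t (M.h.trans _ hy _ ht)).1 ht,
    fun ht => (h t (M.h.trans _ hz _ ht)).2 ht⟩, fun e _ _ => e ▸ Iff.rfl⟩

lemma ka_of_ext {y z : ZFSet.{0}} (h : y ∈ M.W) (e : ∀ t, t ∈ y ↔ t ∈ z) : z ∈ M.W :=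
  ZFSet.ext e ▸ h

lemma ka_upair (i j k : ℕ) : DU M fun v => v i = {v j, v k} :=
  ka_congr (ka_all (ka_iff (ka_mem 0 (i + 1)) (ka_or (ka_eq 0 (j + 1)) (ka_eq 0 (k + 1)))))
    fun v hv => by
      rw [← ka_ext (hv i) (M.h.pair _ (hv j) _ (hv k))]
      simp

lemma ka_sing (x : ZFSet.{0}) : ({x, x} : ZFSet.{0}) = {x} := by ext; simp

lemma ka_sing_mem {x : ZFSet.{0}} (hx : x ∈ M.W) : ({x} : ZFSet.{0}) ∈ M.W :=
  ka_sing x ▸ M.h.pair _ hx _ hx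

lemma ka_pair_mem {x y : ZFSet.{0}} : ZFSet.pair x y ∈ M.W ↔ x ∈ M.W ∧ y ∈ M.W :=
  ⟨fun h => by
    have : ({x, y} : ZFSet) ∈ M.W := M.h.trans _ h _ (by simp [ZFSet.pair])
    exact ⟨M.h.trans _ this _ (by simp), M.h.trans _ this _ (by simp)⟩,
    fun h => M.h.pair _ (ka_sing_mem h.1) _ (M.h.pair _ h.1 _ h.2)⟩

lemma ka_pair (i j k : ℕ) : DU M fun v => v i = ZFSet.pair (v j) (v k) :=
  ka_congr (ka_ex (ka_ex (ka_and (ka_upair 0 (j + 2) (j + 2))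
    (ka_and (ka_upair 1 (j + 2) (k + 2)) (ka_upair (i + 2) 0 1))))) fun v hv => by
      simp only [cons_zero, cons_succ, ka_sing]
      exact ⟨fun ⟨_, _, _, _, e1, e2, e3⟩ => by rw [e3, e1, e2]; rfl,
        fun e => ⟨_, M.h.pair _ (hv j) _ (hv k), _, ka_sing_mem (hv j), rfl, rfl, e⟩⟩

lemma ka_atPair {Q : ZFSet.{0} → Prop} (h : DU M fun v => Q (v 0)) (i j : ℕ) :
    DU M fun v => Q (ZFSet.pair (v i) (v j)) :=
  ka_congr (ka_ex (ka_and (ka_pair 0 (i + 1) (j + 1)) h)) fun v hv =>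
    ⟨fun ⟨_, _, e, hq⟩ => (show _ = ZFSet.pair (v i) (v j) from e) ▸ hq,
      fun hq => ⟨_, ka_pair_mem.2 ⟨hv i, hv j⟩, rfl, hq⟩⟩

lemma ka_sep (h : DU M P) {v : ℕ → ZFSet.{0}} (hv : ∀ i, v i ∈ M.W) {a : ZFSet.{0}}
    (ha : a ∈ M.W) : a.sep (fun x => P (cons x v)) ∈ M.W := by
  obtain ⟨φ, c, hc, h⟩ := h
  have := M.h.sep (φ.ren kaS) (mix v c) (ka_mix_mem hv hc) a ha
  refine ka_of_ext this fun x => ?_
  simp only [ZFSet.mem_sep, sat_ren, ka_mix_cons]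
  exact and_congr_right fun hx => h _ (cons_mem (D := (M.W : Set ZFSet)) (M.h.trans _ ha _ hx) hv)

lemma ka_coll (h : DU M P) {v : ℕ → ZFSet.{0}} (hv : ∀ i, v i ∈ M.W) {a : ZFSet.{0}}
    (ha : a ∈ M.W) : ∃ b ∈ M.W, ∀ x ∈ a, (∃ y ∈ M.W, P (cons y (cons x v))) →
      ∃ y ∈ b, P (cons y (cons x v)) := by
  obtain ⟨φ, c, hc, h⟩ := h
  obtain ⟨b, hb, h1⟩ := M.h.coll ((φ.ren kaS).ren (up kaS)) (mix v c) (ka_mix_mem hv hc) a ha
  simp only [sat_ren, cons_comp_up, ka_mix_cons] at h1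
  refine ⟨b, hb, fun x hx ⟨y, hy, hp⟩ => ?_⟩
  have key : ∀ y ∈ M.W, ∀ i, cons y (cons x v) i ∈ M.W := fun y hy =>
    cons_mem (D := (M.W : Set ZFSet)) hy (cons_mem (M.h.trans _ ha _ hx) hv)
  obtain ⟨y', hy', hp'⟩ := h1 x hx ⟨y, hy, (h _ (key y hy)).2 hp⟩
  exact ⟨y', hy', (h _ (key y' (M.h.trans _ hb _ hy'))).1 hp'⟩

lemma ka_num_mem (n : ℕ) : num n ∈ M.W := M.h.trans _ M.h.omega _ (mem_omega.2 ⟨n, rfl⟩)

lemma ka_cd_true {p : Prop} (h : p) : cd p = num 1 := if_pos h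

lemma ka_cd_false {p : Prop} (h : ¬ p) : cd p = num 0 := if_neg h

lemma ka_inW_prop (p : Prop) : InW M.W p := ⟨by
  by_cases h : p
  · rw [ka_cd_true h]; exact ka_num_mem 1
  · rw [ka_cd_false h]; exact ka_num_mem 0⟩

lemma ka_pred {p : α → Prop} {Q : ZFSet.{0} → Prop} (hQ : DU M fun v => Q (v 0))
    (h : ∀ a, InW M.W a → (Q (cd a) ↔ p a)) : DfF M p :=
  ⟨fun _ _ => ka_inW_prop _, fun x y => (Q x ∧ y = num 1) ∨ (¬ Q x ∧ y = num 0),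
    ka_or (ka_and hQ (ka_const 1 (ka_num_mem 1))) (ka_and (ka_not hQ) (ka_const 1 (ka_num_mem 0))),
    fun a ha y _ => by
      beta_reduce
      rw [h a ha]
      by_cases hp : p a
      · rw [ka_cd_true hp]; simp [hp]
      · rw [ka_cd_false hp]; simp [hp]⟩

lemma ka_toDU {p : α → Prop} (hp : DfF M p) :
    ∃ Q : ZFSet.{0} → Prop, DU M (fun v => Q (v 0)) ∧ ∀ a, InW M.W a → (Q (cd a) ↔ p a) := by
  obtain ⟨R, hR, h⟩ := hp.ex
  refine ⟨fun x => R x (num 1), ka_congr (ka_ex (ka_and (ka_const 0 (ka_num_mem 1))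
    (ka_app2 hR 1 0))) fun v _ => ⟨fun ⟨_, _, e, hr⟩ => (show _ = num 1 from e) ▸ hr,
      fun hr => ⟨_, ka_num_mem 1, rfl, hr⟩⟩, fun a ha => ?_⟩
  beta_reduce
  rw [h a ha _ (ka_num_mem 1)]
  refine ⟨fun e => by_contra fun hn => ?_, fun hp => (ka_cd_true hp).symm⟩
  rw [ka_cd_false hn] at e
  exact one_ne_zero (num_inj e)

lemma ka_toDU2 {r : α → β → Prop} (h : DfF M fun x : α × β => r x.1 x.2) :
    ∃ Q : ZFSet.{0} → Prop, DU M (fun v => Q (v 0)) ∧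
      ∀ a b, InW M.W a → InW M.W b → (Q (ZFSet.pair (cd a) (cd b)) ↔ r a b) := by
  obtain ⟨Q, hQ, h⟩ := ka_toDU h
  exact ⟨Q, hQ, fun a b ha hb => h (a, b) ⟨ka_pair_mem.2 ⟨ha.1, hb.1⟩⟩⟩

lemma ka_graph {f : α → β} {p : α → ZFSet.{0} → Prop} (hf : ∀ a, InW M.W a → InW M.W (f a))
    (hp : DfF M fun x : α × ZFSet => p x.1 x.2)
    (h : ∀ a, InW M.W a → ∀ y ∈ M.W, (p a y ↔ y = cd (f a))) : DfF M f := by
  obtain ⟨Q, hQ, h'⟩ := ka_toDU2 hp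
  exact ⟨hf, fun x y => Q (ZFSet.pair x y), ka_atPair hQ 0 1,
    fun a ha y hy => (h' a y ha ⟨hy⟩).trans (h a ha y hy)⟩

lemma ka_bin {T : ZFSet.{0} → ZFSet.{0} → Prop} (hT : DU M fun v => T (v 0) (v 1)) {f : α → β}
    {g : α → γ} (hf : DfF M f) (hg : DfF M g) : DfF M fun a => T (cd (f a)) (cd (g a)) := by
  obtain ⟨R, hR, h⟩ := hf.ex
  obtain ⟨R', hR', h'⟩ := hg.ex
  refine ka_pred (Q := fun x => ∃ u ∈ M.W, ∃ w ∈ M.W, R x u ∧ R' x w ∧ T u w)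
    (ka_ex (ka_ex (ka_and (ka_app2 hR 2 1) (ka_and (ka_app2 hR' 2 0) (ka_app2 hT 1 0)))))
    fun a ha => ⟨?_, fun ht => ?_⟩
  · rintro ⟨u, hu, w, hw, h1, h2, h3⟩
    rwa [(h a ha u hu).1 h1, (h' a ha w hw).1 h2] at h3
  · have h1 := (hf.1 a ha).1
    have h2 := (hg.1 a ha).1
    exact ⟨_, h1, _, h2, (h a ha _ h1).2 rfl, (h' a ha _ h2).2 rfl, ht⟩

lemma ka_bool {p q : α → Prop} {T : Prop → Prop → Prop}
    (hT : ∀ {P P' : (ℕ → ZFSet.{0}) → Prop}, DU M P → DU M P' → DU M fun v => T (P v) (P' v))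
    (hp : DfF M p) (hq : DfF M q) : DfF M fun a => T (p a) (q a) := by
  obtain ⟨Q, hQ, h⟩ := ka_toDU hp
  obtain ⟨Q', hQ', h'⟩ := ka_toDU hq
  exact ka_pred (Q := fun x => T (Q x) (Q' x)) (hT hQ hQ') fun a ha => by
    rw [propext (h a ha), propext (h' a ha)]

/-- quantification over the elements of `W` that are codes satisfying a definable condition -/
lemma ka_quant {r t : α → β → Prop} {m : α → ZFSet.{0} → Prop}
    (hm : DfF M fun x : α × ZFSet => m x.1 x.2) (h : DfF M fun x : α × β => r x.1 x.2)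
    (e : ∀ a, InW M.W a → ∀ z ∈ M.W, (m a z ↔ ∃ b, t a b ∧ cd b = z))
    (e' : ∀ a, InW M.W a → ∀ b, t a b → InW M.W b) : DfF M fun a => ∀ b, t a b → r a b := by
  obtain ⟨Q, hQ, h⟩ := ka_toDU2 h
  obtain ⟨Q', hQ', h'⟩ := ka_toDU2 hm
  refine ka_pred (Q := fun x => ∀ z ∈ M.W, Q' (ZFSet.pair x z) → Q (ZFSet.pair x z))
    (ka_all (ka_imp (ka_atPair hQ' 1 0) (ka_atPair hQ 1 0))) fun a ha => ⟨fun h1 b hb => ?_, ?_⟩
  · have h2 := e' a ha b hb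
    exact (h a b ha h2).1 (h1 _ h2.1 ((h' a _ ha ⟨h2.1⟩).2 ((e a ha _ h2.1).2 ⟨b, hb, rfl⟩)))
  · intro h1 z hz h2
    obtain ⟨b, hb, rfl⟩ := (e a ha z hz).1 ((h' a z ha ⟨hz⟩).1 h2)
    exact (h a b ha (e' a ha b hb)).2 (h1 b hb)

end ka

section basic

@[simp] lemma cd_zf (z : ZFSet.{0}) : cd z = z := rfl
@[simp] lemma cd_nat (n : ℕ) : cd n = num n := rfl
@[simp] lemma cd_prod (a : α) (b : β) : cd (a, b) = ZFSet.pair (cd a) (cd b) := rfl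
lemma inW_zf {W z : ZFSet.{0}} : InW W z ↔ z ∈ W := ⟨fun h => h.1, fun h => ⟨h⟩⟩
@[simp] lemma mem_zim {f : ZFSet.{0} → ZFSet.{0}} {s y : ZFSet.{0}} :
    y ∈ zim f s ↔ ∃ x ∈ s, f x = y := by simp [zim]

lemma DfF.inW {f : α → β} (hf : DfF M f) {a : α} (ha : InW M.W a) : InW M.W (f a) := hf.1 a ha

lemma DfF.congr {f g : α → β} (hf : DfF M f) (h : ∀ a, InW M.W a → f a = g a) : DfF M g := by
  obtain ⟨R, hR, h'⟩ := hf.ex
  exact ⟨fun a ha => h a ha ▸ hf.1 a ha, R, hR, fun a ha => h a ha ▸ h' a ha⟩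

lemma DfF.congr_iff {p q : α → Prop} (hp : DfF M p) (h : ∀ a, InW M.W a → (p a ↔ q a)) :
    DfF M q := hp.congr fun a ha => propext (h a ha)

lemma DfF.id : DfF M fun a : α => a := ⟨fun _ ha => ha, fun x y => y = x, ka_eq 1 0, fun _ _ _ _ => Iff.rfl⟩
instance (priority := 10000) DfF_id_inst :
    DfP M fun a : α => a :=
  ⟨DfF.id⟩

lemma DfF.const {c : β} (hc : InW M.W c) : DfF M fun _ : α => c :=
  ⟨fun _ _ => hc, fun _ y => y = cd c, ka_const 1 hc.1, fun _ _ _ _ => Iff.rfl⟩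
instance (priority := 900) DfF_const_inst {c : β} [hc : InW M.W c] :
    DfP M fun _ : α => c :=
  ⟨DfF.const hc⟩

lemma DfF.comp {g : β → γ} {f : α → β} (hg : DfF M g) (hf : DfF M f) :
    DfF M fun a => g (f a) := by
  obtain ⟨R, hR, h⟩ := hf.ex
  obtain ⟨R', hR', h'⟩ := hg.ex
  refine ⟨fun a ha => hg.1 _ (hf.1 a ha), fun x y => ∃ w ∈ M.W, R x w ∧ R' w y,
    ka_ex (ka_and (ka_app2 hR 1 0) (ka_app2 hR' 0 2)), fun a ha y hy => ⟨?_, fun e => ?_⟩⟩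
  · rintro ⟨w, hw, h1, h2⟩
    rw [(h a ha w hw).1 h1] at h2
    exact (h' _ (hf.1 a ha) y hy).1 h2
  · exact ⟨_, (hf.1 a ha).1, (h a ha _ (hf.1 a ha).1).2 rfl, (h' _ (hf.1 a ha) y hy).2 e⟩
instance (priority := 700) DfF_comp_inst {g : β → γ} {f : α → β} [hg : DfF M g] [hf : DfF M f] :
    DfP M fun a => g (f a) :=
  ⟨DfF.comp hg hf⟩

lemma DfF.fst {f : α → β × γ} (hf : DfF M f) : DfF M fun a => (f a).1 :=
  DfF.comp (g := fun x : β × γ => x.1) ⟨fun _ ha => ⟨(ka_pair_mem.1 ha.1).1⟩,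
    fun x y => ∃ w ∈ M.W, x = ZFSet.pair y w, ka_ex (ka_pair 1 2 0), fun _ ha _ _ =>
      ⟨fun ⟨_, _, e⟩ => (ZFSet.pair_inj.1 e).1.symm,
        fun e => ⟨_, (ka_pair_mem.1 ha.1).2, e ▸ rfl⟩⟩⟩ hf
instance (priority := 7000) DfF_fst_inst {f : α → β × γ} [hf : DfF M f] :
    DfP M fun a => (f a).1 :=
  ⟨DfF.fst hf⟩

lemma DfF.snd {f : α → β × γ} (hf : DfF M f) : DfF M fun a => (f a).2 :=
  DfF.comp (g := fun x : β × γ => x.2) ⟨fun _ ha => ⟨(ka_pair_mem.1 ha.1).2⟩,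
    fun x y => ∃ w ∈ M.W, x = ZFSet.pair w y, ka_ex (ka_pair 1 0 2), fun _ ha _ _ =>
      ⟨fun ⟨_, _, e⟩ => (ZFSet.pair_inj.1 e).2.symm,
        fun e => ⟨_, (ka_pair_mem.1 ha.1).1, e ▸ rfl⟩⟩⟩ hf
instance (priority := 7000) DfF_snd_inst {f : α → β × γ} [hf : DfF M f] :
    DfP M fun a => (f a).2 :=
  ⟨DfF.snd hf⟩

lemma DfF.prodMk {f : α → β} {g : α → γ} (hf : DfF M f) (hg : DfF M g) :
    DfF M fun a => (f a, g a) := by
  obtain ⟨R, hR, h⟩ := hf.ex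
  obtain ⟨R', hR', h'⟩ := hg.ex
  refine ⟨fun a ha => ⟨ka_pair_mem.2 ⟨(hf.1 a ha).1, (hg.1 a ha).1⟩⟩,
    fun x y => ∃ u ∈ M.W, ∃ w ∈ M.W, R x u ∧ R' x w ∧ y = ZFSet.pair u w,
    ka_ex (ka_ex (ka_and (ka_app2 hR 2 1) (ka_and (ka_app2 hR' 2 0) (ka_pair 3 1 0)))),
    fun a ha y _ => ⟨?_, fun e => ?_⟩⟩
  · rintro ⟨u, hu, w, hw, h1, h2, h3⟩
    rw [h3, (h a ha u hu).1 h1, (h' a ha w hw).1 h2]
    rfl
  · have h1 := (hf.1 a ha).1
    have h2 := (hg.1 a ha).1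
    exact ⟨_, h1, _, h2, (h a ha _ h1).2 rfl, (h' a ha _ h2).2 rfl, e⟩
instance (priority := 7000) DfF_prodMk_inst {f : α → β} {g : α → γ} [hf : DfF M f] [hg : DfF M g] :
    DfP M fun a => (f a, g a) :=
  ⟨DfF.prodMk hf hg⟩

lemma DfF.comp2 {δ : Type*} [Cd δ] {k : β → γ → δ} {f : α → β} {g : α → γ}
    (hk : DfF M fun x : β × γ => k x.1 x.2) (hf : DfF M f) (hg : DfF M g) :
    DfF M fun a => k (f a) (g a) :=
  DfF.comp (g := fun x : β × γ => k x.1 x.2) (f := fun a => (f a, g a)) hk (hf.prodMk hg)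
instance (priority := 650) DfF_comp2_inst {δ : Type*} [Cd δ] {k : β → γ → δ} {f : α → β}
    {g : α → γ} [hk : DfF M fun x : β × γ => k x.1 x.2] [hf : DfF M f] [hg : DfF M g] :
    DfP M fun a => k (f a) (g a) :=
  ⟨DfF.comp2 hk hf hg⟩

lemma inW_num (n : ℕ) : InW M.W n := ⟨ka_num_mem n⟩

lemma InW.of_df {c : β} (h : DfF M fun _ : ℕ => c) : InW M.W c := h.inW (inW_num 0)
instance (priority := 10) InW_of_df_inst {c : β} [h : DfF M fun _ : ℕ => c] :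
    InW M.W c :=
  InW.of_df h

lemma inW_prod {a : α} {b : β} : InW M.W (a, b) ↔ InW M.W a ∧ InW M.W b :=
  ⟨fun h => ⟨⟨(ka_pair_mem.1 h.1).1⟩, ⟨(ka_pair_mem.1 h.1).2⟩⟩,
    fun h => ⟨ka_pair_mem.2 ⟨h.1.1, h.2.1⟩⟩⟩

lemma InW.pair {a : α} {b : β} (ha : InW M.W a) (hb : InW M.W b) : InW M.W (a, b) :=
  inW_prod.2 ⟨ha, hb⟩

lemma InW.fst {p : α × β} (h : InW M.W p) : InW M.W p.1 := (inW_prod.1 h).1
lemma InW.snd {p : α × β} (h : InW M.W p) : InW M.W p.2 := (inW_prod.1 h).2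

lemma cd_mem_cd {κ : Type} [Cd κ] {a : κ} {S : Set κ} : cd a ∈ cd S ↔ a ∈ S :=
  ZFSet.mem_range.trans ⟨fun ⟨b, hb⟩ => Cd.inj hb ▸ b.2, fun h => ⟨⟨a, h⟩, rfl⟩⟩
lemma mem_cd_set {κ : Type} [Cd κ] {z : ZFSet} {S : Set κ} : z ∈ cd S ↔ ∃ a ∈ S, cd a = z :=
  ZFSet.mem_range.trans ⟨fun ⟨b, hb⟩ => ⟨b.1, b.2, hb⟩, fun ⟨a, h, e⟩ => ⟨⟨a, h⟩, e⟩⟩
lemma mem_cd_fun {ι : Type} [Cd ι] {z : ZFSet} {f : ι → β} :
    z ∈ cd f ↔ ∃ i, ZFSet.pair (cd i) (cd (f i)) = z := ZFSet.mem_range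

lemma InW.of_mem {κ : Type} [Cd κ] {S : Set κ} (h : InW M.W S) {a : κ} (ha : a ∈ S) : InW M.W a :=
  ⟨M.h.trans _ h.1 _ (cd_mem_cd.2 ha)⟩

lemma InW.app {ι : Type} [Cd ι] {f : ι → β} (h : InW M.W f) (i : ι) : InW M.W (f i) :=
  ⟨(ka_pair_mem.1 (M.h.trans _ h.1 _ (mem_cd_fun.2 ⟨i, rfl⟩))).2⟩

lemma InW.hf {κ : Type} [Cd κ] [HF M κ] (a : κ) : InW M.W a := HF.univ.of_mem (Set.mem_univ a)
instance (priority := 10000) InW_hf_inst {κ : Type} [Cd κ] [HF M κ] (a : κ) :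
    InW M.W a :=
  InW.hf a

lemma DfF.constHF {κ : Type} [Cd κ] [HF M κ] (c : κ) : DfF M fun _ : α => c :=
  DfF.const (InW.hf c)
instance (priority := 10000) DfF_constHF_inst {κ : Type} [Cd κ] [HF M κ] (c : κ) :
    DfP M fun _ : α => c :=
  ⟨DfF.constHF c⟩

/-- a definable predicate extends to a definable predicate on all sets -/
lemma DfF.toQ {p : α → Prop} (hp : DfF M p) :
    ∃ Q : ZFSet → Prop, DfF M Q ∧ ∀ a, InW M.W a → (Q (cd a) ↔ p a) := by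
  obtain ⟨Q, hQ, h⟩ := ka_toDU hp
  exact ⟨Q, ka_pred hQ fun _ _ => Iff.rfl, h⟩

/-- definability only depends on the codes of the values -/
lemma DfF.recode {f : α → β} (hf : DfF M fun a => cd (f a)) : DfF M f :=
  ⟨fun a ha => ⟨(hf.1 a ha).1⟩, hf.2⟩

/-- a function whose graph is a definable relation -/
lemma DfF.of_graph [TyD M β] {f : α → β} {p : α → β → Prop} (hp : DfF M fun x : α × β => p x.1 x.2)
    (hf : ∀ a, InW M.W a → InW M.W (f a))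
    (h : ∀ a b, InW M.W a → InW M.W b → (p a b ↔ b = f a)) : DfF M f := by
  obtain ⟨Q, hQ, h1⟩ := ka_toDU2 hp
  obtain ⟨Q', hQ', h2⟩ := ka_toDU (TyD.df (M := M) (β := β))
  refine ⟨hf, fun x y => Q' y ∧ Q (ZFSet.pair x y), ka_and (ka_app1 hQ' 1) (ka_atPair hQ 0 1),
    fun a ha y hy => ⟨fun ⟨h3, h4⟩ => ?_, fun e => ?_⟩⟩
  · obtain ⟨b, rfl⟩ := (h2 y ⟨hy⟩).1 h3
    rw [(h a b ha ⟨hy⟩).1 ((h1 a b ha ⟨hy⟩).1 h4)]
  · subst e
    exact ⟨(h2 _ ⟨hy⟩).2 ⟨_, rfl⟩, (h1 a _ ha ⟨hy⟩).2 ((h a _ ha ⟨hy⟩).2 rfl)⟩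

end basic

section logic

variable {p q : α → Prop}

lemma DfF.imp (hp : DfF M p) (hq : DfF M q) : DfF M fun a => p a → q a :=
  ka_bool (T := fun x y => x → y) ka_imp hp hq
instance (priority := 7000) DfF_imp_inst [hp : DfF M p] [hq : DfF M q] :
    DfP M fun a => p a → q a :=
  ⟨DfF.imp hp hq⟩
lemma DfF.not (hp : DfF M p) : DfF M fun a => ¬ p a :=
  ka_bool (T := fun x _ => ¬ x) (fun h _ => ka_not h) hp hp
instance (priority := 7000) DfF_not_inst [hp : DfF M p] :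
    DfP M fun a => ¬ p a :=
  ⟨DfF.not hp⟩
lemma DfF.and (hp : DfF M p) (hq : DfF M q) : DfF M fun a => p a ∧ q a :=
  ka_bool (T := And) ka_and hp hq
instance (priority := 7000) DfF_and_inst [hp : DfF M p] [hq : DfF M q] :
    DfP M fun a => p a ∧ q a :=
  ⟨DfF.and hp hq⟩
lemma DfF.or (hp : DfF M p) (hq : DfF M q) : DfF M fun a => p a ∨ q a :=
  ka_bool (T := Or) ka_or hp hq
instance (priority := 7000) DfF_or_inst [hp : DfF M p] [hq : DfF M q] :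
    DfP M fun a => p a ∨ q a :=
  ⟨DfF.or hp hq⟩
lemma DfF.iff (hp : DfF M p) (hq : DfF M q) : DfF M fun a => p a ↔ q a :=
  ka_bool (T := Iff) ka_iff hp hq
instance (priority := 7000) DfF_iff_inst [hp : DfF M p] [hq : DfF M q] :
    DfP M fun a => p a ↔ q a :=
  ⟨DfF.iff hp hq⟩
lemma DfF.eq {f g : α → β} (hf : DfF M f) (hg : DfF M g) : DfF M fun a => f a = g a :=
  (ka_bin (T := Eq) (ka_eq 0 1) hf hg).congr_iff fun _ _ => Cd.inj.eq_iff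
instance (priority := 5000) DfF_eq_inst {f g : α → β} [hf : DfF M f] [hg : DfF M g] :
    DfP M fun a => f a = g a :=
  ⟨DfF.eq hf hg⟩
lemma DfF.inW' {f : α → β} (hf : DfF M f) : DfF M fun a => InW M.W (f a) :=
  (DfF.const (ka_inW_prop True)).congr_iff fun a ha => (iff_true_intro (hf.1 a ha)).symm
instance (priority := 5000) DfF_inWP_inst {f : α → β} [hf : DfF M f] :
    DfP M fun a => InW M.W (f a) :=
  ⟨DfF.inW' hf⟩
lemma DfF.ite {f g : α → β} {d : ∀ a, Decidable (p a)} (hp : DfF M p) (hf : DfF M f)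
    (hg : DfF M g) : DfF M fun a => @ite _ (p a) (d a) (f a) (g a) := by
  have e : ∀ {k : α → β}, DfF M k → DfF M fun x : α × ZFSet => x.2 = H1.cd (k x.1) := fun hk =>
    ka_bin (T := Eq) (ka_eq 0 1) DfF.id.snd (hk.comp DfF.id.fst)
  refine ka_graph (p := fun a y => (p a ∧ y = H1.cd (f a)) ∨ (¬ p a ∧ y = H1.cd (g a)))
    (fun a ha => ?_) (((hp.comp DfF.id.fst).and (e hf)).or ((hp.comp DfF.id.fst).not.and (e hg)))
    fun a _ y _ => ?_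
  · split_ifs
    exacts [hf.1 a ha, hg.1 a ha]
  · by_cases h : p a <;> simp [h]
instance (priority := 7000) DfF_ite_inst {f g : α → β} {d : ∀ a, Decidable (p a)} [hp : DfF M p]
    [hf : DfF M f] [hg : DfF M g] :
    DfP M fun a => @ite _ (p a) (d a) (f a) (g a) :=
  ⟨DfF.ite hp hf hg⟩

variable {r : α → β → Prop}

lemma DfF.allW [TyD M β] (h : DfF M fun x : α × β => r x.1 x.2) :
    DfF M fun a => ∀ b, InW M.W b → r a b :=
  ka_quant (m := fun _ z => ∃ b : β, H1.cd b = z) (TyD.df.comp DfF.id.snd) h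
    (fun _ _ _ hz => ⟨fun ⟨b, e⟩ => ⟨b, ⟨e ▸ hz⟩, e⟩, fun ⟨b, _, e⟩ => ⟨b, e⟩⟩) fun _ _ _ hb => hb
instance (priority := 8000) DfF_allW_inst [TyD M β] [h : DfF M fun x : α × β => r x.1 x.2] :
    DfP M fun a => ∀ b, InW M.W b → r a b :=
  ⟨DfF.allW h⟩
lemma DfF.exW [TyD M β] (h : DfF M fun x : α × β => r x.1 x.2) :
    DfF M fun a => ∃ b, InW M.W b ∧ r a b :=
  (DfF.allW (r := fun a b => ¬ r a b) h.not).not.congr_iff fun _ _ => by simp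
instance (priority := 8000) DfF_exW_inst [TyD M β] [h : DfF M fun x : α × β => r x.1 x.2] :
    DfP M fun a => ∃ b, InW M.W b ∧ r a b :=
  ⟨DfF.exW h⟩

variable {κ : Type} [Cd κ] {s : α → κ → Prop} {S T : α → Set κ}

lemma ka_ball (hS : DfF M S) (h : DfF M fun x : α × κ => s x.1 x.2) :
    DfF M fun a => ∀ b, b ∈ S a → s a b :=
  ka_quant (m := fun a z => z ∈ H1.cd (S a))
    (ka_bin (T := fun x y => x ∈ y) (ka_mem 0 1) DfF.id.snd (hS.comp DfF.id.fst)) h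
    (fun _ _ _ _ => mem_cd_set) fun a ha _ hb => (hS.1 a ha).of_mem hb

lemma DfF.allHF [HF M κ] (h : DfF M fun x : α × κ => s x.1 x.2) : DfF M fun a => ∀ b, s a b :=
  (ka_ball (S := fun _ => Set.univ) (DfF.const HF.univ) h).congr_iff fun _ _ => by simp
instance (priority := 6000) DfF_allHF_inst [HF M κ] [h : DfF M fun x : α × κ => s x.1 x.2] :
    DfP M fun a => ∀ b, s a b :=
  ⟨DfF.allHF h⟩
lemma DfF.exHF [HF M κ] (h : DfF M fun x : α × κ => s x.1 x.2) : DfF M fun a => ∃ b, s a b :=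
  (DfF.allHF (s := fun a b => ¬ s a b) h.not).not.congr_iff fun _ _ => by simp
instance (priority := 6000) DfF_exHF_inst [HF M κ] [h : DfF M fun x : α × κ => s x.1 x.2] :
    DfP M fun a => ∃ b, s a b :=
  ⟨DfF.exHF h⟩
lemma DfF.ball (hS : DfF M S) (h : DfF M fun x : α × κ => s x.1 x.2) :
    DfF M fun a => ∀ b, b ∈ S a → s a b := ka_ball hS h
instance (priority := 5500) DfF_ball_inst [hS : DfF M S] [h : DfF M fun x : α × κ => s x.1 x.2] :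
    DfP M fun a => ∀ b, b ∈ S a → s a b :=
  ⟨DfF.ball hS h⟩
lemma DfF.bex (hS : DfF M S) (h : DfF M fun x : α × κ => s x.1 x.2) :
    DfF M fun a => ∃ b, b ∈ S a ∧ s a b :=
  (DfF.ball (s := fun a b => ¬ s a b) hS h.not).not.congr_iff fun _ _ => by simp
instance (priority := 5500) DfF_bex_inst [hS : DfF M S] [h : DfF M fun x : α × κ => s x.1 x.2] :
    DfP M fun a => ∃ b, b ∈ S a ∧ s a b :=
  ⟨DfF.bex hS h⟩

end logic

section zf

variable {s t : α → ZFSet.{0}} {r : α → ZFSet.{0} → Prop}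

lemma DfF.cd {f : α → β} (hf : DfF M f) : DfF M fun a => cd (f a) :=
  ⟨fun a ha => ⟨(hf.1 a ha).1⟩, hf.2⟩
instance (priority := 7000) DfF_cd_inst {f : α → β} [hf : DfF M f] :
    DfP M fun a => cd (f a) :=
  ⟨DfF.cd hf⟩
lemma DfF.num {f : α → ℕ} (hf : DfF M f) : DfF M fun a => num (f a) := hf.cd
instance (priority := 7000) DfF_num_inst {f : α → ℕ} [hf : DfF M f] :
    DfP M fun a => num (f a) :=
  ⟨DfF.num hf⟩
lemma DfF.rel (k : ℕ) (hs : DfF M s) (ht : DfF M t) : DfF M fun a => M.I k (s a) (t a) :=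
  ka_bin (T := M.I k) (ka_rel k 0 1) hs ht
instance (priority := 7000) DfF_rel_inst (k : ℕ) [hs : DfF M s] [ht : DfF M t] :
    DfP M fun a => M.I k (s a) (t a) :=
  ⟨DfF.rel k hs ht⟩
lemma DfF.zmem (hs : DfF M s) (ht : DfF M t) : DfF M fun a => s a ∈ t a :=
  ka_bin (T := fun x y => x ∈ y) (ka_mem 0 1) hs ht
instance (priority := 5000) DfF_zmem_inst [hs : DfF M s] [ht : DfF M t] :
    DfP M fun a => s a ∈ t a :=
  ⟨DfF.zmem hs ht⟩
lemma DfF.zmemW (hs : DfF M s) : DfF M fun a => s a ∈ M.W := hs.inW'.congr_iff fun _ _ => inW_zf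
instance (priority := 8000) DfF_zmemW_inst [hs : DfF M s] :
    DfP M fun a => s a ∈ M.W :=
  ⟨DfF.zmemW hs⟩
lemma DfF.zsub (hs : DfF M s) (ht : DfF M t) : DfF M fun a => s a ⊆ t a :=
  ka_bin (T := fun x y => x ⊆ y) (ka_congr (ka_all (ka_imp (ka_mem 0 1) (ka_mem 0 2))) fun _ hv =>
    ⟨fun h x hx => h x (M.h.trans _ (hv 0) _ hx) hx, fun h _ _ hx => h hx⟩) hs ht
instance (priority := 5000) DfF_zsub_inst [hs : DfF M s] [ht : DfF M t] :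
    DfP M fun a => s a ⊆ t a :=
  ⟨DfF.zsub hs ht⟩
lemma DfF.zallW (h : DfF M fun x : α × ZFSet => r x.1 x.2) :
    DfF M fun a => ∀ z, z ∈ M.W → r a z :=
  ka_quant (m := fun _ _ => True) (DfF.const (ka_inW_prop True)) h
    (fun _ _ z hz => ⟨fun _ => ⟨z, hz, rfl⟩, fun _ => trivial⟩) fun _ _ _ hb => ⟨hb⟩
instance (priority := 8000) DfF_zallW_inst [h : DfF M fun x : α × ZFSet => r x.1 x.2] :
    DfP M fun a => ∀ z, z ∈ M.W → r a z :=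
  ⟨DfF.zallW h⟩
lemma DfF.zexW (h : DfF M fun x : α × ZFSet => r x.1 x.2) :
    DfF M fun a => ∃ z, z ∈ M.W ∧ r a z :=
  (DfF.zallW (r := fun a b => ¬ r a b) h.not).not.congr_iff fun _ _ => by simp
instance (priority := 8000) DfF_zexW_inst [h : DfF M fun x : α × ZFSet => r x.1 x.2] :
    DfP M fun a => ∃ z, z ∈ M.W ∧ r a z :=
  ⟨DfF.zexW h⟩
lemma DfF.zball (hs : DfF M s) (h : DfF M fun x : α × ZFSet => r x.1 x.2) :
    DfF M fun a => ∀ z, z ∈ s a → r a z :=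
  ka_quant (m := fun a z => z ∈ s a) (DfF.id.snd.zmem (hs.comp DfF.id.fst)) h
    (fun _ _ z _ => ⟨fun hz => ⟨z, hz, rfl⟩, fun ⟨_, hb, e⟩ => e ▸ hb⟩)
    fun a ha _ hb => ⟨M.h.trans _ (hs.1 a ha).1 _ hb⟩
instance (priority := 5500) DfF_zball_inst [hs : DfF M s]
    [h : DfF M fun x : α × ZFSet => r x.1 x.2] :
    DfP M fun a => ∀ z, z ∈ s a → r a z :=
  ⟨DfF.zball hs h⟩
lemma DfF.zbex (hs : DfF M s) (h : DfF M fun x : α × ZFSet => r x.1 x.2) :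
    DfF M fun a => ∃ z, z ∈ s a ∧ r a z :=
  (DfF.zball (r := fun a b => ¬ r a b) hs h.not).not.congr_iff fun _ _ => by simp
instance (priority := 5500) DfF_zbex_inst [hs : DfF M s]
    [h : DfF M fun x : α × ZFSet => r x.1 x.2] :
    DfP M fun a => ∃ z, z ∈ s a ∧ r a z :=
  ⟨DfF.zbex hs h⟩
/-- a set valued function is definable when its membership relation is -/
lemma ka_set {F : α → ZFSet.{0}} (hF : ∀ a, InW M.W a → F a ∈ M.W)
    (h : DfF M fun x : α × ZFSet => r x.1 x.2)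
    (e : ∀ a, InW M.W a → ∀ z ∈ M.W, (r a z ↔ z ∈ F a)) : DfF M F :=
  ka_graph (p := fun a y => ∀ z, z ∈ M.W → (z ∈ y ↔ r a z)) (fun a ha => ⟨hF a ha⟩)
    (DfF.zallW (r := fun (x : α × ZFSet) z => z ∈ x.2 ↔ r x.1 z)
      ((DfF.id.snd.zmem DfF.id.fst.snd).iff (h.comp2 DfF.id.fst.fst DfF.id.snd)))
    fun a ha y hy => by
      rw [cd_zf, ← ka_ext hy (hF a ha)]
      exact forall_congr' fun z => forall_congr' fun hz => by rw [e a ha z hz]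

lemma DfF.zsep (hs : DfF M s) (h : DfF M fun x : α × ZFSet => r x.1 x.2) :
    DfF M fun a => (s a).sep (r a) := by
  refine ka_set (r := fun a z => z ∈ s a ∧ r a z) (fun a ha => ?_)
    ((DfF.id.snd.zmem (hs.comp DfF.id.fst)).and h) fun _ _ _ _ => ZFSet.mem_sep.symm
  obtain ⟨Q, hQ, h'⟩ := ka_toDU2 h
  have := ka_sep (ka_atPair hQ 1 0) (v := fun _ => H1.cd a) (fun _ => ha.1) (hs.1 a ha).1
  refine ka_of_ext this fun x => ?_
  simp only [ZFSet.mem_sep]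
  exact and_congr_right fun hx => h' a x ha ⟨M.h.trans _ (hs.1 a ha).1 _ hx⟩
instance (priority := 7000) DfF_zsep_inst [hs : DfF M s]
    [h : DfF M fun x : α × ZFSet => r x.1 x.2] :
    DfP M fun a => (s a).sep (r a) :=
  ⟨DfF.zsep hs h⟩
lemma DfF.zpair (hs : DfF M s) (ht : DfF M t) : DfF M fun a => ZFSet.pair (s a) (t a) :=
  (hs.prodMk ht).cd
instance (priority := 7000) DfF_zpair_inst [hs : DfF M s] [ht : DfF M t] :
    DfP M fun a => ZFSet.pair (s a) (t a) :=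
  ⟨DfF.zpair hs ht⟩
lemma DfF.zempty : DfF M fun _ : α => (∅ : ZFSet.{0}) := DfF.const ⟨ka_num_mem 0⟩
instance (priority := 7000) DfF_zempty_inst :
    DfP M fun _ : α => (∅ : ZFSet.{0}) :=
  ⟨DfF.zempty⟩
lemma DfF.omega : DfF M fun _ : α => ZFSet.omega := DfF.const ⟨M.h.omega⟩
instance (priority := 7000) DfF_omega_inst :
    DfP M fun _ : α => ZFSet.omega :=
  ⟨DfF.omega⟩
lemma DfF.zsingleton (hs : DfF M s) : DfF M fun a => ({s a} : ZFSet.{0}) :=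
  ka_set (r := fun a z => z = s a) (fun a ha => ka_sing_mem (hs.1 a ha).1)
    (DfF.id.snd.eq (hs.comp DfF.id.fst)) fun _ _ _ _ => ZFSet.mem_singleton.symm
instance (priority := 7000) DfF_zsingleton_inst [hs : DfF M s] :
    DfP M fun a => ({s a} : ZFSet.{0}) :=
  ⟨DfF.zsingleton hs⟩
lemma DfF.zinsert (hs : DfF M s) (ht : DfF M t) : DfF M fun a => Insert.insert (s a) (t a) := by
  refine ka_set (r := fun a z => z = s a ∨ z ∈ t a) (fun a ha => ?_)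
    ((DfF.id.snd.eq (hs.comp DfF.id.fst)).or (DfF.id.snd.zmem (ht.comp DfF.id.fst)))
    fun _ _ _ _ => ZFSet.mem_insert_iff.symm
  have := M.h.union _ (M.h.pair _ (ka_sing_mem (hs.1 a ha).1) _ (ht.1 a ha).1)
  refine ka_of_ext this fun x => ?_
  simp
instance (priority := 7000) DfF_zinsert_inst [hs : DfF M s] [ht : DfF M t] :
    DfP M fun a => Insert.insert (s a) (t a) :=
  ⟨DfF.zinsert hs ht⟩
lemma DfF.zunion (hs : DfF M s) (ht : DfF M t) : DfF M fun a => s a ∪ t a := by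
  refine ka_set (r := fun a z => z ∈ s a ∨ z ∈ t a) (fun a ha => ?_)
    ((DfF.id.snd.zmem (hs.comp DfF.id.fst)).or (DfF.id.snd.zmem (ht.comp DfF.id.fst)))
    fun _ _ _ _ => ZFSet.mem_union.symm
  have := M.h.union _ (M.h.pair _ (hs.1 a ha).1 _ (ht.1 a ha).1)
  refine ka_of_ext this fun x => ?_
  simp
instance (priority := 7000) DfF_zunion_inst [hs : DfF M s] [ht : DfF M t] :
    DfP M fun a => s a ∪ t a :=
  ⟨DfF.zunion hs ht⟩
lemma DfF.zsUnion (hs : DfF M s) : DfF M fun a => ZFSet.sUnion (s a) :=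
  ka_set (r := fun a z => ∃ y, y ∈ s a ∧ z ∈ y) (fun a ha => M.h.union _ (hs.1 a ha).1)
    (DfF.zbex (r := fun (x : α × ZFSet) y => x.2 ∈ y) (hs.comp DfF.id.fst)
      (DfF.id.fst.snd.zmem DfF.id.snd)) fun _ _ _ _ => ZFSet.mem_sUnion.symm
instance (priority := 7000) DfF_zsUnion_inst [hs : DfF M s] :
    DfP M fun a => ZFSet.sUnion (s a) :=
  ⟨DfF.zsUnion hs⟩
/-- replacement -/
lemma DfF.zrepl {p : α → ZFSet.{0} → ZFSet.{0} → Prop} {F : α → ZFSet.{0}} (hs : DfF M s)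
    (hp : DfF M fun x : α × ZFSet × ZFSet => p x.1 x.2.1 x.2.2)
    (hu : ∀ a, InW M.W a → ∀ x ∈ s a, ∀ y ∈ M.W, ∀ y' ∈ M.W, p a x y → p a x y' → y = y')
    (hF : ∀ a, InW M.W a → ∀ y, y ∈ F a ↔ y ∈ M.W ∧ ∃ x ∈ s a, p a x y) : DfF M F := by
  have h1 : DfF M fun u : α × ZFSet => ∃ x, x ∈ s u.1 ∧ p u.1 x u.2 :=
    DfF.zbex (r := fun (u : α × ZFSet) x => p u.1 x u.2) (hs.comp DfF.id.fst)
      (hp.comp (DfF.id.fst.fst.prodMk (DfF.id.snd.prodMk DfF.id.fst.snd)))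
  refine ka_set (r := fun a y => ∃ x, x ∈ s a ∧ p a x y) (fun a ha => ?_) h1
    fun a ha y hy => by rw [hF a ha, and_iff_right hy]
  obtain ⟨Q, hQ, h2⟩ := ka_toDU2 (α := ZFSet) (β := ZFSet) (r := fun x y => p a x y)
    (hp.comp ((DfF.const ha).prodMk DfF.id))
  obtain ⟨b, hb, h3⟩ := ka_coll (ka_atPair hQ 1 0) (v := fun _ => s a) (fun _ => (hs.1 a ha).1)
    (hs.1 a ha).1
  have := ((DfF.zsep (r := fun a y => ∃ x, x ∈ s a ∧ p a x y) (DfF.const (c := b) ⟨hb⟩) h1).1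
    a ha).1
  refine ka_of_ext this fun y => ?_
  simp only [cd_zf, ZFSet.mem_sep, hF a ha]
  refine and_congr_left fun ⟨x, hx, hxy⟩ => ⟨fun h => M.h.trans _ hb _ h, fun hy => ?_⟩
  have hxW := M.h.trans _ (hs.1 a ha).1 _ hx
  obtain ⟨y', hy', h4⟩ := h3 x hx ⟨y, hy, (h2 x y ⟨hxW⟩ ⟨hy⟩).2 hxy⟩
  have h5 := M.h.trans _ hb _ hy'
  rwa [hu a ha x hx y hy y' h5 hxy ((h2 x y' ⟨hxW⟩ ⟨h5⟩).1 h4)]

lemma ka_zim {g : α → ZFSet.{0} → ZFSet.{0}} (hg : DfF M fun x : α × ZFSet => g x.1 x.2)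
    (hs : DfF M s) : DfF M fun a => zim (g a) (s a) :=
  DfF.zrepl (p := fun a x y => y = g a x) hs
    (DfF.id.snd.snd.eq (hg.comp2 DfF.id.fst DfF.id.snd.fst)) (fun _ _ _ _ _ _ _ _ e e' => e.trans e'.symm)
    fun a ha y => by
      rw [mem_zim]
      constructor
      · rintro ⟨x, hx, rfl⟩
        exact ⟨(hg.1 (a, x) (ha.pair ⟨M.h.trans _ (hs.1 a ha).1 _ hx⟩)).1, x, hx, rfl⟩
      · rintro ⟨-, x, hx, rfl⟩
        exact ⟨x, hx, rfl⟩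

lemma DfF.zprod (hs : DfF M s) (ht : DfF M t) : DfF M fun a => ZFSet.prod (s a) (t a) :=
  (ka_zim (g := fun a x => zim (fun y => ZFSet.pair x y) (t a))
    (ka_zim (g := fun (u : α × ZFSet) y => ZFSet.pair u.2 y) (DfF.id.fst.snd.zpair DfF.id.snd)
      (ht.comp DfF.id.fst)) hs).zsUnion.congr fun a _ => ZFSet.ext fun z => by
    simp only [ZFSet.mem_sUnion, mem_zim, ZFSet.mem_prod]
    constructor
    · rintro ⟨_, ⟨x, hx, rfl⟩, hz⟩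
      obtain ⟨y, hy, rfl⟩ := mem_zim.1 hz
      exact ⟨x, hx, y, hy, rfl⟩
    · rintro ⟨x, hx, y, hy, rfl⟩
      exact ⟨_, ⟨x, hx, rfl⟩, mem_zim.2 ⟨y, hy, rfl⟩⟩
instance (priority := 7000) DfF_zprod_inst [hs : DfF M s] [ht : DfF M t] :
    DfP M fun a => ZFSet.prod (s a) (t a) :=
  ⟨DfF.zprod hs ht⟩
lemma DfF.zim {g : α → ZFSet.{0} → ZFSet.{0}} (hg : DfF M fun x : α × ZFSet => g x.1 x.2)
    (hs : DfF M s) : DfF M fun a => zim (g a) (s a) := ka_zim hg hs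
instance (priority := 7000) DfF_zim_inst {g : α → ZFSet.{0} → ZFSet.{0}}
    [hg : DfF M fun x : α × ZFSet => g x.1 x.2] [hs : DfF M s] :
    DfP M fun a => zim (g a) (s a) :=
  ⟨DfF.zim hg hs⟩
/-- the power set computed in `W` -/
lemma DfF.zpow (hs : DfF M s) : DfF M fun a => M.W.sep fun z => z ⊆ s a := by
  have h1 : DfF M fun x : α × ZFSet => x.2 ⊆ s x.1 := DfF.id.snd.zsub (hs.comp DfF.id.fst)
  refine ka_set (r := fun a z => z ⊆ s a) (fun a ha => ?_) h1 fun _ _ _ hz => by simp [hz]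
  obtain ⟨b, hb, h2⟩ := M.h.power _ (hs.1 a ha).1
  have := ((DfF.zsep (r := fun a z => z ⊆ s a) (DfF.const (c := b) ⟨hb⟩) h1).1 a ha).1
  refine ka_of_ext this fun x => ?_
  simp only [cd_zf, ZFSet.mem_sep]
  exact and_congr_left fun hx => ⟨fun h => M.h.trans _ hb _ h, fun h => h2 x h hx⟩
instance (priority := 8000) DfF_zpow_inst [hs : DfF M s] :
    DfP M fun a => M.W.sep fun z => z ⊆ s a :=
  ⟨DfF.zpow hs⟩

/-- collection -/
lemma DfF.coll [TyD M α] [TyD M β] {p : α → β → Prop} (hp : DfF M fun x : α × β => p x.1 x.2)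
    {z : ZFSet} (hz : z ∈ M.W) : ∃ t ∈ M.W, ∀ a, H1.cd a ∈ z → (∃ b, InW M.W b ∧ p a b) →
      ∃ b, H1.cd b ∈ t ∧ p a b := by
  obtain ⟨Q, hQ, h1⟩ := ka_toDU2 hp
  obtain ⟨Q', hQ', h2⟩ := ka_toDU (TyD.df (M := M) (β := β))
  obtain ⟨t, ht, h3⟩ := ka_coll (ka_and hQ' (ka_atPair hQ 1 0)) (v := fun _ => z) (fun _ => hz) hz
  refine ⟨t, ht, fun a ha ⟨b, hb, hab⟩ => ?_⟩
  have ha' : InW M.W a := ⟨M.h.trans _ hz _ ha⟩
  obtain ⟨y, hy, h4, h5⟩ := h3 _ ha ⟨_, hb.1, (h2 _ ⟨hb.1⟩).2 ⟨b, rfl⟩, (h1 a b ha' hb).2 hab⟩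
  have hy' := M.h.trans _ ht _ hy
  obtain ⟨b', rfl⟩ := (h2 y ⟨hy'⟩).1 h4
  exact ⟨b', hy, (h1 a b' ha' ⟨hy'⟩).1 h5⟩

end zf

instance : TyD M ZFSet.{0} :=
  ⟨(DfF.const (ka_inW_prop True)).congr_iff fun z _ => ⟨fun _ => ⟨z, rfl⟩, fun _ => trivial⟩⟩
instance [TyD M α] [TyD M β] : TyD M (α × β) := by
  obtain ⟨Q, hQ, h⟩ := ka_toDU (TyD.df (M := M) (β := α))
  obtain ⟨Q', hQ', h'⟩ := ka_toDU (TyD.df (M := M) (β := β))
  refine ⟨ka_pred (Q := fun z => ∃ x ∈ M.W, ∃ y ∈ M.W, z = ZFSet.pair x y ∧ Q x ∧ Q' y)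
    (ka_ex (ka_ex (ka_and (ka_pair 2 1 0) (ka_and (ka_app1 hQ 1) hQ')))) fun z hz => ⟨?_, ?_⟩⟩
  · rintro ⟨x, hx, y, hy, e, h1, h2⟩
    obtain ⟨a, rfl⟩ := (h x ⟨hx⟩).1 h1
    obtain ⟨b, rfl⟩ := (h' y ⟨hy⟩).1 h2
    exact ⟨(a, b), e.symm⟩
  · rintro ⟨⟨a, b⟩, rfl⟩
    have := ka_pair_mem.1 hz.1
    exact ⟨_, this.1, _, this.2, rfl, (h _ ⟨this.1⟩).2 ⟨a, rfl⟩, (h' _ ⟨this.2⟩).2 ⟨b, rfl⟩⟩
instance (priority := 100) {κ : Type} [Cd κ] [Ty M κ] : TyD M κ :=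
  ⟨(DfF.id.zmem (DfF.const (Ty.univ (M := M) (β := κ))).cd).congr_iff fun _ hz =>
    mem_cd_set.trans ⟨fun ⟨b, _, e⟩ => ⟨b, e⟩, fun ⟨b, e⟩ => ⟨b, ⟨e ▸ hz.1⟩, e⟩⟩⟩
instance (priority := 100) {κ : Type} [Cd κ] [HF M κ] : Ty M κ :=
  ⟨(Set.eq_univ_of_forall fun b => InW.hf b : {b : κ | InW M.W b} = Set.univ).symm ▸ HF.univ⟩
instance : HF M ℕ := ⟨⟨by
  refine ka_of_ext M.h.omega fun z => ?_
  rw [mem_omega, mem_cd_set]
  exact ⟨fun ⟨n, e⟩ => ⟨n, trivial, e.symm⟩, fun ⟨n, _, e⟩ => ⟨n, e.symm⟩⟩⟩⟩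
instance : HF M Prop := ⟨⟨by
  refine ka_of_ext (M.h.pair _ (ka_num_mem 1) _ (ka_num_mem 0)) fun z => ?_
  rw [mem_cd_set, ZFSet.mem_pair]
  constructor
  · rintro (rfl | rfl)
    exacts [⟨True, trivial, ka_cd_true trivial⟩, ⟨False, trivial, ka_cd_false fun h => h⟩]
  · rintro ⟨p, -, rfl⟩
    by_cases h : p
    exacts [Or.inl (ka_cd_true h), Or.inr (ka_cd_false h)]⟩⟩

end Pool.Agent.MP_c70ddc_lc.H1
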