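import Pool.Agent.MP_c70ddc_lc.H1.KReal

/-! Sums and vectors inside the model (module KG). -/

namespace Pool.Agent.MP_c70ddc_lc.H1

open Filter Topology

universe u

set_option synthInstance.maxSize 100000

variable {M : Md} [OrcQ M.W] {α : Type u} [Cd α] {f : α → ℝ}

variable {ι : Type} [Cd ι] [HF M ι]

omit [OrcQ M.W] in
lemma ksum_summable_iff (g : ℕ → ℝ) :
    Summable g ↔ ∃ c : ℕ, ∀ n : ℕ, ∑ i ∈ Finset.range n, |g i| ≤ (c : ℝ) := by
  rw [← summable_abs_iff]
  refine ⟨fun h => ?_, fun ⟨c, hc⟩ => summable_of_sum_range_le (fun _ => abs_nonneg _) hc⟩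
  obtain ⟨c, hc⟩ := exists_nat_ge (∑' i, |g i|)
  exact ⟨c, fun n => (h.sum_le_tsum _ fun _ _ => abs_nonneg _).trans hc⟩

lemma ksum_summable {g : α → ℕ → ℝ} (hg : DfF M fun x : α × ℕ => g x.1 x.2) :
    DfF M fun a => Summable (g a) := by
  simp only [ksum_summable_iff]
  infer_instance

lemma ksum_tsum {g : α → ℕ → ℝ} (hg : DfF M fun x : α × ℕ => g x.1 x.2) :
    DfF M fun a => ∑' i, g a i := by
  classical
  have h1 := ksum_summable hg
  refine DfF.of_tendsto
    (z := fun a n => if Summable (g a) then ∑ i ∈ Finset.range n, g a i else 0)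
    (DfF.lam (DfF.ite (h1.comp DfF.id.fst) inferInstance inferInstance)) fun a _ => ?_
  by_cases h : Summable (g a)
  · simpa only [h, if_true] using h.hasSum.tendsto_sum_nat
  · simpa only [h, if_false, tsum_eq_zero_of_not_summable h] using tendsto_const_nhds

lemma ksum_ext [En ι] [EnD M ι] {k : α → ι → ℝ} (hk : DfF M fun x : α × ι => k x.1 x.2) :
    ∃ g : α → ℕ → ℝ, DfF M (fun x : α × ℕ => g x.1 x.2) ∧ (∀ a, g a ∘ enc = k a) ∧
      ∀ a, ∀ n ∉ Set.range (enc : ι → ℕ), g a n = 0 := by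
  rcases isEmpty_or_nonempty ι with h | h
  · exact ⟨fun _ _ => 0, inferInstance, fun _ => Subsingleton.elim _ _, fun _ _ _ => rfl⟩
  obtain ⟨e, he, h⟩ := exists_enum (M := M) (κ := ι)
  refine ⟨fun a n => if enc (e n) = n then k a (e n) else 0, inferInstance, fun a => ?_,
    fun a n hn => if_neg fun h' => hn ⟨_, h'⟩⟩
  funext i
  simp [h]

lemma DfF.summable [En ι] [EnD M ι] {k : α → ι → ℝ} (hk : DfF M fun x : α × ι => k x.1 x.2) :
    DfF M fun a => Summable (k a) := by
  obtain ⟨g, hg, h1, h2⟩ := ksum_ext hk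
  exact (ksum_summable hg).congr_iff fun a _ => by
    rw [← h1 a, En.inj.summable_iff (h2 a)]
instance (priority := 7000) DfF_summable_inst [En ι] [EnD M ι] {k : α → ι → ℝ}
    [hk : DfF M fun x : α × ι => k x.1 x.2] :
    DfP M fun a => Summable (k a) :=
  ⟨DfF.summable hk⟩
lemma DfF.tsum [En ι] [EnD M ι] {k : α → ι → ℝ} (hk : DfF M fun x : α × ι => k x.1 x.2) :
    DfF M fun a => ∑' i, k a i := by
  obtain ⟨g, hg, h1, h2⟩ := ksum_ext hk
  refine (ksum_tsum hg).congr fun a _ => ?_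
  rw [← h1 a]
  exact (En.inj.tsum_eq fun n hn => by_contra fun h => hn (h2 a n h)).symm
instance (priority := 7000) DfF_tsum_inst [En ι] [EnD M ι] {k : α → ι → ℝ}
    [hk : DfF M fun x : α × ι => k x.1 x.2] :
    DfP M fun a => ∑' i, k a i :=
  ⟨DfF.tsum hk⟩
lemma DfF.finsum [En ι] [EnD M ι] {k : α → ι → ℝ} {F : α → Finset ι}
    (hk : DfF M fun x : α × ι => k x.1 x.2) (hF : DfF M fun x : α × ι => x.2 ∈ F x.1) :
    DfF M fun a => ∑ i ∈ F a, k a i := by
  classical
  refine (DfF.tsum (k := fun a i => if i ∈ F a then k a i else 0) inferInstance).congr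
    fun a _ => ?_
  rw [tsum_eq_sum (s := F a) fun i hi => if_neg hi]
  exact Finset.sum_congr rfl fun i hi => if_pos hi
instance (priority := 6500) DfF_finsum_inst [En ι] [EnD M ι] {k : α → ι → ℝ} {F : α → Finset ι}
    [hk : DfF M fun x : α × ι => k x.1 x.2] [hF : DfF M fun x : α × ι => x.2 ∈ F x.1] :
    DfP M fun a => ∑ i ∈ F a, k a i :=
  ⟨DfF.finsum hk hF⟩

variable {u v : α → ι → ℝ}

lemma DfF.piZero : DfF M fun _ : α => (0 : ι → ℝ) :=
  DfF.lam (F := fun _ _ => (0 : ℝ)) inferInstance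
instance (priority := 7000) DfF_piZero_inst :
    DfP M fun _ : α => (0 : ι → ℝ) :=
  ⟨DfF.piZero⟩
lemma DfF.piAdd (hu : DfF M u) (hv : DfF M v) : DfF M fun a => u a + v a :=
  DfF.lam (F := fun a i => u a i + v a i) inferInstance
instance (priority := 7000) DfF_piAdd_inst [hu : DfF M u] [hv : DfF M v] :
    DfP M fun a => u a + v a :=
  ⟨DfF.piAdd hu hv⟩
lemma DfF.piSub (hu : DfF M u) (hv : DfF M v) : DfF M fun a => u a - v a :=
  DfF.lam (F := fun a i => u a i - v a i) inferInstance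
instance (priority := 7000) DfF_piSub_inst [hu : DfF M u] [hv : DfF M v] :
    DfP M fun a => u a - v a :=
  ⟨DfF.piSub hu hv⟩
lemma DfF.piNeg (hu : DfF M u) : DfF M fun a => -u a :=
  DfF.lam (F := fun a i => -u a i) inferInstance
instance (priority := 7000) DfF_piNeg_inst [hu : DfF M u] :
    DfP M fun a => -u a :=
  ⟨DfF.piNeg hu⟩
lemma DfF.piSmul (hf : DfF M f) (hu : DfF M u) : DfF M fun a => f a • u a :=
  DfF.lam (F := fun a i => f a * u a i) inferInstance
instance (priority := 7000) DfF_piSmul_inst [hf : DfF M f] [hu : DfF M u] :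
    DfP M fun a => f a • u a :=
  ⟨DfF.piSmul hf hu⟩
lemma DfF.piSingle [DecidableEq ι] {s : α → ι} (hs : DfF M s) (hf : DfF M f) :
    DfF M fun a => (Pi.single (s a) (f a) : ι → ℝ) :=
  (DfF.lam (F := fun a i => if i = s a then f a else 0) inferInstance).congr fun _ _ =>
    funext fun _ => (Pi.single_apply _ _ _).symm
instance (priority := 7000) DfF_piSingle_inst [DecidableEq ι] {s : α → ι} [hs : DfF M s]
    [hf : DfF M f] :
    DfP M fun a => (Pi.single (s a) (f a) : ι → ℝ) :=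
  ⟨DfF.piSingle hs hf⟩

lemma InW.of_tendsto_pi {z : ℕ → ι → ℝ} (hz : InW M.W z) {a : ι → ℝ}
    (h : ∀ s, Tendsto (fun n => z n s) atTop (𝓝 (a s))) : InW M.W a :=
  DfF.inW_fun (DfF.of_tendsto (z := fun s n => z n s) inferInstance fun s _ => h s)

end Pool.Agent.MP_c70ddc_lc.H1
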