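import Pool.Agent.MP_c70ddc_lc.H1.Code

/-! Models of ZFC, and the notions of the problem read inside a transitive model `W`. -/

namespace Pool.Agent.MP_c70ddc_lc.H1

open FirstOrder

/-- the only relation symbol of the language of set theory: membership -/
inductive MemRel : ℕ → Type
  | mem : MemRel 2

/-- the first-order language of set theory -/
def setLang : FirstOrder.Language.{0, 0} := ⟨fun _ => Empty, MemRel⟩

/-- a type with a binary relation `E` as a structure for the language of set theory -/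
@[reducible] def memStr {M : Type 1} (E : M → M → Prop) : setLang.Structure M where
  funMap := fun f _ => Empty.elim f
  RelMap := fun r v => match r, v with
    | MemRel.mem, v => E (v 0) (v 1)

/-- `(M, E)` is a model of ZFC; the schemes range over all first-order definable classes with
parameters -/
structure IsZFC {M : Type 1} (E : M → M → Prop) : Prop where
  ext : ∀ a b, (∀ x, E x a ↔ E x b) → a = b
  found : ∀ a, (∃ x, E x a) → ∃ x, E x a ∧ ∀ y, E y x → ¬ E y a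
  pair : ∀ a b, ∃ c, ∀ x, E x c ↔ x = a ∨ x = b
  union : ∀ a, ∃ u, ∀ x, E x u ↔ ∃ y, E y a ∧ E x y
  power : ∀ a, ∃ u, ∀ x, E x u ↔ ∀ y, E y x → E y a
  inf : ∃ w, (∃ e, E e w ∧ ∀ x, ¬ E x e) ∧
    ∀ x, E x w → ∃ s, E s w ∧ ∀ y, E y s ↔ E y x ∨ y = x
  sep : ∀ C : Set M, @Set.Definable₁ M Set.univ setLang (memStr E) C →
    ∀ a, ∃ b, ∀ x, E x b ↔ E x a ∧ x ∈ C
  repl : ∀ C : Set (M × M), @Set.Definable₂ M Set.univ setLang (memStr E) C →
    ∀ a, (∀ x, E x a → ∀ y y', (x, y) ∈ C → (x, y') ∈ C → y = y') →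
      ∃ b, ∀ y, E y b ↔ ∃ x, E x a ∧ (x, y) ∈ C
  choice : ∀ a, (∀ x, E x a → ∃ y, E y x) →
    (∀ x x' y, E x a → E x' a → E y x → E y x' → x = x') →
      ∃ c, ∀ x, E x a → ∃! y, E y x ∧ E y c

/-- real vectors indexed by binary words -/
abbrev Vec : Type := List Bool → ℝ

section

variable (W : ZFSet.{0}) (X : Set Vec) (nr : Vec → ℝ)

/-- in `W`, the set `X` with pointwise operations and norm `nr` is a separable Banach space -/
structure SepBanach : Prop where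
  memX : InW W X
  memN : InW W (gr X nr)
  zero : 0 ∈ X
  add : ∀ u ∈ X, ∀ v ∈ X, u + v ∈ X
  smul : ∀ c : ℝ, InW W c → ∀ u ∈ X, c • u ∈ X
  nr_add : ∀ u ∈ X, ∀ v ∈ X, nr (u + v) ≤ nr u + nr v
  nr_smul : ∀ c : ℝ, InW W c → ∀ u ∈ X, nr (c • u) = |c| * nr u
  nr_eq : ∀ u ∈ X, nr u = 0 → u = 0
  complete : ∀ z : ℕ → Vec, InW W z → (∀ n, z n ∈ X) →
    (∀ ε : ℚ, 0 < ε → ∃ N, ∀ n ≥ N, ∀ k ≥ N, nr (z n - z k) < ε) →
      ∃ a ∈ X, ∀ ε : ℚ, 0 < ε → ∃ N, ∀ n ≥ N, nr (z n - a) < ε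
  sep : ∃ d : ℕ → Vec, InW W d ∧ (∀ n, d n ∈ X) ∧
    ∀ u ∈ X, ∀ ε : ℚ, 0 < ε → ∃ n, nr (u - d n) < ε

/-- `φ` restricted to `X` is a bounded linear functional in `W` -/
structure IsDual (φ : Vec → ℝ) : Prop where
  mem : InW W (gr X φ)
  add : ∀ u ∈ X, ∀ v ∈ X, φ (u + v) = φ u + φ v
  smul : ∀ c : ℝ, InW W c → ∀ u ∈ X, φ (c • u) = c * φ u
  bdd : ∃ C : ℕ, ∀ u ∈ X, |φ u| ≤ C * nr u

/-- `U` is open in the weak topology of `X` as computed in `W` -/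
def WOpen (U : Set Vec) : Prop :=
  U ⊆ X ∧ ∀ x ∈ U, ∃ (n : ℕ) (φ : ℕ → Vec → ℝ) (ε : ℚ), 0 < ε ∧
    (∀ i < n, IsDual W X nr (φ i)) ∧ ∀ y ∈ X, (∀ i < n, |φ i y - φ i x| < ε) → y ∈ U

/-- every cover of `K` in `W` by sets with the property `O` has a finite subcover -/
def CompactIn {α : Type} [Cd α] (O : Set α → Prop) (K : Set α) : Prop :=
  ∀ 𝒰 : Set (Set α), InW W 𝒰 → (∀ U ∈ 𝒰, O U) → K ⊆ ⋃₀ 𝒰 →
    ∃ 𝒱, 𝒱 ⊆ 𝒰 ∧ 𝒱.Finite ∧ K ⊆ ⋃₀ 𝒱

/-- the weakly compact subsets of the unit ball, computed in `W` -/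
def KBall : Set (Set Vec) :=
  {K | InW W K ∧ (∀ u ∈ K, u ∈ X ∧ nr u ≤ 1) ∧ CompactIn W (WOpen W X nr) K}

/-- `ℕ^ℕ` computed in `W` -/
def Baire : Set (ℕ → ℕ) := {g | InW W g}

/-- the compact subsets of `ℚ`, computed in `W` -/
def KRat : Set (Set ℚ) := {K | InW W K ∧ CompactIn W IsOpen K}

/-- the finite subsets of the continuum `𝒫(ℕ)` of `W` -/
def FinC : Set (Set (Set ℕ)) := {S | InW W S ∧ S.Finite}

variable {α β : Type} [Cd α] [Cd β] [LE α] [LE β]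

/-- in `W`, some map `P → Q` sends unbounded sets to unbounded sets -/
def TukeyLe (P : Set α) (Q : Set β) : Prop :=
  ∃ f : α → β, InW W (gr P f) ∧ (∀ a ∈ P, f a ∈ Q) ∧
    ∀ S, S ⊆ P → InW W S → (¬ ∃ b ∈ P, ∀ a ∈ S, a ≤ b) → ¬ ∃ c ∈ Q, ∀ a ∈ S, f a ≤ c

/-- Tukey equivalence in `W` -/
def TukeyEq (P : Set α) (Q : Set β) : Prop := TukeyLe W P Q ∧ TukeyLe W Q P

end

/-- in `W`, some separable Banach space has a poset of weakly compact subsets of the ball that is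
Tukey equivalent to none of the four reference posets -/
def Exotic (W : ZFSet.{0}) : Prop :=
  ∃ X nr, SepBanach W X nr ∧
    (InW W (KBall W X nr) ∧ InW W ({0} : Set ℕ) ∧ InW W (Baire W) ∧ InW W (KRat W) ∧
      InW W (FinC W)) ∧
    ¬ TukeyEq W (KBall W X nr) ({0} : Set ℕ) ∧ ¬ TukeyEq W (KBall W X nr) (Baire W) ∧
    ¬ TukeyEq W (KBall W X nr) (KRat W) ∧ ¬ TukeyEq W (KBall W X nr) (FinC W)

end Pool.Agent.MP_c70ddc_lc.H1
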