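import Pool.Agent.MP_c70ddc_lc.H1.KAbs
import Pool.Agent.MP_c70ddc_lc.H1.KSum
import Pool.Agent.MP_c70ddc_lc.H1.Stmt

/-! Compactness inside the model (module KF). -/

namespace Pool.Agent.MP_c70ddc_lc.H1

open Filter Topology

set_option synthInstance.maxSize 100000

variable {M : Md} [OrcQ M.W]

/-- `B` has a finite cover by members of `𝒰` -/
def kf_Small {κ : Type} (𝒰 : Set (Set κ)) (B : Set κ) : Prop :=
  ∃ 𝒱, 𝒱 ⊆ 𝒰 ∧ 𝒱.Finite ∧ B ⊆ ⋃₀ 𝒱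

lemma kf_small_mono {κ : Type} {𝒰 : Set (Set κ)} {B B' : Set κ} (h : B ⊆ B')
    (hB : kf_Small 𝒰 B') : kf_Small 𝒰 B := by
  obtain ⟨𝒱, h1, h2, h3⟩ := hB
  exact ⟨𝒱, h1, h2, h.trans h3⟩

lemma kf_small_empty {κ : Type} {𝒰 : Set (Set κ)} : kf_Small 𝒰 ∅ :=
  ⟨∅, Set.empty_subset _, Set.finite_empty, Set.empty_subset _⟩

lemma kf_small_union {κ : Type} {𝒰 : Set (Set κ)} {B B' : Set κ} (hB : kf_Small 𝒰 B)
    (hB' : kf_Small 𝒰 B') : kf_Small 𝒰 (B ∪ B') := by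
  obtain ⟨𝒱, h1, h2, h3⟩ := hB
  obtain ⟨𝒱', h1', h2', h3'⟩ := hB'
  refine ⟨𝒱 ∪ 𝒱', Set.union_subset h1 h1', h2.union h2', ?_⟩
  rw [Set.sUnion_union]
  exact Set.union_subset_union h3 h3'

lemma kf_small_biUnion {κ τ : Type} {𝒰 : Set (Set κ)} {A : Set τ} (hA : A.Finite)
    {B : τ → Set κ} (hB : ∀ t ∈ A, kf_Small 𝒰 (B t)) : kf_Small 𝒰 (⋃ t ∈ A, B t) := by
  induction A, hA using Set.Finite.induction_on with
  | empty => simpa using kf_small_empty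
  | insert _ _ ih =>
    rw [Set.biUnion_insert]
    exact kf_small_union (hB _ (Set.mem_insert _ _))
      (ih fun t ht => hB t (Set.mem_insert_of_mem _ ht))

lemma kf_small_of_mem {κ : Type} {𝒰 : Set (Set κ)} {B U : Set κ} (hU : U ∈ 𝒰) (h : B ⊆ U) :
    kf_Small 𝒰 B :=
  ⟨{U}, Set.singleton_subset_iff.2 hU, Set.finite_singleton _, by rwa [Set.sUnion_singleton]⟩

omit [OrcQ M.W] in
lemma kf_small_df {α : Type} [Cd α] {κ : Type} [Cd κ] [Ty M κ] {𝒰 : α → Set (Set κ)}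
    {B : α → Set κ} (h𝒰 : DfF M 𝒰) (hB : DfF M B) : DfF M fun a => kf_Small (𝒰 a) (B a) := by
  have h : DfF M fun a => ∃ 𝒱 : Set (Set κ), InW M.W 𝒱 ∧
      (𝒱 ⊆ 𝒰 a ∧ 𝒱.Finite ∧ B a ⊆ ⋃₀ 𝒱) := inferInstance
  refine h.congr_iff fun a ha => ⟨fun ⟨𝒱, _, h2⟩ => ⟨𝒱, h2⟩, fun ⟨𝒱, h1, h2, h3⟩ => ?_⟩
  exact ⟨𝒱, InW.finite h2 fun U hU => (h𝒰.inW ha).of_mem (h1 hU), h1, h2, h3⟩

lemma kf_fin_lt {ι : Type} [En ι] (n : ℕ) : {i : ι | enc i < n}.Finite :=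
  (Set.finite_lt_nat n).preimage En.inj.injOn

lemma kf_box_nhds {ι : Type} [En ι] (a : ι → ℝ) (n : ℕ) {r : ℝ} (hr : 0 < r) :
    {u : ι → ℝ | ∀ i, enc i < n → |u i - a i| < r} ∈ 𝓝 a := by
  have : ∀ᶠ u in 𝓝 a, ∀ i ∈ {i : ι | enc i < n}, |u i - a i| < r := by
    refine (eventually_all_finite (kf_fin_lt n)).2 fun i _ => ?_
    have hc : ContinuousAt (fun u : ι → ℝ => u i) a := (continuous_apply i).continuousAt
    exact hc.eventually (Metric.ball_mem_nhds (a i) hr)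
  exact this

/-- a compact set of the product space, cut down to `W`, is compact in `W` -/
theorem compact_cover [Ch M] {ι : Type} [Cd ι] [HF M ι] [En ι] [EnD M ι] {K : Set (ι → ℝ)}
    (hK : IsCompact K) (hW : InW M.W {u | InW M.W u ∧ u ∈ K}) {𝒰 : Set (Set (ι → ℝ))}
    (h𝒰 : InW M.W 𝒰)
    (hc : ∀ a ∈ K, InW M.W a → ∃ U ∈ 𝒰, ∀ᶠ u in 𝓝 a, u ∈ K → InW M.W u → u ∈ U) :
    ∃ 𝒱, 𝒱 ⊆ 𝒰 ∧ 𝒱.Finite ∧ {u | InW M.W u ∧ u ∈ K} ⊆ ⋃₀ 𝒱 := by
  by_contra hcon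
  obtain ⟨K1, hK1⟩ : ∃ K1, K1 = {u | InW M.W u ∧ u ∈ K} := ⟨_, rfl⟩
  have hmem : ∀ u, u ∈ K1 ↔ InW M.W u ∧ u ∈ K := fun u => by rw [hK1]; rfl
  rw [← hK1] at hW hcon
  have h1 : ∃ a ∈ K, ∀ t ∈ 𝓝 a, ¬ kf_Small 𝒰 (t ∩ K1) := by
    by_contra h
    push Not at h
    have : kf_Small 𝒰 (K ∩ K1) := by
      refine hK.induction_on (p := fun t => kf_Small 𝒰 (t ∩ K1)) ?_ ?_ ?_ ?_
      · simpa using kf_small_empty
      · intro s t hst ht
        exact kf_small_mono (Set.inter_subset_inter_left _ hst) ht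
      · intro s t hs ht
        rw [Set.union_inter_distrib_right]
        exact kf_small_union hs ht
      · intro x hx
        obtain ⟨t, ht, hs⟩ := h x hx
        exact ⟨t, mem_nhdsWithin_of_mem_nhds ht, hs⟩
    exact hcon (kf_small_mono (fun u hu => Set.mem_inter ((hmem u).1 hu).2 hu) this)
  obtain ⟨a, -, ha⟩ := h1
  obtain ⟨r, hr⟩ : ∃ r : ℕ → ℝ, ∀ n, r n = (((1 / 2 : ℚ) ^ n : ℚ) : ℝ) := ⟨_, fun _ => rfl⟩
  have hr' : ∀ n, r n = (1 / 2 : ℝ) ^ n := fun n => by rw [hr]; push_cast; rfl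
  have hrpos : ∀ n, 0 < r n := fun n => by rw [hr']; positivity
  have hrsucc : ∀ n, r (n + 1) = r n / 2 := fun n => by rw [hr', hr', pow_succ]; ring
  have hrdf : DfF M r := by
    have : DfF M fun n : ℕ => (((1 / 2 : ℚ) ^ n : ℚ) : ℝ) :=
      DfF.ratCast (DfF.qpow (DfF.constHF _) DfF.id)
    exact this.congr fun n _ => (hr n).symm
  have h2 : ∀ n, ∃ u ∈ K1, ∀ i, enc i < n → |u i - a i| < r n / 2 := by
    intro n
    by_contra h
    refine ha _ (kf_box_nhds a n (half_pos (hrpos n))) (kf_small_mono ?_ kf_small_empty)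
    rintro u ⟨hu1, hu2⟩
    exact h ⟨u, hu2, hu1⟩
  choose z hz1 hz2 using h2
  have hbox : DfF M fun x : ℕ × (ℕ → ι → ℝ) =>
      {u | u ∈ K1 ∧ ∀ i, enc i < x.1 → |u i - x.2 x.1 i| < r x.1} := inferInstance
  have hsm : DfF M fun x : ℕ × (ℕ → ι → ℝ) =>
      kf_Small 𝒰 {u | u ∈ K1 ∧ ∀ i, enc i < x.1 → |u i - x.2 x.1 i| < r x.1} :=
    kf_small_df (𝒰 := fun _ => 𝒰) (DfF.const h𝒰) hbox
  have hQ : DfF M fun x : ℕ × (ℕ → ι → ℝ) => x.2 x.1 ∈ K1 ∧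
      ¬ kf_Small 𝒰 {u | u ∈ K1 ∧ ∀ i, enc i < x.1 → |u i - x.2 x.1 i| < r x.1} ∧
      ∀ i, enc i < x.1 → |x.2 (x.1 + 1) i - x.2 x.1 i| ≤ r x.1 :=
    DfF.and inferInstance (DfF.and hsm.not inferInstance)
  obtain ⟨w, hw, hwQ⟩ := exists_seq (M := M)
    (Q := fun n (y : ℕ → ι → ℝ) => y n ∈ K1 ∧
      ¬ kf_Small 𝒰 {u | u ∈ K1 ∧ ∀ i, enc i < n → |u i - y n i| < r n} ∧
      ∀ i, enc i < n → |y (n + 1) i - y n i| ≤ r n) hQ z
    (fun n => ((hmem _).1 (hz1 n)).1) (by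
      intro n
      refine ⟨n + 2, fun y _ hy => ?_⟩
      rw [hy n (by omega), hy (n + 1) (by omega)]
      refine ⟨hz1 n, fun hs => ?_, fun i hi => ?_⟩
      · refine ha _ (kf_box_nhds a n (half_pos (hrpos n))) (kf_small_mono ?_ hs)
        rintro u ⟨hu1, hu2⟩
        refine ⟨hu2, fun i hi => ?_⟩
        have e1 := abs_lt.1 (hu1 i hi)
        have e2 := abs_lt.1 (hz2 n i hi)
        rw [abs_lt]
        constructor <;> linarith [e1.1, e1.2, e2.1, e2.2]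
      · have e1 := abs_lt.1 (hz2 (n + 1) i (by omega))
        have e2 := abs_lt.1 (hz2 n i hi)
        have e3 := hrsucc n
        have e4 := hrpos n
        rw [abs_le]
        constructor <;> linarith [e1.1, e1.2, e2.1, e2.2])
  have h3 : ∀ i, ∃ b, Tendsto (fun n => w n i) atTop (𝓝 b) := by
    intro i
    have hcs : CauchySeq fun n => w (n + (enc i + 1)) i := by
      refine cauchySeq_of_le_geometric (1 / 2) 1 (by norm_num) fun n => ?_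
      rw [dist_comm, Real.dist_eq, one_mul]
      have e := (hwQ (n + (enc i + 1))).2.2 i (by omega)
      rw [show n + 1 + (enc i + 1) = n + (enc i + 1) + 1 by omega]
      refine e.trans ?_
      rw [hr']
      exact pow_le_pow_of_le_one (by norm_num) (by norm_num) (by omega)
    obtain ⟨b, hb⟩ := cauchySeq_tendsto_of_complete hcs
    exact ⟨b, (tendsto_add_atTop_iff_nat (enc i + 1)).1 hb⟩
  choose b hb using h3
  have hbK : b ∈ K := hK.isClosed.mem_of_tendsto (tendsto_pi_nhds.2 hb)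
    (Eventually.of_forall fun n => ((hmem _).1 (hwQ n).1).2)
  obtain ⟨U, hU, hUb⟩ := hc b hbK (InW.of_tendsto_pi hw hb)
  have h4 : ∀ n, ∃ u, (u ∈ K1 ∧ ∀ i, enc i < n → |u i - w n i| < r n) ∧ u ∉ U := by
    intro n
    by_contra h
    push Not at h
    exact (hwQ n).2.1 (kf_small_of_mem hU fun u hu => h u hu)
  choose y hy hyU using h4
  have hr0 : Tendsto r atTop (𝓝 0) := by
    rw [show r = fun n => (1 / 2 : ℝ) ^ n from funext hr']
    exact tendsto_pow_atTop_nhds_zero_of_lt_one (by norm_num) (by norm_num)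
  have hyb : Tendsto y atTop (𝓝 b) := by
    refine tendsto_pi_nhds.2 fun i => ?_
    have e : Tendsto (fun n => y n i - w n i) atTop (𝓝 0) := by
      refine squeeze_zero_norm' ?_ hr0
      filter_upwards [eventually_gt_atTop (enc i)] with n hn
      exact ((hy n).2 i hn).le
    simpa using e.add (hb i)
  obtain ⟨n, hn⟩ := (hyb.eventually hUb).exists
  exact hyU n (hn ((hmem _).1 (hy n).1).2 ((hmem _).1 (hy n).1).1)

omit [OrcQ M.W] in
lemma inW_baire : InW M.W (Baire M.W) := Ty.univ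
omit [OrcQ M.W] in
lemma inW_finC : InW M.W (FinC M.W) := by
  unfold FinC
  infer_instance

lemma kf_isOpen_iff {U : Set ℚ} :
    IsOpen U ↔ ∀ q, q ∈ U → ∃ p : ℚ × ℚ, (p.1 < q ∧ q < p.2) ∧ ∀ s, p.1 < s ∧ s < p.2 → s ∈ U := by
  rw [isOpen_iff_mem_nhds]
  refine forall_congr' fun q => forall_congr' fun _ => ?_
  rw [mem_nhds_iff_exists_Ioo_subset]
  exact ⟨fun ⟨l, u, h1, h2⟩ => ⟨(l, u), h1, h2⟩, fun ⟨p, h1, h2⟩ => ⟨p.1, p.2, h1, h2⟩⟩

lemma inW_kRat : InW M.W (KRat M.W) := by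
  have ho : DfF M fun U : Set ℚ => IsOpen U := by
    have : DfF M fun U : Set ℚ => ∀ q, q ∈ U →
      ∃ p : ℚ × ℚ, (p.1 < q ∧ q < p.2) ∧ ∀ s, p.1 < s ∧ s < p.2 → s ∈ U := inferInstance
    exact this.congr_iff fun U _ => kf_isOpen_iff.symm
  have hs : DfF M fun x : (ℕ × Set ℚ) × Set (Set ℚ) => kf_Small x.2 x.1.2 :=
    kf_small_df inferInstance inferInstance
  have h : DfF M fun x : ℕ × Set ℚ => CompactIn M.W IsOpen x.2 :=
    DfF.allW (r := fun (x : ℕ × Set ℚ) (𝒰 : Set (Set ℚ)) =>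
      (∀ U ∈ 𝒰, IsOpen U) → x.2 ⊆ ⋃₀ 𝒰 → kf_Small 𝒰 x.2)
      (DfF.imp (DfF.ball inferInstance (ho.comp inferInstance)) (DfF.imp inferInstance hs))
  exact InW.of_df (DfF.setW (s := fun _ (K : Set ℚ) => CompactIn M.W IsOpen K) h)

set_option linter.unusedSectionVars false in
lemma kf_enum [Ch M] : ∃ E : ℕ → Set (ℚ × ℚ), InW M.W E ∧ ∀ A : Set (ℚ × ℚ), A.Finite →
    ∃ n, E n = A := by
  have hF : InW M.W fun N : ℕ => {A : Set (ℚ × ℚ) | InW M.W A ∧ ∀ p, p ∈ A → enc p < N} :=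
    DfF.inW_fun inferInstance
  have he : InW M.W (∅ : Set (ℚ × ℚ)) := inferInstance
  obtain ⟨E, hE, h⟩ := ctW_iUnion hF fun N =>
    ctW_of_finite ((kf_fin_lt N).finite_subsets.subset fun A hA => hA.2) (fun A hA => hA.1) he
  refine ⟨E, hE, fun A hA => h (Set.mem_iUnion.2 ?_)⟩
  obtain ⟨N, hN⟩ := (hA.image enc).bddAbove
  exact ⟨N + 1, InW.finite hA fun p _ => InW.hf p,
    fun p hp => Nat.lt_succ_of_le (hN (Set.mem_image_of_mem _ hp))⟩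

/-- an uncountable family of compact sets of rationals has an infinite bounded subfamily -/
theorem exists_bdd_kRat [Ch M] {κ : Type} [Cd κ] [Ty M κ] {S : Set κ} (hS : InW M.W S)
    (hne : S.Nonempty) (hn : ¬ CtW M.W S) {c : κ → Set ℚ} (hc : DfF M c)
    (hK : ∀ x ∈ S, c x ∈ KRat M.W) : ∃ e : ℕ → κ, InW M.W e ∧ Function.Injective e ∧
      (∀ n, e n ∈ S) ∧ ∃ K ∈ KRat M.W, ∀ n, c (e n) ⊆ K := by
  classical
  obtain ⟨E, hE, hEA⟩ := kf_enum (M := M)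
  have hEd : DfF M E := hE.dfF
  have hcode : DfF M fun (x : κ) (n : ℕ) =>
      if ∀ q, q ∈ c x → ∃ p, p ∈ E n ∧ (p.1 < q ∧ q < p.2) then 1 else 0 :=
    DfF.lam (DfF.ite (DfF.ball inferInstance (DfF.bex (hEd.comp inferInstance) inferInstance))
      inferInstance inferInstance)
  obtain ⟨x, hx, e, he, hinj, heS, hcond⟩ := exists_cond hS hne hn hcode
  have hed : DfF M e := he.dfF
  have hxW : InW M.W (c x) := (hK x hx).1
  have hce : DfF M fun n : ℕ => c (e n) := hc.comp hed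
  refine ⟨e, he, hinj, heS, c x ∪ ⋃ n, c (e n), ⟨?_, ?_⟩,
    fun n => (Set.subset_iUnion (fun n => c (e n)) n).trans Set.subset_union_right⟩
  · exact InW.of_df (DfF.union (DfF.const hxW)
      (DfF.iUnion (U := fun _ n => c (e n)) (hce.comp inferInstance)))
  intro 𝒰 h𝒰 hopen hcov
  obtain ⟨P, hP⟩ : ∃ P : Set (ℚ × ℚ),
    P = {p | ∃ U, U ∈ 𝒰 ∧ ∀ s, p.1 < s ∧ s < p.2 → s ∈ U} := ⟨_, rfl⟩
  have hPW : InW M.W P := by
    rw [hP]
    infer_instance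
  have hPI : InW M.W ((fun p : ℚ × ℚ => {s : ℚ | p.1 < s ∧ s < p.2}) '' P) := inferInstance
  obtain ⟨𝒱, h1, h2, h3⟩ := (hK x hx).2 _ hPI
    (by
      rintro _ ⟨p, -, rfl⟩
      exact isOpen_Ioo)
    (by
      intro q hq
      obtain ⟨U, hU, hqU⟩ := hcov (Or.inl hq)
      obtain ⟨p, hp1, hp2⟩ := kf_isOpen_iff.1 (hopen U hU) q hqU
      exact ⟨_, ⟨p, by rw [hP]; exact ⟨U, hU, hp2⟩, rfl⟩, hp1⟩)
  obtain ⟨A, hAP, hA, rfl⟩ := h2.exists_subset_finite_image_eq h1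
  obtain ⟨n, rfl⟩ := hEA A hA
  have hxn : ∀ q, q ∈ c x → ∃ p, p ∈ E n ∧ (p.1 < q ∧ q < p.2) := by
    intro q hq
    obtain ⟨_, ⟨p, hp, rfl⟩, hq'⟩ := h3 hq
    exact ⟨p, hp, hq'⟩
  have hA' : kf_Small 𝒰 (⋃ p ∈ E n, {s : ℚ | p.1 < s ∧ s < p.2}) := by
    refine kf_small_biUnion hA fun p hp => ?_
    have := hAP hp
    rw [hP] at this
    obtain ⟨U, hU, hpU⟩ := this
    exact kf_small_of_mem hU hpU
  have hB : kf_Small 𝒰 (⋃ m ∈ Set.Iic n, c (e m)) :=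
    kf_small_biUnion (Set.finite_Iic n) fun m _ => (hK _ (heS m)).2 𝒰 h𝒰 hopen
      (((Set.subset_iUnion (fun n => c (e n)) m).trans Set.subset_union_right).trans hcov)
  refine kf_small_mono ?_ (kf_small_union hA' hB)
  rintro q (hq | hq)
  · obtain ⟨p, hp, hq'⟩ := hxn q hq
    exact Or.inl (Set.mem_biUnion hp hq')
  · obtain ⟨m, hm⟩ := Set.mem_iUnion.1 hq
    rcases le_or_gt m n with h | h
    · exact Or.inr (Set.mem_biUnion (x := m) h hm)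
    · have e1 := hcond m n h
      rw [if_pos hxn] at e1
      have e2 : ∀ q, q ∈ c (e m) → ∃ p, p ∈ E n ∧ (p.1 < q ∧ q < p.2) := by
        by_contra h'
        rw [if_neg h'] at e1
        exact zero_ne_one e1
      obtain ⟨p, hp, hq'⟩ := e2 q hm
      exact Or.inl (Set.mem_biUnion hp hq')

end Pool.Agent.MP_c70ddc_lc.H1
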