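import Pool.Agent.MP_c70ddc_lc.H1.Logic

/-! Definability over a transitive model: basic notions. -/

namespace Pool.Agent.MP_c70ddc_lc.H1

universe u v

/-- a transitive model of ZF with collection, possibly with extra predicates -/
structure Md where
  W : ZFSet.{0}
  I : ℕ → ZFSet.{0} → ZFSet.{0} → Prop
  h : Mdl0 W I

/-- the model satisfies choice -/
class Ch (M : Md) : Prop where
  mdl : Mdl M.W M.I

instance cdZF : Cd ZFSet.{0} := ⟨id, fun _ _ h => h⟩

open Classical in
noncomputable instance cdProp : Cd Prop :=
  ⟨fun p => if p then num 1 else num 0, fun p q h => by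
    have e : num 1 ≠ num 0 := fun e => absurd (num_inj e) one_ne_zero
    by_cases hp : p <;> by_cases hq : q <;> simp_all [e.symm]⟩

/-- interleave variables and parameters -/
def mix (v c : ℕ → ZFSet.{0}) : ℕ → ZFSet.{0} := fun n => if n % 2 = 0 then v (n / 2) else c (n / 2)

/-- a property of valuations that is first-order definable over `W` with parameters -/
def DU (M : Md) (P : (ℕ → ZFSet.{0}) → Prop) : Prop :=
  ∃ (φ : Fml) (c : ℕ → ZFSet), (∀ i, c i ∈ M.W) ∧
    ∀ v : ℕ → ZFSet, (∀ i, v i ∈ M.W) → (Sat (M.W : Set ZFSet) M.I φ (mix v c) ↔ P v)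

/-- `f` maps `W` to `W` and its graph is first-order definable over `W` with parameters -/
class DfF (M : Md) {α : Type u} {β : Type v} [Cd α] [Cd β] (f : α → β) : Prop where
  maps : ∀ a, InW M.W a → InW M.W (f a)
  ex : ∃ R : ZFSet → ZFSet → Prop, DU M (fun v => R (v 0) (v 1)) ∧
    ∀ a, InW M.W a → ∀ y ∈ M.W, (R (cd a) y ↔ y = cd (f a))

/-- a copy of `DfF` that steers instance search: the conclusions of all rules except `DfF.lam` -/
class DfP (M : Md) {α : Type u} {β : Type v} [Cd α] [Cd β] (f : α → β) : Prop where
  h : DfF M f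

instance (priority := 1000) DfP.dfF {M : Md} {α : Type u} {β : Type v} [Cd α] [Cd β] {f : α → β}
    [h : DfP M f] : DfF M f := h.h

/-- the codes of elements of `β` form a definable class -/
class TyD (M : Md) (β : Type u) [Cd β] : Prop where
  df : DfF M fun z : ZFSet => ∃ b : β, cd b = z

/-- the elements of `β` that lie in `W` form a set in `W` -/
class Ty (M : Md) (β : Type) [Cd β] : Prop where
  univ : InW M.W {b : β | InW M.W b}

/-- the whole type `β` is a set in `W` -/
class HF (M : Md) (β : Type) [Cd β] : Prop where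
  univ : InW M.W (Set.univ : Set β)

/-- an injective numbering -/
class En (α : Type) where
  enc : α → ℕ
  inj : Function.Injective enc

export En (enc)

instance enNat : En ℕ := ⟨id, fun _ _ h => h⟩

instance enProd {α β : Type} [En α] [En β] : En (α × β) :=
  ⟨fun p => Nat.pair (enc p.1) (enc p.2), fun _ _ h =>
    Prod.ext (En.inj (Nat.pair_eq_pair.1 h).1) (En.inj (Nat.pair_eq_pair.1 h).2)⟩

/-- the numbering is definable -/
class EnD (M : Md) (α : Type) [Cd α] [En α] : Prop where
  df : DfF M (enc : α → ℕ)

/-- coding by the numeral of the number -/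
@[reducible] def Cd.ofEn (α : Type) [En α] : Cd α := ⟨fun a => num (enc a), num_inj.comp En.inj⟩

/-- a numbering of a countable type -/
@[reducible] noncomputable def En.ofCountable (α : Type) [Countable α] : En α :=
  ⟨(exists_injective_nat α).choose, (exists_injective_nat α).choose_spec⟩

/-- `S` is countable in `W` -/
def CtW {β : Type} [Cd β] (W : ZFSet.{0}) (S : Set β) : Prop :=
  ∃ e : ℕ → β, InW W e ∧ S ⊆ Set.range e

/-- the image of a set of sets -/
noncomputable def zim (f : ZFSet.{0} → ZFSet.{0}) (s : ZFSet.{0}) : ZFSet.{0} :=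
  ZFSet.range fun x : s => f x.1

/-- `P W` holds as soon as `W` contains countably many prescribed sets of naturals -/
def Avail (P : ZFSet.{0} → Prop) : Prop :=
  ∃ F : ℕ → Set ℕ, ∀ W, (∀ i, InW W (F i)) → P W

end Pool.Agent.MP_c70ddc_lc.H1
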