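import Pool.Agent.MP_c70ddc_lc.H1.KRec

/-! Rationals and reals inside the model (module KE). -/

namespace Pool.Agent.MP_c70ddc_lc.H1

open Filter Topology

universe u

set_option synthInstance.maxSize 100000

/-- `W` contains the arithmetic of the rationals -/
class OrcQ (W : ZFSet.{0}) : Prop where
  h : InW W (Set.range (enc : ℚ → ℕ)) ∧
    InW W (enc '' {p : ℚ × ℚ | p.1 < p.2}) ∧
    InW W (enc '' {p : (ℚ × ℚ) × ℚ | p.2 = p.1.1 + p.1.2}) ∧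
    InW W (enc '' {p : (ℚ × ℚ) × ℚ | p.2 = p.1.1 * p.1.2}) ∧
    InW W (enc '' {p : (ℚ × ℚ) × ℚ | p.2 = p.1.1 / p.1.2}) ∧
    InW W (enc '' {p : ℚ × ℚ | p.2 = -p.1}) ∧
    InW W (enc '' {p : ℕ × ℚ | p.2 = (p.1 : ℚ)}) ∧
    InW W (enc '' {p : (ℚ × ℕ) × ℚ | p.2 = p.1.1 ^ p.1.2})

lemma avail_orcQ : Avail OrcQ :=
  Avail.mono (fun _ h => ⟨h⟩) ((Avail.base _).and ((Avail.base _).and ((Avail.base _).and
    ((Avail.base _).and ((Avail.base _).and ((Avail.base _).and ((Avail.base _).and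
      (Avail.base _))))))))

variable {M : Md} [OrcQ M.W] {α : Type u} [Cd α]

instance : HF M ℚ := HF.ofEn (OrcQ.h (W := M.W)).1

section rat

variable {f g : α → ℚ}

lemma kre_qneg (hf : DfF M f) : DfF M fun a => -f a :=
  DfF.comp (g := fun x : ℚ => -x)
    (DfF.of_enc (f := fun x : ℚ => -x) (OrcQ.h (W := M.W)).2.2.2.2.2.1) hf

lemma DfF.qlt (hf : DfF M f) (hg : DfF M g) : DfF M fun a => f a < g a :=
  DfF.comp2 (k := fun x y : ℚ => x < y)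
    (DfF.pred_of_enc (p := fun x : ℚ × ℚ => x.1 < x.2) (OrcQ.h (W := M.W)).2.1) hf hg
instance (priority := 7000) DfF_qlt_inst [hf : DfF M f] [hg : DfF M g] :
    DfP M fun a => f a < g a :=
  ⟨DfF.qlt hf hg⟩
lemma DfF.qle (hf : DfF M f) (hg : DfF M g) : DfF M fun a => f a ≤ g a :=
  (DfF.qlt hg hf).not.congr_iff fun _ _ => not_lt
instance (priority := 7000) DfF_qle_inst [hf : DfF M f] [hg : DfF M g] :
    DfP M fun a => f a ≤ g a :=
  ⟨DfF.qle hf hg⟩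
lemma DfF.qadd (hf : DfF M f) (hg : DfF M g) : DfF M fun a => f a + g a :=
  DfF.comp2 (k := fun x y : ℚ => x + y)
    (DfF.of_enc (f := fun x : ℚ × ℚ => x.1 + x.2) (OrcQ.h (W := M.W)).2.2.1) hf hg
instance (priority := 7000) DfF_qadd_inst [hf : DfF M f] [hg : DfF M g] :
    DfP M fun a => f a + g a :=
  ⟨DfF.qadd hf hg⟩
lemma DfF.qsub (hf : DfF M f) (hg : DfF M g) : DfF M fun a => f a - g a :=
  (DfF.qadd hf (kre_qneg hg)).congr fun _ _ => (sub_eq_add_neg _ _).symm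
instance (priority := 7000) DfF_qsub_inst [hf : DfF M f] [hg : DfF M g] :
    DfP M fun a => f a - g a :=
  ⟨DfF.qsub hf hg⟩
lemma DfF.qmul (hf : DfF M f) (hg : DfF M g) : DfF M fun a => f a * g a :=
  DfF.comp2 (k := fun x y : ℚ => x * y)
    (DfF.of_enc (f := fun x : ℚ × ℚ => x.1 * x.2) (OrcQ.h (W := M.W)).2.2.2.1) hf hg
instance (priority := 7000) DfF_qmul_inst [hf : DfF M f] [hg : DfF M g] :
    DfP M fun a => f a * g a :=
  ⟨DfF.qmul hf hg⟩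
lemma DfF.qdiv (hf : DfF M f) (hg : DfF M g) : DfF M fun a => f a / g a :=
  DfF.comp2 (k := fun x y : ℚ => x / y)
    (DfF.of_enc (f := fun x : ℚ × ℚ => x.1 / x.2) (OrcQ.h (W := M.W)).2.2.2.2.1) hf hg
instance (priority := 7000) DfF_qdiv_inst [hf : DfF M f] [hg : DfF M g] :
    DfP M fun a => f a / g a :=
  ⟨DfF.qdiv hf hg⟩
lemma DfF.qneg (hf : DfF M f) : DfF M fun a => -f a := kre_qneg hf
instance (priority := 7000) DfF_qneg_inst [hf : DfF M f] :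
    DfP M fun a => -f a :=
  ⟨DfF.qneg hf⟩
lemma DfF.qabs (hf : DfF M f) : DfF M fun a => |f a| :=
  (DfF.ite (d := fun _ => inferInstance) (DfF.qle (DfF.constHF (0 : ℚ)) hf) hf
    (DfF.qneg hf)).congr fun a _ => by
      by_cases h : 0 ≤ f a
      · simp only [h, if_true, abs_of_nonneg h]
      · simp only [h, if_false, abs_of_neg (not_le.1 h)]
instance (priority := 7000) DfF_qabs_inst [hf : DfF M f] :
    DfP M fun a => |f a| :=
  ⟨DfF.qabs hf⟩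
lemma DfF.qnat {n : α → ℕ} (hn : DfF M n) : DfF M fun a => (n a : ℚ) :=
  DfF.comp (g := fun x : ℕ => (x : ℚ))
    (DfF.of_enc (f := fun x : ℕ => (x : ℚ)) (OrcQ.h (W := M.W)).2.2.2.2.2.2.1) hn
instance (priority := 7000) DfF_qnat_inst {n : α → ℕ} [hn : DfF M n] :
    DfP M fun a => (n a : ℚ) :=
  ⟨DfF.qnat hn⟩
lemma DfF.qpow {n : α → ℕ} (hf : DfF M f) (hn : DfF M n) : DfF M fun a => f a ^ n a :=
  DfF.comp2 (k := fun (x : ℚ) (y : ℕ) => x ^ y)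
    (DfF.of_enc (f := fun x : ℚ × ℕ => x.1 ^ x.2) (OrcQ.h (W := M.W)).2.2.2.2.2.2.2) hf hn
instance (priority := 7000) DfF_qpow_inst {n : α → ℕ} [hf : DfF M f] [hn : DfF M n] :
    DfP M fun a => f a ^ n a :=
  ⟨DfF.qpow hf hn⟩

end rat

/-- Dedekind cuts -/
def kreCut (S : Set ℚ) : Prop :=
  S.Nonempty ∧ (∃ u : ℚ, ∀ q, q ∈ S → q < u) ∧ (∀ q, q ∈ S → ∀ p : ℚ, p < q → p ∈ S) ∧
    ∀ q, q ∈ S → ∃ p, p ∈ S ∧ q < p

lemma kre_cut_iff {S : Set ℚ} : kreCut S ↔ ∃ r : ℝ, {q : ℚ | (q : ℝ) < r} = S := by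
  constructor
  · rintro ⟨⟨q0, hq0⟩, ⟨u, hu⟩, hd, hm⟩
    have hne : ((fun q : ℚ => (q : ℝ)) '' S).Nonempty := ⟨_, q0, hq0, rfl⟩
    have hb : BddAbove ((fun q : ℚ => (q : ℝ)) '' S) := by
      refine ⟨u, ?_⟩
      rintro _ ⟨q, hq, rfl⟩
      exact Rat.cast_le.2 (hu q hq).le
    refine ⟨sSup ((fun q : ℚ => (q : ℝ)) '' S), Set.ext fun q => ?_⟩
    change (q : ℝ) < _ ↔ _
    rw [lt_csSup_iff hb hne]
    constructor
    · rintro ⟨_, ⟨p, hp, rfl⟩, h⟩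
      exact hd p hp q (Rat.cast_lt.1 h)
    · intro hq
      obtain ⟨p, hp, h⟩ := hm q hq
      exact ⟨_, ⟨p, hp, rfl⟩, Rat.cast_lt.2 h⟩
  · rintro ⟨r, rfl⟩
    refine ⟨exists_rat_lt r, ?_, ?_, ?_⟩
    · obtain ⟨u, hu⟩ := exists_rat_gt r
      refine ⟨u, fun q hq => ?_⟩
      have : (q : ℝ) < u := lt_trans hq hu
      exact_mod_cast this
    · intro q hq p hp
      have : (p : ℝ) < q := by exact_mod_cast hp
      exact lt_trans this hq
    · intro q hq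
      obtain ⟨p, h1, h2⟩ := exists_rat_btwn (show (q : ℝ) < r from hq)
      exact ⟨p, h2, by exact_mod_cast h1⟩

lemma kre_cd_real (r : ℝ) : cd r = cd {q : ℚ | (q : ℝ) < r} := rfl

instance : Ty M ℝ := by
  have h : InW M.W {S : Set ℚ | InW M.W S ∧ kreCut S} := by
    unfold kreCut
    infer_instance
  refine ⟨⟨?_⟩⟩
  have e : cd {b : ℝ | InW M.W b} = cd {S : Set ℚ | InW M.W S ∧ kreCut S} := by
    ext z
    rw [mem_cd_set, mem_cd_set]
    constructor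
    · rintro ⟨r, hr, rfl⟩
      exact ⟨{q : ℚ | (q : ℝ) < r}, ⟨⟨hr.1⟩, kre_cut_iff.2 ⟨r, rfl⟩⟩, rfl⟩
    · rintro ⟨S, ⟨h1, h2⟩, rfl⟩
      obtain ⟨r, rfl⟩ := kre_cut_iff.1 h2
      exact ⟨r, ⟨h1.1⟩, rfl⟩
  rw [e]
  exact h.1

section real

variable {f g : α → ℝ}

omit [OrcQ M.W] in
lemma kre_cut (hf : DfF M f) : DfF M fun a => {q : ℚ | (q : ℝ) < f a} :=
  DfF.recode (f := fun a => {q : ℚ | (q : ℝ) < f a}) hf.cd

omit [OrcQ M.W] in
lemma kre_qlt {q : α → ℚ} (hq : DfF M q) (hf : DfF M f) : DfF M fun a => (q a : ℝ) < f a :=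
  DfF.mem (f := q) (S := fun a => {q : ℚ | (q : ℝ) < f a}) hq (kre_cut hf)

lemma kre_of_lt {p : α → ℚ → Prop} (hp : DfF M fun x : α × ℚ => p x.1 x.2)
    (h : ∀ a, InW M.W a → ∀ q : ℚ, p a q ↔ (q : ℝ) < f a) : DfF M f :=
  DfF.recode (f := f) (DfF.cd (f := fun a => {q : ℚ | (q : ℝ) < f a})
    ((DfF.setHF hp).congr fun a ha => Set.ext (h a ha)))

lemma kre_lt_add {x y : ℝ} {q : ℚ} :
    (∃ q1 : ℚ, ∃ q2 : ℚ, (q1 : ℝ) < x ∧ (q2 : ℝ) < y ∧ q = q1 + q2) ↔ (q : ℝ) < x + y := by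
  constructor
  · rintro ⟨q1, q2, h1, h2, rfl⟩
    push_cast
    linarith
  · intro h
    obtain ⟨q1, h1, h2⟩ := exists_rat_btwn (show (q : ℝ) - y < x by linarith)
    refine ⟨q1, q - q1, h2, ?_, by ring⟩
    push_cast
    linarith

lemma kre_affine {a b x y q : ℝ} (h1 : a < x) (h2 : x < b) (h3 : q < a * y) (h4 : q < b * y) :
    q < x * y := by
  rcases le_total 0 y with h | h
  · nlinarith
  · nlinarith

lemma kre_lt_mul {x y : ℝ} {q : ℚ} :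
    (∃ a : ℚ, ∃ b : ℚ, ∃ c : ℚ, ∃ d : ℚ, (a : ℝ) < x ∧ x < (b : ℝ) ∧ (c : ℝ) < y ∧ y < (d : ℝ) ∧
      q < a * c ∧ q < a * d ∧ q < b * c ∧ q < b * d) ↔ (q : ℝ) < x * y := by
  constructor
  · rintro ⟨a, b, c, d, h1, h2, h3, h4, h5, h6, h7, h8⟩
    have h5' : (q : ℝ) < c * a := by rw [mul_comm]; exact_mod_cast h5
    have h6' : (q : ℝ) < d * a := by rw [mul_comm]; exact_mod_cast h6
    have h7' : (q : ℝ) < c * b := by rw [mul_comm]; exact_mod_cast h7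
    have h8' : (q : ℝ) < d * b := by rw [mul_comm]; exact_mod_cast h8
    have k1 := kre_affine h3 h4 h5' h6'
    have k2 := kre_affine h3 h4 h7' h8'
    rw [mul_comm] at k1 k2
    exact kre_affine h1 h2 k1 k2
  · intro h
    have hc : ContinuousAt (fun p : ℝ × ℝ => p.1 * p.2) (x, y) := by fun_prop
    have he : ∀ᶠ p : ℝ × ℝ in 𝓝 (x, y), (q : ℝ) < p.1 * p.2 := hc.eventually (lt_mem_nhds h)
    obtain ⟨δ, hδ, hb⟩ := Metric.eventually_nhds_iff.1 he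
    have key : ∀ u v : ℚ, |(u : ℝ) - x| < δ → |(v : ℝ) - y| < δ → q < u * v := by
      intro u v hu hv
      have : (q : ℝ) < (u : ℝ) * (v : ℝ) := @hb ((u : ℝ), (v : ℝ)) (by
        rw [Prod.dist_eq, Real.dist_eq, Real.dist_eq]
        exact max_lt hu hv)
      exact_mod_cast this
    obtain ⟨a, a1, a2⟩ := exists_rat_btwn (show x - δ < x by linarith)
    obtain ⟨b, b1, b2⟩ := exists_rat_btwn (show x < x + δ by linarith)
    obtain ⟨c, c1, c2⟩ := exists_rat_btwn (show y - δ < y by linarith)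
    obtain ⟨d, d1, d2⟩ := exists_rat_btwn (show y < y + δ by linarith)
    have ha : |(a : ℝ) - x| < δ := abs_lt.2 ⟨by linarith, by linarith⟩
    have hb' : |(b : ℝ) - x| < δ := abs_lt.2 ⟨by linarith, by linarith⟩
    have hc' : |(c : ℝ) - y| < δ := abs_lt.2 ⟨by linarith, by linarith⟩
    have hd : |(d : ℝ) - y| < δ := abs_lt.2 ⟨by linarith, by linarith⟩
    exact ⟨a, b, c, d, a2, b1, c2, d1, key _ _ ha hc', key _ _ ha hd, key _ _ hb' hc',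
      key _ _ hb' hd⟩

lemma kre_lt_inv {x q : ℝ} :
    ((0 < x ∧ q * x < 1) ∨ (x = 0 ∧ q < 0) ∨ (x < 0 ∧ 1 < q * x)) ↔ q < x⁻¹ := by
  rcases lt_trichotomy x 0 with h | h | h
  · have e : q < x⁻¹ ↔ 1 < q * x := by
      rw [inv_eq_one_div, lt_div_iff_of_neg h]
    rw [e]
    constructor
    · rintro (⟨h1, _⟩ | ⟨h1, _⟩ | ⟨_, h2⟩)
      · exact absurd h1 h.not_gt
      · exact absurd h1 h.ne
      · exact h2
    · exact fun h2 => Or.inr (Or.inr ⟨h, h2⟩)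
  · subst h
    simp
  · have e : q < x⁻¹ ↔ q * x < 1 := by
      rw [inv_eq_one_div, lt_div_iff₀ h]
    rw [e]
    constructor
    · rintro (⟨_, h2⟩ | ⟨h1, _⟩ | ⟨h1, _⟩)
      · exact h2
      · exact absurd h1 h.ne'
      · exact absurd h1 h.not_gt
    · exact fun h2 => Or.inl ⟨h, h2⟩

lemma kre_lt_sSup {S : Set ℝ} {q : ℝ} :
    (((S.Nonempty ∧ ∃ n : ℕ, ∀ x, x ∈ S → x ≤ (n : ℝ)) ∧ ∃ x, x ∈ S ∧ q < x) ∨
      (¬ (S.Nonempty ∧ ∃ n : ℕ, ∀ x, x ∈ S → x ≤ (n : ℝ)) ∧ q < 0)) ↔ q < sSup S := by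
  have hb : (∃ n : ℕ, ∀ x, x ∈ S → x ≤ (n : ℝ)) ↔ BddAbove S := by
    constructor
    · rintro ⟨n, hn⟩
      exact ⟨n, hn⟩
    · rintro ⟨u, hu⟩
      obtain ⟨n, hn⟩ := exists_nat_ge u
      exact ⟨n, fun x hx => (hu hx).trans hn⟩
  rw [hb]
  by_cases h : S.Nonempty ∧ BddAbove S
  · rw [lt_csSup_iff h.2 h.1]
    simp only [h, and_self, true_and, not_true_eq_false, false_and, or_false]
  · have e : sSup S = 0 := by
      rcases not_and_or.1 h with h1 | h1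
      · rw [Set.not_nonempty_iff_eq_empty.1 h1, Real.sSup_empty]
      · exact Real.sSup_of_not_bddAbove h1
    rw [e]
    simp only [h, false_and, not_false_eq_true, true_and, false_or]

lemma kre_tendsto {z : ℕ → ℝ} {L : ℝ} :
    (∀ e : ℚ, 0 < e → ∃ N : ℕ, ∀ n : ℕ, N ≤ n → |z n - L| < (e : ℝ)) ↔
      Tendsto z atTop (𝓝 L) := by
  rw [Metric.tendsto_atTop]
  constructor
  · intro h ε hε
    obtain ⟨e, h1, h2⟩ := exists_rat_btwn hε
    obtain ⟨N, hN⟩ := h e (by exact_mod_cast h1)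
    exact ⟨N, fun n hn => (hN n hn).trans h2⟩
  · intro h e he
    exact h e (by exact_mod_cast he)

lemma kre_lt_lim {z : ℕ → ℝ} {L : ℝ} (h : Tendsto z atTop (𝓝 L)) {q : ℚ} :
    (∃ p : ℚ, q < p ∧ ∃ N : ℕ, ∀ n : ℕ, N ≤ n → (p : ℝ) < z n) ↔ (q : ℝ) < L := by
  constructor
  · rintro ⟨p, hp, N, hN⟩
    have h1 : (p : ℝ) ≤ L :=
      ge_of_tendsto h (eventually_atTop.2 ⟨N, fun n hn => (hN n hn).le⟩)
    exact lt_of_lt_of_le (by exact_mod_cast hp) h1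
  · intro hq
    obtain ⟨p, h1, h2⟩ := exists_rat_btwn hq
    obtain ⟨N, hN⟩ := eventually_atTop.1 (h.eventually (lt_mem_nhds h2))
    exact ⟨p, by exact_mod_cast h1, N, hN⟩

lemma DfF.ratCast {q : α → ℚ} (hq : DfF M q) : DfF M fun a => (q a : ℝ) :=
  kre_of_lt (p := fun a p => p < q a) inferInstance fun _ _ _ => Rat.cast_lt.symm
instance (priority := 7000) DfF_ratCast_inst {q : α → ℚ} [hq : DfF M q] :
    DfP M fun a => (q a : ℝ) :=
  ⟨DfF.ratCast hq⟩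
lemma DfF.natCast {n : α → ℕ} (hn : DfF M n) : DfF M fun a => (n a : ℝ) :=
  (DfF.ratCast (DfF.qnat hn)).congr fun _ _ => Rat.cast_natCast _
instance (priority := 7000) DfF_natCast_inst {n : α → ℕ} [hn : DfF M n] :
    DfP M fun a => (n a : ℝ) :=
  ⟨DfF.natCast hn⟩
lemma DfF.rzero : DfF M fun _ : α => (0 : ℝ) :=
  (DfF.ratCast (DfF.constHF (0 : ℚ))).congr fun _ _ => Rat.cast_zero
instance (priority := 7000) DfF_rzero_inst :
    DfP M fun _ : α => (0 : ℝ) :=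
  ⟨DfF.rzero⟩
lemma DfF.rone : DfF M fun _ : α => (1 : ℝ) :=
  (DfF.ratCast (DfF.constHF (1 : ℚ))).congr fun _ _ => Rat.cast_one
instance (priority := 7000) DfF_rone_inst :
    DfP M fun _ : α => (1 : ℝ) :=
  ⟨DfF.rone⟩
lemma DfF.rlt (hf : DfF M f) (hg : DfF M g) : DfF M fun a => f a < g a := by
  have h1 : DfF M fun x : α × ℚ => (x.2 : ℝ) < f x.1 := kre_qlt inferInstance inferInstance
  have h2 : DfF M fun x : α × ℚ => (x.2 : ℝ) < g x.1 := kre_qlt inferInstance inferInstance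
  refine (DfF.exHF (s := fun a (q : ℚ) => ¬ (q : ℝ) < f a ∧ (q : ℝ) < g a)
    (h1.not.and h2)).congr_iff fun a _ => ?_
  constructor
  · rintro ⟨q, k1, k2⟩
    exact lt_of_le_of_lt (not_lt.1 k1) k2
  · intro h
    obtain ⟨q, k1, k2⟩ := exists_rat_btwn h
    exact ⟨q, k1.not_gt, k2⟩
instance (priority := 7000) DfF_rlt_inst [hf : DfF M f] [hg : DfF M g] :
    DfP M fun a => f a < g a :=
  ⟨DfF.rlt hf hg⟩
lemma DfF.rle (hf : DfF M f) (hg : DfF M g) : DfF M fun a => f a ≤ g a :=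
  (DfF.rlt hg hf).not.congr_iff fun _ _ => not_lt
instance (priority := 7000) DfF_rle_inst [hf : DfF M f] [hg : DfF M g] :
    DfP M fun a => f a ≤ g a :=
  ⟨DfF.rle hf hg⟩
lemma DfF.radd (hf : DfF M f) (hg : DfF M g) : DfF M fun a => f a + g a :=
  kre_of_lt (p := fun a q => ∃ q1 : ℚ, ∃ q2 : ℚ, (q1 : ℝ) < f a ∧ (q2 : ℝ) < g a ∧ q = q1 + q2)
    inferInstance fun _ _ _ => kre_lt_add
instance (priority := 7000) DfF_radd_inst [hf : DfF M f] [hg : DfF M g] :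
    DfP M fun a => f a + g a :=
  ⟨DfF.radd hf hg⟩
lemma DfF.rneg (hf : DfF M f) : DfF M fun a => -f a :=
  kre_of_lt (p := fun a q => f a < ((-q : ℚ) : ℝ)) inferInstance fun _ _ _ => by
    push_cast
    exact lt_neg
instance (priority := 7000) DfF_rneg_inst [hf : DfF M f] :
    DfP M fun a => -f a :=
  ⟨DfF.rneg hf⟩
lemma DfF.rsub (hf : DfF M f) (hg : DfF M g) : DfF M fun a => f a - g a :=
  (DfF.radd hf (DfF.rneg hg)).congr fun _ _ => (sub_eq_add_neg _ _).symm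
instance (priority := 7000) DfF_rsub_inst [hf : DfF M f] [hg : DfF M g] :
    DfP M fun a => f a - g a :=
  ⟨DfF.rsub hf hg⟩
lemma DfF.rabs (hf : DfF M f) : DfF M fun a => |f a| :=
  kre_of_lt (p := fun a q => (q : ℝ) < f a ∨ (q : ℝ) < -f a) inferInstance fun _ _ _ =>
    lt_abs.symm
instance (priority := 7000) DfF_rabs_inst [hf : DfF M f] :
    DfP M fun a => |f a| :=
  ⟨DfF.rabs hf⟩
lemma DfF.rmul (hf : DfF M f) (hg : DfF M g) : DfF M fun a => f a * g a :=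
  kre_of_lt (p := fun x q => ∃ a : ℚ, ∃ b : ℚ, ∃ c : ℚ, ∃ d : ℚ, (a : ℝ) < f x ∧ f x < (b : ℝ) ∧
    (c : ℝ) < g x ∧ g x < (d : ℝ) ∧ q < a * c ∧ q < a * d ∧ q < b * c ∧ q < b * d)
    inferInstance fun _ _ _ => kre_lt_mul
instance (priority := 7000) DfF_rmul_inst [hf : DfF M f] [hg : DfF M g] :
    DfP M fun a => f a * g a :=
  ⟨DfF.rmul hf hg⟩
lemma DfF.rinv (hf : DfF M f) : DfF M fun a => (f a)⁻¹ :=
  kre_of_lt (p := fun a q => (0 < f a ∧ (q : ℝ) * f a < 1) ∨ (f a = 0 ∧ (q : ℝ) < 0) ∨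
    (f a < 0 ∧ 1 < (q : ℝ) * f a)) inferInstance fun _ _ _ => kre_lt_inv
instance (priority := 7000) DfF_rinv_inst [hf : DfF M f] :
    DfP M fun a => (f a)⁻¹ :=
  ⟨DfF.rinv hf⟩
lemma DfF.rdiv (hf : DfF M f) (hg : DfF M g) : DfF M fun a => f a / g a :=
  (DfF.rmul hf (DfF.rinv hg)).congr fun _ _ => (div_eq_mul_inv _ _).symm
instance (priority := 7000) DfF_rdiv_inst [hf : DfF M f] [hg : DfF M g] :
    DfP M fun a => f a / g a :=
  ⟨DfF.rdiv hf hg⟩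
lemma DfF.rpow {n : α → ℕ} (hf : DfF M f) (hn : DfF M n) : DfF M fun a => f a ^ n a :=
  DfF.comp2 (k := fun (x : ℝ) (m : ℕ) => x ^ m)
    (DfF.natRec (z := fun _ : ℝ => (1 : ℝ)) (s := fun x _ y => y * x) DfF.rone inferInstance
      (F := fun (x : ℝ) (m : ℕ) => x ^ m) pow_zero pow_succ) hf hn
instance (priority := 7000) DfF_rpow_inst {n : α → ℕ} [hf : DfF M f] [hn : DfF M n] :
    DfP M fun a => f a ^ n a :=
  ⟨DfF.rpow hf hn⟩
lemma DfF.rsSup {S : α → Set ℝ} (hS : DfF M S) : DfF M fun a => sSup (S a) :=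
  kre_of_lt (p := fun a q => (((S a).Nonempty ∧ ∃ n : ℕ, ∀ x, x ∈ S a → x ≤ (n : ℝ)) ∧
      ∃ x, x ∈ S a ∧ (q : ℝ) < x) ∨
    (¬ ((S a).Nonempty ∧ ∃ n : ℕ, ∀ x, x ∈ S a → x ≤ (n : ℝ)) ∧ (q : ℝ) < 0))
    inferInstance fun _ _ _ => kre_lt_sSup
instance (priority := 7000) DfF_rsSup_inst {S : α → Set ℝ} [hS : DfF M S] :
    DfP M fun a => sSup (S a) :=
  ⟨DfF.rsSup hS⟩
lemma DfF.tendsto {z : α → ℕ → ℝ} (hz : DfF M z) (hf : DfF M f) :
    DfF M fun a => Tendsto (z a) atTop (𝓝 (f a)) := by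
  have h : DfF M fun a => ∀ e : ℚ, 0 < e → ∃ N : ℕ, ∀ n : ℕ, N ≤ n → |z a n - f a| < (e : ℝ) := by
    have h1 : DfF M fun x : α × ℕ => z x.1 x.2 := DfF.app (hz.comp inferInstance) inferInstance
    infer_instance
  exact h.congr_iff fun _ _ => kre_tendsto
instance (priority := 7000) DfF_tendsto_inst {z : α → ℕ → ℝ} [hz : DfF M z] [hf : DfF M f] :
    DfP M fun a => Tendsto (z a) atTop (𝓝 (f a)) :=
  ⟨DfF.tendsto hz hf⟩
lemma DfF.of_tendsto {z : α → ℕ → ℝ} (hz : DfF M z)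
    (h : ∀ a, InW M.W a → Tendsto (z a) atTop (𝓝 (f a))) : DfF M f := by
  have h1 : DfF M fun x : α × ℕ => z x.1 x.2 := DfF.app (hz.comp inferInstance) inferInstance
  exact kre_of_lt (p := fun a q => ∃ p : ℚ, q < p ∧ ∃ N : ℕ, ∀ n : ℕ, N ≤ n → (p : ℝ) < z a n)
    inferInstance fun a ha _ => kre_lt_lim (h a ha)
lemma DfF.rsum {k : α → ℕ → ℝ} {n : α → ℕ} (hk : DfF M fun x : α × ℕ => k x.1 x.2) (hn : DfF M n) :
    DfF M fun a => ∑ i ∈ Finset.range (n a), k a i :=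
  DfF.comp2 (k := fun (v : ℕ → ℝ) (m : ℕ) => ∑ i ∈ Finset.range m, v i)
    (DfF.natRec (z := fun _ : ℕ → ℝ => (0 : ℝ)) (s := fun v m y => y + v m) DfF.rzero
      inferInstance (F := fun (v : ℕ → ℝ) (m : ℕ) => ∑ i ∈ Finset.range m, v i)
      (fun _ => Finset.sum_range_zero _) fun v m => Finset.sum_range_succ v m)
    (DfF.lam hk) hn
instance (priority := 7000) DfF_rsum_inst {k : α → ℕ → ℝ} {n : α → ℕ}
    [hk : DfF M fun x : α × ℕ => k x.1 x.2] [hn : DfF M n] :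
    DfP M fun a => ∑ i ∈ Finset.range (n a), k a i :=
  ⟨DfF.rsum hk hn⟩

end real

end Pool.Agent.MP_c70ddc_lc.H1
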