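import Pool.Agent.MP_c70ddc_lc.H1.KCore

/-! Definable operations on typed sets and functions (module KB). -/

namespace Pool.Agent.MP_c70ddc_lc.H1

universe u v w

variable {M : Md} {α : Type u} {β : Type v} {γ : Type w} [Cd α] [Cd β] [Cd γ]

set_option synthInstance.maxSize 100000

section sets

variable {κ : Type} [Cd κ] {κ' : Type} [Cd κ'] {s : α → κ → Prop} {S T : α → Set κ} {f : α → κ}

lemma kb_trans {x y : ZFSet.{0}} (hx : x ∈ M.W) (h : y ∈ x) : y ∈ M.W := M.h.trans x hx y h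

lemma kb_pair {x y : ZFSet.{0}} : ZFSet.pair x y ∈ M.W ↔ x ∈ M.W ∧ y ∈ M.W := by
  have := inW_prod (M := M) (a := x) (b := y)
  rw [inW_zf, inW_zf] at this
  exact ⟨fun h => this.1 ⟨h⟩, fun h => (this.2 h).1⟩

lemma kb_const {c : β} (h : DfF M fun _ : ℕ => c) : InW M.W c := h.inW (inW_num 0)

/-- a typed binary predicate as a predicate on pairs of codes -/
lemma kb_toQ {p : α → β → Prop} (hp : DfF M fun x : α × β => p x.1 x.2) :
    ∃ Q : ZFSet → Prop, DfF M Q ∧ ∀ a b, InW M.W a → InW M.W b →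
      (Q (ZFSet.pair (cd a) (cd b)) ↔ p a b) := by
  obtain ⟨Q, hQ, h⟩ := hp.toQ
  exact ⟨Q, hQ, fun a b ha hb => h (a, b) (ha.pair hb)⟩

/-- typed replacement -/
lemma kb_zimage {g : α → κ → β} (hg : DfF M fun x : α × κ => g x.1 x.2) (hS : DfF M S)
    {F : α → ZFSet.{0}} (hF : ∀ a, InW M.W a → ∀ y, y ∈ F a ↔ ∃ b ∈ S a, cd (g a b) = y) :
    DfF M F := by
  have h1 : DfF M fun x : (α × κ) × ZFSet.{0} => x.2 = cd (g x.1.1 x.1.2) :=
    DfF.eq DfF.id.snd (DfF.cd (DfF.comp hg DfF.id.fst))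
  obtain ⟨Q, hQ, h⟩ := kb_toQ (p := fun (x : α × κ) (y : ZFSet.{0}) => y = cd (g x.1 x.2)) h1
  have h' : ∀ a b, InW M.W a → InW M.W b → ∀ y ∈ M.W,
      (Q (ZFSet.pair (ZFSet.pair (cd a) (cd b)) y) ↔ y = cd (g a b)) :=
    fun a b ha hb y hy => h (a, b) y (ha.pair hb) ⟨hy⟩
  refine DfF.zrepl (p := fun a x y => Q (ZFSet.pair (ZFSet.pair (cd a) x) y)) hS.cd
    (DfF.comp hQ (DfF.zpair (DfF.zpair DfF.id.fst.cd DfF.id.snd.fst) DfF.id.snd.snd)) ?_ ?_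
  · intro a ha x hx y hy y' hy' e e'
    obtain ⟨b, hb, rfl⟩ := mem_cd_set.1 hx
    have hbW := (hS.inW ha).of_mem hb
    exact ((h' a b ha hbW y hy).1 e).trans ((h' a b ha hbW y' hy').1 e').symm
  · intro a ha y
    rw [hF a ha]
    constructor
    · rintro ⟨b, hb, rfl⟩
      have hbW := (hS.inW ha).of_mem hb
      have hy : cd (g a b) ∈ M.W := (hg.inW (ha.pair hbW)).mem
      exact ⟨hy, cd b, cd_mem_cd.2 hb, (h' a b ha hbW _ hy).2 rfl⟩
    · rintro ⟨hy, x, hx, e⟩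
      obtain ⟨b, hb, rfl⟩ := mem_cd_set.1 hx
      exact ⟨b, hb, ((h' a b ha ((hS.inW ha).of_mem hb) y hy).1 e).symm⟩

lemma DfF.mem (hf : DfF M f) (hS : DfF M S) : DfF M fun a => f a ∈ S a :=
  (DfF.zmem hf.cd hS.cd).congr_iff fun _ _ => cd_mem_cd
instance (priority := 5000) DfF_mem_inst [hf : DfF M f] [hS : DfF M S] :
    DfP M fun a => f a ∈ S a :=
  ⟨DfF.mem hf hS⟩
lemma DfF.subset (hS : DfF M S) (hT : DfF M T) : DfF M fun a => S a ⊆ T a :=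
  (DfF.ball (s := fun a b => b ∈ T a) hS
    (DfF.mem DfF.id.snd (DfF.comp hT DfF.id.fst))).congr_iff fun _ _ => Iff.rfl
instance (priority := 5000) DfF_subset_inst [hS : DfF M S] [hT : DfF M T] :
    DfP M fun a => S a ⊆ T a :=
  ⟨DfF.subset hS hT⟩
lemma DfF.sep (hS : DfF M S) (h : DfF M fun x : α × κ => s x.1 x.2) :
    DfF M fun a => {b | b ∈ S a ∧ s a b} := by
  obtain ⟨Q, hQ, e⟩ := kb_toQ h
  refine DfF.recode ((DfF.zsep (r := fun a z => Q (ZFSet.pair (H1.cd a) z)) hS.cd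
    (DfF.comp hQ (DfF.zpair DfF.id.fst.cd DfF.id.snd))).congr fun a ha => ?_)
  ext z
  rw [ZFSet.mem_sep, mem_cd_set, mem_cd_set]
  constructor
  · rintro ⟨⟨b, hb, rfl⟩, hq⟩
    exact ⟨b, ⟨hb, (e a b ha ((hS.inW ha).of_mem hb)).1 hq⟩, rfl⟩
  · rintro ⟨b, ⟨hb, hs⟩, rfl⟩
    exact ⟨⟨b, hb, rfl⟩, (e a b ha ((hS.inW ha).of_mem hb)).2 hs⟩
instance (priority := 5500) DfF_sep_inst [hS : DfF M S] [h : DfF M fun x : α × κ => s x.1 x.2] :
    DfP M fun a => {b | b ∈ S a ∧ s a b} :=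
  ⟨DfF.sep hS h⟩
lemma DfF.setHF [HF M κ] (h : DfF M fun x : α × κ => s x.1 x.2) : DfF M fun a => {b | s a b} :=
  (DfF.sep (DfF.const HF.univ) h).congr fun _ _ =>
    Set.ext fun _ => ⟨fun h => h.2, fun h => ⟨Set.mem_univ _, h⟩⟩
instance (priority := 6000) DfF_setHF_inst [HF M κ] [h : DfF M fun x : α × κ => s x.1 x.2] :
    DfP M fun a => {b | s a b} :=
  ⟨DfF.setHF h⟩
lemma DfF.setW [Ty M κ] (h : DfF M fun x : α × κ => s x.1 x.2) :
    DfF M fun a => {b | InW M.W b ∧ s a b} :=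
  DfF.sep (DfF.const Ty.univ) h
instance (priority := 8000) DfF_setW_inst [Ty M κ] [h : DfF M fun x : α × κ => s x.1 x.2] :
    DfP M fun a => {b | InW M.W b ∧ s a b} :=
  ⟨DfF.setW h⟩
lemma DfF.setW' [Ty M κ] : DfF M fun _ : α => {b : κ | InW M.W b} := DfF.const Ty.univ
instance (priority := 8000) DfF_setWP_inst [Ty M κ] :
    DfP M fun _ : α => {b : κ | InW M.W b} :=
  ⟨DfF.setW'⟩
/-- a family of subsets of `W` with definable membership relation -/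
lemma DfF.of_mem [Ty M κ] (h : DfF M fun x : α × κ => x.2 ∈ S x.1)
    (hS : ∀ a, InW M.W a → ∀ b ∈ S a, InW M.W b) : DfF M S :=
  (DfF.setW (s := fun a b => b ∈ S a) h).congr fun a ha =>
    Set.ext fun b => ⟨fun h => h.2, fun h => ⟨hS a ha b h, h⟩⟩
lemma DfF.empty : DfF M fun _ : α => (∅ : Set κ) := by
  refine DfF.recode (DfF.zempty.congr fun _ _ => ?_)
  ext z
  simp [mem_cd_set]
instance (priority := 7000) DfF_empty_inst :
    DfP M fun _ : α => (∅ : Set κ) :=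
  ⟨DfF.empty⟩
lemma DfF.univ [HF M κ] : DfF M fun _ : α => (Set.univ : Set κ) := DfF.const HF.univ
instance (priority := 7000) DfF_univ_inst [HF M κ] :
    DfP M fun _ : α => (Set.univ : Set κ) :=
  ⟨DfF.univ⟩
lemma DfF.singleton (hf : DfF M f) : DfF M fun a => ({f a} : Set κ) := by
  refine DfF.recode ((DfF.zsingleton hf.cd).congr fun _ _ => ?_)
  ext z
  simp [mem_cd_set, eq_comm]
instance (priority := 7000) DfF_singleton_inst [hf : DfF M f] :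
    DfP M fun a => ({f a} : Set κ) :=
  ⟨DfF.singleton hf⟩
lemma DfF.insert (hf : DfF M f) (hS : DfF M S) : DfF M fun a => insert (f a) (S a) := by
  refine DfF.recode ((DfF.zinsert hf.cd hS.cd).congr fun _ _ => ?_)
  ext z
  simp [mem_cd_set, eq_comm]
instance (priority := 7000) DfF_insert_inst [hf : DfF M f] [hS : DfF M S] :
    DfP M fun a => insert (f a) (S a) :=
  ⟨DfF.insert hf hS⟩
lemma DfF.union (hS : DfF M S) (hT : DfF M T) : DfF M fun a => S a ∪ T a := by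
  refine DfF.recode ((DfF.zunion hS.cd hT.cd).congr fun _ _ => ?_)
  ext z
  simp [mem_cd_set, or_and_right, exists_or]
instance (priority := 7000) DfF_union_inst [hS : DfF M S] [hT : DfF M T] :
    DfP M fun a => S a ∪ T a :=
  ⟨DfF.union hS hT⟩
lemma DfF.inter (hS : DfF M S) (hT : DfF M T) : DfF M fun a => S a ∩ T a :=
  DfF.sep (s := fun a b => b ∈ T a) hS (DfF.mem DfF.id.snd (DfF.comp hT DfF.id.fst))
instance (priority := 7000) DfF_inter_inst [hS : DfF M S] [hT : DfF M T] :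
    DfP M fun a => S a ∩ T a :=
  ⟨DfF.inter hS hT⟩
lemma DfF.diff (hS : DfF M S) (hT : DfF M T) : DfF M fun a => S a \ T a :=
  DfF.sep (s := fun a b => b ∉ T a) hS (DfF.mem DfF.id.snd (DfF.comp hT DfF.id.fst)).not
instance (priority := 7000) DfF_diff_inst [hS : DfF M S] [hT : DfF M T] :
    DfP M fun a => S a \ T a :=
  ⟨DfF.diff hS hT⟩
lemma DfF.nonempty (hS : DfF M S) : DfF M fun a => (S a).Nonempty :=
  (DfF.eq hS DfF.empty).not.congr_iff fun _ _ => Set.nonempty_iff_ne_empty.symm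
instance (priority := 7000) DfF_nonempty_inst [hS : DfF M S] :
    DfP M fun a => (S a).Nonempty :=
  ⟨DfF.nonempty hS⟩
lemma DfF.sUnion {U : α → Set (Set κ)} (hU : DfF M U) : DfF M fun a => ⋃₀ U a := by
  refine DfF.recode ((DfF.zsUnion hU.cd).congr fun a _ => ?_)
  ext z
  rw [ZFSet.mem_sUnion, mem_cd_set]
  constructor
  · rintro ⟨w, hw, hz⟩
    obtain ⟨A, hA, rfl⟩ := mem_cd_set.1 hw
    obtain ⟨b, hb, rfl⟩ := mem_cd_set.1 hz
    exact ⟨b, ⟨A, hA, hb⟩, rfl⟩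
  · rintro ⟨b, ⟨A, hA, hb⟩, rfl⟩
    exact ⟨_, cd_mem_cd.2 hA, cd_mem_cd.2 hb⟩
instance (priority := 7000) DfF_sUnion_inst {U : α → Set (Set κ)} [hU : DfF M U] :
    DfP M fun a => ⋃₀ U a :=
  ⟨DfF.sUnion hU⟩
lemma DfF.image {g : α → κ → κ'} (hg : DfF M fun x : α × κ => g x.1 x.2) (hS : DfF M S) :
    DfF M fun a => g a '' S a := by
  refine DfF.recode (kb_zimage hg hS fun a _ y => ?_)
  simp [mem_cd_set]
instance (priority := 7000) DfF_image_inst {g : α → κ → κ'}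
    [hg : DfF M fun x : α × κ => g x.1 x.2] [hS : DfF M S] :
    DfP M fun a => g a '' S a :=
  ⟨DfF.image hg hS⟩
lemma DfF.range {g : α → κ → κ'} (hg : DfF M g) : DfF M fun a => Set.range (g a) := by
  refine DfF.recode (DfF.zrepl (p := fun _ x y => ∃ u, u ∈ M.W ∧ x = ZFSet.pair u y) hg.cd
    (DfF.zexW (r := fun (x : α × ZFSet × ZFSet) u => x.2.1 = ZFSet.pair u x.2.2)
      (DfF.eq DfF.id.fst.snd.fst (DfF.zpair DfF.id.snd DfF.id.fst.snd.snd))) ?_ ?_)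
  · rintro a _ x _ y _ y' _ ⟨u, _, e⟩ ⟨u', _, e'⟩
    exact (ZFSet.pair_inj.1 (e.symm.trans e')).2
  · intro a ha y
    rw [mem_cd_set]
    constructor
    · rintro ⟨b, ⟨i, rfl⟩, rfl⟩
      have h1 : ZFSet.pair (H1.cd i) (H1.cd (g a i)) ∈ H1.cd (g a) := mem_cd_fun.2 ⟨i, rfl⟩
      have h2 := kb_pair.1 (kb_trans (hg.inW ha).mem h1)
      exact ⟨h2.2, _, h1, _, h2.1, rfl⟩
    · rintro ⟨_, x, hx, u, _, rfl⟩
      obtain ⟨i, e⟩ := mem_cd_fun.1 hx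
      exact ⟨g a i, ⟨i, rfl⟩, (ZFSet.pair_inj.1 e).2⟩
instance (priority := 7000) DfF_range_inst {g : α → κ → κ'} [hg : DfF M g] :
    DfP M fun a => Set.range (g a) :=
  ⟨DfF.range hg⟩
lemma DfF.iUnion [HF M κ] {U : α → κ → Set κ'} (hU : DfF M fun x : α × κ => U x.1 x.2) :
    DfF M fun a => ⋃ i, U a i :=
  (DfF.sUnion (DfF.image hU DfF.univ)).congr fun _ _ => by
    rw [Set.image_univ, Set.sUnion_range]
instance (priority := 7000) DfF_iUnion_inst [HF M κ] {U : α → κ → Set κ'}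
    [hU : DfF M fun x : α × κ => U x.1 x.2] :
    DfP M fun a => ⋃ i, U a i :=
  ⟨DfF.iUnion hU⟩
lemma DfF.prod {T' : α → Set κ'} (hS : DfF M S) (hT : DfF M T') : DfF M fun a => S a ×ˢ T' a := by
  refine DfF.recode ((DfF.zprod hS.cd hT.cd).congr fun a _ => ?_)
  ext z
  rw [ZFSet.mem_prod, mem_cd_set]
  constructor
  · rintro ⟨x, hx, y, hy, rfl⟩
    obtain ⟨b, hb, rfl⟩ := mem_cd_set.1 hx
    obtain ⟨c, hc, rfl⟩ := mem_cd_set.1 hy
    exact ⟨(b, c), ⟨hb, hc⟩, rfl⟩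
  · rintro ⟨⟨b, c⟩, ⟨hb, hc⟩, rfl⟩
    exact ⟨_, cd_mem_cd.2 hb, _, cd_mem_cd.2 hc, rfl⟩
instance (priority := 7000) DfF_prod_inst {T' : α → Set κ'} [hS : DfF M S] [hT : DfF M T'] :
    DfP M fun a => S a ×ˢ T' a :=
  ⟨DfF.prod hS hT⟩
lemma DfF.gr {g : α → κ → κ'} (hS : DfF M S) (hg : DfF M fun x : α × κ => g x.1 x.2) :
    DfF M fun a => gr (S a) (g a) := by
  refine (DfF.image (g := fun a b => (b, g a b)) (DfF.prodMk DfF.id.snd hg) hS).congr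
    fun a _ => ?_
  ext ⟨b, c⟩
  constructor
  · rintro ⟨b', hb, e⟩
    obtain ⟨rfl, rfl⟩ := Prod.mk.inj e
    exact ⟨hb, rfl⟩
  · rintro ⟨hb, e⟩
    exact ⟨b, hb, Prod.ext rfl e.symm⟩
instance (priority := 7000) DfF_gr_inst {g : α → κ → κ'} [hS : DfF M S]
    [hg : DfF M fun x : α × κ => g x.1 x.2] :
    DfP M fun a => gr (S a) (g a) :=
  ⟨DfF.gr hS hg⟩

lemma DfF.app {F : α → κ → β} (hF : DfF M F) (hf : DfF M f) : DfF M fun a => F a (f a) := by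
  refine DfF.recode (DfF.of_graph
    (p := fun a (y : ZFSet.{0}) => ZFSet.pair (H1.cd (f a)) y ∈ H1.cd (F a))
    (DfF.zmem (DfF.zpair (DfF.comp hf DfF.id.fst).cd DfF.id.snd) (DfF.comp hF DfF.id.fst).cd)
    (fun a ha => ⟨((hF.inW ha).app (f a)).mem⟩) fun a y _ _ => ?_)
  rw [mem_cd_fun]
  constructor
  · rintro ⟨i, e⟩
    obtain ⟨e1, e2⟩ := ZFSet.pair_inj.1 e
    rw [← e2, Cd.inj e1]
  · rintro rfl
    exact ⟨f a, rfl⟩
instance (priority := 800) DfF_app_inst {F : α → κ → β} [hF : DfP M F] [hf : DfF M f] :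
    DfP M fun a => F a (f a) :=
  ⟨DfF.app hF.h hf⟩
lemma DfF.lam [HF M κ] {F : α → κ → β} (hF : DfF M fun x : α × κ => F x.1 x.2) :
    DfF M fun a i => F a i := by
  refine DfF.recode (kb_zimage (g := fun a i => (i, F a i)) (DfF.prodMk DfF.id.snd hF)
    DfF.univ fun a _ y => ?_)
  rw [mem_cd_fun]
  exact ⟨fun ⟨i, e⟩ => ⟨i, Set.mem_univ i, e⟩, fun ⟨i, _, e⟩ => ⟨i, e⟩⟩
instance (priority := 600) DfF_lam_inst [HF M κ] {F : α → κ → β}
    [hF : DfF M fun x : α × κ => F x.1 x.2] :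
    DfF M fun a i => F a i :=
  DfF.lam hF

lemma InW.dom {A : Set κ} {g : κ → κ'} (h : InW M.W (H1.gr A g)) : InW M.W A := by
  refine kb_const ((DfF.image (g := fun _ (x : κ × κ') => x.1) DfF.id.snd.fst
    (DfF.const h)).congr fun _ _ => ?_)
  ext b
  exact ⟨fun ⟨x, hx, e⟩ => e ▸ hx.1, fun hb => ⟨(b, g b), ⟨hb, rfl⟩, rfl⟩⟩

open Classical in
lemma DfF.of_gr {A : Set κ} {g : κ → κ'} (h : InW M.W (H1.gr A g)) {d : κ'} (hd : InW M.W d) :
    DfF M fun a => if a ∈ A then g a else d := by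
  have hA : DfF M fun x : κ × ZFSet.{0} => x.1 ∈ A := DfF.mem DfF.id.fst (DfF.const h.dom)
  refine DfF.recode (DfF.of_graph
    (p := fun a (y : ZFSet.{0}) => (a ∈ A ∧ ZFSet.pair (H1.cd a) y ∈ H1.cd (H1.gr A g)) ∨
      (¬ a ∈ A ∧ y = H1.cd d))
    ((hA.and (DfF.zmem (DfF.zpair DfF.id.fst.cd DfF.id.snd) (DfF.const h).cd)).or
      (hA.not.and (DfF.eq DfF.id.snd (DfF.const hd).cd))) (fun a _ => ?_) fun a y _ _ => ?_)
  · by_cases ha : a ∈ A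
    · rw [if_pos ha]
      exact ⟨(h.of_mem (a := (a, g a)) ⟨ha, rfl⟩).snd.mem⟩
    · rw [if_neg ha]
      exact ⟨hd.mem⟩
  · by_cases ha : a ∈ A
    · rw [if_pos ha]
      constructor
      · rintro (⟨_, e⟩ | ⟨e, _⟩)
        · obtain ⟨⟨b, c⟩, ⟨_, hc⟩, e⟩ := mem_cd_set.1 e
          obtain ⟨e1, e2⟩ := ZFSet.pair_inj.1 e
          rw [← e2, ← Cd.inj e1]
          exact congrArg H1.cd hc
        · exact absurd ha e
      · rintro rfl
        exact Or.inl ⟨ha, (cd_mem_cd (a := (a, g a))).2 ⟨ha, rfl⟩⟩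
    · rw [if_neg ha]
      exact ⟨fun e => (e.resolve_left fun e => ha e.1).2, fun e => Or.inr ⟨ha, e⟩⟩

/-- a total function on a type that is a set in `W` lies in `W` iff it is definable -/
lemma DfF.inW_fun [HF M κ] {g : κ → β} (h : DfF M g) : InW M.W g :=
  kb_const (DfF.lam (F := fun _ i => g i) (DfF.comp h DfF.id.snd))
lemma InW.dfF {g : κ → β} (h : InW M.W g) : DfF M g :=
  DfF.app (F := fun _ => g) (DfF.const h) DfF.id

lemma InW.finite {A : Set κ} (hA : A.Finite) (h : ∀ a ∈ A, InW M.W a) : InW M.W A := by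
  induction A, hA using Set.Finite.induction_on with
  | empty => exact kb_const DfF.empty
  | @insert a B _ _ ih =>
    exact kb_const (DfF.insert (DfF.const (h a (Set.mem_insert a B)))
      (DfF.const (ih fun b hb => h b (Set.mem_insert_of_mem a hb))))

end sets

section instances

variable {κ : Type} [Cd κ] {κ' : Type} [Cd κ']

instance [HF M κ] [TyD M β] : TyD M (κ → β) := ⟨by
  have h1 : DfF M fun z : ZFSet.{0} => ∀ x, x ∈ z → ∃ i : κ, ∃ b : β, InW M.W b ∧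
      x = ZFSet.pair (cd i) (cd b) :=
    DfF.zball DfF.id (DfF.exHF (DfF.exW
      (DfF.eq DfF.id.fst.fst.snd (DfF.zpair DfF.id.fst.snd.cd DfF.id.snd.cd))))
  have h2 : DfF M fun z : ZFSet.{0} => ∀ i : κ, ∃ b : β, InW M.W b ∧
      ZFSet.pair (cd i) (cd b) ∈ z :=
    DfF.allHF (DfF.exW
      (DfF.zmem (DfF.zpair DfF.id.fst.snd.cd DfF.id.snd.cd) DfF.id.fst.fst))
  have h3 : DfF M fun z : ZFSet.{0} => ∀ i : κ, ∀ b : β, InW M.W b → ∀ c : β, InW M.W c →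
      ZFSet.pair (cd i) (cd b) ∈ z → ZFSet.pair (cd i) (cd c) ∈ z → b = c :=
    DfF.allHF (DfF.allW (DfF.allW
      ((DfF.zmem (DfF.zpair DfF.id.fst.fst.snd.cd DfF.id.fst.snd.cd) DfF.id.fst.fst.fst).imp
        ((DfF.zmem (DfF.zpair DfF.id.fst.fst.snd.cd DfF.id.snd.cd) DfF.id.fst.fst.fst).imp
          (DfF.eq DfF.id.fst.snd DfF.id.snd)))))
  refine (h1.and (h2.and h3)).congr_iff fun z hz => ⟨?_, ?_⟩
  · rintro ⟨e1, e2, e3⟩
    choose f hf using e2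
    refine ⟨f, ZFSet.ext fun x => ?_⟩
    rw [mem_cd_fun]
    constructor
    · rintro ⟨i, rfl⟩
      exact (hf i).2
    · intro hx
      obtain ⟨i, b, hb, rfl⟩ := e1 x hx
      exact ⟨i, by rw [e3 i b hb (f i) (hf i).1 hx (hf i).2]⟩
  · rintro ⟨f, rfl⟩
    have hf : InW M.W f := ⟨hz.mem⟩
    have key : ∀ (i : κ) (b : β), ZFSet.pair (cd i) (cd b) ∈ cd f → b = f i := by
      intro i b hb
      obtain ⟨j, e⟩ := mem_cd_fun.1 hb
      obtain ⟨e1, e2⟩ := ZFSet.pair_inj.1 e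
      rw [← Cd.inj e2, Cd.inj e1]
    refine ⟨fun x hx => ?_, fun i => ⟨f i, hf.app i, mem_cd_fun.2 ⟨i, rfl⟩⟩,
      fun i b _ c _ hb hc => (key i b hb).trans (key i c hc).symm⟩
    obtain ⟨i, rfl⟩ := mem_cd_fun.1 hx
    exact ⟨i, f i, hf.app i, rfl⟩⟩
instance [Ty M κ] [Ty M κ'] : Ty M (κ × κ') :=
  ⟨kb_const ((DfF.prod DfF.setW' DfF.setW').congr fun _ _ =>
    Set.ext fun _ => ⟨fun h => InW.pair h.1 h.2, fun h => ⟨InW.fst h, InW.snd h⟩⟩)⟩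
instance [Ty M κ] : Ty M (Set κ) := ⟨by
  refine kb_const (DfF.recode ((DfF.zpow (DfF.setW' (κ := κ)).cd).congr fun _ _ => ?_))
  ext z
  rw [ZFSet.mem_sep, mem_cd_set]
  constructor
  · rintro ⟨hz, hs⟩
    have e : cd {b : κ | cd b ∈ z} = z := by
      ext x
      rw [mem_cd_set]
      refine ⟨fun ⟨b, hb, e⟩ => e ▸ hb, fun hx => ?_⟩
      obtain ⟨b, _, rfl⟩ := mem_cd_set.1 (hs hx)
      exact ⟨b, hx, rfl⟩
    exact ⟨_, ⟨e.symm ▸ hz⟩, e⟩
  · rintro ⟨S, hS, rfl⟩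
    refine ⟨InW.mem (self := hS), fun x hx => ?_⟩
    obtain ⟨b, hb, rfl⟩ := mem_cd_set.1 hx
    exact cd_mem_cd.2 (InW.of_mem hS hb)⟩
instance [HF M κ] [Ty M κ'] : Ty M (κ → κ') := ⟨by
  refine kb_const (DfF.recode ((DfF.zsep (r := fun _ z => ∃ f : κ → κ', cd f = z)
    (DfF.zpow (DfF.zprod (DfF.univ (κ := κ)).cd (DfF.setW' (κ := κ')).cd))
    (DfF.comp (g := fun z : ZFSet.{0} => ∃ f : κ → κ', cd f = z) (f := fun x : ℕ × ZFSet.{0} => x.2)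
      TyD.df DfF.id.snd)).congr fun _ _ => ?_))
  ext z
  rw [ZFSet.mem_sep, ZFSet.mem_sep, mem_cd_set]
  constructor
  · rintro ⟨⟨hz, _⟩, f, rfl⟩
    exact ⟨f, ⟨hz⟩, rfl⟩
  · rintro ⟨f, hf, rfl⟩
    refine ⟨⟨InW.mem (self := hf), fun x hx => ?_⟩, f, rfl⟩
    obtain ⟨i, rfl⟩ := mem_cd_fun.1 hx
    exact ZFSet.mem_prod.2 ⟨_, cd_mem_cd.2 (Set.mem_univ i), _,
      cd_mem_cd.2 (InW.app hf i), rfl⟩⟩
instance [HF M κ] [HF M κ'] : HF M (κ × κ') :=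
  ⟨kb_const ((DfF.prod DfF.univ DfF.univ).congr fun _ _ => Set.univ_prod_univ)⟩

/-- choice for definable relations -/
lemma DfF.choice [Ch M] [TyD M β] {p : κ → β → Prop} (hp : DfF M fun x : κ × β => p x.1 x.2)
    {A : Set κ} (hA : InW M.W A) (h : ∀ a ∈ A, ∃ b, InW M.W b ∧ p a b) {d : β} (hd : InW M.W d) :
    ∃ g : κ → β, DfF M g ∧ ∀ a ∈ A, p a (g a) := by
  classical
  obtain ⟨Q, hQ, e⟩ := kb_toQ hp
  obtain ⟨t, ht, hc⟩ := DfF.coll (p := fun (z : ZFSet.{0}) (b : β) => Q (ZFSet.pair z (H1.cd b)))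
    (DfF.comp hQ (DfF.zpair DfF.id.fst DfF.id.snd.cd)) hA.mem
  let x : κ → ZFSet.{0} := fun a =>
    t.sep fun y => (∃ b : β, H1.cd b = y) ∧ Q (ZFSet.pair (H1.cd a) y)
  have hx : DfF M x :=
    DfF.zsep (r := fun a y => (∃ b : β, H1.cd b = y) ∧ Q (ZFSet.pair (H1.cd a) y))
      (DfF.const (inW_zf.2 ht)) ((DfF.comp (TyD.df (β := β)) DfF.id.snd).and
        (DfF.comp hQ (DfF.zpair DfF.id.fst.cd DfF.id.snd)))
  have hX : InW M.W (ZFSet.range fun a : A => x a.1) := by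
    refine kb_const (kb_zimage (g := fun _ a => x a) (DfF.comp hx DfF.id.snd) (DfF.const hA)
      fun _ _ y => ?_)
    rw [ZFSet.mem_range]
    exact ⟨fun ⟨a, e⟩ => ⟨a.1, a.2, e⟩, fun ⟨a, ha, e⟩ => ⟨⟨a, ha⟩, e⟩⟩
  obtain ⟨c, hcW, hch⟩ := (Ch.mdl (M := M)).choice _ hX.mem
  have key : ∀ a ∈ A, ∃ b : β, InW M.W b ∧ p a b ∧ ZFSet.pair (x a) (H1.cd b) ∈ c ∧
      ∀ y', ZFSet.pair (x a) y' ∈ c → y' = H1.cd b := by
    intro a ha
    have haW := hA.of_mem ha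
    obtain ⟨b, hb, hpb⟩ := h a ha
    obtain ⟨b', hb', hq⟩ := hc (H1.cd a) (cd_mem_cd.2 ha) ⟨b, hb, (e a b haW hb).2 hpb⟩
    have hne : x a ≠ ∅ := fun e0 => by
      have : H1.cd b' ∈ x a := ZFSet.mem_sep.2 ⟨hb', ⟨b', rfl⟩, hq⟩
      rw [e0] at this
      exact ZFSet.notMem_empty _ this
    obtain ⟨y, hy, h1, h2⟩ := hch (x a) (ZFSet.mem_range.2 ⟨⟨a, ha⟩, rfl⟩) hne
    obtain ⟨hyt, ⟨b'', rfl⟩, hq'⟩ := ZFSet.mem_sep.1 hy
    have hW : InW M.W b'' := ⟨kb_trans ht hyt⟩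
    exact ⟨b'', hW, (e a b'' haW hW).1 hq', h1, h2⟩
  choose g hg using key
  have hA' : DfF M fun y : κ × β => y.1 ∈ A := DfF.mem DfF.id.fst (DfF.const hA)
  refine ⟨fun a => if ha : a ∈ A then g a ha else d, DfF.of_graph
    (p := fun a b => (a ∈ A ∧ ZFSet.pair (x a) (H1.cd b) ∈ c) ∨ (¬ a ∈ A ∧ b = d))
    ((hA'.and (DfF.zmem (DfF.zpair (DfF.comp hx DfF.id.fst) DfF.id.snd.cd)
      (DfF.const (inW_zf.2 hcW)))).or (hA'.not.and (DfF.eq DfF.id.snd (DfF.const hd))))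
    (fun a _ => ?_) (fun a b _ _ => ?_), fun a ha => ?_⟩
  · by_cases ha : a ∈ A
    · rw [dif_pos ha]
      exact (hg a ha).1
    · rw [dif_neg ha]
      exact hd
  · by_cases ha : a ∈ A
    · rw [dif_pos ha]
      constructor
      · rintro (⟨_, e1⟩ | ⟨e1, _⟩)
        · exact Cd.inj ((hg a ha).2.2.2 _ e1)
        · exact absurd ha e1
      · rintro rfl
        exact Or.inl ⟨ha, (hg a ha).2.2.1⟩
    · rw [dif_neg ha]
      exact ⟨fun e1 => (e1.resolve_left fun e1 => ha e1.1).2, fun e1 => Or.inr ⟨ha, e1⟩⟩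
  · simp only [dif_pos ha]
    exact (hg a ha).2.1

end instances

end Pool.Agent.MP_c70ddc_lc.H1
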