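import Pool.Agent.MP_c70ddc_lc.H1.LDefs

/-! Existence and basic properties of the hierarchy (module LA). -/

namespace Pool.Agent.MP_c70ddc_lc.H1

/-- satisfaction only looks at the interpretation on the domain -/
lemma lb_sat_congr {M : Type*} {D : Set M} {I I' : ℕ → M → M → Prop}
    (hI : ∀ k, ∀ a ∈ D, ∀ b ∈ D, I k a b ↔ I' k a b) {φ : Fml} {v : ℕ → M}
    (hv : ∀ i, i < φ.bound → v i ∈ D) : Sat D I φ v ↔ Sat D I' φ v :=
  sat_map (D' := D) id (Set.bijOn_id D) hI hv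

lemma lb_cons_mem {M : Type*} {D : Set M} {n : ℕ} {z : M} {v : ℕ → M} (hz : z ∈ D)
    (hv : ∀ i, i < n → v i ∈ D) : ∀ i, i < n → cons z v i ∈ D
  | 0, _ => hz
  | i + 1, hi => hv i (by omega)

/-- definability over the universe, unfolded -/
lemma lb_dfd_univ {I : ℕ → ZFSet.{0} → ZFSet.{0} → Prop} (h0 : ∀ a b, I 0 a b ↔ a ∈ b)
    {l a : ZFSet.{0}} {φ : Fml} {v : ℕ → ZFSet.{0}} :
    Dfd Set.univ I l φ v a ↔ (∀ i, i < φ.bound → v i ∈ l) ∧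
      a = l.sep (fun z => Sat (l : Set ZFSet) I φ (cons z v)) := by
  have e : {x | x ∈ (Set.univ : Set ZFSet) ∧ I 0 x l} = (l : Set ZFSet) := by
    ext x
    simp [h0]
  unfold Dfd
  rw [e]
  simp only [Set.mem_univ, true_and, h0, forall_const]
  refine and_congr Iff.rfl ⟨fun h => ?_, fun h z => ?_⟩
  · ext z
    rw [ZFSet.mem_sep]
    exact h z
  · rw [h, ZFSet.mem_sep]

lemma lb_dfd_congr {I I' : ℕ → ZFSet.{0} → ZFSet.{0} → Prop} (h0 : ∀ a b, I 0 a b ↔ a ∈ b)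
    (h0' : ∀ a b, I' 0 a b ↔ a ∈ b) {l : ZFSet.{0}}
    (hI : ∀ k, ∀ a ∈ l, ∀ b ∈ l, I k a b ↔ I' k a b) {a : ZFSet.{0}} {φ : Fml}
    {v : ℕ → ZFSet.{0}} : Dfd Set.univ I l φ v a ↔ Dfd Set.univ I' l φ v a := by
  rw [lb_dfd_univ h0, lb_dfd_univ h0']
  refine and_congr_right fun hv => ?_
  have : l.sep (fun z => Sat (l : Set ZFSet) I φ (cons z v)) =
      l.sep (fun z => Sat (l : Set ZFSet) I' φ (cons z v)) := by
    ext z
    simp only [ZFSet.mem_sep]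
    refine and_congr_right fun hz => ?_
    exact lb_sat_congr (D := (l : Set ZFSet)) hI (lb_cons_mem (D := (l : Set ZFSet)) hz hv)
  rw [this]

lemma lb_lex_congr {M : Type*} {I I' : ℕ → M → M → Prop} {D : Set M}
    (hI : ∀ a ∈ D, ∀ b ∈ D, I 2 a b ↔ I' 2 a b) {n : ℕ} {v w : ℕ → M}
    (hv : ∀ i, i < n → v i ∈ D) (hw : ∀ i, i < n → w i ∈ D) : LexLt I n v w ↔ LexLt I' n v w := by
  unfold LexLt
  refine exists_congr fun i => and_congr_right fun hi => and_congr_right fun _ => ?_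
  exact hI _ (hv i hi) _ (hw i hi)

/-- interpretation with a given level predicate and order -/
def lbI (ρ : Set ℕ) (P : ZFSet.{0} → Prop) (R : ZFSet.{0} → ZFSet.{0} → Prop) :
    ℕ → ZFSet.{0} → ZFSet.{0} → Prop
  | 0, a, b => a ∈ b
  | 1, a, b => P a ∧ a = b
  | 2, a, b => R a b
  | 3, a, b => (∃ n ∈ ρ, a = num n) ∧ a = b
  | _ + 4, _, _ => False

/-- one step of the recursion -/
noncomputable def lbStep (ρ : Set ℕ) (α : Ordinal.{0})
    (G : Set.Iio α → ZFSet.{0} × (ℕ → ZFSet.{0} → ZFSet.{0} → Prop)) :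
    ZFSet.{0} × (ℕ → ZFSet.{0} → ZFSet.{0} → Prop) :=
  (ZFSet.iUnion fun β => (ZFSet.powerset (G β).1).sep
      (fun a => ∃ φ v, Dfd Set.univ (G β).2 (G β).1 φ v a),
    lbI ρ (fun a => ∃ β, a = (G β).1) (fun a b => ∃ β φ v, Dfd Set.univ (G β).2 (G β).1 φ v a ∧
      ∀ β', β' ≤ β → ∀ φ' v', Dfd Set.univ (G β').2 (G β').1 φ' v' b →
        β' = β ∧ (φ.enc < φ'.enc ∨ (φ = φ' ∧ LexLt (G β).2 φ.bound v v'))))

/-- the recursion -/
noncomputable def lbF (ρ : Set ℕ) : Ordinal.{0} → ZFSet.{0} × (ℕ → ZFSet.{0} → ZFSet.{0} → Prop) :=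
  WellFounded.fix Ordinal.lt_wf fun α F => lbStep ρ α fun β => F β.1 β.2

lemma lbF_eq (ρ : Set ℕ) (α : Ordinal.{0}) : lbF ρ α = lbStep ρ α fun β => lbF ρ β.1 :=
  WellFounded.fix_eq _ _ _

lemma lbF_zero (ρ : Set ℕ) (α : Ordinal.{0}) (a b : ZFSet.{0}) : (lbF ρ α).2 0 a b ↔ a ∈ b := by
  rw [lbF_eq]
  rfl

lemma lbF_mem (ρ : Set ℕ) (α : Ordinal.{0}) (a : ZFSet.{0}) :
    a ∈ (lbF ρ α).1 ↔ ∃ β, β < α ∧ ∃ φ v, Dfd Set.univ (lbF ρ β).2 (lbF ρ β).1 φ v a := by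
  rw [lbF_eq]
  simp only [lbStep, ZFSet.mem_iUnion, ZFSet.mem_sep, ZFSet.mem_powerset]
  constructor
  · rintro ⟨β, -, h⟩
    exact ⟨β.1, β.2, h⟩
  · rintro ⟨β, hβ, φ, v, h⟩
    refine ⟨⟨β, hβ⟩, ?_, φ, v, h⟩
    rw [lb_dfd_univ (lbF_zero ρ β)] at h
    rw [h.2]
    exact ZFSet.sep_subset

/-- the global order -/
def lbLt (ρ : Set ℕ) (a b : ZFSet.{0}) : Prop :=
  ∃ β φ v, Dfd Set.univ (lbF ρ β).2 (lbF ρ β).1 φ v a ∧ (∃ γ, b ∈ (lbF ρ γ).1) ∧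
    ∀ β', β' ≤ β → ∀ φ' v', Dfd Set.univ (lbF ρ β').2 (lbF ρ β').1 φ' v' b →
      β' = β ∧ (φ.enc < φ'.enc ∨ (φ = φ' ∧ LexLt (lbF ρ β).2 φ.bound v v'))

lemma lbF_agree (ρ : Set ℕ) (α : Ordinal.{0}) (k : ℕ) (a : ZFSet.{0}) (ha : a ∈ (lbF ρ α).1)
    (b : ZFSet.{0}) (hb : b ∈ (lbF ρ α).1) :
    (lbF ρ α).2 k a b ↔ II ρ (fun β => (lbF ρ β).1) (lbLt ρ) k a b := by
  have hmono : ∀ {β γ : Ordinal.{0}}, β ≤ γ → ∀ x, x ∈ (lbF ρ β).1 → x ∈ (lbF ρ γ).1 := by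
    intro β γ h x hx
    rw [lbF_mem] at hx ⊢
    obtain ⟨δ, hδ, h'⟩ := hx
    exact ⟨δ, hδ.trans_le h, h'⟩
  rw [lbF_eq ρ α]
  match k with
  | 0 => rfl
  | 1 =>
    refine and_congr ⟨?_, ?_⟩ Iff.rfl
    · rintro ⟨β, h⟩
      exact ⟨β.1, h⟩
    · rintro ⟨β, h⟩
      refine ⟨⟨β, ?_⟩, h⟩
      by_contra hc
      have h1 := hmono (not_lt.1 hc) a ha
      have h2 : a = (lbF ρ β).1 := h
      rw [← h2] at h1
      exact ZFSet.mem_irrefl _ h1
  | 2 =>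
    constructor
    · rintro ⟨β, φ, v, h1, h2⟩
      refine ⟨β.1, φ, v, h1, ⟨α, hb⟩, fun β' hβ' φ' v' h3 => ?_⟩
      obtain ⟨h4, h5⟩ := h2 ⟨β', hβ'.trans_lt β.2⟩ hβ' φ' v' h3
      exact ⟨congrArg Subtype.val h4, h5⟩
    · rintro ⟨β, φ, v, h1, -, h2⟩
      have hβ : β < α := by
        obtain ⟨δ, hδ, φ', v', h3⟩ := (lbF_mem ρ α b).1 hb
        rcases le_or_gt δ β with h | h
        · exact (h2 δ h φ' v' h3).1 ▸ hδ
        · exact h.trans hδ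
      refine ⟨⟨β, hβ⟩, φ, v, h1, fun β' hβ' φ' v' h3 => ?_⟩
      obtain ⟨h4, h5⟩ := h2 β'.1 hβ' φ' v' h3
      exact ⟨Subtype.ext h4, h5⟩
  | 3 => rfl
  | k + 4 => rfl

theorem exists_hier (ρ : Set ℕ) : ∃ L Lt, Hier ρ L Lt := by
  have hd : ∀ β φ v a, Dfd Set.univ (lbF ρ β).2 (lbF ρ β).1 φ v a ↔
      Dfd Set.univ (II ρ (fun β => (lbF ρ β).1) (lbLt ρ)) (lbF ρ β).1 φ v a := fun β φ v a =>
    lb_dfd_congr (lbF_zero ρ β) (fun _ _ => Iff.rfl) (lbF_agree ρ β)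
  refine ⟨fun β => (lbF ρ β).1, lbLt ρ, fun α a => ?_, fun a b => ?_⟩
  · rw [lbF_mem]
    simp only [hd]
  · conv_lhs => unfold lbLt
    refine exists_congr fun β => exists_congr fun φ => exists_congr fun v => ?_
    rw [← hd]
    refine and_congr_right fun h1 => and_congr_right fun _ => ?_
    refine forall_congr' fun β' => forall_congr' fun _ => forall_congr' fun φ' =>
      forall_congr' fun v' => ?_
    rw [← hd]
    refine forall_congr' fun h2 => and_congr_right fun h3 => or_congr Iff.rfl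
      (and_congr_right fun h4 => ?_)
    subst h3 h4
    exact lb_lex_congr (D := ((lbF ρ β').1 : Set ZFSet)) (lbF_agree ρ β' 2)
      ((lb_dfd_univ (lbF_zero ρ β')).1 h1).1 ((lb_dfd_univ (lbF_zero ρ β')).1 h2).1

variable {ρ : Set ℕ} {L : Ordinal.{0} → ZFSet.{0}} {Lt : ZFSet.{0} → ZFSet.{0} → Prop}

lemma lb_dfd {l a : ZFSet.{0}} {φ : Fml} {v : ℕ → ZFSet.{0}} :
    Dfd Set.univ (II ρ L Lt) l φ v a ↔ (∀ i, i < φ.bound → v i ∈ l) ∧
      a = l.sep (fun z => Sat (l : Set ZFSet) (II ρ L Lt) φ (cons z v)) :=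
  lb_dfd_univ fun _ _ => Iff.rfl

/-- lexicographic orders of well-founded relations are well-founded -/
lemma lb_lex_wf {M : Type*} {r : M → M → Prop} (hr : WellFounded r) (n : ℕ) :
    WellFounded fun v w : ℕ → M => ∃ i, i < n ∧ (∀ j, j < i → v j = w j) ∧ r (v i) (w i) := by
  have h := Pi.Lex.wellFounded (ι := Fin n) (α := fun _ => M) (· < ·) (s := fun _ => r)
    fun _ => hr
  refine Subrelation.wf ?_ (InvImage.wf (fun (v : ℕ → M) (i : Fin n) => v i) h)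
  rintro v w ⟨i, hi, h1, h2⟩
  exact ⟨⟨i, hi⟩, fun j hj => h1 j hj, h2⟩

/-- over a transitive class, definability is absolute -/
lemma lb_dfd_abs {D : Set ZFSet.{0}} (hD : ∀ a ∈ D, ∀ b ∈ a, b ∈ D) {l a : ZFSet.{0}}
    (hl : l ∈ D) (ha : a ∈ D) {φ : Fml} {v : ℕ → ZFSet.{0}} :
    Dfd D (II ρ L Lt) l φ v a ↔ Dfd Set.univ (II ρ L Lt) l φ v a := by
  have e : {x | x ∈ D ∧ II ρ L Lt 0 x l} = {x | x ∈ (Set.univ : Set ZFSet) ∧ II ρ L Lt 0 x l} := by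
    ext x
    exact ⟨fun h => ⟨trivial, h.2⟩, fun h => ⟨hD l hl x h.2, h.2⟩⟩
  unfold Dfd
  rw [e]
  refine and_congr (forall_congr' fun i => forall_congr' fun _ =>
    ⟨fun h => ⟨trivial, h.2⟩, fun h => ⟨hD l hl _ h.2, h.2⟩⟩)
    ⟨fun h z _ => ?_, fun h z _ => h z trivial⟩
  exact ⟨fun hz => (h z (hD a ha z hz)).1 hz, fun hz => (h z (hD l hl z hz.1)).2 hz⟩

lemma lb_rep {D : Set ZFSet.{0}} (hD : ∀ a ∈ D, ∀ b ∈ a, b ∈ D) (n : ℕ) :
    ∀ a ∈ D, Rep D (II ρ L Lt) n a ↔ a = num n := by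
  induction n with
  | zero =>
    intro a ha
    constructor
    · intro h
      exact (ZFSet.eq_empty a).2 fun z hz => h z (hD a ha z hz) hz
    · rintro rfl z _
      exact ZFSet.notMem_empty z
  | succ n ih =>
    intro a ha
    constructor
    · rintro ⟨b, hb, h1, h2⟩
      rw [ih b hb] at h1
      subst h1
      ext z
      rw [num, ZFSet.mem_insert_iff]
      refine ⟨fun hz => (h2 z (hD a ha z hz)).1 hz, fun hz => (h2 z ?_).2 hz⟩
      rcases hz with rfl | hz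
      · exact hb
      · exact hD _ hb z hz
    · rintro rfl
      have hb : num n ∈ D := hD _ ha _ (num_mem_num.2 n.lt_succ_self)
      exact ⟨num n, hb, (ih _ hb).2 rfl, fun z _ => ZFSet.mem_insert_iff⟩

lemma lb_dfd_self (l : ZFSet.{0}) :
    Dfd Set.univ (II ρ L Lt) l (.imp .bot .bot) (fun _ => ∅) l := by
  refine lb_dfd.2 ⟨fun i hi => absurd hi (by simp [Fml.bound]), ?_⟩
  ext z
  simp

namespace Hier

lemma mono (h : Hier ρ L Lt) {α β : Ordinal} (hab : α ≤ β) : L α ⊆ L β := by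
  intro x hx
  rw [h.mem] at hx ⊢
  obtain ⟨δ, hδ, h'⟩ := hx
  exact ⟨δ, hδ.trans_le hab, h'⟩

lemma trans (h : Hier ρ L Lt) {α : Ordinal} {a b : ZFSet} (ha : a ∈ L α) (hb : b ∈ a) : b ∈ L α := by
  obtain ⟨β, hβ, φ, v, h1⟩ := (h.mem α a).1 ha
  rw [(lb_dfd.1 h1).2] at hb
  exact h.mono hβ.le (ZFSet.mem_sep.1 hb).1

lemma mem_iff_lt (h : Hier ρ L Lt) {α β : Ordinal} : L α ∈ L β ↔ α < β := by
  refine ⟨fun h1 => ?_, fun h1 => (h.mem β _).2 ⟨α, h1, _, _, lb_dfd_self _⟩⟩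
  by_contra hc
  exact ZFSet.mem_irrefl _ (h.mono (not_lt.1 hc) h1)

lemma inj (h : Hier ρ L Lt) : Function.Injective L := by
  intro α β e
  rcases lt_trichotomy α β with h1 | h1 | h1
  · have := h.mem_iff_lt.2 h1
    rw [e] at this
    exact absurd this (ZFSet.mem_irrefl _)
  · exact h1
  · have := h.mem_iff_lt.2 h1
    rw [e] at this
    exact absurd this (ZFSet.mem_irrefl _)

/-- definable subsets of a level lie in all later levels -/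
lemma sep_mem (h : Hier ρ L Lt) {α β : Ordinal} (hab : α < β) (φ : Fml) (v : ℕ → ZFSet)
    (hv : ∀ i, i < φ.bound → v i ∈ L α) :
    (L α).sep (fun z => Sat (L α : Set ZFSet) (II ρ L Lt) φ (cons z v)) ∈ L β :=
  (h.mem β _).2 ⟨α, hab, φ, v, lb_dfd.2 ⟨hv, rfl⟩⟩

lemma num_mem (h : Hier ρ L Lt) (n : ℕ) : num n ∈ L ((n : Ordinal) + 1) := by
  induction n with
  | zero =>
    have := h.sep_mem (α := 0) (β := ((0 : ℕ) : Ordinal) + 1) (by simp) .bot (fun _ => ∅)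
      (fun i hi => absurd hi (by simp [Fml.bound]))
    convert this using 1
    ext z
    simp [num]
  | succ n ih =>
    have := h.sep_mem (α := (n : Ordinal) + 1) (β := ((n + 1 : ℕ) : Ordinal) + 1)
      (by push_cast; exact lt_add_one _) ((Fml.eq 0 1).or (.mem 0 1)) (fun _ => num n)
      (fun i _ => ih)
    convert this using 1
    ext z
    rw [num, ZFSet.mem_insert_iff, ZFSet.mem_sep, sat_or]
    refine ⟨fun hz => ⟨?_, hz⟩, fun hz => hz.2⟩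
    rcases hz with rfl | hz
    · exact ih
    · exact h.trans ih hz

lemma lt_mem (h : Hier ρ L Lt) {a b : ZFSet} (hab : Lt a b) : (∃ α, a ∈ L α) ∧ ∃ α, b ∈ L α := by
  obtain ⟨β, φ, v, h1, h2, -⟩ := (h.lt a b).1 hab
  exact ⟨⟨β + 1, (h.mem _ _).2 ⟨β, lt_add_one β, φ, v, h1⟩⟩, h2⟩

/-- for `b` in a level, the witness of `Lt a b` is an earlier level -/
lemma lb_lt_iff (h : Hier ρ L Lt) {α : Ordinal} {a b : ZFSet} (hb : b ∈ L α) :
    Lt a b ↔ ∃ β, β < α ∧ ∃ φ v, Dfd Set.univ (II ρ L Lt) (L β) φ v a ∧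
      ∀ β', β' ≤ β → ∀ φ' v', Dfd Set.univ (II ρ L Lt) (L β') φ' v' b →
        β' = β ∧ (φ.enc < φ'.enc ∨ (φ = φ' ∧ LexLt (II ρ L Lt) φ.bound v v')) := by
  rw [h.lt]
  constructor
  · rintro ⟨β, φ, v, h1, -, h2⟩
    refine ⟨β, ?_, φ, v, h1, h2⟩
    obtain ⟨δ, hδ, φ', v', h3⟩ := (h.mem α b).1 hb
    rcases le_or_gt δ β with h4 | h4
    · exact (h2 δ h4 φ' v' h3).1 ▸ hδ
    · exact h4.trans hδ
  · rintro ⟨β, -, φ, v, h1, h2⟩
    exact ⟨β, φ, v, h1, ⟨α, hb⟩, h2⟩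

lemma lb_acc (h : Hier ρ L Lt) (β : Ordinal) :
    ∀ φ v a, Dfd Set.univ (II ρ L Lt) (L β) φ v a → Acc Lt a := by
  induction β using Ordinal.lt_wf.induction with
  | _ β ih =>
    have hacc : ∀ x ∈ L β, Acc Lt x := fun x hx => by
      obtain ⟨δ, hδ, φ, v, h1⟩ := (h.mem β x).1 hx
      exact ih δ hδ φ v x h1
    have hwf : WellFounded fun x y : ZFSet => x ∈ L β ∧ Lt x y := by
      have key : ∀ x, Acc Lt x → Acc (fun x y : ZFSet => x ∈ L β ∧ Lt x y) x := fun x hx =>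
        Subrelation.accessible (fun h' => h'.2) hx
      exact ⟨fun y => Acc.intro y fun x hx => key x (hacc x hx.1)⟩
    intro φ
    induction φ using (InvImage.wf Fml.enc (wellFounded_lt (α := ℕ))).induction with
    | _ φ ihφ =>
      intro v
      induction v using (lb_lex_wf hwf φ.bound).induction with
      | _ v ihv =>
        intro a ha
        refine Acc.intro a fun c hc => ?_
        obtain ⟨γ, ψ, w, h1, -, h2⟩ := (h.lt c a).1 hc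
        rcases lt_or_ge γ β with h3 | h3
        · exact ih γ h3 ψ w c h1
        · obtain ⟨h4, h5⟩ := h2 β h3 φ v ha
          subst h4
          rcases h5 with h5 | ⟨rfl, i, hi, h6, h7⟩
          · exact ihφ ψ h5 w c h1
          · exact ihv w ⟨i, hi, h6, (lb_dfd.1 h1).1 i hi, h7⟩ c h1

lemma lt_wf (h : Hier ρ L Lt) : WellFounded Lt := by
  refine ⟨fun b => Acc.intro b fun a hab => ?_⟩
  obtain ⟨β, φ, v, h1, -⟩ := (h.lt a b).1 hab
  exact h.lb_acc β φ v a h1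

lemma lb_total (h : Hier ρ L Lt) (α : Ordinal) :
    ∀ a ∈ L α, ∀ b ∈ L α, Lt a b ∨ a = b ∨ Lt b a := by
  induction α using Ordinal.lt_wf.induction with
  | _ α ih =>
    -- a least definition of an element of a nonempty subset is below all other elements
    have key : ∀ S : Set ZFSet, S.Nonempty → (∀ x ∈ S, x ∈ L α) →
        ∃ a ∈ S, ∀ b ∈ S, a = b ∨ Lt a b := by
      rintro S ⟨x, hx⟩ hS
      obtain ⟨δ, hδ, φ0, v0, h0⟩ := (h.mem α x).1 (hS x hx)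
      obtain ⟨β, ⟨φ1, v1, x1, hx1, h1⟩, hβ⟩ := Ordinal.lt_wf.has_min
        {β | ∃ φ v, ∃ a ∈ S, Dfd Set.univ (II ρ L Lt) (L β) φ v a} ⟨δ, φ0, v0, x, hx, h0⟩
      have hβα : β < α := (not_lt.1 (hβ δ ⟨φ0, v0, x, hx, h0⟩)).trans_lt hδ
      obtain ⟨φ, ⟨v2, x2, hx2, h2⟩, hφ⟩ := (InvImage.wf Fml.enc (wellFounded_lt (α := ℕ))).has_min
        {φ | ∃ v, ∃ a ∈ S, Dfd Set.univ (II ρ L Lt) (L β) φ v a} ⟨φ1, v1, x1, hx1, h1⟩
      obtain ⟨v, ⟨a, ha, h3⟩, hv⟩ := (lb_lex_wf h.lt_wf φ.bound).has_min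
        {v | ∃ a ∈ S, Dfd Set.univ (II ρ L Lt) (L β) φ v a} ⟨v2, x2, hx2, h2⟩
      refine ⟨a, ha, fun b hb => ?_⟩
      by_cases hab : a = b
      · exact Or.inl hab
      refine Or.inr ((h.lt a b).2 ⟨β, φ, v, h3, ⟨α, hS b hb⟩, fun β' hβ' φ' v' h4 => ?_⟩)
      have e : β' = β := le_antisymm hβ' (not_lt.1 (hβ β' ⟨φ', v', b, hb, h4⟩))
      subst e
      refine ⟨rfl, ?_⟩
      rcases lt_or_eq_of_le (not_lt.1 (hφ φ' ⟨v', b, hb, h4⟩)) with h5 | h5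
      · exact Or.inl h5
      have e := Fml.enc_inj _ _ h5
      subst e
      refine Or.inr ⟨rfl, ?_⟩
      have hne : ∃ i, i < φ.bound ∧ v i ≠ v' i := by
        by_contra hc
        push Not at hc
        apply hab
        rw [(lb_dfd.1 h3).2, (lb_dfd.1 h4).2]
        ext z
        simp only [ZFSet.mem_sep]
        refine and_congr_right fun _ => sat_congr fun i hi => ?_
        cases i with
        | zero => rfl
        | succ i => exact hc i (by omega)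
      classical
      have hi := Nat.find_spec hne
      have hj : ∀ j, j < Nat.find hne → v j = v' j := fun j hj => by
        by_contra hc
        exact Nat.find_min hne hj ⟨hj.trans hi.1, hc⟩
      rcases ih β' hβα _ ((lb_dfd.1 h3).1 _ hi.1) _ ((lb_dfd.1 h4).1 _ hi.1) with h6 | h6 | h6
      · exact ⟨_, hi.1, hj, h6⟩
      · exact absurd h6 hi.2
      · exact absurd ⟨_, hi.1, fun j hj' => (hj j hj').symm, h6⟩ (hv v' ⟨b, hb, h4⟩)
    intro a ha b hb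
    obtain ⟨c, hc, h1⟩ := key {a, b} ⟨a, by simp⟩ (by
      rintro x (rfl | rfl)
      · exact ha
      · exact hb)
    rcases hc with rfl | rfl
    · rcases h1 b (by simp) with h2 | h2
      · exact Or.inr (Or.inl h2)
      · exact Or.inl h2
    · rcases h1 a (by simp) with h2 | h2
      · exact Or.inr (Or.inl h2.symm)
      · exact Or.inr (Or.inr h2)

lemma lt_total (h : Hier ρ L Lt) {a b : ZFSet} {α β : Ordinal} (ha : a ∈ L α) (hb : b ∈ L β) :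
    Lt a b ∨ a = b ∨ Lt b a :=
  h.lb_total (max α β) a (h.mono (le_max_left _ _) ha) b (h.mono (le_max_right _ _) hb)

/-- a union of successor levels is good -/
lemma lb_good (h : Hier ρ L Lt) (S : Set Ordinal.{0}) (hS : ∀ β ∈ S, ∀ γ, γ ≤ β → γ ∈ S)
    (D : Set ZFSet.{0}) (hD : ∀ a, a ∈ D ↔ ∃ β ∈ S, a ∈ L (β + 1)) : Good D (II ρ L Lt) ρ := by
  have ht : ∀ a ∈ D, ∀ b ∈ a, b ∈ D := fun a ha b hb => by
    obtain ⟨β, hβ, h1⟩ := (hD a).1 ha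
    exact (hD b).2 ⟨β, hβ, h.trans h1 hb⟩
  have hl : ∀ β, L β ∈ D ↔ β ∈ S := fun β => by
    rw [hD]
    constructor
    · rintro ⟨γ, hγ, h1⟩
      exact hS γ hγ β (Order.lt_add_one_iff.1 (h.mem_iff_lt.1 h1))
    · intro hβ
      exact ⟨β, hβ, h.mem_iff_lt.2 (lt_add_one β)⟩
  have hlev : ∀ β, II ρ L Lt 1 (L β) (L β) := fun β => ⟨⟨β, rfl⟩, rfl⟩
  refine ⟨?_, ?_, ?_, ?_, ?_, ?_, ?_, ?_, ?_⟩
  · intro a ha b hb h1
    ext z
    exact ⟨fun hz => (h1 z (ht a ha z hz)).1 hz, fun hz => (h1 z (ht b hb z hz)).2 hz⟩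
  · intro a _ b _ h1
    exact h1.2
  · intro a ha b _
    simp only [lb_rep ht _ a ha]
    rfl
  · intro k hk a _ b _ h1
    obtain ⟨m, rfl⟩ := Nat.exists_eq_add_of_le' hk
    exact h1
  · rintro l _ l' _ ⟨⟨β, rfl⟩, -⟩ ⟨⟨β', rfl⟩, -⟩
    rcases lt_trichotomy β β' with h1 | h1 | h1
    · exact Or.inl (h.mem_iff_lt.2 h1)
    · exact Or.inr (Or.inl (h1 ▸ rfl))
    · exact Or.inr (Or.inr (h.mem_iff_lt.2 h1))
  · intro a ha
    obtain ⟨β, hβ, h1⟩ := (hD a).1 ha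
    obtain ⟨γ, hγ, φ, v, h2⟩ := (h.mem _ _).1 h1
    have h3 := (hl γ).2 (hS β hβ γ (Order.lt_add_one_iff.1 hγ))
    exact ⟨L γ, h3, hlev γ, φ, v, (lb_dfd_abs ht h3 ha).2 h2⟩
  · rintro l' hl' ⟨⟨β, rfl⟩, -⟩ a ha
    constructor
    · intro h1
      obtain ⟨γ, hγ, φ, v, h2⟩ := (h.mem β a).1 h1
      have h3 := (hl γ).2 (hS β ((hl β).1 hl') γ hγ.le)
      exact ⟨L γ, h3, hlev γ, h.mem_iff_lt.2 hγ, φ, v, (lb_dfd_abs ht h3 ha).2 h2⟩
    · rintro ⟨l, h3, ⟨⟨γ, rfl⟩, -⟩, h4, φ, v, h2⟩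
      exact (h.mem β a).2 ⟨γ, h.mem_iff_lt.1 h4, φ, v, (lb_dfd_abs ht h3 ha).1 h2⟩
  · rintro l h1 ⟨⟨β, rfl⟩, -⟩ φ v hv
    have h2 := (hD _).2 ⟨β, (hl β).1 h1, h.sep_mem (lt_add_one β) φ v fun i hi => (hv i hi).2⟩
    exact ⟨_, h2, (lb_dfd_abs ht h1 h2).2 (lb_dfd.2 ⟨fun i hi => (hv i hi).2, rfl⟩)⟩
  · intro a ha b hb
    obtain ⟨α, hα, hb'⟩ := (hD b).1 hb
    refine (h.lb_lt_iff hb').trans ⟨?_, ?_⟩
    · rintro ⟨β, hβ, φ, v, h1, h2⟩
      have h3 := (hl β).2 (hS α hα β (Order.lt_add_one_iff.1 hβ))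
      refine ⟨L β, h3, hlev β, φ, v, (lb_dfd_abs ht h3 ha).2 h1, ?_⟩
      rintro l' h4 ⟨⟨β', rfl⟩, -⟩ h5 φ' v' h6
      have h7 : β' ≤ β := by
        rcases h5 with h5 | h5
        · exact (h.mem_iff_lt.1 h5).le
        · exact (h.inj h5).le
      obtain ⟨h8, h9⟩ := h2 β' h7 φ' v' ((lb_dfd_abs ht h4 hb).1 h6)
      exact ⟨h8 ▸ rfl, h9⟩
    · rintro ⟨l, h3, ⟨⟨β, rfl⟩, -⟩, φ, v, h1, h2⟩
      refine (h.lb_lt_iff hb').1 ((h.lt a b).2
        ⟨β, φ, v, (lb_dfd_abs ht h3 ha).1 h1, ⟨_, hb'⟩, fun β' hβ' φ' v' h6 => ?_⟩)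
      have h4 := (hl β').2 (hS β ((hl β).1 h3) β' hβ')
      have h5 : II ρ L Lt 0 (L β') (L β) ∨ L β' = L β := by
        rcases lt_or_eq_of_le hβ' with h5 | h5
        · exact Or.inl (h.mem_iff_lt.2 h5)
        · exact Or.inr (h5 ▸ rfl)
      obtain ⟨h8, h9⟩ := h2 (L β') h4 (hlev β') h5 φ' v' ((lb_dfd_abs ht h4 hb).2 h6)
      exact ⟨h.inj h8, h9⟩

lemma good (h : Hier ρ L Lt) (α : Ordinal) : Good (L α : Set ZFSet) (II ρ L Lt) ρ := by
  refine h.lb_good (Set.Iio α) (fun β hβ γ hγ => hγ.trans_lt hβ) _ fun a => ⟨fun ha => ?_, ?_⟩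
  · obtain ⟨β, hβ, φ, v, h1⟩ := (h.mem α a).1 ha
    exact ⟨β, hβ, (h.mem _ _).2 ⟨β, lt_add_one β, φ, v, h1⟩⟩
  · rintro ⟨β, hβ, h1⟩
    exact h.mono (Order.add_one_le_of_lt hβ) h1

lemma good_univ (h : Hier ρ L Lt) : Good {a | ∃ α, a ∈ L α} (II ρ L Lt) ρ := by
  refine h.lb_good Set.univ (fun _ _ _ _ => trivial) _ fun a => ⟨?_, ?_⟩
  · rintro ⟨β, h1⟩
    exact ⟨β, trivial, h.mono (lt_add_one β).le h1⟩
  · rintro ⟨β, -, h1⟩
    exact ⟨β + 1, h1⟩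

lemma lb_unique {L' : Ordinal.{0} → ZFSet.{0}} {Lt' : ZFSet.{0} → ZFSet.{0} → Prop}
    (h : Hier ρ L Lt) (h' : Hier ρ L' Lt') (α : Ordinal) :
    L α = L' α ∧ ∀ k, ∀ a ∈ L α, ∀ b ∈ L α, II ρ L Lt k a b ↔ II ρ L' Lt' k a b := by
  induction α using Ordinal.lt_wf.induction with
  | _ α ih =>
    have hd : ∀ β, β < α → ∀ φ v a, Dfd Set.univ (II ρ L Lt) (L β) φ v a ↔
        Dfd Set.univ (II ρ L' Lt') (L' β) φ v a := fun β hβ φ v a => by
      rw [← (ih β hβ).1]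
      exact lb_dfd_congr (fun _ _ => Iff.rfl) (fun _ _ => Iff.rfl) (ih β hβ).2
    have e : L α = L' α := by
      ext a
      rw [h.mem, h'.mem]
      exact exists_congr fun β => and_congr_right fun hβ => exists_congr fun φ =>
        exists_congr fun v => hd β hβ φ v a
    refine ⟨e, fun k a ha b hb => ?_⟩
    match k with
    | 0 => rfl
    | 1 =>
      refine and_congr ⟨?_, ?_⟩ Iff.rfl
      · rintro ⟨β, rfl⟩
        exact ⟨β, (ih β (h.mem_iff_lt.1 ha)).1⟩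
      · rintro ⟨β, rfl⟩
        rw [e] at ha
        exact ⟨β, (ih β (h'.mem_iff_lt.1 ha)).1.symm⟩
    | 2 =>
      refine (h.lb_lt_iff hb).trans (Iff.trans ?_ (h'.lb_lt_iff (e ▸ hb)).symm)
      refine exists_congr fun β => and_congr_right fun hβ => exists_congr fun φ =>
        exists_congr fun v => ?_
      rw [← hd β hβ]
      refine and_congr_right fun h1 => forall_congr' fun β' => forall_congr' fun hβ' =>
        forall_congr' fun φ' => forall_congr' fun v' => ?_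
      rw [← hd β' (hβ'.trans_lt hβ)]
      refine forall_congr' fun h2 => and_congr_right fun h3 => or_congr Iff.rfl
        (and_congr_right fun h4 => ?_)
      subst h3 h4
      exact lb_lex_congr (D := (L β' : Set ZFSet)) ((ih β' hβ).2 2) (lb_dfd.1 h1).1 (lb_dfd.1 h2).1
    | 3 => rfl
    | k + 4 => rfl

/-- the hierarchy is unique -/
theorem unique {L' : Ordinal.{0} → ZFSet.{0}} {Lt' : ZFSet.{0} → ZFSet.{0} → Prop}
    (h : Hier ρ L Lt) (h' : Hier ρ L' Lt') : L = L' ∧ Lt = Lt' := by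
  have key : ∀ {L L' : Ordinal.{0} → ZFSet.{0}} {Lt Lt' : ZFSet.{0} → ZFSet.{0} → Prop},
      Hier ρ L Lt → Hier ρ L' Lt' → ∀ a b, Lt a b → Lt' a b := by
    intro L L' Lt Lt' h h' a b hab
    obtain ⟨⟨α, ha⟩, β, hb⟩ := h.lt_mem hab
    exact ((h.lb_unique h' (max α β)).2 2 a (h.mono (le_max_left _ _) ha) b
      (h.mono (le_max_right _ _) hb)).1 hab
  refine ⟨funext fun α => (h.lb_unique h' α).1, ?_⟩
  funext a b
  exact propext ⟨key h h' a b, key h' h a b⟩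

end Hier

end Pool.Agent.MP_c70ddc_lc.H1
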