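import Pool.Agent.MP_c70ddc_lc.H1.SpDefs

/-! Basic properties of the norm (module A). -/

namespace Pool.Agent.MP_c70ddc_lc.H1

open Filter Topology

variable {T : Nd → List ℕ → Prop} {f : Nd →₀ ℚ} {u v w γ : Nd → ℝ} {C D : ℝ}

@[simp] lemma mem_lev {s : Nd} {M : ℕ} : s ∈ lev M ↔ s.length < M := by simp [lev]
@[simp] lemma length_pre {α : Type} (x : ℕ → α) (n : ℕ) : (pre x n).length = n := by simp [pre]
lemma take_pre {α : Type} (x : ℕ → α) {k n : ℕ} (h : k ≤ n) : (pre x n).take k = pre x k := by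
  simp [pre, ← List.map_take, List.take_range, h]
lemma pre_prefix {α : Type} (x : ℕ → α) {k n : ℕ} (h : k ≤ n) : pre x k <+: pre x n :=
  take_pre x h ▸ List.take_prefix _ _
lemma pre_eq_iff {α : Type} {x y : ℕ → α} {n : ℕ} : pre x n = pre y n ↔ ∀ i, i < n → x i = y i := by
  simp [pre, List.map_inj_left]
lemma On.comparable {x : ℕ → Bool} {s t : Nd} (hs : On x s) (ht : On x t) :
    s <+: t ∨ t <+: s := by
  rw [On] at hs ht
  rcases le_total s.length t.length with h | h
  · left; rw [hs, ht]; simpa using pre_prefix x h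
  · right; rw [hs, ht]; simpa using pre_prefix x h
lemma on_pre (x : ℕ → Bool) (n : ℕ) : On x (pre x n) := by simp [On]

lemma Nm.nonneg (h : Nm T f) (s : Nd) : 0 ≤ f s := by
  classical
  induction h with
  | zero => simp
  | single t => rw [Finsupp.single_apply]; split_ifs <;> simp
  | inc f g _ _ _ h1 h2 => exact add_nonneg h1 h2
  | adm k m F _ _ _ ih =>
    rw [Finsupp.smul_apply, Finsupp.finsetSum_apply]
    exact mul_nonneg (by norm_num) (Finset.sum_nonneg fun i hi => ih i (Finset.mem_range.1 hi))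
lemma Nm.le_one (h : Nm T f) (s : Nd) : f s ≤ 1 := by
  classical
  induction h with
  | zero => simp
  | single t => rw [Finsupp.single_apply]; split_ifs <;> simp
  | inc f g _ _ h h1 h2 =>
    rw [Finsupp.add_apply]
    by_cases e : f s = 0
    · simpa [e] using h2
    by_cases e' : g s = 0
    · simpa [e'] using h1
    exact absurd (List.prefix_refl s) (h s (by simpa using e) s (by simpa using e')).1
  | adm k m F hm _ h ih =>
    rw [Finsupp.smul_apply, Finsupp.finsetSum_apply, smul_eq_mul]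
    by_cases e : ∃ i < k, F i s ≠ 0
    · obtain ⟨i, hi, e⟩ := e
      rw [Finset.sum_eq_single i (fun j hj hji => ?_) (by simp [hi])]
      · linarith [ih i hi]
      by_contra e'
      have h1 := h i hi s (by simpa using e)
      have h2 := h j (Finset.mem_range.1 hj) s (by simpa using e')
      rcases lt_or_gt_of_ne hji with g | g
      · have := hm (Nat.succ_le_of_lt g); simp only [Nat.succ_eq_add_one] at this; omega
      · have := hm (Nat.succ_le_of_lt g); simp only [Nat.succ_eq_add_one] at this; omega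
    · push Not at e
      rw [Finset.sum_eq_zero fun j hj => e j (Finset.mem_range.1 hj)]; norm_num
lemma Nm.filter (h : Nm T f) (p : Nd → Prop) [DecidablePred p] : Nm T (f.filter p) := by
  induction h with
  | zero => rw [Finsupp.filter_zero]; exact Nm.zero
  | single t =>
    by_cases e : p t
    · rw [Finsupp.filter_single_of_pos _ e]; exact Nm.single t
    · rw [Finsupp.filter_single_of_neg _ e]; exact Nm.zero
  | inc f g _ _ h h1 h2 =>
    rw [Finsupp.filter_add]
    exact Nm.inc _ _ h1 h2 fun s hs t ht =>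
      h s (Finset.mem_filter.1 hs).1 t (Finset.mem_filter.1 ht).1
  | adm k m F hm _ h ih =>
    rw [Finsupp.filter_smul, Finsupp.filter_sum]
    exact Nm.adm k m (fun i => (F i).filter p) hm ih fun i hi s hs =>
      h i hi s (Finset.mem_filter.1 hs).1

lemma a_adm_mono {T' : Nd → List ℕ → Prop} (hT : ∀ s t, T s t → T' s t) {s : Nd} {m : ℕ → ℕ}
    {i : ℕ} (h : Adm T s m i) : Adm T' s m i :=
  h.imp_right fun ⟨h1, y, h2, h3⟩ => ⟨h1, y, h2, fun k hk => hT _ _ (h3 k hk)⟩

lemma a_nm_mono {T' : Nd → List ℕ → Prop} (hT : ∀ s t, T s t → T' s t) (h : Nm T f) : Nm T' f := by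
  induction h with
  | zero => exact Nm.zero
  | single t => exact Nm.single t
  | inc f g _ _ h h1 h2 => exact Nm.inc f g h1 h2 h
  | adm k m F hm _ h ih =>
    exact Nm.adm k m F hm ih fun i hi s hs =>
      ⟨(h i hi s hs).1, (h i hi s hs).2.1, a_adm_mono hT (h i hi s hs).2.2⟩

lemma a_fin_all {ι : Type} (I : Finset ι) (P : ι → (Nd → List ℕ → Prop) → Prop)
    (hP : ∀ i T T', (∀ s t, T s t → T' s t) → P i T → P i T')
    (h : ∀ i ∈ I, ∃ τ : Finset (Nd × List ℕ), (∀ p ∈ τ, T p.1 p.2) ∧ P i fun s t => (s, t) ∈ τ) :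
    ∃ τ : Finset (Nd × List ℕ), (∀ p ∈ τ, T p.1 p.2) ∧ ∀ i ∈ I, P i fun s t => (s, t) ∈ τ := by
  classical
  choose! τ h1 h2 using h
  refine ⟨I.biUnion τ, fun p hp => ?_, fun i hi => hP i _ _ (fun s t hst =>
    Finset.mem_biUnion.2 ⟨i, hi, hst⟩) (h2 i hi)⟩
  obtain ⟨i, hi, hp⟩ := Finset.mem_biUnion.1 hp
  exact h1 i hi p hp

lemma a_adm_fin {s : Nd} {m : ℕ → ℕ} {i : ℕ} (h : Adm T s m i) :
    ∃ τ : Finset (Nd × List ℕ), (∀ p ∈ τ, T p.1 p.2) ∧ Adm (fun s t => (s, t) ∈ τ) s m i := by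
  classical
  rcases h with h | ⟨h1, y, h2, h3⟩
  · exact ⟨∅, by simp, Or.inl h⟩
  · refine ⟨(Finset.range (i + 2)).image fun k => (s.take k, pre y k), fun p hp => ?_,
      Or.inr ⟨h1, y, h2, fun k hk => Finset.mem_image.2 ⟨k, by simp; omega, rfl⟩⟩⟩
    obtain ⟨k, hk, rfl⟩ := Finset.mem_image.1 hp
    exact h3 k (by simp at hk; omega)

/-- membership in the norming set uses only a finite part of the tree -/
lemma nm_iff_finite : Nm T f ↔ ∃ τ : Finset (Nd × List ℕ), (∀ p ∈ τ, T p.1 p.2) ∧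
    Nm (fun s t => (s, t) ∈ τ) f := by
  classical
  refine ⟨fun h => ?_, fun ⟨τ, h1, h2⟩ => a_nm_mono (fun s t hst => h1 _ hst) h2⟩
  induction h with
  | zero => exact ⟨∅, by simp, Nm.zero⟩
  | single t => exact ⟨∅, by simp, Nm.single t⟩
  | inc f g _ _ h h1 h2 =>
    obtain ⟨τ, a1, a2⟩ := h1
    obtain ⟨σ, b1, b2⟩ := h2
    exact ⟨τ ∪ σ, fun p hp => (Finset.mem_union.1 hp).elim (a1 p) (b1 p),
      Nm.inc f g (a_nm_mono (fun s t => Finset.mem_union_left _) a2)
        (a_nm_mono (fun s t => Finset.mem_union_right _) b2) h⟩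
  | adm k m F hm _ h ih =>
    obtain ⟨τ, a1, a2⟩ := a_fin_all (T := T) (Finset.range k)
      (fun i T => Nm T (F i) ∧ ∀ s ∈ (F i).support, Adm T s m i)
      (fun i T T' hT g => ⟨a_nm_mono hT g.1, fun s hs => a_adm_mono hT (g.2 s hs)⟩) fun i hi => by
        obtain ⟨τ, a1, a2⟩ := ih i (Finset.mem_range.1 hi)
        obtain ⟨σ, b1, b2⟩ := a_fin_all (T := T) (F i).support (fun s T => Adm T s m i)
          (fun s T T' hT => a_adm_mono hT) fun s hs =>
            a_adm_fin (h i (Finset.mem_range.1 hi) s hs).2.2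
        exact ⟨τ ∪ σ, fun p hp => (Finset.mem_union.1 hp).elim (a1 p) (b1 p),
          a_nm_mono (fun s t => Finset.mem_union_left _) a2,
          fun s hs => a_adm_mono (fun s t => Finset.mem_union_right _) (b2 s hs)⟩
    exact ⟨τ, a1, Nm.adm k m F hm (fun i hi => (a2 i (Finset.mem_range.2 hi)).1) fun i hi s hs =>
      ⟨(h i hi s hs).1, (h i hi s hs).2.1, (a2 i (Finset.mem_range.2 hi)).2 s hs⟩⟩

lemma pr_eq_sum {F : Finset Nd} (h : f.support ⊆ F) : pr f u = ∑ s ∈ F, (f s : ℝ) * |u s| :=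
  Finset.sum_subset h fun s _ hs => by simp [Finsupp.notMem_support_iff.1 hs]
lemma pr_add_left (f g : Nd →₀ ℚ) (u : Nd → ℝ) : pr (f + g) u = pr f u + pr g u := by
  classical
  rw [pr_eq_sum Finsupp.support_add, pr_eq_sum (f := f) Finset.subset_union_left,
    pr_eq_sum (f := g) Finset.subset_union_right, ← Finset.sum_add_distrib]
  exact Finset.sum_congr rfl fun s _ => by simp [add_mul]
lemma pr_smul_left (c : ℚ) (f : Nd →₀ ℚ) (u : Nd → ℝ) : pr (c • f) u = c * pr f u := by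
  rw [pr_eq_sum Finsupp.support_smul, pr, Finset.mul_sum]
  exact Finset.sum_congr rfl fun s _ => by simp [mul_assoc]
lemma pr_sum_left (F : ℕ → Nd →₀ ℚ) (k : ℕ) (u : Nd → ℝ) :
    pr (∑ i ∈ Finset.range k, F i) u = ∑ i ∈ Finset.range k, pr (F i) u := by
  induction k with
  | zero => simp [pr]
  | succ k ih => rw [Finset.sum_range_succ, Finset.sum_range_succ, pr_add_left, ih]
lemma pr_single (s : Nd) (u : Nd → ℝ) : pr (Finsupp.single s 1) u = |u s| := by
  rw [pr_eq_sum Finsupp.support_single_subset]; simp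
open Classical in
lemma pr_cut (f : Nd →₀ ℚ) (S : Set Nd) (u : Nd → ℝ) :
    pr f (cut S u) = pr (f.filter (· ∈ S)) u := by
  rw [pr_eq_sum (f := f.filter (· ∈ S)) (Finset.filter_subset _ f.support), pr]
  exact Finset.sum_congr rfl fun s _ => by
    by_cases h : s ∈ S <;> simp [cut, h]
lemma Nm.pr_nonneg (h : Nm T f) (u : Nd → ℝ) : 0 ≤ pr f u :=
  Finset.sum_nonneg fun s _ => mul_nonneg (by exact_mod_cast h.nonneg s) (abs_nonneg _)
lemma Nm.pr_mono (h : Nm T f) (huv : ∀ s, |u s| ≤ |v s|) : pr f u ≤ pr f v :=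
  Finset.sum_le_sum fun s _ => mul_le_mul_of_nonneg_left (huv s) (by exact_mod_cast h.nonneg s)

lemma Le.nonneg (h : Le T u C) : 0 ≤ C := by simpa [pr] using h 0 Nm.zero
lemma Le.mono (h : Le T u C) (hC : C ≤ D) : Le T u D := fun f hf => (h f hf).trans hC
lemma Le.of_abs_le (h : Le T v C) (huv : ∀ s, |u s| ≤ |v s|) : Le T u C :=
  fun f hf => (hf.pr_mono huv).trans (h f hf)
lemma Le.cut (h : Le T u C) (S : Set Nd) : Le T (cut S u) C :=
  h.of_abs_le fun s => by by_cases e : s ∈ S <;> simp [H1.cut, e]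
lemma Le.cut_mono {S S' : Set Nd} (h : Le T (H1.cut S' u) C) (hS : S ⊆ S') : Le T (H1.cut S u) C :=
  h.of_abs_le fun s => by
    by_cases e : s ∈ S
    · simp [H1.cut, e, hS e]
    · simp [H1.cut, e]
lemma Le.add (h : Le T u C) (h' : Le T v D) : Le T (u + v) (C + D) := fun f hf => by
  refine le_trans ?_ (add_le_add (h f hf) (h' f hf))
  rw [pr, pr, pr, ← Finset.sum_add_distrib]
  refine Finset.sum_le_sum fun s _ => ?_
  rw [← mul_add]
  exact mul_le_mul_of_nonneg_left (abs_add_le _ _) (by exact_mod_cast hf.nonneg s)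
lemma Le.sub (h : Le T u C) (h' : Le T v D) : Le T (u - v) (C + D) := by
  rw [sub_eq_add_neg]
  exact h.add (h'.of_abs_le fun s => by simp)
lemma Le.neg (h : Le T u C) : Le T (-u) C := h.of_abs_le fun s => by simp
lemma a_pr_smul (f : Nd →₀ ℚ) (c : ℝ) (u : Nd → ℝ) : pr f (c • u) = |c| * pr f u := by
  rw [pr, pr, Finset.mul_sum]
  exact Finset.sum_congr rfl fun s _ => by simp [abs_mul]; ring
lemma Le.smul (h : Le T u C) (c : ℝ) : Le T (c • u) (|c| * C) := fun f hf => by
  rw [a_pr_smul]; exact mul_le_mul_of_nonneg_left (h f hf) (abs_nonneg c)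
lemma Le.abs_le (h : Le T u C) (s : Nd) : |u s| ≤ C := pr_single s u ▸ h _ (Nm.single s)
lemma le_zero : Le T 0 0 := fun f _ => by simp [pr]
lemma le_of_support (F : Finset Nd) (h : ∀ s, s ∉ F → u s = 0) : Le T u (∑ s ∈ F, |u s|) := by
  classical
  intro f hf
  rw [pr_eq_sum (F := f.support ∪ F) Finset.subset_union_left,
    ← Finset.sum_subset (Finset.subset_union_right (s₁ := f.support)) fun s _ hs => by simp [h s hs]]
  exact Finset.sum_le_sum fun s _ =>
    mul_le_of_le_one_left (abs_nonneg _) (by exact_mod_cast hf.le_one s)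
lemma le_single (s : Nd) : Le T (Pi.single s 1) 1 := by
  simpa using le_of_support (T := T) (u := Pi.single s 1) {s} fun t ht =>
    Pi.single_eq_of_ne (by simpa using ht) _
lemma isClosed_le (T : Nd → List ℕ → Prop) (S : Set Nd) (C : ℝ) :
    IsClosed {u : Nd → ℝ | Le T (cut S u) C} := by
  classical
  simp only [Le, Set.ofPred_forall, pr_cut]
  refine isClosed_iInter fun f => isClosed_iInter fun _ => _root_.isClosed_le ?_ continuous_const
  unfold pr; fun_prop

lemma le_nrm (h : u ∈ XX T) : Le T u (nrm T u) := fun f hf =>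
  le_csSup (h.imp fun _ hC _ ⟨g, hg, e⟩ => e ▸ hC g hg) ⟨f, hf, rfl⟩
lemma Le.nrm_le (h : Le T u C) : nrm T u ≤ C :=
  csSup_le ⟨_, 0, Nm.zero, rfl⟩ fun _ ⟨g, hg, e⟩ => e ▸ h g hg
lemma nrm_add_le (hu : u ∈ XX T) (hv : v ∈ XX T) : nrm T (u + v) ≤ nrm T u + nrm T v :=
  ((le_nrm hu).add (le_nrm hv)).nrm_le
lemma nrm_smul (hu : u ∈ XX T) (c : ℝ) : nrm T (c • u) = |c| * nrm T u := by
  refine le_antisymm ((le_nrm hu).smul c).nrm_le ?_
  have h1 := le_nrm (u := c • u) ⟨_, (le_nrm hu).smul c⟩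
  rcases eq_or_ne c 0 with rfl | hc
  · simpa using h1.nonneg
  have hc' := abs_pos.2 hc
  rw [← le_div_iff₀' hc']
  exact Le.nrm_le fun f hf => by rw [le_div_iff₀' hc', ← a_pr_smul]; exact h1 f hf
lemma eq_zero_of_nrm (hu : u ∈ XX T) (h : nrm T u = 0) : u = 0 :=
  funext fun s => abs_nonpos_iff.1 (h ▸ (le_nrm hu).abs_le s)

/-- tails tend to zero (Schreier clause of `Adm`) -/
lemma exists_tail (hu : u ∈ XX T) {ε : ℝ} (hε : 0 < ε) :
    ∃ m : ℕ, Le T (cut {s | m ≤ s.length} u) ε := by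
  classical
  obtain ⟨C, hC⟩ := hu
  by_contra hc
  have key : ∀ m : ℕ, ∃ g, Nm T g ∧ (∀ s ∈ g.support, m ≤ s.length) ∧ ε < pr g u := by
    intro m
    simp only [Le, not_exists, not_forall, not_le, pr_cut] at hc
    obtain ⟨f, hf, h⟩ := hc m
    refine ⟨_, ?_, fun s hs => ?_, h⟩
    · exact @Nm.filter _ _ hf _ fun _ => Classical.propDecidable _
    · simp only [Finsupp.support_filter, Finset.mem_filter] at hs
      exact hs.2
  choose g g1 g2 g3 using key
  obtain ⟨k, hk⟩ := exists_nat_gt (2 * C / ε)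
  let N : ℕ → ℕ := fun m => (g m).support.sup List.length + m + 1
  let m : ℕ → ℕ := fun i => N^[i] k
  have hm : ∀ i, m (i + 1) = N (m i) := fun i => Function.iterate_succ_apply' _ _ _
  have := hC _ (Nm.adm k m (fun i => g (m i)) (monotone_nat_of_le_succ fun i => by
    rw [hm]; simp only [N]; omega) (fun i _ => g1 _) fun i hi s hs => ⟨g2 _ s hs, by
      have := Finset.le_sup (f := List.length) hs
      rw [hm]; simp only [N]; omega, Or.inl hi⟩)
  rw [pr_smul_left, pr_sum_left] at this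
  have h2 := Finset.card_nsmul_le_sum (Finset.range k) (fun i => pr (g (m i)) u) ε
    fun i _ => (g3 _).le
  rw [div_lt_iff₀ hε] at hk
  simp only [Finset.card_range, nsmul_eq_mul] at h2
  push_cast at this
  linarith
lemma exists_rat_approx (hu : u ∈ XX T) {ε : ℝ} (hε : 0 < ε) :
    ∃ q : Nd →₀ ℚ, Le T (u - fun s => (q s : ℝ)) ε := by
  classical
  obtain ⟨m, hm⟩ := exists_tail hu (half_pos hε)
  have hδ : 0 < ε / 2 / ((lev m).card + 1) := by positivity
  choose r hr using fun s => exists_rat_near (u s) hδ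
  refine ⟨Finsupp.onFinset (lev m) (fun s => if s ∈ lev m then r s else 0)
    fun s hs => by by_contra e; simp [e] at hs, ?_⟩
  have h2 := le_of_support (T := T) (u := fun s => if s ∈ lev m then u s - r s else 0) (lev m)
    fun s hs => if_neg hs
  refine ((hm.add h2).of_abs_le fun s => le_of_eq ?_).mono ?_
  · by_cases e : s.length < m
    · simp [cut, e, e.not_ge]
    · simp [cut, e, not_lt.1 e]
  · have h3 := Finset.sum_le_card_nsmul (lev m) (fun s => |if s ∈ lev m then u s - r s else 0|) _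
      fun s hs => by rw [if_pos hs]; exact (hr s).le
    rw [nsmul_eq_mul] at h3
    have h4 : ((lev m).card : ℝ) * (ε / 2 / ((lev m).card + 1)) ≤ ε / 2 := by
      rw [mul_div_assoc', div_le_iff₀ (by positivity)]; nlinarith
    linarith
/-- completeness, with the limit taken coordinatewise -/
lemma exists_limit (z : ℕ → Nd → ℝ) (hz : ∀ n, z n ∈ XX T)
    (h : ∀ ε > 0, ∃ N, ∀ n ≥ N, ∀ k ≥ N, nrm T (z n - z k) < ε) :
    ∃ a ∈ XX T, (∀ s, Tendsto (fun n => z n s) atTop (𝓝 (a s))) ∧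
      ∀ ε > 0, ∃ N, ∀ n ≥ N, nrm T (z n - a) < ε := by
  have hd : ∀ n k, Le T (z n - z k) (nrm T (z n - z k)) := fun n k =>
    le_nrm ⟨_, (le_nrm (hz n)).sub (le_nrm (hz k))⟩
  have hc : ∀ s, CauchySeq fun n => z n s := fun s => Metric.cauchySeq_iff.2 fun ε hε => by
    obtain ⟨N, hN⟩ := h ε hε
    exact ⟨N, fun n hn k hk => ((hd n k).abs_le s).trans_lt (hN n hn k hk)⟩
  choose a ha using fun s => cauchySeq_tendsto_of_complete (hc s)
  have key : ∀ ε > 0, ∃ N, ∀ n ≥ N, Le T (z n - a) ε := fun ε hε => by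
    obtain ⟨N, hN⟩ := h ε hε
    refine ⟨N, fun n hn f hf => le_of_tendsto (f := fun k => pr f (z n - z k)) (x := atTop)
      (tendsto_finsetSum _ fun s _ => ((ha s).const_sub _).abs.const_mul _) ?_⟩
    exact eventually_atTop.2 ⟨N, fun k hk => (hd n k f hf).trans (hN n hn k hk).le⟩
  obtain ⟨N, hN⟩ := key 1 one_pos
  refine ⟨a, ⟨_, by simpa using (le_nrm (hz N)).sub (hN N le_rfl)⟩, ha, fun ε hε => ?_⟩
  obtain ⟨M, hM⟩ := key (ε / 2) (half_pos hε)
  exact ⟨M, fun n hn => (hM n hn).nrm_le.trans_lt (half_lt_self hε)⟩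

lemma bd_of_rat (hC : 0 ≤ C) (h : ∀ q : Nd →₀ ℚ,
    |∑ s ∈ q.support, γ s * (q s : ℝ)| ≤ C * nrm T fun s => (q s : ℝ)) : Bd T γ C := by
  classical
  intro w D F hw
  by_contra hc
  push Not at hc
  have h0 := mul_nonneg hC hw.nonneg
  have hX := h0.trans_lt hc
  obtain ⟨t, ht1, ht2⟩ := exists_between ((div_lt_one hX).2 hc)
  have hr : ∀ s, ∃ r : ℚ, 0 ≤ (r : ℝ) ∧ t * |w s| ≤ r ∧ (r : ℝ) ≤ |w s| := fun s => by
    rcases (abs_nonneg (w s)).eq_or_lt with e | e
    · exact ⟨0, by simp, by simp [← e], by simp⟩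
    · obtain ⟨r, h1, h2⟩ := exists_rat_btwn (mul_lt_of_lt_one_left e ht2)
      exact ⟨r, le_trans (mul_nonneg ((div_nonneg h0 hX.le).trans ht1.le) e.le) h1.le, h1.le, h2.le⟩
  choose r r0 r1 r2 using hr
  let q : Nd →₀ ℚ := Finsupp.onFinset F (fun s => if s ∈ F then (if 0 ≤ γ s then r s else -r s)
    else 0) fun s hs => by by_contra e; simp [e] at hs
  have h1 : Le T (fun s => (q s : ℝ)) D := hw.of_abs_le fun s => by
    simp only [q, Finsupp.onFinset_apply]
    split_ifs <;> simp [abs_of_nonneg (r0 s), r2 s]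
  have h2 := (le_abs_self _).trans ((h q).trans (mul_le_mul_of_nonneg_left h1.nrm_le hC))
  rw [Finset.sum_subset (s₁ := q.support) Finsupp.support_onFinset_subset fun s _ hs => by
    rw [Finsupp.notMem_support_iff.1 hs]; simp] at h2
  have h3 : t * ∑ s ∈ F, |γ s| * |w s| ≤ ∑ s ∈ F, γ s * (q s : ℝ) := by
    rw [Finset.mul_sum]
    refine Finset.sum_le_sum fun s hs => ?_
    simp only [q, Finsupp.onFinset_apply, hs, if_true]
    split_ifs with e
    · rw [abs_of_nonneg e]; nlinarith [r1 s]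
    · rw [abs_of_neg (not_le.1 e)]; push_cast; nlinarith [r1 s]
  rw [div_lt_iff₀ hX] at ht1
  linarith
lemma bd_single (s : Nd) : Bd T (Pi.single s 1) 1 := by
  intro w D F hw
  rw [one_mul]
  by_cases e : s ∈ F
  · rw [Finset.sum_eq_single s (fun t _ ht => by simp [Pi.single_eq_of_ne ht]) (by simp [e])]
    simpa using hw.abs_le s
  · rw [Finset.sum_eq_zero fun t ht => by
      simp [Pi.single_eq_of_ne (show t ≠ s from fun g => e (g ▸ ht))]]
    exact hw.nonneg
lemma ev_single (s : Nd) (w : Nd → ℝ) : ev (Pi.single s 1) w = w s := by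
  rw [ev, tsum_eq_single s fun t ht => by simp [Pi.single_eq_of_ne ht]]; simp
lemma Bd.summable (h : Bd T γ C) (hw : w ∈ XX T) : Summable fun s => γ s * w s :=
  Summable.of_abs (summable_of_sum_le (fun _ => abs_nonneg _) fun F => by
    simpa only [abs_mul] using h w _ F (le_nrm hw))
lemma Bd.abs_ev_le (h : Bd T γ C) (hw : Le T w D) : |ev γ w| ≤ C * D := by
  have hs := (h.summable ⟨D, hw⟩).norm
  refine (norm_tsum_le_tsum_norm hs).trans (hs.tsum_le_of_sum_le fun F => ?_)
  simpa only [Real.norm_eq_abs, abs_mul] using h w D F hw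
lemma Bd.ev_add (h : Bd T γ C) (hu : u ∈ XX T) (hv : v ∈ XX T) :
    ev γ (u + v) = ev γ u + ev γ v := by
  rw [ev, ev, ev, ← (h.summable hu).tsum_add (h.summable hv)]
  simp [mul_add]
lemma ev_smul (γ u : Nd → ℝ) (c : ℝ) : ev γ (c • u) = c * ev γ u := by
  rw [ev, ev, ← tsum_mul_left]
  exact tsum_congr fun s => by simp; ring
lemma Bd.ev_sub_sum (h : Bd T γ C) (hw : w ∈ XX T) (M : ℕ)
    (hD : Le T (cut {s | M ≤ s.length} w) D) : |ev γ w - ∑ s ∈ lev M, γ s * w s| ≤ C * D := by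
  have e1 : w = cut {s | M ≤ s.length} w + cut {s | s.length < M} w := funext fun s => by
    by_cases e : s.length < M
    · simp [cut, e, e.not_ge]
    · simp [cut, e, not_lt.1 e]
  have e2 : ev γ (cut {s | s.length < M} w) = ∑ s ∈ lev M, γ s * w s := by
    rw [ev, tsum_eq_sum (s := lev M) fun s hs => by simp [cut, mem_lev.not.1 hs]]
    exact Finset.sum_congr rfl fun s hs => by simp [cut, mem_lev.1 hs]
  have e3 := h.ev_add ⟨_, hD⟩ ⟨_, (le_nrm hw).cut {s | s.length < M}⟩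
  rw [← e1, e2] at e3
  rw [e3, add_sub_cancel_right]
  exact h.abs_ev_le hD
lemma Bd.tendsto_ev (h : Bd T γ C) (hw : w ∈ XX T) :
    Tendsto (fun M => ∑ s ∈ lev M, γ s * w s) atTop (𝓝 (ev γ w)) :=
  (h.summable hw).hasSum.comp (tendsto_atTop_finset_of_monotone
    (fun _ _ hM _ hs => mem_lev.2 ((mem_lev.1 hs).trans_le hM))
    fun s => ⟨s.length + 1, by simp⟩)

lemma isCompact_KK (T : Nd → List ℕ → Prop) (F : ℕ → Set (ℕ → Bool)) (m : ℕ → ℕ) :
    IsCompact (KK T F m) := by
  refine (isCompact_univ_pi fun _ : Nd => isCompact_Icc (a := (-1 : ℝ)) (b := 1)).of_isClosed_subset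
    ?_ fun u hu s _ => abs_le.1 (hu.1.abs_le s)
  have h1 := isClosed_le T Set.univ 1
  simp only [cut, Set.indicator_univ] at h1
  simp only [KK, Set.ofPred_and, Set.ofPred_forall]
  exact h1.inter (isClosed_iInter fun k => isClosed_le T _ _)

end Pool.Agent.MP_c70ddc_lc.H1
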