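import Pool.Agent.MP_c70ddc_lc.H1.LCond
import Pool.Agent.MP_c70ddc_lc.H1.SpBasic

/-! The codes of pointwise definable levels form a coanalytic set (module LF). -/

namespace Pool.Agent.MP_c70ddc_lc.H1

open MeasureTheory

section lf_general

variable {M : Type*} {D : Set M} {I : ℕ → M → M → Prop}

lemma lf_dfd_congr {l a : M} {φ : Fml} {v w : ℕ → M} (h : ∀ i, i < φ.bound → v i = w i)
    (hd : Dfd D I l φ v a) : Dfd D I l φ w a := by
  refine ⟨fun i hi => h i hi ▸ hd.1 i hi, fun z hz => (hd.2 z hz).trans ?_⟩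
  refine and_congr_right fun _ => sat_congr fun i hi => ?_
  cases i with
  | zero => rfl
  | succ i => exact h i (by omega)

lemma lf_lex_congr {n : ℕ} {v v' w w' : ℕ → M} (h : ∀ i, i < n → v i = w i)
    (h' : ∀ i, i < n → v' i = w' i) (hl : LexLt I n v v') : LexLt I n w w' := by
  obtain ⟨i, hi, h1, h2⟩ := hl
  refine ⟨i, hi, fun j hj => ?_, h i hi ▸ h' i hi ▸ h2⟩
  rw [← h j (by omega), ← h' j (by omega), h1 j hj]

lemma lf_name_unique {i j : ℕ} {a : M} (hi : Name D I i a) (hj : Name D I j a) : i = j := by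
  obtain ⟨ψ, e, h1, h2⟩ := hi
  obtain ⟨ψ', e', h1', h2'⟩ := hj
  exact le_antisymm (e' ▸ h2 ψ' h1') (e ▸ h2' ψ h1)

lemma lf_name_inj {i : ℕ} {a b : M} (ha : Name D I i a) (hb : Name D I i b) : a = b := by
  obtain ⟨ψ, e, h1, -⟩ := ha
  obtain ⟨ψ', e', h1', -⟩ := hb
  obtain rfl := Fml.enc_inj _ _ (e.trans e'.symm)
  exact (h1'.2 a h1.1).1 ((h1.2 a h1.1).2 rfl)

lemma lf_name_mem {i : ℕ} {a : M} (ha : Name D I i a) : a ∈ D := ha.choose_spec.2.1.1

lemma lf_exists_name {a : M} (h : ∃ ψ, Defines D I ψ a) : ∃ d, Name D I d a := by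
  classical
  have h' : ∃ d, ∃ ψ : Fml, ψ.enc = d ∧ Defines D I ψ a := h.elim fun ψ hψ => ⟨_, ψ, rfl, hψ⟩
  obtain ⟨ψ, e, hψ⟩ := Nat.find_spec h'
  exact ⟨_, ψ, e, hψ, fun ψ' hψ' => Nat.find_min' h' ⟨ψ', rfl, hψ'⟩⟩

/-- an isomorphism between two structures -/
structure LfIso {M' : Type*} (π : M → M') (D : Set M) (I : ℕ → M → M → Prop) (D' : Set M')
    (I' : ℕ → M' → M' → Prop) : Prop where
  bij : Set.BijOn π D D'
  rel : ∀ k, ∀ a ∈ D, ∀ b ∈ D, I k a b ↔ I' k (π a) (π b)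

namespace LfIso

variable {M' : Type*} {π : M → M'} {D' : Set M'} {I' : ℕ → M' → M' → Prop}

lemma all (h : LfIso π D I D' I') {P : M' → Prop} : (∀ z ∈ D', P z) ↔ ∀ z ∈ D, P (π z) :=
  ⟨fun H z hz => H _ (h.bij.mapsTo hz), fun H z hz => by
    obtain ⟨y, hy, rfl⟩ := h.bij.surjOn hz
    exact H y hy⟩

lemma ex (h : LfIso π D I D' I') {P : M' → Prop} : (∃ z ∈ D', P z) ↔ ∃ z ∈ D, P (π z) :=
  ⟨fun ⟨z, hz, H⟩ => by
    obtain ⟨y, hy, rfl⟩ := h.bij.surjOn hz
    exact ⟨y, hy, H⟩, fun ⟨z, hz, H⟩ => ⟨_, h.bij.mapsTo hz, H⟩⟩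

lemma eq (h : LfIso π D I D' I') {a b : M} (ha : a ∈ D) (hb : b ∈ D) : a = b ↔ π a = π b :=
  (h.bij.injOn.eq_iff ha hb).symm

lemma rep (h : LfIso π D I D' I') (n : ℕ) {a : M} (ha : a ∈ D) :
    Rep D I n a ↔ Rep D' I' n (π a) := by
  induction n generalizing a with
  | zero =>
    simp only [Rep]
    rw [h.all]
    exact forall₂_congr fun z hz => not_congr (h.rel 0 z hz a ha)
  | succ n ih =>
    simp only [Rep]
    rw [h.ex]
    refine exists_congr fun b => and_congr_right fun hb => and_congr (ih hb) ?_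
    rw [h.all]
    exact forall₂_congr fun z hz =>
      iff_congr (h.rel 0 z hz a ha) (or_congr (h.eq hz hb) (h.rel 0 z hz b hb))

lemma defines (h : LfIso π D I D' I') (ψ : Fml) {a : M} (ha : a ∈ D) :
    Defines D I ψ a ↔ Defines D' I' ψ (π a) := by
  refine and_congr (iff_of_true ha (h.bij.mapsTo ha)) ?_
  rw [h.all]
  exact forall₂_congr fun z hz =>
    iff_congr (sat_map π h.bij h.rel fun _ _ => hz) (h.eq hz ha)

lemma name (h : LfIso π D I D' I') (d : ℕ) {a : M} (ha : a ∈ D) :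
    Name D I d a ↔ Name D' I' d (π a) := by
  simp only [Name, h.defines _ ha]

lemma res (h : LfIso π D I D' I') {l : M} (hl : l ∈ D) :
    LfIso π {x | x ∈ D ∧ I 0 x l} I {x | x ∈ D' ∧ I' 0 x (π l)} I' := by
  refine ⟨⟨fun x hx => ⟨h.bij.mapsTo hx.1, (h.rel 0 x hx.1 l hl).1 hx.2⟩,
    h.bij.injOn.mono fun x hx => hx.1, fun y hy => ?_⟩, fun k a ha b hb => h.rel k a ha.1 b hb.1⟩
  obtain ⟨x, hx, rfl⟩ := h.bij.surjOn hy.1
  exact ⟨x, ⟨hx, (h.rel 0 x hx l hl).2 hy.2⟩, rfl⟩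

lemma dfd (h : LfIso π D I D' I') {l a : M} (hl : l ∈ D) (ha : a ∈ D) {φ : Fml} {v : ℕ → M}
    (hv : ∀ i, i < φ.bound → v i ∈ D) : Dfd D I l φ v a ↔ Dfd D' I' (π l) φ (π ∘ v) (π a) := by
  have h1 : (∀ i, i < φ.bound → v i ∈ D ∧ I 0 (v i) l) ↔
      ∀ i, i < φ.bound → (π ∘ v) i ∈ D' ∧ I' 0 ((π ∘ v) i) (π l) :=
    forall₂_congr fun i hi =>
      and_congr (iff_of_true (hv i hi) (h.bij.mapsTo (hv i hi))) (h.rel 0 _ (hv i hi) l hl)
  rw [Dfd, Dfd, ← h1]
  refine and_congr_right fun h2 => ?_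
  rw [h.all]
  refine forall₂_congr fun z hz => iff_congr (h.rel 0 z hz a ha) ?_
  rw [← h.rel 0 z hz l hl]
  refine and_congr_right fun hzl => ?_
  rw [← comp_cons]
  refine sat_map π (h.res hl).bij (h.res hl).rel fun i hi => ?_
  cases i with
  | zero => exact ⟨hz, hzl⟩
  | succ i => exact h2 i (by omega)

lemma pull (h : LfIso π D I D' I') {l a : M} (hl : l ∈ D) (ha : a ∈ D) {φ : Fml} {v' : ℕ → M'}
    (hd : Dfd D' I' (π l) φ v' (π a)) :
    ∃ v : ℕ → M, (∀ i, i < φ.bound → (π ∘ v) i = v' i) ∧ Dfd D I l φ v a := by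
  have : ∀ i, ∃ x, i < φ.bound → x ∈ D ∧ π x = v' i := by
    intro i
    by_cases hi : i < φ.bound
    · obtain ⟨x, hx, e⟩ := h.bij.surjOn (hd.1 i hi).1
      exact ⟨x, fun _ => ⟨hx, e⟩⟩
    · exact ⟨a, fun h' => absurd h' hi⟩
  choose v hv using this
  exact ⟨v, fun i hi => (hv i hi).2, (h.dfd hl ha fun i hi => (hv i hi).1).2
    (lf_dfd_congr (fun i hi => (hv i hi).2.symm) hd)⟩

lemma push (h : LfIso π D I D' I') {l a : M} (hl : l ∈ D) (ha : a ∈ D) {φ : Fml} {v : ℕ → M}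
    (hd : Dfd D I l φ v a) : Dfd D' I' (π l) φ (π ∘ v) (π a) :=
  (h.dfd hl ha fun i hi => (hd.1 i hi).1).1 hd

lemma exdfd (h : LfIso π D I D' I') {l a : M} (hl : l ∈ D) (ha : a ∈ D) :
    (∃ φ v, Dfd D I l φ v a) ↔ ∃ φ v, Dfd D' I' (π l) φ v (π a) :=
  ⟨fun ⟨φ, _, H⟩ => ⟨φ, _, h.push hl ha H⟩, fun ⟨φ, _, H⟩ =>
    (h.pull hl ha H).elim fun v hv => ⟨φ, v, hv.2⟩⟩

lemma lex (h : LfIso π D I D' I') {n : ℕ} {v w : ℕ → M} (hv : ∀ i, i < n → v i ∈ D)
    (hw : ∀ i, i < n → w i ∈ D) : LexLt I n v w ↔ LexLt I' n (π ∘ v) (π ∘ w) :=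
  exists_congr fun i => and_congr_right fun hi => and_congr
    (forall₂_congr fun j hj => h.eq (hv j (by omega)) (hw j (by omega)))
    (h.rel 2 _ (hv i hi) _ (hw i hi))

lemma good (h : LfIso π D I D' I') {ρ : Set ℕ} (g : Good D' I' ρ) : Good D I ρ where
  ext a ha b hb H := (h.eq ha hb).2 (g.ext _ (h.bij.mapsTo ha) _ (h.bij.mapsTo hb)
    (h.all.2 fun z hz => by rw [← h.rel 0 z hz a ha, ← h.rel 0 z hz b hb, H z hz]))
  diag1 a ha b hb H := (h.eq ha hb).2
    (g.diag1 _ (h.bij.mapsTo ha) _ (h.bij.mapsTo hb) ((h.rel 1 a ha b hb).1 H))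
  orc a ha b hb := by
    rw [h.rel 3 a ha b hb, g.orc _ (h.bij.mapsTo ha) _ (h.bij.mapsTo hb), h.eq ha hb]
    simp only [h.rep _ ha]
  big k hk a ha b hb H :=
    g.big k hk _ (h.bij.mapsTo ha) _ (h.bij.mapsTo hb) ((h.rel k a ha b hb).1 H)
  lin l hl l' hl' := by
    rw [h.rel 1 l hl l hl, h.rel 1 l' hl' l' hl', h.rel 0 l hl l' hl', h.rel 0 l' hl' l hl,
      h.eq hl hl']
    exact g.lin _ (h.bij.mapsTo hl) _ (h.bij.mapsTo hl')
  gen a ha := by
    obtain ⟨l, hl, h1, h2⟩ := h.ex.1 (g.gen _ (h.bij.mapsTo ha))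
    exact ⟨l, hl, (h.rel 1 l hl l hl).2 h1, (h.exdfd hl ha).2 h2⟩
  lev l' hl' H a ha := by
    rw [h.rel 0 a ha l' hl', g.lev _ (h.bij.mapsTo hl') ((h.rel 1 l' hl' l' hl').1 H) _
      (h.bij.mapsTo ha), h.ex]
    refine exists_congr fun l => and_congr_right fun hl => ?_
    rw [h.rel 1 l hl l hl, h.rel 0 l hl l' hl', h.exdfd hl ha]
  cl l hl H φ v hv := by
    obtain ⟨a, ha, h1⟩ := h.ex.1 (g.cl _ (h.bij.mapsTo hl) ((h.rel 1 l hl l hl).1 H) φ (π ∘ v)
      fun i hi => ⟨h.bij.mapsTo (hv i hi).1, (h.rel 0 _ (hv i hi).1 l hl).1 (hv i hi).2⟩)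
    exact ⟨a, ha, (h.dfd hl ha fun i hi => (hv i hi).1).2 h1⟩
  lt a ha b hb := by
    rw [h.rel 2 a ha b hb, g.lt _ (h.bij.mapsTo ha) _ (h.bij.mapsTo hb), h.ex]
    refine exists_congr fun l => and_congr_right fun hl =>
      and_congr (h.rel 1 l hl l hl).symm (exists_congr fun φ => ?_)
    constructor
    · rintro ⟨v', h1, h2⟩
      obtain ⟨v, e, h3⟩ := h.pull hl ha h1
      refine ⟨v, h3, fun l' hl' h4 h5 φ' w h6 => ?_⟩
      obtain ⟨h7, h8⟩ := h2 _ (h.bij.mapsTo hl') ((h.rel 1 l' hl' l' hl').1 h4)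
        (h5.imp (h.rel 0 l' hl' l hl).1 (h.eq hl' hl).1) φ' _ (h.push hl' hb h6)
      refine ⟨(h.eq hl' hl).2 h7, h8.imp_right ?_⟩
      rintro ⟨rfl, h9⟩
      exact ⟨rfl, (h.lex (fun i hi => (h3.1 i hi).1) fun i hi => (h6.1 i hi).1).2
        (lf_lex_congr (fun i hi => (e i hi).symm) (fun _ _ => rfl) h9)⟩
    · rintro ⟨v, h1, h2⟩
      refine ⟨_, h.push hl ha h1, h.all.2 fun l' hl' h4 h5 φ' w' h6 => ?_⟩
      obtain ⟨w, e, h3⟩ := h.pull hl' hb h6
      obtain ⟨h7, h8⟩ := h2 l' hl' ((h.rel 1 l' hl' l' hl').2 h4)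
        (h5.imp (h.rel 0 l' hl' l hl).2 (h.eq hl' hl).2) φ' w h3
      refine ⟨(h.eq hl' hl).1 h7, h8.imp_right ?_⟩
      rintro ⟨rfl, h9⟩
      exact ⟨rfl, lf_lex_congr (fun _ _ => rfl) e
        ((h.lex (fun i hi => (h1.1 i hi).1) fun i hi => (h3.1 i hi).1).1 h9)⟩

end LfIso

end lf_general

lemma lf_rep_num {l : ZFSet.{0}} {I : ℕ → ZFSet.{0} → ZFSet.{0} → Prop}
    (h0 : ∀ a b, I 0 a b ↔ a ∈ b) (ht : ∀ a ∈ l, ∀ b ∈ a, b ∈ l) (n : ℕ) {a : ZFSet.{0}}
    (ha : a ∈ l) : Rep (l : Set ZFSet) I n a ↔ a = num n := by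
  induction n generalizing a with
  | zero =>
    simp only [Rep, h0, num]
    refine ⟨fun H => ZFSet.ext fun z => ⟨fun hz => absurd hz (H z (ht a ha z hz)), fun hz => ?_⟩,
      fun e z _ hz => ?_⟩
    · exact absurd hz (ZFSet.notMem_empty z)
    · exact ZFSet.notMem_empty z (e ▸ hz)
  | succ n ih =>
    simp only [Rep, h0, num]
    constructor
    · rintro ⟨b, hb, h1, h2⟩
      obtain rfl := (ih hb).1 h1
      refine ZFSet.ext fun z => ?_
      rw [ZFSet.mem_insert_iff]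
      refine ⟨fun hz => (h2 z (ht a ha z hz)).1 hz, fun hz => (h2 z ?_).2 hz⟩
      rcases hz with rfl | hz
      · exact hb
      · exact ht _ hb z hz
    · rintro rfl
      have hb : num n ∈ l := ht _ ha _ (ZFSet.mem_insert _ _)
      exact ⟨num n, hb, (ih hb).2 rfl, fun z _ => ZFSet.mem_insert_iff⟩

/-- the bit of `x` at the triple `k`, `i`, `j` -/
def lfBit (x : ℕ → Bool) (k i j : ℕ) : Prop := x (Nat.pair k (Nat.pair i j)) = true

/-- the domain of the structure coded by `x` -/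
def lfD (x : ℕ → Bool) : Set ℕ := {d | lfBit x 4 d d}

/-- the relations of the structure coded by `x` -/
def lfI (x : ℕ → Bool) (k i j : ℕ) : Prop := k < 4 ∧ lfBit x k i j

/-- the normal form of the bits -/
def LfNorm (D : Set ℕ) (I : ℕ → ℕ → ℕ → Prop) (k i j : ℕ) : Prop :=
  (k = 5 ∧ j ∈ D ∧ Rep D I i j) ∨ (k = 4 ∧ i = j ∧ i ∈ D) ∨ (k < 4 ∧ i ∈ D ∧ j ∈ D ∧ I k i j)

/-- the Borel part of the description of `AA` -/
def LfB (ρ : Set ℕ) (x : ℕ → Bool) : Prop :=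
  Good (lfD x) (lfI x) ρ ∧ (∀ d ∈ lfD x, Name (lfD x) (lfI x) d d) ∧
    ∀ k i j, lfBit x k i j ↔ LfNorm (lfD x) (lfI x) k i j

lemma lf_bit_code (I : ℕ → ZFSet.{0} → ZFSet.{0} → Prop) (l : ZFSet.{0}) (k i j : ℕ) :
    lfBit (code I l) k i j ↔ CodeP I l k i j := by
  simp [lfBit, code]

lemma lf_codeP {l : ZFSet.{0}} {I' : ℕ → ZFSet.{0} → ZFSet.{0} → Prop} {D : Set ℕ}
    {I : ℕ → ℕ → ℕ → Prop} {π : ℕ → ZFSet.{0}} (h : LfIso π D I (l : Set ZFSet) I')
    (hn : ∀ d a, Name (l : Set ZFSet) I' d a ↔ d ∈ D ∧ a = π d)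
    (h0 : ∀ a b, I' 0 a b ↔ a ∈ b) (ht : ∀ a ∈ l, ∀ b ∈ a, b ∈ l) (k i j : ℕ) :
    CodeP I' l k i j ↔ LfNorm D I k i j := by
  simp only [CodeP, LfNorm, hn]
  refine or_congr (and_congr_right fun _ => and_congr_right fun hj => ?_)
    (or_congr (by simp) (and_congr_right fun _ => ?_))
  · rw [h.rep i hj, lf_rep_num h0 ht i (h.bij.mapsTo hj), eq_comm]
  · constructor
    · rintro ⟨a, b, ⟨hi, rfl⟩, ⟨hj, rfl⟩, H⟩
      exact ⟨hi, hj, (h.rel k i hi j hj).2 H⟩
    · rintro ⟨hi, hj, H⟩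
      exact ⟨_, _, ⟨hi, rfl⟩, ⟨hj, rfl⟩, (h.rel k i hi j hj).1 H⟩

lemma lf_mem_AA (ρ : Set ℕ) (x : ℕ → Bool) :
    x ∈ AA ρ ↔ LfB ρ x ∧ WellFounded fun a b => a ∈ lfD x ∧ lfI x 0 a b := by
  constructor
  · rintro ⟨L, Lt, β, h, hp, rfl⟩
    have hD : ∀ d, d ∈ lfD (code (II ρ L Lt) (L β)) ↔
        ∃ a, Name (L β : Set ZFSet) (II ρ L Lt) d a := by
      intro d
      simp [lfD, lf_bit_code, CodeP]
    have : ∀ d, ∃ a, d ∈ lfD (code (II ρ L Lt) (L β)) → Name (L β : Set ZFSet) (II ρ L Lt) d a := by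
      intro d
      by_cases hd : d ∈ lfD (code (II ρ L Lt) (L β))
      · exact ((hD d).1 hd).imp fun a ha _ => ha
      · exact ⟨∅, fun h' => absurd h' hd⟩
    choose π hπ using this
    have hn : ∀ d a, Name (L β : Set ZFSet) (II ρ L Lt) d a ↔
        d ∈ lfD (code (II ρ L Lt) (L β)) ∧ a = π d := fun d a =>
      ⟨fun H => ⟨(hD d).2 ⟨a, H⟩, lf_name_inj H (hπ d ((hD d).2 ⟨a, H⟩))⟩,
        fun H => H.2 ▸ hπ d H.1⟩
    have iso : LfIso π (lfD (code (II ρ L Lt) (L β))) (lfI (code (II ρ L Lt) (L β)))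
        (L β : Set ZFSet) (II ρ L Lt) := by
      refine ⟨⟨fun d hd => lf_name_mem (hπ d hd), fun d hd d' hd' e =>
        lf_name_unique (hπ d hd) (e ▸ hπ d' hd'), fun a ha => ?_⟩, fun k i hi j hj => ?_⟩
      · obtain ⟨d, hd⟩ := lf_exists_name (hp a ha)
        exact ⟨d, ((hn d a).1 hd).1, ((hn d a).1 hd).2.symm⟩
      · rw [lfI, lf_bit_code]
        by_cases hk : k < 4
        · have h5 : k ≠ 5 := by omega
          have h4 : k ≠ 4 := by omega
          simp [CodeP, hk, h5, h4, hn, hi, hj]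
        · exact iff_of_false (fun H => hk H.1) ((h.good β).big k (not_lt.1 hk) _
            (lf_name_mem (hπ i hi)) _ (lf_name_mem (hπ j hj)))
    have hnorm := fun k i j => (lf_bit_code (II ρ L Lt) (L β) k i j).trans
      (lf_codeP iso hn (fun _ _ => Iff.rfl) (fun a ha b hb => h.trans ha hb) k i j)
    refine ⟨⟨iso.good (h.good β), fun d hd => (iso.name d hd).2 (hπ d hd), hnorm⟩, ?_⟩
    refine Subrelation.wf (fun {a b} H => ?_) (InvImage.wf π ZFSet.mem_wf)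
    have hb : b ∈ lfD (code (II ρ L Lt) (L β)) := by
      rcases (hnorm 0 a b).1 H.2.2 with h1 | h1 | h1
      · exact h1.2.1
      · exact h1.2.1 ▸ h1.2.2
      · exact h1.2.2.1
    exact (iso.rel 0 a H.1 b hb).1 H.2
  · rintro ⟨⟨hg, hname, hnorm⟩, hwf⟩
    obtain ⟨L, Lt, h⟩ := exists_hier ρ
    obtain ⟨α, π, hb, hr⟩ := h.condensation (Set.to_countable _) hg hwf
    have iso : LfIso π (lfD x) (lfI x) (L α : Set ZFSet) (II ρ L Lt) := ⟨hb, hr⟩
    have hn : ∀ d a, Name (L α : Set ZFSet) (II ρ L Lt) d a ↔ d ∈ lfD x ∧ a = π d := by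
      intro d a
      constructor
      · intro H
        obtain ⟨d', hd', rfl⟩ := hb.surjOn (lf_name_mem H)
        obtain rfl := lf_name_unique ((iso.name d hd').2 H) (hname d' hd')
        exact ⟨hd', rfl⟩
      · rintro ⟨hd, rfl⟩
        exact (iso.name d hd).1 (hname d hd)
    refine ⟨L, Lt, α, h, fun a ha => ?_, funext fun n => ?_⟩
    · obtain ⟨d, hd, rfl⟩ := hb.surjOn ha
      obtain ⟨ψ, -, hψ, -⟩ := (iso.name d hd).1 (hname d hd)
      exact ⟨ψ, hψ⟩
    · have := (hnorm n.unpair.1 n.unpair.2.unpair.1 n.unpair.2.unpair.2).trans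
        ((lf_bit_code (II ρ L Lt) (L α) _ _ _).trans
          (lf_codeP iso hn (fun _ _ => Iff.rfl) (fun a ha b hb => h.trans ha hb) _ _ _)).symm
      simp only [lfBit, Nat.pair_unpair] at this
      exact Bool.eq_iff_iff.2 this

section lf_meas

variable {X : Type*} [MeasurableSpace X] {D : X → Set ℕ} {I : X → ℕ → ℕ → ℕ → Prop}

lemma lf_meas_congr {P Q : X → Prop} (h : Measurable P) (e : ∀ x, Q x ↔ P x) : Measurable Q :=
  (funext fun x => propext (e x) : Q = P) ▸ h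

lemma lf_meas_exv {P : X → (ℕ → ℕ) → Prop} (n : ℕ)
    (hc : ∀ x v w, (∀ i, i < n → v i = w i) → P x v → P x w)
    (hm : ∀ v, Measurable fun x => P x v) : Measurable fun x => ∃ v, P x v := by
  have : (fun x => ∃ v, P x v) = fun x => ∃ s : List ℕ, P x fun i => s.getD i 0 := by
    funext x
    refine propext ⟨fun ⟨v, hv⟩ => ⟨pre v n, hc x v _ (fun i hi => ?_) hv⟩, fun ⟨s, hs⟩ => ⟨_, hs⟩⟩
    simp [pre, hi]
  rw [this]
  exact Measurable.exists fun s => hm _

lemma lf_meas_allv {P : X → (ℕ → ℕ) → Prop} (n : ℕ)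
    (hc : ∀ x v w, (∀ i, i < n → v i = w i) → P x v → P x w)
    (hm : ∀ v, Measurable fun x => P x v) : Measurable fun x => ∀ v, P x v := by
  have := (lf_meas_exv (P := fun x v => ¬ P x v) n
    (fun x v w h h1 h2 => h1 (hc x w v (fun i hi => (h i hi).symm) h2)) fun v => (hm v).not).not
  simpa using this

lemma lf_meas_sat (hI : ∀ k i j, Measurable fun x => I x k i j) (φ : Fml)
    (hD : ∀ d, Measurable fun x => d ∈ D x) :
    ∀ v : ℕ → ℕ, Measurable fun x => Sat (D x) (I x) φ v := by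
  induction φ with
  | rel k i j => exact fun v => hI k _ _
  | eq i j => exact fun v => measurable_const
  | bot => exact fun v => measurable_const
  | imp a b iha ihb => exact fun v => (iha v).imp (ihb v)
  | all a iha => exact fun v => Measurable.forall fun z => (hD z).imp (iha _)

variable (hD : ∀ d, Measurable fun x => d ∈ D x) (hI : ∀ k i j, Measurable fun x => I x k i j)

include hD hI

lemma lf_meas_dfd (l : ℕ) (φ : Fml) (v : ℕ → ℕ) (a : ℕ) :
    Measurable fun x => Dfd (D x) (I x) l φ v a :=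
  (Measurable.forall fun _ => measurable_const.imp ((hD _).and (hI _ _ _))).and
    (Measurable.forall fun z => (hD z).imp ((hI _ _ _).iff ((hI _ _ _).and
      (lf_meas_sat (D := fun x => {y | y ∈ D x ∧ I x 0 y l}) hI φ
        (fun d => (hD d).and (hI 0 d l)) _))))

lemma lf_meas_exdfd (l a : ℕ) : Measurable fun x => ∃ φ v, Dfd (D x) (I x) l φ v a :=
  Measurable.exists fun φ => lf_meas_exv φ.bound (fun _ _ _ h => lf_dfd_congr h)
    fun v => lf_meas_dfd hD hI l φ v a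

lemma lf_meas_rep (n a : ℕ) : Measurable fun x => Rep (D x) (I x) n a := by
  induction n generalizing a with
  | zero => exact Measurable.forall fun z => (hD z).imp (hI _ _ _).not
  | succ n ih =>
    exact Measurable.exists fun b => (hD b).and ((ih b).and (Measurable.forall fun z =>
      (hD z).imp ((hI _ _ _).iff (measurable_const.or (hI _ _ _)))))

lemma lf_meas_defines (ψ : Fml) (a : ℕ) : Measurable fun x => Defines (D x) (I x) ψ a :=
  (hD a).and (Measurable.forall fun z =>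
    (hD z).imp ((lf_meas_sat hI ψ hD _).iff measurable_const))

lemma lf_meas_name (d a : ℕ) : Measurable fun x => Name (D x) (I x) d a :=
  Measurable.exists fun ψ => measurable_const.and ((lf_meas_defines hD hI ψ a).and
    (Measurable.forall fun ψ' => (lf_meas_defines hD hI ψ' a).imp measurable_const))

omit hD in
lemma lf_meas_lex (n : ℕ) (v w : ℕ → ℕ) : Measurable fun x => LexLt (I x) n v w :=
  Measurable.exists fun _ => measurable_const.and (measurable_const.and (hI _ _ _))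

lemma lf_meas_good {ρ : X → Set ℕ} (hρ : ∀ n, Measurable fun x => n ∈ ρ x) :
    Measurable fun x => Good (D x) (I x) (ρ x) := by
  have m1 : Measurable fun x =>
      ∀ a ∈ D x, ∀ b ∈ D x, (∀ z ∈ D x, I x 0 z a ↔ I x 0 z b) → a = b :=
    .forall fun a => (hD a).imp (.forall fun b => (hD b).imp
      ((Measurable.forall fun z => (hD z).imp ((hI _ _ _).iff (hI _ _ _))).imp measurable_const))
  have m2 : Measurable fun x => ∀ a ∈ D x, ∀ b ∈ D x, I x 1 a b → a = b :=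
    .forall fun a => (hD a).imp (.forall fun b => (hD b).imp ((hI _ _ _).imp measurable_const))
  have m3 : Measurable fun x =>
      ∀ a ∈ D x, ∀ b ∈ D x, I x 3 a b ↔ (∃ n ∈ ρ x, Rep (D x) (I x) n a) ∧ a = b :=
    .forall fun a => (hD a).imp (.forall fun b => (hD b).imp ((hI _ _ _).iff
      ((Measurable.exists fun n => (hρ n).and (lf_meas_rep hD hI n a)).and measurable_const)))
  have m4 : Measurable fun x => ∀ k, 4 ≤ k → ∀ a ∈ D x, ∀ b ∈ D x, ¬ I x k a b :=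
    .forall fun k => measurable_const.imp
      (.forall fun a => (hD a).imp (.forall fun b => (hD b).imp (hI _ _ _).not))
  have m5 : Measurable fun x => ∀ l ∈ D x, ∀ l' ∈ D x, I x 1 l l → I x 1 l' l' →
      I x 0 l l' ∨ l = l' ∨ I x 0 l' l :=
    .forall fun a => (hD a).imp (.forall fun b => (hD b).imp ((hI _ _ _).imp ((hI _ _ _).imp
      ((hI _ _ _).or (measurable_const.or (hI _ _ _))))))
  have m6 : Measurable fun x => ∀ a ∈ D x, ∃ l ∈ D x, I x 1 l l ∧ ∃ φ v, Dfd (D x) (I x) l φ v a :=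
    .forall fun a => (hD a).imp (.exists fun l => (hD l).and
      ((hI _ _ _).and (lf_meas_exdfd hD hI l a)))
  have m7 : Measurable fun x => ∀ l' ∈ D x, I x 1 l' l' → ∀ a ∈ D x,
      I x 0 a l' ↔ ∃ l ∈ D x, I x 1 l l ∧ I x 0 l l' ∧ ∃ φ v, Dfd (D x) (I x) l φ v a :=
    .forall fun l' => (hD l').imp ((hI _ _ _).imp (.forall fun a => (hD a).imp ((hI _ _ _).iff
      (.exists fun l => (hD l).and ((hI _ _ _).and ((hI _ _ _).and (lf_meas_exdfd hD hI l a)))))))
  have m8 : Measurable fun x => ∀ l ∈ D x, I x 1 l l → ∀ (φ : Fml) (v : ℕ → ℕ),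
      (∀ i, i < φ.bound → v i ∈ D x ∧ I x 0 (v i) l) → ∃ a ∈ D x, Dfd (D x) (I x) l φ v a :=
    .forall fun l => (hD l).imp ((hI _ _ _).imp (.forall fun φ => lf_meas_allv φ.bound
      (fun x v w h h1 h2 => (h1 fun i hi => h i hi ▸ h2 i hi).imp fun a ha =>
        ⟨ha.1, lf_dfd_congr h ha.2⟩)
      fun v => (Measurable.forall fun i => measurable_const.imp ((hD _).and (hI _ _ _))).imp
        (.exists fun a => (hD a).and (lf_meas_dfd hD hI l φ v a))))
  have m9 : Measurable fun x => ∀ a ∈ D x, ∀ b ∈ D x, I x 2 a b ↔ ∃ l ∈ D x, I x 1 l l ∧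
      ∃ φ v, Dfd (D x) (I x) l φ v a ∧ ∀ l' ∈ D x, I x 1 l' l' → (I x 0 l' l ∨ l' = l) →
        ∀ φ' v', Dfd (D x) (I x) l' φ' v' b →
          l' = l ∧ (φ.enc < φ'.enc ∨ (φ = φ' ∧ LexLt (I x) φ.bound v v')) := by
    refine .forall fun a => (hD a).imp (.forall fun b => (hD b).imp ((hI _ _ _).iff
      (.exists fun l => (hD l).and ((hI _ _ _).and (.exists fun φ => lf_meas_exv φ.bound
        (fun x v w h h1 => ⟨lf_dfd_congr h h1.1, fun l' h2 h3 h4 φ' v' h5 =>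
          (h1.2 l' h2 h3 h4 φ' v' h5).imp_right (Or.imp_right (And.imp_right
            (lf_lex_congr h fun _ _ => rfl)))⟩) fun v => ?_)))))
    refine (lf_meas_dfd hD hI l φ v a).and (.forall fun l' => (hD l').imp ((hI _ _ _).imp
      (((hI _ _ _).or measurable_const).imp (.forall fun φ' => lf_meas_allv φ'.bound
        (fun x v' w h h1 h2 => (h1 (lf_dfd_congr (fun i hi => (h i hi).symm) h2)).imp_right
          (Or.imp_right ?_)) fun v' => (lf_meas_dfd hD hI l' φ' v' b).imp (measurable_const.and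
            (measurable_const.or (measurable_const.and (lf_meas_lex hI _ _ _))))))))
    rintro ⟨rfl, h3⟩
    exact ⟨rfl, lf_lex_congr (fun _ _ => rfl) h h3⟩
  refine lf_meas_congr (m1.and (m2.and (m3.and (m4.and (m5.and (m6.and (m7.and (m8.and m9))))))))
    fun x => ?_
  exact ⟨fun g => ⟨g.ext, g.diag1, g.orc, g.big, g.lin, g.gen, g.lev, g.cl, g.lt⟩,
    fun ⟨g1, g2, g3, g4, g5, g6, g7, g8, g9⟩ => ⟨g1, g2, g3, g4, g5, g6, g7, g8, g9⟩⟩

end lf_meas

lemma lf_meas_bit {X : Type*} [MeasurableSpace X] {f : X → ℕ → Bool} (hf : Measurable f) (n : ℕ) :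
    Measurable fun x => f x n = true :=
  (measurable_of_countable fun b : Bool => b = true).comp ((measurable_pi_apply n).comp hf)

lemma lf_meas_B {X : Type*} [MeasurableSpace X] {f r : X → ℕ → Bool} (hf : Measurable f)
    (hr : Measurable r) : Measurable fun x => LfB {n | r x n = true} (f x) := by
  have hD : ∀ d, Measurable fun x => d ∈ lfD (f x) := fun d => lf_meas_bit hf _
  have hI : ∀ k i j, Measurable fun x => lfI (f x) k i j := fun k i j =>
    measurable_const.and (lf_meas_bit hf _)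
  exact (lf_meas_good hD hI fun n => lf_meas_bit hr n).and
    ((Measurable.forall fun d => (hD d).imp (lf_meas_name hD hI d d)).and
      (.forall fun k => .forall fun i => .forall fun j => (lf_meas_bit hf _).iff
        ((measurable_const.and ((hD j).and (lf_meas_rep hD hI i j))).or
          ((measurable_const.and (measurable_const.and (hD i))).or
            (measurable_const.and ((hD i).and ((hD j).and (hI k i j))))))))

theorem analytic_AA :
    AnalyticSet {p : (ℕ → Bool) × (ℕ → Bool) | p.1 ∉ AA {n | p.2 n = true}} := by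
  have hy : ∀ n a : ℕ, Measurable fun q : ((ℕ → Bool) × (ℕ → Bool)) × (ℕ → ℕ) => q.2 n = a :=
    fun n a => (measurable_of_countable fun b : ℕ => b = a).comp
      ((measurable_pi_apply n).comp measurable_snd)
  have hm : Measurable fun q : ((ℕ → Bool) × (ℕ → Bool)) × (ℕ → ℕ) =>
      LfB {n | q.1.2 n = true} q.1.1 → ∀ n a b, q.2 (n + 1) = a → q.2 n = b →
        a ∈ lfD q.1.1 ∧ lfI q.1.1 0 a b :=
    (lf_meas_B measurable_fst.fst measurable_fst.snd).imp
      (.forall fun n => .forall fun a => .forall fun b => (hy _ _).imp ((hy _ _).imp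
        ((lf_meas_bit measurable_fst.fst _).and
          (measurable_const.and (lf_meas_bit measurable_fst.fst _)))))
  have : PolishSpace (((ℕ → Bool) × (ℕ → Bool)) × (ℕ → ℕ)) := {}
  refine Eq.subst (motive := AnalyticSet) (Eq.symm ?_)
    (hm.setOf.analyticSet.image_of_continuous continuous_fst)
  ext p
  simp only [Set.mem_ofPred_eq, lf_mem_AA, not_and, wellFounded_iff_isEmpty_descending_chain,
    not_isEmpty_iff, Set.mem_image]
  constructor
  · intro H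
    by_cases hB : LfB {n | p.2 n = true} p.1
    · obtain ⟨⟨y, hy⟩⟩ := H hB
      exact ⟨(p, y), fun _ n a b ha hb => ha ▸ hb ▸ hy n, rfl⟩
    · exact ⟨(p, fun _ => 0), fun h => absurd h hB, rfl⟩
  · rintro ⟨q, hq, rfl⟩ hB
    exact ⟨⟨q.2, fun n => hq hB n _ _ rfl rfl⟩⟩

lemma lf_tendsto {α : Type} [TopologicalSpace α] {u : ℕ → ℕ → α} {y : ℕ → α}
    (h : ∀ k, pre (u k) k = pre y k) : Filter.Tendsto u Filter.atTop (nhds y) :=
  tendsto_pi_nhds.2 fun i => tendsto_const_nhds.congr' (by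
    filter_upwards [Filter.eventually_gt_atTop i] with k hk
    exact (pre_eq_iff.1 (h k) i hk).symm)

theorem exists_tree : ∃ T1 : Nd → Nd → List ℕ → Prop, ∀ r x : ℕ → Bool,
    x ∉ AA {n | r n = true} ↔ ∃ y : ℕ → ℕ, ∀ k, T1 (pre x k) (pre r k) (pre y k) := by
  have h := analytic_AA
  rw [AnalyticSet] at h
  rcases h with h | ⟨f, hf, h⟩
  · refine ⟨fun _ _ _ => False, fun r x => iff_of_false (fun H => ?_) fun ⟨_, H⟩ => H 0⟩
    exact Set.eq_empty_iff_forall_notMem.1 h (x, r) H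
  · refine ⟨fun s s2 t => ∃ y, pre y t.length = t ∧ pre (f y).1 s.length = s ∧
      pre (f y).2 s2.length = s2, fun r x => ?_⟩
    have e : x ∉ AA {n | r n = true} ↔ (x, r) ∈ Set.range f := by rw [h]; rfl
    rw [e]
    simp only [length_pre]
    constructor
    · rintro ⟨y, hy⟩
      exact ⟨y, fun k => ⟨y, rfl, by rw [hy], by rw [hy]⟩⟩
    · rintro ⟨y, hy⟩
      choose u h1 h2 h3 using hy
      refine ⟨y, tendsto_nhds_unique ((hf.tendsto y).comp (lf_tendsto h1)) ?_⟩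
      exact (lf_tendsto h2).prodMk_nhds (lf_tendsto h3)

end Pool.Agent.MP_c70ddc_lc.H1
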