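import Mathlib

/-! A Tsirelson-type norm on functions on the binary tree, built from a tree `T`. -/

namespace Pool.Agent.MP_c70ddc_lc.H1

/-- nodes of the binary tree -/
abbrev Nd : Type := List Bool

/-- the first `n` values of a sequence -/
def pre {α : Type} (x : ℕ → α) (n : ℕ) : List α := (List.range n).map x

/-- the node `s` lies on the branch `x` -/
def On (x : ℕ → Bool) (s : Nd) : Prop := s = pre x s.length

/-- the analytic set projected from the tree `T` -/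
def Bset (T : Nd → List ℕ → Prop) : Set (ℕ → Bool) :=
  {x | ∃ y : ℕ → ℕ, ∀ k, T (pre x k) (pre y k)}

/-- the levels `m 0, …, m i` are admissible at the node `s` -/
def Adm (T : Nd → List ℕ → Prop) (s : Nd) (m : ℕ → ℕ) (i : ℕ) : Prop :=
  i + 1 ≤ m 0 ∨ (i + 1 ≤ s.length ∧
    ∃ y : ℕ → ℕ, (∀ j, j ≤ i → y j ≤ m j) ∧ ∀ k, k ≤ i + 1 → T (s.take k) (pre y k))

/-- the norming functionals -/
inductive Nm (T : Nd → List ℕ → Prop) : (Nd →₀ ℚ) → Prop
  | zero : Nm T 0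
  | single (s : Nd) : Nm T (Finsupp.single s 1)
  | inc (f g : Nd →₀ ℚ) : Nm T f → Nm T g →
      (∀ s ∈ f.support, ∀ t ∈ g.support, ¬ s <+: t ∧ ¬ t <+: s) → Nm T (f + g)
  | adm (k : ℕ) (m : ℕ → ℕ) (F : ℕ → Nd →₀ ℚ) : Monotone m → (∀ i, i < k → Nm T (F i)) →
      (∀ i, i < k → ∀ s ∈ (F i).support, m i ≤ s.length ∧ s.length < m (i + 1) ∧ Adm T s m i) →
      Nm T ((1 / 2 : ℚ) • ∑ i ∈ Finset.range k, F i)

/-- a functional applied to the absolute value of a vector -/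
noncomputable def pr (f : Nd →₀ ℚ) (u : Nd → ℝ) : ℝ := ∑ s ∈ f.support, (f s : ℝ) * |u s|

/-- the norm of `u` is at most `C` -/
def Le (T : Nd → List ℕ → Prop) (u : Nd → ℝ) (C : ℝ) : Prop := ∀ f, Nm T f → pr f u ≤ C

/-- the space -/
def XX (T : Nd → List ℕ → Prop) : Set (Nd → ℝ) := {u | ∃ C, Le T u C}

/-- the norm -/
noncomputable def nrm (T : Nd → List ℕ → Prop) (u : Nd → ℝ) : ℝ :=
  sSup {r | ∃ f, Nm T f ∧ r = pr f u}

/-- restriction of a vector to a set of nodes -/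
noncomputable def cut (S : Set Nd) (u : Nd → ℝ) : Nd → ℝ := S.indicator u

/-- the nodes of length below `M` -/
noncomputable def lev (M : ℕ) : Finset Nd := (List.finite_length_lt Bool M).toFinset

/-- `γ` is the coefficient family of a functional of norm at most `C` -/
def Bd (T : Nd → List ℕ → Prop) (γ : Nd → ℝ) (C : ℝ) : Prop :=
  ∀ (w : Nd → ℝ) (D : ℝ) (F : Finset Nd), Le T w D → ∑ s ∈ F, |γ s| * |w s| ≤ C * D

/-- the functional with coefficients `γ` -/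
noncomputable def ev (γ w : Nd → ℝ) : ℝ := ∑' s, γ s * w s

/-- the basic weakly compact sets -/
def KK (T : Nd → List ℕ → Prop) (F : ℕ → Set (ℕ → Bool)) (m : ℕ → ℕ) : Set (Nd → ℝ) :=
  {u | Le T u 1 ∧ ∀ k : ℕ,
    Le T (cut {s | m k ≤ s.length ∧ ∀ x ∈ F k, ¬ On x s} u) (1 / ((k : ℝ) + 1))}

/-- a sequence that behaves like the unit basis of `ℓ¹` -/
structure L1Seq (T : Nd → List ℕ → Prop) (δ : ℚ) (u : ℕ → Nd → ℝ) (f : ℕ → Nd →₀ ℚ)
    (m : ℕ → ℕ) : Prop where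
  pos : 0 < δ
  mono : ∀ j, m j < m (j + 1)
  lev : ∀ j, ∀ s ∈ (f j).support, m j ≤ s.length ∧ s.length < m (j + 1)
  big : ∀ j, (δ : ℝ) ≤ pr (f j) (u j)
  nm : ∀ n, Nm T ((1 / 2 : ℚ) • ∑ j ∈ Finset.range n, f j)

/-- the same, with fast coordinatewise convergence and small tails -/
structure L1Str (T : Nd → List ℕ → Prop) (δ : ℚ) (u : ℕ → Nd → ℝ) (f : ℕ → Nd →₀ ℚ)
    (m : ℕ → ℕ) : Prop extends L1Seq T δ u f m where
  head : ∀ j, Le T (cut {s | s.length < m j} (u (j + 1) - u j)) ((δ : ℝ) / 2 ^ (j + 5))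
  tail : ∀ j, Le T (cut {s | m (j + 1) ≤ s.length} (u j)) ((δ : ℝ) / 8)

/-- `D` contains an `ℓ¹` sequence -/
def L1 (T : Nd → List ℕ → Prop) (D : Set (Nd → ℝ)) : Prop :=
  ∃ δ u f m, (∀ j, u j ∈ D) ∧ L1Seq T δ u f m

/-- the branches along which `D` keeps mass above `η` -/
def At (T : Nd → List ℕ → Prop) (D : Set (Nd → ℝ)) (η : ℝ) : Set (ℕ → Bool) :=
  {x | ∀ m : ℕ, ∃ u ∈ D, ¬ Le T (cut {s | On x s ∧ m ≤ s.length} u) η}

/-- the complement of the projection of `T` has no uncountable closed subset -/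
def Thin (T : Nd → List ℕ → Prop) : Prop :=
  ∀ P : Set (ℕ → Bool), IsClosed P → (∀ x ∈ P, x ∉ Bset T) → P.Countable

end Pool.Agent.MP_c70ddc_lc.H1
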