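import Pool.Agent.MP_c70ddc_lc.H1.Logic
import Pool.Agent.MP_c70ddc_lc.H1.SpDefs

/-! A constructible hierarchy with built-in level predicate, well-order and oracle.
Relation symbols: 0 membership, 1 level, 2 well-order, 3 oracle. -/

namespace Pool.Agent.MP_c70ddc_lc.H1

section abstract

variable {M : Type*} (D : Set M) (I : ℕ → M → M → Prop)

/-- `a` is the subset of `l` defined over `l` by `φ` with parameters `v` -/
def Dfd (l : M) (φ : Fml) (v : ℕ → M) (a : M) : Prop :=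
  (∀ i, i < φ.bound → v i ∈ D ∧ I 0 (v i) l) ∧
    ∀ z ∈ D, I 0 z a ↔ I 0 z l ∧ Sat {x | x ∈ D ∧ I 0 x l} I φ (cons z v)

/-- lexicographic comparison of the first `n` parameters -/
def LexLt (n : ℕ) (v w : ℕ → M) : Prop := ∃ i, i < n ∧ (∀ j, j < i → v j = w j) ∧ I 2 (v i) (w i)

/-- `a` represents the numeral `n` -/
def Rep : ℕ → M → Prop
  | 0, a => ∀ z ∈ D, ¬ I 0 z a
  | n + 1, a => ∃ b ∈ D, Rep n b ∧ ∀ z ∈ D, I 0 z a ↔ z = b ∨ I 0 z b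

/-- `ψ` defines the element `a` without parameters -/
def Defines (ψ : Fml) (a : M) : Prop := a ∈ D ∧ ∀ z ∈ D, Sat D I ψ (fun _ => z) ↔ z = a

/-- `d` is the least code of a definition of `a` -/
def Name (d : ℕ) (a : M) : Prop :=
  ∃ ψ : Fml, ψ.enc = d ∧ Defines D I ψ a ∧ ∀ ψ' : Fml, Defines D I ψ' a → d ≤ ψ'.enc

/-- every element is definable without parameters -/
def PtDef : Prop := ∀ a ∈ D, ∃ ψ, Defines D I ψ a

/-- the structure looks like a level of the hierarchy with oracle `ρ` -/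
structure Good (ρ : Set ℕ) : Prop where
  ext : ∀ a ∈ D, ∀ b ∈ D, (∀ z ∈ D, I 0 z a ↔ I 0 z b) → a = b
  diag1 : ∀ a ∈ D, ∀ b ∈ D, I 1 a b → a = b
  orc : ∀ a ∈ D, ∀ b ∈ D, I 3 a b ↔ (∃ n ∈ ρ, Rep D I n a) ∧ a = b
  big : ∀ k, 4 ≤ k → ∀ a ∈ D, ∀ b ∈ D, ¬ I k a b
  lin : ∀ l ∈ D, ∀ l' ∈ D, I 1 l l → I 1 l' l' → I 0 l l' ∨ l = l' ∨ I 0 l' l
  gen : ∀ a ∈ D, ∃ l ∈ D, I 1 l l ∧ ∃ φ v, Dfd D I l φ v a
  lev : ∀ l' ∈ D, I 1 l' l' → ∀ a ∈ D,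
    I 0 a l' ↔ ∃ l ∈ D, I 1 l l ∧ I 0 l l' ∧ ∃ φ v, Dfd D I l φ v a
  cl : ∀ l ∈ D, I 1 l l → ∀ (φ : Fml) (v : ℕ → M), (∀ i, i < φ.bound → v i ∈ D ∧ I 0 (v i) l) →
    ∃ a ∈ D, Dfd D I l φ v a
  lt : ∀ a ∈ D, ∀ b ∈ D, I 2 a b ↔ ∃ l ∈ D, I 1 l l ∧ ∃ φ v, Dfd D I l φ v a ∧
    ∀ l' ∈ D, I 1 l' l' → (I 0 l' l ∨ l' = l) → ∀ φ' v', Dfd D I l' φ' v' b →
      l' = l ∧ (φ.enc < φ'.enc ∨ (φ = φ' ∧ LexLt I φ.bound v v'))

/-- `H` is an elementary substructure of `D` -/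
def Elem (H : Set M) : Prop :=
  H ⊆ D ∧ ∀ (φ : Fml) (v : ℕ → M), (∀ i, i < φ.bound → v i ∈ H) → (Sat H I φ v ↔ Sat D I φ v)

end abstract

/-- the interpretation of the relation symbols on sets -/
def II (ρ : Set ℕ) (L : Ordinal.{0} → ZFSet.{0}) (Lt : ZFSet.{0} → ZFSet.{0} → Prop) :
    ℕ → ZFSet.{0} → ZFSet.{0} → Prop
  | 0, a, b => a ∈ b
  | 1, a, b => (∃ β, a = L β) ∧ a = b
  | 2, a, b => Lt a b
  | 3, a, b => (∃ n ∈ ρ, a = num n) ∧ a = b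
  | _ + 4, _, _ => False

/-- the recursion equations of the hierarchy -/
structure Hier (ρ : Set ℕ) (L : Ordinal.{0} → ZFSet.{0}) (Lt : ZFSet.{0} → ZFSet.{0} → Prop) :
    Prop where
  mem : ∀ α a, a ∈ L α ↔ ∃ β, β < α ∧ ∃ φ v, Dfd Set.univ (II ρ L Lt) (L β) φ v a
  lt : ∀ a b, Lt a b ↔ ∃ β φ v, Dfd Set.univ (II ρ L Lt) (L β) φ v a ∧ (∃ γ, b ∈ L γ) ∧
    ∀ β', β' ≤ β → ∀ φ' v', Dfd Set.univ (II ρ L Lt) (L β') φ' v' b →
      β' = β ∧ (φ.enc < φ'.enc ∨ (φ = φ' ∧ LexLt (II ρ L Lt) φ.bound v v'))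

/-- the diagram of `(l, I)` in the least names -/
def CodeP (I : ℕ → ZFSet.{0} → ZFSet.{0} → Prop) (l : ZFSet.{0}) (k i j : ℕ) : Prop :=
  (k = 5 ∧ Name (l : Set ZFSet) I j (num i)) ∨
  (k = 4 ∧ i = j ∧ ∃ a, Name (l : Set ZFSet) I i a) ∨
  (k < 4 ∧ ∃ a b, Name (l : Set ZFSet) I i a ∧ Name (l : Set ZFSet) I j b ∧ I k a b)

open Classical in
/-- the canonical real coding `(l, I)` -/
noncomputable def code (I : ℕ → ZFSet.{0} → ZFSet.{0} → Prop) (l : ZFSet.{0}) : ℕ → Bool :=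
  fun n => decide (CodeP I l n.unpair.1 n.unpair.2.unpair.1 n.unpair.2.unpair.2)

/-- the set of naturals named `d` in the structure coded by `x` -/
def col (x : ℕ → Bool) (d : ℕ) : Set ℕ :=
  {n | ∃ e, x (Nat.pair 5 (Nat.pair n e)) = true ∧ x (Nat.pair 0 (Nat.pair e d)) = true}

/-- the codes of the pointwise definable levels of the hierarchy with oracle `ρ` -/
def AA (ρ : Set ℕ) : Set (ℕ → Bool) :=
  {x | ∃ L Lt β, Hier ρ L Lt ∧ PtDef (L β : Set ZFSet) (II ρ L Lt) ∧ x = code (II ρ L Lt) (L β)}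

end Pool.Agent.MP_c70ddc_lc.H1
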