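import Pool.Agent.MP_c70ddc_lc.H1.KRec
import Pool.Agent.MP_c70ddc_lc.H1.LDefs

/-! The code of a set of the model lies in the model (module LH). -/

namespace Pool.Agent.MP_c70ddc_lc.H1

set_option synthInstance.maxSize 100000

instance enFml : En Fml := ⟨Fml.enc, Fml.enc_inj⟩
instance cdFml : Cd Fml := Cd.ofEn _

/-- `W` contains the combinatorics of formulas -/
class OrcF (W : ZFSet.{0}) : Prop where
  h : InW W (Set.range (enc : Fml → ℕ))

lemma avail_orcF : Avail OrcF := (Avail.base _).mono fun _ h => ⟨h⟩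

instance lc_hf {M : Md} [h : OrcF M.W] : HF M Fml := HF.ofEn h.h
instance lc_end {M : Md} : EnD M Fml := EnD.ofEn

/-- only the first four relation symbols are interpreted -/
class LcBig (M : Md) : Prop where
  h : ∀ k, 4 ≤ k → ∀ a b, ¬ M.I k a b

section

universe u

variable {M : Md} {l : ZFSet.{0}}

instance (priority := 6500) lc_rel [hb : LcBig M] {α : Type u} [Cd α] {k : α → ℕ}
    {s t : α → ZFSet.{0}} [DfF M k] [DfF M s] [DfF M t] : DfP M fun a => M.I (k a) (s a) (t a) :=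
  ⟨DfF.congr_iff (p := fun a => (k a = 0 ∧ M.I 0 (s a) (t a)) ∨ (k a = 1 ∧ M.I 1 (s a) (t a)) ∨
      (k a = 2 ∧ M.I 2 (s a) (t a)) ∨ (k a = 3 ∧ M.I 3 (s a) (t a))) inferInstance fun a _ => by
    have := hb.h (k a)
    generalize k a = n at this
    rcases n with _ | _ | _ | _ | n <;> simp_all⟩

/-- the codes of the valuations in the model with values in `l` that satisfy `φ` over `l` -/
def lc_tr (M : Md) (l : ZFSet.{0}) (φ : Fml) : ZFSet.{0} :=
  (M.W.sep fun z => z ⊆ ZFSet.omega.prod l).sep fun z =>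
    ∃ v : ℕ → ZFSet.{0}, z = cd v ∧ Sat (l : Set ZFSet) M.I φ v

lemma lc_sub {v : ℕ → ZFSet.{0}} : cd v ⊆ ZFSet.omega.prod l ↔ ∀ i, v i ∈ l := by
  refine ⟨fun h i => (ZFSet.pair_mem_prod.1 (h (mem_cd_fun.2 ⟨i, rfl⟩))).2, fun h z hz => ?_⟩
  obtain ⟨i, rfl⟩ := mem_cd_fun.1 hz
  exact ZFSet.pair_mem_prod.2 ⟨mem_omega.2 ⟨i, rfl⟩, h i⟩

lemma lc_mem_tr {φ : Fml} {v : ℕ → ZFSet.{0}} (hv : InW M.W v) (h : ∀ i, v i ∈ l) :
    cd v ∈ lc_tr M l φ ↔ Sat (l : Set ZFSet) M.I φ v := by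
  rw [lc_tr, ZFSet.mem_sep, ZFSet.mem_sep]
  exact ⟨fun ⟨_, w, e, h⟩ => Cd.inj e ▸ h, fun h' => ⟨⟨hv.mem, lc_sub.2 h⟩, v, rfl, h'⟩⟩

lemma lc_df_tr [OrcF M.W] [LcBig M] [hl : InW M.W l] : DfF M (lc_tr M l) := by
  refine DfF.wfRec (R := fun a b : Fml => enc a < enc b) (InvImage.wf _ wellFounded_lt)
    inferInstance (fun a _ => ⟨_, (HF.univ (M := M) (β := Fml)).mem,
      fun b _ => cd_mem_cd.2 (Set.mem_univ b)⟩)
    (G := fun φ h => (M.W.sep fun z => z ⊆ ZFSet.omega.prod l).sep fun z =>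
      ∃ v : ℕ → ZFSet.{0}, InW M.W v ∧ z = cd v ∧
        ((∃ k i j : ℕ, enc φ = Nat.pair 0 (Nat.pair k (Nat.pair i j)) ∧ M.I k (v i) (v j)) ∨
        (∃ i j : ℕ, enc φ = Nat.pair 1 (Nat.pair i j) ∧ v i = v j) ∨
        (∃ a b : Fml, enc φ = Nat.pair 3 (Nat.pair (enc a) (enc b)) ∧
          (cd v ∈ zap h (cd a) → cd v ∈ zap h (cd b))) ∨
        ∃ a : Fml, enc φ = Nat.pair 4 (enc a) ∧ ∀ x, x ∈ l → cd (cons x v) ∈ zap h (cd a)))
    inferInstance fun φ _ h _ hh => ZFSet.ext fun z => ?_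
  rw [lc_tr, ZFSet.mem_sep, ZFSet.mem_sep (p := fun z => ∃ v : ℕ → ZFSet.{0}, _)]
  refine and_congr_right fun hz => exists_congr fun v => ?_
  rw [and_left_comm]
  refine and_congr_right fun e => ?_
  subst e
  obtain ⟨h1, h2⟩ := ZFSet.mem_sep.1 hz
  have hv : InW M.W v := ⟨h1⟩
  have h3 := lc_sub.1 h2
  have e : ∀ a : Fml, enc a = a.enc := fun _ => rfl
  have inj : ∀ a b : Fml, a.enc = b.enc ↔ a = b := fun a b => ⟨Fml.enc_inj a b, congrArg _⟩
  rw [and_iff_right hv]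
  cases φ with
  | rel k i j => simp [e, Fml.enc, Nat.pair_eq_pair, and_assoc]
  | eq i j => simp [e, Fml.enc, Nat.pair_eq_pair, and_assoc]
  | bot => simp [e, Fml.enc, Nat.pair_eq_pair]
  | imp a b =>
    have g := Nat.add_le_pair 3 (Nat.pair a.enc b.enc)
    have g1 := hh a (by have := Nat.left_le_pair a.enc b.enc; simp only [e, Fml.enc]; omega)
    have g2 := hh b (by have := Nat.right_le_pair a.enc b.enc; simp only [e, Fml.enc]; omega)
    simp [e, Fml.enc, Nat.pair_eq_pair, inj, and_assoc, g1, g2, lc_mem_tr hv h3]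
  | all a =>
    have g1 := hh a (by have := Nat.add_le_pair 4 a.enc; simp only [e, Fml.enc]; omega)
    simp only [e, Fml.enc, Nat.pair_eq_pair, inj, sat_all]
    simp only [g1, cd_zf, OfNat.ofNat_ne_zero, OfNat.ofNat_ne_one, false_and, exists_false,
      false_or, true_and, exists_eq_left', Nat.reduceEqDiff]
    refine forall_congr' fun x => forall_congr' fun hx => ?_
    have : InW M.W x := inW_zf.2 (M.h.trans _ hl.mem _ hx)
    exact lc_mem_tr inferInstance (cons_mem (D := (l : Set ZFSet)) hx h3)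

lemma lc_df_name [OrcF M.W] [LcBig M] [hl : InW M.W l] :
    DfF M fun x : ℕ × ZFSet => Name (l : Set ZFSet) M.I x.1 x.2 := by
  have := lc_df_tr (M := M) (l := l)
  have : DfF M fun x : Fml × ZFSet => Defines (l : Set ZFSet) M.I x.1 x.2 := by
    refine DfF.congr_iff (p := fun x : Fml × ZFSet => x.2 ∈ l ∧ ∀ z, z ∈ l →
      (cd (fun _ : ℕ => z) ∈ lc_tr M l x.1 ↔ z = x.2)) inferInstance fun x _ => ?_
    refine and_congr Iff.rfl (forall_congr' fun z => forall_congr' fun hz => ?_)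
    have : InW M.W z := inW_zf.2 (M.h.trans _ hl.mem _ hz)
    rw [lc_mem_tr inferInstance fun _ => hz]
  change DfF M fun x : ℕ × ZFSet => ∃ ψ : Fml, enc ψ = x.1 ∧ Defines (l : Set ZFSet) M.I ψ x.2 ∧
    ∀ ψ' : Fml, Defines (l : Set ZFSet) M.I ψ' x.2 → x.1 ≤ enc ψ'
  infer_instance

end

theorem inW_code {M : Md} [OrcF M.W] (hbig : ∀ k, 4 ≤ k → ∀ a b, ¬ M.I k a b) {l : ZFSet.{0}}
    (hl : l ∈ M.W) : InW M.W (code M.I l) := by
  have : LcBig M := ⟨hbig⟩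
  have := inW_zf.2 hl
  have := lc_df_name (M := M) (l := l)
  have key : ∀ {i a}, Name (l : Set ZFSet) M.I i a → a ∈ l := fun ⟨_, _, h, _⟩ => h.1
  have h : DfF M fun x : ℕ × ℕ × ℕ => CodeP M.I l x.1 x.2.1 x.2.2 := by
    refine DfF.congr_iff (p := fun x : ℕ × ℕ × ℕ =>
      (x.1 = 5 ∧ Name (l : Set ZFSet) M.I x.2.2 (num x.2.1)) ∨
      (x.1 = 4 ∧ x.2.1 = x.2.2 ∧ ∃ a, a ∈ l ∧ Name (l : Set ZFSet) M.I x.2.1 a) ∨
      (x.1 < 4 ∧ ∃ a, a ∈ l ∧ ∃ b, b ∈ l ∧ Name (l : Set ZFSet) M.I x.2.1 a ∧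
        Name (l : Set ZFSet) M.I x.2.2 b ∧ M.I x.1 a b)) inferInstance fun n _ => ?_
    refine or_congr Iff.rfl (or_congr (and_congr Iff.rfl (and_congr Iff.rfl ?_))
      (and_congr Iff.rfl ?_))
    · exact exists_congr fun a => and_iff_right_of_imp key
    · exact ⟨fun ⟨a, _, b, _, h⟩ => ⟨a, b, h⟩, fun ⟨a, b, h⟩ => ⟨a, key h.1, b, key h.2.1, h⟩⟩
  have h1 := DfF.unpair (M := M) DfF.id
  have h2 := DfF.unpair h1.snd
  exact DfF.inW_fun (DfF.decide (h.comp (h1.fst.prodMk (h2.fst.prodMk h2.snd))))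

end Pool.Agent.MP_c70ddc_lc.H1
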