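import Pool.Agent.MP_c70ddc_lc.H1.LBasic

/-! Condensation (module LB). -/

namespace Pool.Agent.MP_c70ddc_lc.H1

variable {ρ : Set ℕ} {L : Ordinal.{0} → ZFSet.{0}} {Lt : ZFSet.{0} → ZFSet.{0} → Prop}

section cond

variable {M : Type*} {D : Set M} {I : ℕ → M → M → Prop}

lemma cond_collapse (hD : D.Countable) (hwf : WellFounded fun a b => a ∈ D ∧ I 0 a b) :
    ∃ π : M → ZFSet.{0}, ∀ a x, x ∈ π a ↔ ∃ b ∈ D, I 0 b a ∧ π b = x := by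
  have hs : ∀ a, Small.{0} {b // b ∈ D ∧ I 0 b a} := fun a =>
    have : Countable {b // b ∈ D ∧ I 0 b a} := hD.mono fun _ h => h.1
    inferInstance
  refine ⟨hwf.fix fun a f => ZFSet.range fun b : {b // b ∈ D ∧ I 0 b a} => f b.1 b.2,
    fun a x => ?_⟩
  rw [WellFounded.fix_eq, ZFSet.mem_range]
  exact ⟨fun ⟨b, h⟩ => ⟨b.1, b.2.1, b.2.2, h⟩, fun ⟨b, h1, h2, h⟩ => ⟨⟨b, h1, h2⟩, h⟩⟩

variable {π : M → ZFSet.{0}}

lemma cond_inj (hg : Good D I ρ) (hwf : WellFounded fun a b => a ∈ D ∧ I 0 a b)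
    (hπ : ∀ a x, x ∈ π a ↔ ∃ b ∈ D, I 0 b a ∧ π b = x) : Set.InjOn π D := by
  intro a
  induction a using hwf.induction with
  | _ a ih =>
    intro ha b hb e
    refine hg.ext a ha b hb fun z hz => ⟨fun h => ?_, fun h => ?_⟩
    · obtain ⟨z', h1, h2, h3⟩ := (hπ b _).1 (e ▸ (hπ a _).2 ⟨z, hz, h, rfl⟩)
      rwa [ih z ⟨hz, h⟩ hz h1 h3.symm]
    · obtain ⟨z', h1, h2, h3⟩ := (hπ a _).1 (e ▸ (hπ b _).2 ⟨z, hz, h, rfl⟩)
      rwa [← ih z' ⟨h1, h2⟩ h1 hz h3]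

lemma cond_mem (hi : Set.InjOn π D) (hπ : ∀ a x, x ∈ π a ↔ ∃ b ∈ D, I 0 b a ∧ π b = x) {a : M}
    (ha : a ∈ D) (b : M) : I 0 a b ↔ π a ∈ π b :=
  ⟨fun h => (hπ _ _).2 ⟨a, ha, h, rfl⟩, fun h =>
    let ⟨_, h1, h2, h3⟩ := (hπ _ _).1 h
    hi h1 ha h3 ▸ h2⟩

lemma cond_rep (hi : Set.InjOn π D) (hπ : ∀ a x, x ∈ π a ↔ ∃ b ∈ D, I 0 b a ∧ π b = x) (n : ℕ) :
    ∀ a, Rep D I n a ↔ π a = num n := by
  induction n with
  | zero =>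
    intro a
    simp only [Rep, num, ZFSet.eq_empty, hπ]
    exact ⟨fun h y ⟨b, h1, h2, _⟩ => h b h1 h2, fun h z h1 h2 => h _ ⟨z, h1, h2, rfl⟩⟩
  | succ n ih =>
    intro a
    simp only [Rep, num, ih]
    constructor
    · rintro ⟨b, hb, e, h⟩
      ext x
      rw [ZFSet.mem_insert_iff, ← e, hπ, hπ]
      constructor
      · rintro ⟨z, h1, h2, rfl⟩
        rcases (h z h1).1 h2 with rfl | h3
        · exact Or.inl rfl
        · exact Or.inr ⟨z, h1, h3, rfl⟩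
      · rintro (rfl | ⟨z, h1, h2, rfl⟩)
        · exact ⟨b, hb, (h b hb).2 (Or.inl rfl), rfl⟩
        · exact ⟨z, h1, (h z h1).2 (Or.inr h2), rfl⟩
    · intro e
      obtain ⟨b, hb, -, e'⟩ := (hπ a (num n)).1 (e ▸ ZFSet.mem_insert _ _)
      refine ⟨b, hb, e', fun z hz => ?_⟩
      rw [cond_mem hi hπ hz, cond_mem hi hπ hz, e, ZFSet.mem_insert_iff, ← e', hi.eq_iff hz hb]

lemma cond_dfd_congr {N : Type*} {E : Set N} {J : ℕ → N → N → Prop} {l a : N} {φ : Fml}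
    {v w : ℕ → N} (h : Dfd E J l φ v a) (e : ∀ i, i < φ.bound → v i = w i) : Dfd E J l φ w a :=
  ⟨fun i hi => e i hi ▸ h.1 i hi, fun z hz => (h.2 z hz).trans (and_congr_right fun _ =>
    sat_congr fun i hi => by
      cases i with
      | zero => rfl
      | succ i => exact e i (by omega))⟩

lemma cond_dfd (hi : Set.InjOn π D) (hπ : ∀ a x, x ∈ π a ↔ ∃ b ∈ D, I 0 b a ∧ π b = x) {l : M}
    (hl : ∀ k, ∀ a ∈ D, ∀ b ∈ D, I 0 a l → I 0 b l → (I k a b ↔ II ρ L Lt k (π a) (π b)))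
    {φ : Fml} {v : ℕ → M} (hv : ∀ i, i < φ.bound → v i ∈ D ∧ I 0 (v i) l) {a : M} :
    Dfd D I l φ v a ↔ Dfd Set.univ (II ρ L Lt) (π l) φ (π ∘ v) (π a) := by
  have key : ∀ z ∈ D, I 0 z l → (Sat {x | x ∈ D ∧ I 0 x l} I φ (cons z v) ↔
      Sat {x | x ∈ Set.univ ∧ II ρ L Lt 0 x (π l)} (II ρ L Lt) φ (cons (π z) (π ∘ v))) := by
    intro z hz hzl
    rw [← comp_cons]
    refine sat_map π ⟨fun x hx => ⟨trivial, (cond_mem hi hπ hx.1 l).1 hx.2⟩,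
      hi.mono fun _ h => h.1, fun x hx => ?_⟩ (fun k a ha b hb => hl k a ha.1 b hb.1 ha.2 hb.2)
      fun i h => ?_
    · obtain ⟨b, h1, h2, h3⟩ := (hπ l x).1 hx.2
      exact ⟨b, ⟨h1, h2⟩, h3⟩
    · cases i with
      | zero => exact ⟨hz, hzl⟩
      | succ i => exact hv i (by omega)
  constructor
  · intro h
    refine ⟨fun i h1 => ⟨trivial, (cond_mem hi hπ (hv i h1).1 l).1 (hv i h1).2⟩,
      fun x _ => ⟨fun h1 => ?_, fun h1 => ?_⟩⟩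
    · obtain ⟨z, h2, h3, rfl⟩ := (hπ a x).1 h1
      have := (h.2 z h2).1 h3
      exact ⟨(cond_mem hi hπ h2 l).1 this.1, (key z h2 this.1).1 this.2⟩
    · obtain ⟨z, h2, h3, rfl⟩ := (hπ l x).1 h1.1
      exact (cond_mem hi hπ h2 a).1 ((h.2 z h2).2 ⟨h3, (key z h2 h3).2 h1.2⟩)
  · intro h
    refine ⟨hv, fun z hz => ?_⟩
    rw [cond_mem hi hπ hz a]
    refine (h.2 (π z) trivial).trans ?_
    exact (and_congr_left' (cond_mem hi hπ hz l).symm).trans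
      (and_congr_right fun h1 => (key z hz h1).symm)

lemma cond_pull (hπ : ∀ a x, x ∈ π a ↔ ∃ b ∈ D, I 0 b a ∧ π b = x) {l : M} {φ : Fml}
    {w : ℕ → ZFSet} {x : ZFSet} (h : Dfd Set.univ (II ρ L Lt) (π l) φ w x) :
    ∃ v : ℕ → M, (∀ i, i < φ.bound → v i ∈ D ∧ I 0 (v i) l) ∧
      (∀ i, i < φ.bound → π (v i) = w i) ∧ Dfd Set.univ (II ρ L Lt) (π l) φ (π ∘ v) x := by
  have : ∀ i, ∃ b, i < φ.bound → (b ∈ D ∧ I 0 b l) ∧ π b = w i := by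
    intro i
    by_cases hi : i < φ.bound
    · obtain ⟨b, h1, h2, h3⟩ := (hπ l _).1 (h.1 i hi).2
      exact ⟨b, fun _ => ⟨⟨h1, h2⟩, h3⟩⟩
    · exact ⟨l, fun h => absurd h hi⟩
  choose v hv using this
  exact ⟨v, fun i hi => (hv i hi).1, fun i hi => (hv i hi).2,
    cond_dfd_congr h fun i hi => (hv i hi).2.symm⟩

lemma cond_step (h : Hier ρ L Lt) (hD : D.Countable) (hg : Good D I ρ) (hi : Set.InjOn π D)
    (hπ : ∀ a x, x ∈ π a ↔ ∃ b ∈ D, I 0 b a ∧ π b = x) {S : Set M}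
    (h1 : ∀ l ∈ S, l ∈ D ∧ I 1 l l) (h2 : ∀ l ∈ S, ∀ l' ∈ D, I 1 l' l' → I 0 l' l → l' ∈ S)
    (h3 : ∀ l ∈ S, (∃ β, π l = L β) ∧
      ∀ k, ∀ a ∈ D, ∀ b ∈ D, I 0 a l → I 0 b l → (I k a b ↔ II ρ L Lt k (π a) (π b)))
    {X : M → Prop} (hX : ∀ a ∈ D, X a ↔ ∃ l ∈ S, ∃ φ v, Dfd D I l φ v a) :
    ∃ α, (∀ x, x ∈ L α ↔ ∃ a ∈ D, X a ∧ π a = x) ∧
      ∀ k, ∀ a ∈ D, ∀ b ∈ D, X a → X b → (I k a b ↔ II ρ L Lt k (π a) (π b)) := by
  have down : ∀ l ∈ S, ∀ β, π l = L β → ∀ γ ≤ β, ∃ l' ∈ S, π l' = L γ ∧ (I 0 l' l ∨ l' = l) := by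
    intro l hl β e γ hγ
    rcases hγ.eq_or_lt with rfl | hγ
    · exact ⟨l, hl, e, Or.inr rfl⟩
    obtain ⟨a, g1, g2, g3⟩ := (hπ l _).1 (e ▸ h.mem_iff_lt.2 hγ)
    exact ⟨a, h2 l hl a g1 (((h3 l hl).2 1 a g1 a g1 g2 g2).2 ⟨⟨γ, g3⟩, rfl⟩) g2, g3, Or.inl g2⟩
  have hO : {β | ¬ ∃ l ∈ S, π l = L β}.Nonempty := by
    by_contra hc
    have hc' : ∀ β, ∃ l ∈ S, π l = L β := fun β => by_contra fun g => hc ⟨β, g⟩
    choose f f1 f2 using hc'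
    have := hD.to_subtype
    have : Countable Ordinal.{0} := Function.Injective.countable
      (f := fun β => (⟨f β, (h1 _ (f1 β)).1⟩ : D)) fun a b e =>
        h.inj (by rw [← f2, ← f2, show f a = f b from congrArg Subtype.val e])
    exact not_small_ordinal.{0, 0} inferInstance
  obtain ⟨α, hα⟩ : ∃ α, ∀ γ, γ < α ↔ ∃ l ∈ S, π l = L γ := by
    refine ⟨wellFounded_lt.min _ hO, fun γ => ⟨fun g => by_contra fun g' =>
      wellFounded_lt.not_lt_min _ g' g, fun ⟨l, g1, g2⟩ => not_le.1 fun g => ?_⟩⟩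
    obtain ⟨l', g3, g4, -⟩ := down l g1 γ g2 _ g
    exact wellFounded_lt.min_mem _ hO ⟨l', g3, g4⟩
  have hm : ∀ x, x ∈ L α ↔ ∃ a ∈ D, X a ∧ π a = x := by
    intro x
    rw [h.mem]
    constructor
    · rintro ⟨β, g1, φ, w, g2⟩
      obtain ⟨l, g3, g4⟩ := (hα β).1 g1
      obtain ⟨v, v1, -, v3⟩ := cond_pull hπ (g4 ▸ g2)
      obtain ⟨a, ha, g5⟩ := hg.cl l (h1 l g3).1 (h1 l g3).2 φ v v1
      refine ⟨a, ha, (hX a ha).2 ⟨l, g3, φ, v, g5⟩, ZFSet.ext fun z => ?_⟩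
      exact (((cond_dfd hi hπ (h3 l g3).2 v1).1 g5).2 z trivial).trans (v3.2 z trivial).symm
    · rintro ⟨a, ha, g1, rfl⟩
      obtain ⟨l, g2, φ, v, g3⟩ := (hX a ha).1 g1
      obtain ⟨β, g4⟩ := (h3 l g2).1
      exact ⟨β, (hα β).2 ⟨l, g2, g4⟩, φ, _, g4 ▸ (cond_dfd hi hπ (h3 l g2).2 g3.1).1 g3⟩
  refine ⟨α, hm, fun k a ha b hb xa xb => ?_⟩
  match k with
  | 0 => exact cond_mem hi hπ ha b
  | 1 =>
    constructor
    · intro g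
      obtain rfl := hg.diag1 a ha b hb g
      obtain ⟨l, g2, φ, v, g3⟩ := (hX a ha).1 xa
      refine ⟨?_, rfl⟩
      rcases hg.lin a ha l (h1 l g2).1 g (h1 l g2).2 with e | rfl | e
      · exact (h3 a (h2 l g2 a ha g e)).1
      · exact (h3 a g2).1
      · exact absurd ((cond_mem hi hπ (h1 l g2).1 l).1 ((g3.2 l (h1 l g2).1).1 e).1)
          (ZFSet.mem_irrefl _)
    · rintro ⟨⟨β, g1⟩, g2⟩
      obtain rfl := hi ha hb g2
      obtain ⟨l, g3, g4⟩ := (hα β).1 (h.mem_iff_lt.1 (g1 ▸ (hm _).2 ⟨a, ha, xa, rfl⟩))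
      exact hi (h1 l g3).1 ha (g4.trans g1.symm) ▸ (h1 l g3).2
  | 2 =>
    obtain ⟨lb, b1, φb, vb, b2⟩ := (hX b hb).1 xb
    refine (hg.lt a ha b hb).trans (Iff.trans ?_ (h.lt _ _).symm)
    constructor
    · rintro ⟨l, g1, g2, φ, v, g3, g4⟩
      have hl : l ∈ S := by
        rcases hg.lin l g1 lb (h1 lb b1).1 g2 (h1 lb b1).2 with e | rfl | e
        · exact h2 lb b1 l g1 g2 e
        · exact b1
        · exact (g4 lb (h1 lb b1).1 (h1 lb b1).2 (Or.inl e) φb vb b2).1 ▸ b1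
      obtain ⟨β, e⟩ := (h3 l hl).1
      refine ⟨β, φ, _, e ▸ (cond_dfd hi hπ (h3 l hl).2 g3.1).1 g3,
        ⟨α, (hm _).2 ⟨b, hb, xb, rfl⟩⟩, fun β' k1 φ' w' k2 => ?_⟩
      obtain ⟨l', k3, k4, k5⟩ := down l hl β e β' k1
      obtain ⟨v', v1, v2, v3⟩ := cond_pull hπ (k4 ▸ k2)
      obtain ⟨rfl, k6⟩ := g4 l' (h1 l' k3).1 (h1 l' k3).2 k5 φ' v'
        ((cond_dfd hi hπ (h3 l' k3).2 v1).2 v3)
      refine ⟨h.inj (k4.symm.trans e), k6.imp id ?_⟩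
      rintro ⟨rfl, i, i1, i2, i3⟩
      refine ⟨rfl, i, i1, fun j hj => (congrArg π (i2 j hj)).trans (v2 j (hj.trans i1)), ?_⟩
      rw [← v2 i i1]
      exact ((h3 l' k3).2 2 _ (g3.1 i i1).1 _ (v1 i i1).1 (g3.1 i i1).2 (v1 i i1).2).1 i3
    · rintro ⟨β, φ, w, g1, -, g2⟩
      obtain ⟨βb, b3⟩ := (h3 lb b1).1
      obtain ⟨l, hl, e, -⟩ := down lb b1 βb b3 β (by
        by_contra g
        exact g (g2 βb (not_le.1 g).le φb _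
          (b3 ▸ (cond_dfd hi hπ (h3 lb b1).2 b2.1).1 b2)).1.ge)
      obtain ⟨v, v1, v2, v3⟩ := cond_pull hπ (e ▸ g1)
      refine ⟨l, (h1 l hl).1, (h1 l hl).2, φ, v, (cond_dfd hi hπ (h3 l hl).2 v1).2 v3,
        fun l' k1 k2 k3 φ' v' k4 => ?_⟩
      have hl' : l' ∈ S := k3.elim (h2 l hl l' k1 k2) fun e => e ▸ hl
      obtain ⟨β', e'⟩ := (h3 l' hl').1
      obtain ⟨rfl, k6⟩ := g2 β' (k3.elim (fun g => (h.mem_iff_lt.1
          (e ▸ e' ▸ (cond_mem hi hπ k1 l).1 g)).le) fun g => (h.inj (e'.symm.trans (g ▸ e))).le)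
        φ' _ (e' ▸ (cond_dfd hi hπ (h3 l' hl').2 k4.1).1 k4)
      obtain rfl := hi k1 (h1 l hl).1 (e'.trans e.symm)
      refine ⟨rfl, k6.imp id ?_⟩
      rintro ⟨rfl, i, i1, i2, i3⟩
      refine ⟨rfl, i, i1, fun j hj => hi (v1 j (hj.trans i1)).1 (k4.1 j (hj.trans i1)).1
        ((v2 j (hj.trans i1)).trans (i2 j hj)), ?_⟩
      rw [← v2 i i1] at i3
      exact ((h3 l' hl).2 2 _ (v1 i i1).1 _ (k4.1 i i1).1 (v1 i i1).2 (k4.1 i i1).2).2 i3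
  | 3 =>
    refine (hg.orc a ha b hb).trans (and_congr ?_ (hi.eq_iff ha hb).symm)
    simp only [cond_rep hi hπ]
  | k + 4 => exact iff_of_false (hg.big _ (by omega) a ha b hb) id

end cond

/-- condensation: a small well-founded good structure is isomorphic to a level -/
theorem Hier.condensation (h : Hier ρ L Lt) {M : Type*} {D : Set M} {I : ℕ → M → M → Prop}
    (hD : D.Countable) (hg : Good D I ρ) (hwf : WellFounded fun a b => a ∈ D ∧ I 0 a b) :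
    ∃ (α : Ordinal) (π : M → ZFSet), Set.BijOn π D (L α : Set ZFSet) ∧
      ∀ k, ∀ a ∈ D, ∀ b ∈ D, I k a b ↔ II ρ L Lt k (π a) (π b) := by
  obtain ⟨π, hπ⟩ := cond_collapse hD hwf
  have hi := cond_inj hg hwf hπ
  have rk : ∀ a ∈ D, ∀ b, I 0 a b → (π a).rank < (π b).rank := fun a ha b g =>
    ZFSet.rank_lt_of_mem ((cond_mem hi hπ ha b).1 g)
  have ok : ∀ l, l ∈ D ∧ I 1 l l → (∃ β, π l = L β) ∧
      ∀ k, ∀ a ∈ D, ∀ b ∈ D, I 0 a l → I 0 b l → (I k a b ↔ II ρ L Lt k (π a) (π b)) := by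
    intro l
    induction l using hwf.induction with
    | _ l ih =>
      intro hl
      obtain ⟨α, h1, h2⟩ := cond_step h hD hg hi hπ (S := {c | (c ∈ D ∧ I 1 c c) ∧ I 0 c l})
        (fun _ g => g.1) (fun c g c' g1 g2 g3 => ⟨⟨g1, g2⟩, by
          have r1 := rk c g.1.1 l g.2
          have r2 := rk c' g1 c g3
          rcases hg.lin c' g1 l hl.1 g2 hl.2 with e | rfl | e
          · exact e
          · exact absurd (r1.trans r2) (lt_irrefl _)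
          · exact absurd ((r2.trans r1).trans (rk l hl.1 c' e)) (lt_irrefl _)⟩)
        (fun c g => ih c ⟨g.1.1, g.2⟩ g.1) (X := fun a => I 0 a l) fun a ha =>
          (hg.lev l hl.1 hl.2 a ha).trans ⟨fun ⟨c, g1, g2, g3, g4⟩ => ⟨c, ⟨⟨g1, g2⟩, g3⟩, g4⟩,
            fun ⟨c, g, g4⟩ => ⟨c, g.1.1, g.1.2, g.2, g4⟩⟩
      exact ⟨⟨α, ZFSet.ext fun x => (hπ l x).trans (h1 x).symm⟩, h2⟩
  obtain ⟨α, h1, h2⟩ := cond_step h hD hg hi hπ (S := {c | c ∈ D ∧ I 1 c c}) (fun _ g => g)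
    (fun _ _ _ g1 g2 _ => ⟨g1, g2⟩) ok (X := fun _ => True) fun a ha => iff_of_true trivial
      (let ⟨c, g1, g2, g3⟩ := hg.gen a ha; ⟨c, ⟨g1, g2⟩, g3⟩)
  exact ⟨α, π, ⟨fun a ha => (h1 _).2 ⟨a, ha, trivial, rfl⟩, hi, fun x hx =>
    let ⟨a, g1, _, g2⟩ := (h1 x).1 hx; ⟨a, g1, g2⟩⟩, fun k a ha b hb => h2 k a ha b hb trivial trivial⟩

end Pool.Agent.MP_c70ddc_lc.H1
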