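import Pool.Agent.MP_c70ddc_lc.H1.LDefs

/-! Definable hulls (module LC). -/

namespace Pool.Agent.MP_c70ddc_lc.H1

variable {ρ : Set ℕ}

section hull

variable {M : Type*} {D : Set M} {I : ℕ → M → M → Prop}

/-- the valuation with `z` first, then `n` parameters, then `z` -/
def hlVal (n : ℕ) (z : M) (v : ℕ → M) : ℕ → M := cons z fun i => if i < n then v i else z

lemma hl_elim (x : M) (hx : x ∈ D) (v : ℕ → M) (n : ℕ) :
    ∀ θ : Fml, (∀ i, i < n → ∃ ψ, Defines D I ψ (v i)) →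
      (∀ z ∈ D, Sat D I θ (hlVal n z v) ↔ z = x) → ∃ ψ, Defines D I ψ x := by
  induction n with
  | zero =>
    intro θ _ h
    refine ⟨θ, hx, fun z hz => ?_⟩
    rw [← h z hz]
    have : hlVal 0 z v = fun _ => z := by
      funext i
      cases i <;> simp [hlVal]
    rw [this]
  | succ n ih =>
    intro θ hv h
    obtain ⟨ψ, hψ⟩ := hv n n.lt_succ_self
    refine ih (((ψ.ren fun _ => 0).and (θ.ren fun i => if i = n + 1 then 0 else i + 1)).ex)
      (fun i hi => hv i (hi.trans n.lt_succ_self)) fun z hz => ?_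
    have e : cons (v n) (hlVal n z v) ∘ (fun i => if i = n + 1 then 0 else i + 1)
        = hlVal (n + 1) z v := by
      funext i
      cases i with
      | zero => simp [hlVal]
      | succ i =>
        by_cases hi : i = n
        · subst hi
          simp [hlVal]
        · have h1 : (i ≤ n) ↔ i < n := by omega
          simp [hlVal, hi, h1]
    rw [← h z hz, sat_ex]
    constructor
    · rintro ⟨y, hy, h1⟩
      rw [sat_and, sat_ren, sat_ren] at h1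
      have : y = v n := (hψ.2 y hy).1 h1.1
      rw [this, e] at h1
      exact h1.2
    · intro h1
      refine ⟨v n, hψ.1, ?_⟩
      rw [sat_and, sat_ren, sat_ren, e]
      exact ⟨(hψ.2 _ hψ.1).2 rfl, h1⟩

lemma hl_witness (hwf : WellFounded (I 2))
    (htot : ∀ a ∈ D, ∀ b ∈ D, I 2 a b ∨ a = b ∨ I 2 b a) (φ : Fml) (v : ℕ → M)
    (hv : ∀ i, i < φ.bound → ∃ ψ, Defines D I ψ (v i))
    (h : ∃ x ∈ D, ¬ Sat D I φ (cons x v)) :
    ∃ x, (∃ ψ, Defines D I ψ x) ∧ ¬ Sat D I φ (cons x v) := by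
  obtain ⟨x, hx, hmin⟩ := hwf.has_min {x | x ∈ D ∧ ¬ Sat D I φ (cons x v)} h
  refine ⟨x, hl_elim x hx.1 v φ.bound
    (φ.not.and (.all (.imp (φ.ren (up Nat.succ ∘ fun i => i)).not (Fml.rel 2 0 1).not))) hv
    fun z hz => ?_, hx.2⟩
  have key : ∀ y : M, Sat D I φ (cons y fun i => if i < φ.bound then v i else z) ↔
      Sat D I φ (cons y v) := by
    intro y
    refine sat_congr fun i hi => ?_
    cases i with
    | zero => rfl
    | succ i => simp [show i < φ.bound by omega]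
  have e : ∀ y : M, cons y (hlVal φ.bound z v) ∘ (up Nat.succ ∘ fun i => i)
      = cons y fun i => if i < φ.bound then v i else z := by
    intro y
    funext i
    cases i <;> rfl
  simp only [sat_and, sat_not, sat_all, sat_imp, sat_rel, sat_ren, e, key]
  have e0 : Sat D I φ (hlVal φ.bound z v) ↔ Sat D I φ (cons z v) := key z
  rw [e0]
  constructor
  · rintro ⟨h1, h2⟩
    rcases htot z hz x hx.1 with h3 | h3 | h3
    · exact absurd h3 (hmin z ⟨hz, h1⟩)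
    · exact h3
    · exact absurd h3 (h2 x hx.1 hx.2)
  · rintro rfl
    exact ⟨hx.2, fun y hy h1 => hmin y ⟨hy, h1⟩⟩

end hull

/-- the definable elements form an elementary substructure when symbol 2 is a well-order -/
theorem elem_hull {M : Type*} {D : Set M} {I : ℕ → M → M → Prop} (hwf : WellFounded (I 2))
    (htot : ∀ a ∈ D, ∀ b ∈ D, I 2 a b ∨ a = b ∨ I 2 b a) :
    Elem D I {a | ∃ ψ, Defines D I ψ a} := by
  have hsub : {a | ∃ ψ, Defines D I ψ a} ⊆ D := fun a ⟨_, h⟩ => h.1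
  refine ⟨hsub, fun φ => ?_⟩
  induction φ with
  | rel k i j => exact fun _ _ => Iff.rfl
  | eq i j => exact fun _ _ => Iff.rfl
  | bot => exact fun _ _ => Iff.rfl
  | imp a b iha ihb =>
    exact fun v hv => imp_congr (iha v fun i hi => hv i (by simp only [Fml.bound]; omega))
      (ihb v fun i hi => hv i (by simp only [Fml.bound]; omega))
  | all a iha =>
    intro v hv
    have key : ∀ x ∈ {a | ∃ ψ, Defines D I ψ a},
        Sat {a | ∃ ψ, Defines D I ψ a} I a (cons x v) ↔ Sat D I a (cons x v) := by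
      intro x hx
      refine iha _ fun i hi => ?_
      cases i with
      | zero => exact hx
      | succ i => exact hv i (by simp only [Fml.bound]; omega)
    constructor
    · intro h x hx
      by_contra hc
      obtain ⟨y, hy, hy'⟩ := hl_witness hwf htot a v hv ⟨x, hx, hc⟩
      exact hy' ((key y hy).1 (h y hy))
    · exact fun h x hx => (key x hx).2 (h x (hsub hx))

section fo

variable {M : Type*} {I : ℕ → M → M → Prop}

/-- properties of valuations that are first-order, uniformly in the domain -/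
def HlFO (I : ℕ → M → M → Prop) (P : Set M → (ℕ → M) → Prop) : Prop :=
  ∃ φ : Fml, ∀ D u, Sat D I φ u ↔ P D u

/-- `n` values of `w` followed by `u` -/
def hlApp (n : ℕ) (w u : ℕ → M) : ℕ → M := fun i => if i < n then w i else u (i - n)

lemma hlApp_lt {n i : ℕ} (w u : ℕ → M) (h : i < n) : hlApp n w u i = w i := if_pos h

@[simp] lemma hlApp_add (n i : ℕ) (w u : ℕ → M) : hlApp n w u (n + i) = u i := by
  simp [hlApp]

lemma hlApp_succ (n : ℕ) (w u : ℕ → M) :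
    hlApp (n + 1) w u = cons (w 0) (hlApp n (fun i => w (i + 1)) u) := by
  funext i
  cases i with
  | zero => simp [hlApp]
  | succ i => simp [hlApp]

lemma hlApp_mem {H : Set M} {n : ℕ} {w u : ℕ → M} (hw : ∀ i, i < n → w i ∈ H)
    (hu : ∀ i, u i ∈ H) (i : ℕ) : hlApp n w u i ∈ H := by
  unfold hlApp
  split_ifs with h
  · exact hw i h
  · exact hu _

namespace HlFO

variable {P Q : Set M → (ℕ → M) → Prop}

lemma congr (h : HlFO I P) (e : ∀ D u, P D u ↔ Q D u) : HlFO I Q := by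
  obtain ⟨φ, hφ⟩ := h
  exact ⟨φ, fun D u => (hφ D u).trans (e D u)⟩

lemma abs (h : HlFO I P) {D H : Set M} (hH : Elem D I H) {u : ℕ → M} (hu : ∀ i, u i ∈ H) :
    P H u ↔ P D u := by
  obtain ⟨φ, hφ⟩ := h
  rw [← hφ, ← hφ]
  exact hH.2 φ u fun i _ => hu i

lemma rel (k i j : ℕ) : HlFO I fun _ u => I k (u i) (u j) := ⟨.rel k i j, fun _ _ => Iff.rfl⟩

lemma eq (i j : ℕ) : HlFO I fun _ u => u i = u j := ⟨.eq i j, fun _ _ => Iff.rfl⟩

lemma not (h : HlFO I P) : HlFO I fun D u => ¬ P D u := by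
  obtain ⟨φ, hφ⟩ := h
  exact ⟨φ.not, fun D u => by rw [sat_not, hφ]⟩

lemma imp (h : HlFO I P) (h' : HlFO I Q) : HlFO I fun D u => P D u → Q D u := by
  obtain ⟨φ, hφ⟩ := h
  obtain ⟨ψ, hψ⟩ := h'
  exact ⟨.imp φ ψ, fun D u => by rw [sat_imp, hφ, hψ]⟩

lemma and (h : HlFO I P) (h' : HlFO I Q) : HlFO I fun D u => P D u ∧ Q D u := by
  obtain ⟨φ, hφ⟩ := h
  obtain ⟨ψ, hψ⟩ := h'
  exact ⟨φ.and ψ, fun D u => by rw [sat_and, hφ, hψ]⟩

lemma or (h : HlFO I P) (h' : HlFO I Q) : HlFO I fun D u => P D u ∨ Q D u := by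
  obtain ⟨φ, hφ⟩ := h
  obtain ⟨ψ, hψ⟩ := h'
  exact ⟨φ.or ψ, fun D u => by rw [sat_or, hφ, hψ]⟩

lemma iff (h : HlFO I P) (h' : HlFO I Q) : HlFO I fun D u => (P D u ↔ Q D u) := by
  obtain ⟨φ, hφ⟩ := h
  obtain ⟨ψ, hψ⟩ := h'
  exact ⟨φ.iff ψ, fun D u => by rw [sat_iff, hφ, hψ]⟩

lemma all (h : HlFO I P) : HlFO I fun D u => ∀ x ∈ D, P D (cons x u) := by
  obtain ⟨φ, hφ⟩ := h
  exact ⟨.all φ, fun D u => by simp only [sat_all, hφ]⟩

lemma ex (h : HlFO I P) : HlFO I fun D u => ∃ x ∈ D, P D (cons x u) := by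
  obtain ⟨φ, hφ⟩ := h
  exact ⟨φ.ex, fun D u => by simp only [sat_ex, hφ]⟩

lemma ren (h : HlFO I P) (σ : ℕ → ℕ) : HlFO I fun D u => P D (u ∘ σ) := by
  obtain ⟨φ, hφ⟩ := h
  exact ⟨φ.ren σ, fun D u => by rw [sat_ren, hφ]⟩

lemma dom (i : ℕ) : HlFO I fun D u => u i ∈ D :=
  (eq (I := I) 0 (i + 1)).ex.congr fun _ _ => by simp

lemma allLt {R : ℕ → Set M → (ℕ → M) → Prop} (h : ∀ i, HlFO I (R i)) (n : ℕ) :
    HlFO I fun D u => ∀ i, i < n → R i D u := by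
  induction n with
  | zero => exact (eq 0 0).congr fun _ _ => by simp
  | succ n ih =>
    refine (ih.and (h n)).congr fun D u => ⟨fun h i hi => ?_,
      fun h => ⟨fun i hi => h i (hi.trans n.lt_succ_self), h n n.lt_succ_self⟩⟩
    rcases Nat.lt_succ_iff_lt_or_eq.1 hi with h1 | h1
    · exact h.1 i h1
    · exact h1 ▸ h.2

lemma exLt {R : ℕ → Set M → (ℕ → M) → Prop} (h : ∀ i, HlFO I (R i)) (n : ℕ) :
    HlFO I fun D u => ∃ i, i < n ∧ R i D u :=
  (allLt (fun i => (h i).not) n).not.congr fun _ _ => by simp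

lemma exN (n : ℕ) : ∀ {P : Set M → (ℕ → M) → Prop}, HlFO I P →
    HlFO I fun D u => ∃ w : ℕ → M, (∀ i, i < n → w i ∈ D) ∧ P D (hlApp n w u) := by
  induction n with
  | zero =>
    intro P h
    have e : ∀ w u : ℕ → M, hlApp 0 w u = u := fun w u => by funext i; simp [hlApp]
    exact h.congr fun D u => ⟨fun h => ⟨u, by simp, by rwa [e]⟩, fun ⟨w, _, h⟩ => by rwa [e] at h⟩
  | succ n ih =>
    intro P h
    refine (ih h.ex).congr fun D u => ⟨?_, ?_⟩
    · rintro ⟨w, hw, x, hx, h1⟩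
      refine ⟨cons x w, fun i hi => ?_, by rw [hlApp_succ]; exact h1⟩
      cases i with
      | zero => exact hx
      | succ i => exact hw i (by omega)
    · rintro ⟨w, hw, h1⟩
      rw [hlApp_succ] at h1
      exact ⟨fun i => w (i + 1), fun i hi => hw _ (by omega), w 0, hw 0 (by omega), h1⟩

lemma dfd (φ : Fml) (l a : ℕ) (σ : ℕ → ℕ) :
    HlFO I fun D u => Dfd D I (u l) φ (u ∘ σ) (u a) := by
  have h1 : HlFO I fun D u => Sat {x | x ∈ D ∧ I 0 x (u (l + 1))} I φ (u ∘ up σ) :=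
    ⟨(φ.ren (up σ)).rlt (l + 1), fun D u => by rw [sat_rlt, sat_ren]⟩
  refine ((allLt (fun i => (dom (σ i)).and (rel 0 (σ i) l)) φ.bound).and
    ((rel 0 0 (a + 1)).iff ((rel 0 0 (l + 1)).and h1)).all).congr fun D u => ?_
  simp only [Dfd, cons_zero, cons_succ, cons_comp_up, Function.comp_apply]

lemma lex (n : ℕ) (σ τ : ℕ → ℕ) : HlFO I fun _ u => LexLt I n (u ∘ σ) (u ∘ τ) :=
  exLt (fun i => (allLt (fun j => eq (σ j) (τ j)) i).and (rel 2 (σ i) (τ i))) n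

lemma rep (n : ℕ) : HlFO I fun D u => Rep D I n (u 0) := by
  induction n with
  | zero => exact (rel 0 0 1).not.all
  | succ n ih => exact (ih.and ((rel 0 0 2).iff ((eq 0 1).or (rel 0 0 1))).all).ex

end HlFO

lemma hl_dfd_congr {D : Set M} {l a : M} {φ : Fml} {v w : ℕ → M}
    (h : ∀ i, i < φ.bound → v i = w i) : Dfd D I l φ v a ↔ Dfd D I l φ w a := by
  refine and_congr (forall_congr' fun i => forall_congr' fun hi => by rw [h i hi])
    (forall_congr' fun z => forall_congr' fun _ => iff_congr Iff.rfl (and_congr Iff.rfl ?_))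
  refine sat_congr fun i hi => ?_
  cases i with
  | zero => rfl
  | succ i => exact h i (by omega)

lemma hl_lex_congr {n : ℕ} {v v' w w' : ℕ → M} (h : ∀ i, i < n → v i = v' i)
    (h' : ∀ i, i < n → w i = w' i) (hl : LexLt I n v w) : LexLt I n v' w' := by
  obtain ⟨i, hi, h1, h2⟩ := hl
  refine ⟨i, hi, fun j hj => ?_, ?_⟩
  · rw [← h j (hj.trans hi), ← h' j (hj.trans hi)]
    exact h1 j hj
  · rwa [← h i hi, ← h' i hi]

lemma hl_fo_exDfd (φ : Fml) (l a : ℕ) : HlFO I fun D u => ∃ v, Dfd D I (u l) φ v (u a) := by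
  refine (HlFO.exN φ.bound (HlFO.dfd φ (φ.bound + l) (φ.bound + a) id)).congr fun D u => ?_
  simp only [hlApp_add, Function.comp_id]
  constructor
  · rintro ⟨w, _, h⟩
    exact ⟨_, h⟩
  · rintro ⟨v, h⟩
    exact ⟨v, fun i hi => (h.1 i hi).1, (hl_dfd_congr fun i hi => hlApp_lt v u hi).2 h⟩

lemma hl_dfd_abs {D H : Set M} (hH : Elem D I H) {l a : M} {φ : Fml} {v : ℕ → M} (hl : l ∈ H)
    (ha : a ∈ H) (hv : ∀ i, i < φ.bound → v i ∈ H) : Dfd H I l φ v a ↔ Dfd D I l φ v a := by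
  have h := (HlFO.dfd (I := I) φ (φ.bound + 0) (φ.bound + 1) id).abs hH
    (hlApp_mem (u := cons l fun _ => a) hv (cons_mem hl fun _ => ha))
  simp only [hlApp_add, Function.comp_id, cons_zero, cons_succ] at h
  rwa [hl_dfd_congr fun i hi => hlApp_lt v _ hi, hl_dfd_congr fun i hi => hlApp_lt v _ hi] at h

lemma hl_lex_min (hwf : WellFounded (I 2)) (S : Set (ℕ → M)) (hS : S.Nonempty) (n : ℕ) :
    ∃ v ∈ S, ∀ w ∈ S, ¬ LexLt I n w v := by
  induction n with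
  | zero =>
    obtain ⟨v, hv⟩ := hS
    exact ⟨v, hv, fun w _ ⟨i, hi, _⟩ => absurd hi (Nat.not_lt_zero i)⟩
  | succ n ih =>
    obtain ⟨v0, hv0, h0⟩ := ih
    obtain ⟨v, hv, hmin⟩ := (InvImage.wf (fun w : ℕ → M => w n) hwf).has_min
      {w | w ∈ S ∧ ∀ j, j < n → w j = v0 j} ⟨v0, hv0, fun _ _ => rfl⟩
    refine ⟨v, hv.1, fun w hw ⟨i, hi, h1, h2⟩ => ?_⟩
    rcases Nat.lt_succ_iff_lt_or_eq.1 hi with h3 | h3
    · exact h0 w hw (hl_lex_congr (fun _ _ => rfl) hv.2 ⟨i, h3, h1, h2⟩)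
    · subst h3
      exact hmin w ⟨hw, fun j hj => (h1 j hj).trans (hv.2 j hj)⟩ h2

lemma hl_lex_asymm (hwf : WellFounded (I 2)) {n : ℕ} {v w : ℕ → M} (h : LexLt I n v w)
    (h' : LexLt I n w v) : False := by
  obtain ⟨i, _, h1, h2⟩ := h
  obtain ⟨j, _, h3, h4⟩ := h'
  rcases lt_trichotomy i j with h | h | h
  · rw [h3 i h] at h2
    exact hwf.asymmetric _ _ h2 h2
  · subst h
    exact hwf.asymmetric _ _ h2 h4
  · rw [h1 j h] at h4
    exact hwf.asymmetric _ _ h4 h4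

/-- if `v` is not below `v1` then everything above `v` is above `v1` -/
lemma hl_lex_trans {D : Set M} (hwf : WellFounded (I 2))
    (htot : ∀ a ∈ D, ∀ b ∈ D, I 2 a b ∨ a = b ∨ I 2 b a) {n : ℕ} {v1 v v' : ℕ → M}
    (h1 : ∀ i, i < n → v1 i ∈ D) (h2 : ∀ i, i < n → v i ∈ D) (h3 : ∀ i, i < n → v' i ∈ D)
    (h : ¬ LexLt I n v v1) (h' : LexLt I n v v') : LexLt I n v1 v' := by
  classical
  obtain ⟨i, hi, e1, e2⟩ := h'
  by_cases hc : ∃ j, j ≤ i ∧ v1 j ≠ v j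
  · have hj := Nat.find_spec hc
    have hlt : ∀ k, k < Nat.find hc → v1 k = v k := fun k hk => by
      by_contra h0
      exact Nat.find_min hc hk ⟨hk.le.trans hj.1, h0⟩
    generalize Nat.find hc = j at hj hlt
    have hjn : j < n := hj.1.trans_lt hi
    have h4 : I 2 (v1 j) (v j) := by
      rcases htot _ (h1 j hjn) _ (h2 j hjn) with h5 | h5 | h5
      · exact h5
      · exact absurd h5 hj.2
      · exact absurd ⟨j, hjn, fun k hk => (hlt k hk).symm, h5⟩ h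
    refine ⟨j, hjn, fun k hk => (hlt k hk).trans (e1 k (hk.trans_le hj.1)), ?_⟩
    rcases hj.1.lt_or_eq with h5 | h5
    · rwa [← e1 j h5]
    · subst h5
      rcases htot _ (h1 j hjn) _ (h3 j hjn) with h6 | h6 | h6
      · exact h6
      · rw [h6] at h4
        exact absurd h4 (hwf.asymmetric _ _ e2)
      · exact absurd h6 (hwf.asymmetric₃ _ _ _ h4 e2)
  · push Not at hc
    exact ⟨i, hi, fun k hk => (hc k hk.le).trans (e1 k hk), by rwa [hc i le_rfl]⟩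

/-- the lexicographically least parameters lie in an elementary substructure -/
lemma hl_lex_least {D H : Set M} (hwf : WellFounded (I 2)) (hH : Elem D I H) {l a : M}
    (hl : l ∈ H) (ha : a ∈ H) {φ : Fml} (h : ∃ v, Dfd D I l φ v a) :
    ∃ v1, Dfd H I l φ v1 a ∧ ∀ w, Dfd D I l φ w a → ¬ LexLt I φ.bound w v1 := by
  have fo1 : HlFO I fun D u => Dfd D I (u (φ.bound + 0)) φ u (u (φ.bound + 1)) ∧
      ∀ w, Dfd D I (u (φ.bound + 0)) φ w (u (φ.bound + 1)) → ¬ LexLt I φ.bound w u := by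
    refine ((HlFO.dfd φ (φ.bound + 0) (φ.bound + 1) id).and (HlFO.exN φ.bound
      ((HlFO.dfd φ (φ.bound + (φ.bound + 0)) (φ.bound + (φ.bound + 1)) id).and
        (HlFO.lex φ.bound id fun i => φ.bound + i))).not).congr fun D u => and_congr Iff.rfl ?_
    have e : ∀ w : ℕ → M, (hlApp φ.bound w u ∘ fun i => φ.bound + i) = u := fun w => by
      funext i
      simp
    simp only [hlApp_add, Function.comp_id, e]
    constructor
    · intro h w hw hlex
      exact h ⟨w, fun i hi => (hw.1 i hi).1, (hl_dfd_congr fun i hi => hlApp_lt w u hi).2 hw,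
        hl_lex_congr (fun i hi => (hlApp_lt w u hi).symm) (fun _ _ => rfl) hlex⟩
    · rintro h ⟨w, _, h1, h2⟩
      exact h _ h1 h2
  have hu : ∀ i, (cons l fun _ => a) i ∈ H := cons_mem hl fun _ => ha
  obtain ⟨v, hv, hmin⟩ := hl_lex_min hwf {v | Dfd D I l φ v a} h φ.bound
  obtain ⟨v1, hv1, h1⟩ := ((HlFO.exN φ.bound fo1).abs hH hu).2 ⟨v, fun i hi => (hv.1 i hi).1, by
    simp only [hlApp_add, cons_zero, cons_succ]
    exact ⟨(hl_dfd_congr fun i hi => hlApp_lt v _ hi).2 hv, fun w hw hlex =>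
      hmin w hw (hl_lex_congr (fun _ _ => rfl) (fun i hi => hlApp_lt v _ hi) hlex)⟩⟩
  have h2 := (fo1.abs hH (hlApp_mem hv1 hu)).1 h1
  simp only [hlApp_add, cons_zero, cons_succ] at h1 h2
  exact ⟨_, h1.1, h2.2⟩

lemma hl_lt_fwd {D H : Set M} (hg : Good D I ρ)
    (hwf0 : WellFounded fun a b => a ∈ D ∧ I 0 a b) (hwf : WellFounded (I 2))
    (htot : ∀ a ∈ D, ∀ b ∈ D, I 2 a b ∨ a = b ∨ I 2 b a) (hH : Elem D I H)
    {a b : M} (ha : a ∈ H) (hb : b ∈ H) (hab : I 2 a b) :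
    ∃ l ∈ H, I 1 l l ∧ ∃ φ v, Dfd H I l φ v a ∧
      ∀ l' ∈ H, I 1 l' l' → (I 0 l' l ∨ l' = l) → ∀ φ' v', Dfd H I l' φ' v' b →
        l' = l ∧ (φ.enc < φ'.enc ∨ (φ = φ' ∧ LexLt I φ.bound v v')) := by
  obtain ⟨l, hl, hl1, φ, v, hd, hw⟩ := (hg.lt a (hH.1 ha) b (hH.1 hb)).1 hab
  have fo1 : HlFO I fun D u => (I 1 (u 0) (u 0) ∧ ∃ v, Dfd D I (u 0) φ v (u 1)) ∧
      ∀ x ∈ D, (I 1 x x ∧ ∃ v, Dfd D I x φ v (u 1)) → ¬ I 0 x (u 0) :=
    ((HlFO.rel 1 0 0).and (hl_fo_exDfd φ 0 1)).and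
      (((HlFO.rel 1 0 0).and (hl_fo_exDfd φ 0 2)).imp (HlFO.rel 0 0 1).not).all
  obtain ⟨l0, hl0, hmin0⟩ := hwf0.has_min {x | x ∈ D ∧ I 1 x x ∧ ∃ v, Dfd D I x φ v a}
    ⟨l, hl, hl1, v, hd⟩
  obtain ⟨l1, hl1H, h1⟩ := (fo1.ex.abs hH (u := fun _ => a) fun _ => ha).2
    ⟨l0, hl0.1, hl0.2, fun x hx h2 h3 => hmin0 x ⟨hx, h2⟩ ⟨hx, h3⟩⟩
  obtain ⟨⟨h2, h3⟩, h4⟩ := (fo1.abs hH (cons_mem hl1H fun _ => ha)).1 h1
  simp only [cons_zero, cons_succ] at h2 h3 h4
  obtain ⟨v1, hv1, hmin1⟩ := hl_lex_least hwf hH hl1H ha h3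
  refine ⟨l1, hl1H, h2, φ, v1, hv1, fun l' hl' hl'1 hle φ' v' hd' => ?_⟩
  have hd'D := (hl_dfd_abs hH hl' hb fun i hi => (hd'.1 i hi).1).1 hd'
  have hl1D := hH.1 hl1H
  have hl'D := hH.1 hl'
  rcases hg.lin l1 hl1D l hl h2 hl1 with h5 | h5 | h5
  · exfalso
    have h6 : I 0 l' l := by
      rcases hle with h7 | h7
      · rcases hg.lin l' hl'D l hl hl'1 hl1 with h8 | h8 | h8
        · exact h8
        · rw [h8] at h7
          exact absurd ⟨hl, h7⟩ (hwf0.asymmetric l1 l ⟨hl1D, h5⟩)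
        · exact absurd ⟨hl, h8⟩
            (hwf0.asymmetric₃ l' l1 l ⟨hl'D, h7⟩ ⟨hl1D, h5⟩)
      · rwa [h7]
    have h9 := (hw l' hl'D hl'1 (Or.inl h6) φ' v' hd'D).1
    rw [h9] at h6
    exact hwf0.asymmetric l l ⟨hl, h6⟩ ⟨hl, h6⟩
  · subst h5
    obtain ⟨h6, h7⟩ := hw l' hl'D hl'1 hle φ' v' hd'D
    refine ⟨h6, h7.imp_right fun h8 => ⟨h8.1, ?_⟩⟩
    obtain ⟨rfl, h8⟩ := h8
    exact hl_lex_trans hwf htot (fun i hi => hH.1 (hv1.1 i hi).1) (fun i hi => (hd.1 i hi).1)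
      (fun i hi => (hd'D.1 i hi).1) (hmin1 v hd) h8
  · exact absurd h5 (h4 l hl ⟨hl1, v, hd⟩)

end fo

theorem Good.of_elem {M : Type*} {D H : Set M} {I : ℕ → M → M → Prop} (hg : Good D I ρ)
    (hwf0 : WellFounded fun a b => a ∈ D ∧ I 0 a b) (hwf : WellFounded (I 2))
    (htot : ∀ a ∈ D, ∀ b ∈ D, I 2 a b ∨ a = b ∨ I 2 b a) (hH : Elem D I H) : Good H I ρ where
  ext a ha b hb h := hg.ext a (hH.1 ha) b (hH.1 hb)
    ((((HlFO.rel 0 0 1).iff (HlFO.rel 0 0 2)).all.abs hH (u := cons a fun _ => b)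
      (cons_mem ha fun _ => hb)).1 h)
  diag1 a ha b hb := hg.diag1 a (hH.1 ha) b (hH.1 hb)
  orc a ha b hb := by
    rw [hg.orc a (hH.1 ha) b (hH.1 hb)]
    refine and_congr (exists_congr fun n => and_congr Iff.rfl ?_) Iff.rfl
    exact ((HlFO.rep n).abs hH (u := fun _ => a) fun _ => ha).symm
  big k hk a ha b hb := hg.big k hk a (hH.1 ha) b (hH.1 hb)
  lin l hl l' hl' := hg.lin l (hH.1 hl) l' (hH.1 hl')
  gen a ha := by
    obtain ⟨l, hl, h1, φ, h2⟩ := hg.gen a (hH.1 ha)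
    obtain ⟨l1, hl1, h3, h4⟩ := (((HlFO.rel 1 0 0).and (hl_fo_exDfd φ 0 1)).ex.abs hH
      (u := fun _ => a) fun _ => ha).2 ⟨l, hl, h1, h2⟩
    exact ⟨l1, hl1, h3, φ, h4⟩
  lev l' hl' h0 a ha := by
    rw [hg.lev l' (hH.1 hl') h0 a (hH.1 ha)]
    constructor
    · rintro ⟨l, hl, h1, h2, φ, h3⟩
      obtain ⟨l1, hl1, h4, h5, h6⟩ :=
        (((HlFO.rel 1 0 0).and ((HlFO.rel 0 0 1).and (hl_fo_exDfd φ 0 2))).ex.abs hH
          (u := cons l' fun _ => a) (cons_mem hl' fun _ => ha)).2 ⟨l, hl, h1, h2, h3⟩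
      exact ⟨l1, hl1, h4, h5, φ, h6⟩
    · rintro ⟨l, hl, h1, h2, φ, v, h3⟩
      exact ⟨l, hH.1 hl, h1, h2, φ, v, (hl_dfd_abs hH hl ha fun i hi => (h3.1 i hi).1).1 h3⟩
  cl l hl h0 φ v hv := by
    obtain ⟨a, ha, h1⟩ := hg.cl l (hH.1 hl) h0 φ v fun i hi => ⟨hH.1 (hv i hi).1, (hv i hi).2⟩
    have e : ∀ (E : Set M) (x : M),
        Dfd E I (cons x (hlApp φ.bound v fun _ => l) (φ.bound + 0 + 1)) φ
          (cons x (hlApp φ.bound v fun _ => l) ∘ Nat.succ) (cons x (hlApp φ.bound v fun _ => l) 0)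
        ↔ Dfd E I l φ v x := by
      intro E x
      have e1 : cons x (hlApp φ.bound v fun _ => l) (φ.bound + 0 + 1) = l :=
        hlApp_add φ.bound 0 v fun _ => l
      rw [e1, cons_zero]
      exact hl_dfd_congr fun i hi => hlApp_lt v (fun _ => l) hi
    obtain ⟨a1, ha1, h2⟩ := ((HlFO.dfd φ (φ.bound + 0 + 1) 0 Nat.succ).ex.abs hH
      (u := hlApp φ.bound v fun _ => l) (hlApp_mem (fun i hi => (hv i hi).1) fun _ => hl)).2
      ⟨a, ha, (e D a).2 h1⟩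
    exact ⟨a1, ha1, (e H a1).1 h2⟩
  lt a ha b hb := by
    refine ⟨hl_lt_fwd hg hwf0 hwf htot hH ha hb, ?_⟩
    rintro ⟨l, hl, h1, φ, v, hd, hw⟩
    rcases htot a (hH.1 ha) b (hH.1 hb) with h | h | h
    · exact h
    · subst h
      rcases (hw l hl h1 (Or.inr rfl) φ v hd).2 with h2 | h2
      · exact absurd h2 (lt_irrefl _)
      · exact (hl_lex_asymm hwf h2.2 h2.2).elim
    · exfalso
      obtain ⟨l2, hl2, h2, φ2, v2, hd2, hw2⟩ := hl_lt_fwd hg hwf0 hwf htot hH hb ha h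
      have e : l = l2 := by
        rcases hg.lin l (hH.1 hl) l2 (hH.1 hl2) h1 h2 with h3 | h3 | h3
        · exact (hw2 l hl h1 (Or.inl h3) φ v hd).1
        · exact h3
        · exact (hw l2 hl2 h2 (Or.inl h3) φ2 v2 hd2).1.symm
      subst e
      rcases (hw l hl h1 (Or.inr rfl) φ2 v2 hd2).2 with h3 | ⟨rfl, h3⟩
      · rcases (hw2 l hl h1 (Or.inr rfl) φ v hd).2 with h4 | ⟨rfl, _⟩
        · exact lt_asymm h3 h4
        · exact lt_irrefl _ h3
      · rcases (hw2 l hl h1 (Or.inr rfl) φ v hd).2 with h4 | ⟨_, h4⟩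
        · exact lt_irrefl _ h4
        · exact hl_lex_asymm hwf h3 h4

end Pool.Agent.MP_c70ddc_lc.H1
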