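import Pool.Agent.MP_c70ddc_lc.H1.LCond
import Pool.Agent.MP_c70ddc_lc.H1.LHull

/-! A countable level that models set theory (module LE). -/

namespace Pool.Agent.MP_c70ddc_lc.H1

variable {ρ : Set ℕ} {L : Ordinal.{0} → ZFSet.{0}} {Lt : ZFSet.{0} → ZFSet.{0} → Prop}

/-- the union of all levels -/
def LE_Lc (L : Ordinal.{0} → ZFSet.{0}) : Set ZFSet.{0} := {a | ∃ α, a ∈ L α}

lemma LE_II0 {a b : ZFSet} : II ρ L Lt 0 a b ↔ a ∈ b := Iff.rfl
lemma LE_II1 {a b : ZFSet} : II ρ L Lt 1 a b ↔ (∃ β, a = L β) ∧ a = b := Iff.rfl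
lemma LE_II2 {a b : ZFSet} : II ρ L Lt 2 a b ↔ Lt a b := Iff.rfl
lemma LE_II3 {a b : ZFSet} : II ρ L Lt 3 a b ↔ (∃ n ∈ ρ, a = num n) ∧ a = b := Iff.rfl

lemma LE_trans (h : Hier ρ L Lt) {a b : ZFSet} (ha : a ∈ LE_Lc L) (hb : b ∈ a) : b ∈ LE_Lc L := by
  obtain ⟨α, hα⟩ := ha
  exact ⟨α, h.trans hα hb⟩

lemma LE_lev (h : Hier ρ L Lt) (α : Ordinal) : L α ∈ LE_Lc L :=
  ⟨α + 1, h.mem_iff_lt.2 (lt_add_one α)⟩

lemma LE_sub {α : Ordinal} {a : ZFSet} (ha : a ∈ L α) : a ∈ LE_Lc L := ⟨α, ha⟩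

/-- an element of a level lies in a successor level below it -/
lemma LE_succ (h : Hier ρ L Lt) {α : Ordinal} {a : ZFSet} (ha : a ∈ L α) :
    ∃ β, β < α ∧ a ∈ L (β + 1) := by
  obtain ⟨β, hβ, hd⟩ := (h.mem α a).1 ha
  exact ⟨β, hβ, (h.mem _ a).2 ⟨β, lt_add_one β, hd⟩⟩

/-- witnesses for a small family can be found in one level -/
lemma LE_bdd (h : Hier ρ L Lt) {ι : Type*} [Small.{0} ι] (P : ι → ZFSet → Prop) :
    ∃ β, ∀ t, (∃ x ∈ LE_Lc L, P t x) → ∃ x ∈ L β, P t x := by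
  have key : ∀ t, ∃ γ : Ordinal.{0}, (∃ x ∈ LE_Lc L, P t x) → ∃ x ∈ L γ, P t x := by
    intro t
    by_cases ht : ∃ x ∈ LE_Lc L, P t x
    · obtain ⟨x, ⟨γ, hγ⟩, hx⟩ := ht
      exact ⟨γ, fun _ => ⟨x, hγ, hx⟩⟩
    · exact ⟨0, fun h' => absurd h' ht⟩
  choose g hg using key
  refine ⟨⨆ t, g t, fun t ht => ?_⟩
  obtain ⟨x, hx, hp⟩ := hg t ht
  exact ⟨x, h.mono (Ordinal.le_iSup g t) hx, hp⟩

lemma LE_val (h : Hier ρ L Lt) {v : ℕ → ZFSet} (hv : ∀ i, v i ∈ LE_Lc L) :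
    ∃ β, ∀ i, v i ∈ L β := by
  obtain ⟨β, hβ⟩ := LE_bdd h (fun (i : ℕ) x => x = v i)
  refine ⟨β, fun i => ?_⟩
  obtain ⟨x, hx, rfl⟩ := hβ i ⟨v i, hv i, rfl⟩
  exact hx

lemma LE_step (h : Hier ρ L Lt) (β : Ordinal.{0}) : ∃ γ, β < γ ∧ ∀ (φ : Fml) (v : ℕ → ZFSet),
    (∀ i, v i ∈ L β) → (∃ x ∈ LE_Lc L, ¬ Sat (LE_Lc L) (II ρ L Lt) φ (cons x v)) →
      ∃ x ∈ L γ, ¬ Sat (LE_Lc L) (II ρ L Lt) φ (cons x v) := by
  obtain ⟨γ, hγ⟩ := LE_bdd h (fun (t : Fml × (ℕ → ↥(L β))) x =>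
    ¬ Sat (LE_Lc L) (II ρ L Lt) t.1 (cons x fun i => (t.2 i : ZFSet)))
  refine ⟨max γ (β + 1), lt_of_lt_of_le (lt_add_one β) (le_max_right _ _), fun φ v hv hx => ?_⟩
  obtain ⟨x, hx1, hx2⟩ := hγ (φ, fun i => ⟨v i, hv i⟩) hx
  exact ⟨x, h.mono (le_max_left _ _) hx1, hx2⟩

lemma LE_empty (h : Hier ρ L Lt) {β : Ordinal} (hβ : 0 < β) : (∅ : ZFSet) ∈ L β := by
  have := h.num_mem 0
  refine h.mono ?_ this
  simpa using Order.add_one_le_of_lt hβ

/-- reflection -/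
lemma LE_refl (h : Hier ρ L Lt) (α : Ordinal.{0}) : ∃ β, α ≤ β ∧ ∀ (φ : Fml) (v : ℕ → ZFSet),
    (∀ i, v i ∈ L β) →
      (Sat (L β : Set ZFSet) (II ρ L Lt) φ v ↔ Sat (LE_Lc L) (II ρ L Lt) φ v) := by
  classical
  choose g hg1 hg2 using LE_step (ρ := ρ) (Lt := Lt) h
  let s : ℕ → Ordinal.{0} := fun n => g^[n] (α + 1)
  have hs : ∀ n, s (n + 1) = g (s n) := fun n => Function.iterate_succ_apply' g n _
  have hmono : StrictMono s := strictMono_nat_of_lt_succ fun n => by rw [hs]; exact hg1 _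
  have hle : ∀ n, s n ≤ ⨆ n, s n := Ordinal.le_iSup s
  have hun : ∀ a, a ∈ L (⨆ n, s n) → ∃ n, a ∈ L (s n) := by
    intro a ha
    obtain ⟨β, hβ, ha'⟩ := LE_succ h ha
    obtain ⟨n, hn⟩ := Ordinal.lt_iSup_iff.1 hβ
    exact ⟨n, h.mono (Order.add_one_le_of_lt hn) ha'⟩
  have hfin : ∀ (v : ℕ → ZFSet), (∀ i, v i ∈ L (⨆ n, s n)) →
      ∀ k, ∃ n, ∀ i, i < k → v i ∈ L (s n) := by
    intro v hv k
    induction k with
    | zero => exact ⟨0, fun i hi => absurd hi (Nat.not_lt_zero i)⟩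
    | succ k ih =>
      obtain ⟨n, hn⟩ := ih
      obtain ⟨m, hm⟩ := hun _ (hv k)
      refine ⟨max n m, fun i hi => ?_⟩
      rcases Nat.lt_succ_iff_lt_or_eq.1 hi with h1 | rfl
      · exact h.mono (hmono.monotone (le_max_left _ _)) (hn i h1)
      · exact h.mono (hmono.monotone (le_max_right _ _)) hm
  refine ⟨⨆ n, s n, (le_of_lt (lt_add_one α)).trans (hle 0), fun φ => ?_⟩
  induction φ with
  | rel k i j => intro v _; rfl
  | eq i j => intro v _; rfl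
  | bot => intro v _; rfl
  | imp a b iha ihb => intro v hv; exact imp_congr (iha v hv) (ihb v hv)
  | all a iha =>
    intro v hv
    rw [sat_all, sat_all]
    constructor
    · intro H x hx
      by_contra hn
      obtain ⟨n, hn'⟩ := hfin v hv a.bound
      let v' : ℕ → ZFSet := fun i => if i < a.bound then v i else ∅
      have hv' : ∀ i, v' i ∈ L (s n) := by
        intro i
        by_cases hi : i < a.bound
        · simp only [v', if_pos hi]; exact hn' i hi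
        · simp only [v', if_neg hi]
          refine LE_empty h (lt_of_lt_of_le ?_ (hmono.monotone (Nat.zero_le n)))
          exact lt_of_le_of_lt zero_le (lt_add_one α)
      have hc : ∀ y, Sat (LE_Lc L) (II ρ L Lt) a (cons y v') ↔
          Sat (LE_Lc L) (II ρ L Lt) a (cons y v) := by
        intro y
        refine sat_congr fun i hi => ?_
        cases i with
        | zero => rfl
        | succ i => simp only [cons_succ, v', if_pos (show i < a.bound by omega)]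
      obtain ⟨y, hy1, hy2⟩ := hg2 (s n) a v' hv' ⟨x, hx, fun h' => hn ((hc x).1 h')⟩
      rw [← hs] at hy1
      have hy3 : y ∈ L (⨆ n, s n) := h.mono (hle _) hy1
      exact hy2 ((hc y).2
        ((iha _ (cons_mem (D := (L (⨆ n, s n) : Set ZFSet)) hy3 hv)).1 (H y hy3)))
    · intro H x hx
      exact (iha _ (cons_mem (D := (L (⨆ n, s n) : Set ZFSet)) hx hv)).2 (H x (LE_sub hx))

/-- the renaming that skips the variables `1, …, k` -/
def LE_sk (k : ℕ) : ℕ → ℕ := cons 0 fun n => n + k + 1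

lemma LE_sk1 {α : Type*} (x a : α) (v : ℕ → α) : cons x (cons a v) ∘ LE_sk 1 = cons x v := by
  funext n; cases n <;> rfl

lemma LE_sk2 {α : Type*} (x a b : α) (v : ℕ → α) :
    cons x (cons a (cons b v)) ∘ LE_sk 2 = cons x v := by
  funext n; cases n <;> rfl

/-- separation in the union of the levels -/
lemma LE_sep (h : Hier ρ L Lt) (φ : Fml) (v : ℕ → ZFSet) (hv : ∀ i, v i ∈ LE_Lc L) {a : ZFSet}
    (ha : a ∈ LE_Lc L) :
    a.sep (fun x => Sat (LE_Lc L) (II ρ L Lt) φ (cons x v)) ∈ LE_Lc L := by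
  obtain ⟨α, hα⟩ := LE_val h (cons_mem ha hv)
  obtain ⟨β, hαβ, hβ⟩ := LE_refl (ρ := ρ) (Lt := Lt) h α
  have hw : ∀ i, cons a v i ∈ L β := fun i => h.mono hαβ (hα i)
  have := h.sep_mem (lt_add_one β) ((Fml.mem 0 1).and (φ.ren (LE_sk 1))) (cons a v)
    fun i _ => hw i
  refine ⟨β + 1, ?_⟩
  have e : a.sep (fun x => Sat (LE_Lc L) (II ρ L Lt) φ (cons x v)) = (L β).sep fun z =>
      Sat (L β : Set ZFSet) (II ρ L Lt) ((Fml.mem 0 1).and (φ.ren (LE_sk 1)))
        (cons z (cons a v)) := by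
    ext z
    rw [ZFSet.mem_sep, ZFSet.mem_sep, sat_and, sat_mem, sat_ren, LE_sk1]
    constructor
    · rintro ⟨h1, h2⟩
      have hz : z ∈ L β := h.trans (hw 0) h1
      exact ⟨hz, h1, (hβ φ _ (cons_mem (D := (L β : Set ZFSet)) hz fun i => hw (i + 1))).2 h2⟩
    · rintro ⟨hz, h1, h2⟩
      exact ⟨h1, (hβ φ _ (cons_mem (D := (L β : Set ZFSet)) hz fun i => hw (i + 1))).1 h2⟩
  rw [e]
  exact this

/-- a countable level to which all universally valid formulas transfer -/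
lemma LE_transfer (h : Hier ρ L Lt) : ∃ δ : Ordinal.{0}, (L δ : Set ZFSet).Countable ∧
    0 < δ ∧ ∀ φ : Fml, (∀ v, (∀ i, v i ∈ LE_Lc L) → Sat (LE_Lc L) (II ρ L Lt) φ v) →
      ∀ w, (∀ i, w i ∈ L δ) → Sat (L δ : Set ZFSet) (II ρ L Lt) φ w := by
  have hwf : WellFounded (II ρ L Lt 2) := h.lt_wf
  have htot : ∀ a ∈ LE_Lc L, ∀ b ∈ LE_Lc L, II ρ L Lt 2 a b ∨ a = b ∨ II ρ L Lt 2 b a := by
    rintro a ⟨α, ha⟩ b ⟨β, hb⟩
    exact h.lt_total ha hb
  have hwf0 : ∀ D : Set ZFSet.{0}, WellFounded fun a b => a ∈ D ∧ II ρ L Lt 0 a b :=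
    fun D => Subrelation.wf (fun h' => h'.2) ZFSet.mem_wf
  have hel := elem_hull hwf htot
  set H : Set ZFSet.{0} := {a | ∃ ψ, Defines (LE_Lc L) (II ρ L Lt) ψ a} with hH
  have hgood : Good H (II ρ L Lt) ρ := Good.of_elem h.good_univ (hwf0 _) hwf htot hel
  have hcount : H.Countable := by
    have : H = ⋃ ψ : Fml, {a | Defines (LE_Lc L) (II ρ L Lt) ψ a} := by
      ext a; simp [hH]
    rw [this]
    refine Set.countable_iUnion fun ψ => Set.Subsingleton.countable fun a ha b hb => ?_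
    exact (hb.2 a ha.1).1 ((ha.2 a ha.1).2 rfl)
  have hne : (∅ : ZFSet) ∈ H := by
    refine ⟨.all (Fml.mem 0 1).not, ⟨1, LE_empty h zero_lt_one⟩, fun z hz => ?_⟩
    simp only [sat_all, sat_not, sat_mem, cons_zero, cons_succ, LE_II0]
    constructor
    · intro H'
      exact (ZFSet.eq_empty z).2 fun y hy => H' y (LE_trans h hz hy) hy
    · rintro rfl x _
      exact ZFSet.notMem_empty x
  obtain ⟨δ, π, hπ, hI⟩ := h.condensation hcount hgood (hwf0 _)
  refine ⟨δ, ?_, ?_, fun φ hφ w hw => ?_⟩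
  · rw [← hπ.image_eq]
    exact hcount.image π
  · obtain ⟨β, hβ, -⟩ := LE_succ h (hπ.mapsTo hne)
    exact lt_of_le_of_lt zero_le hβ
  · have hj : ∀ i, ∃ a ∈ H, π a = w i := fun i => hπ.surjOn (hw i)
    choose v hv1 hv2 using hj
    have e : w = π ∘ v := funext fun i => (hv2 i).symm
    rw [e, ← sat_map π hπ hI fun i _ => hv1 i, hel.2 φ v fun i _ => hv1 i]
    exact hφ v fun i => hel.1 (hv1 i)

/-- `z` is a numeral -/
def LE_nat : Fml :=
  .all (.imp ((Fml.mem 0 1).or (.eq 0 1)) ((Fml.all (Fml.mem 0 1).not).or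
    (Fml.ex ((Fml.mem 0 1).and (.all ((Fml.mem 0 2).iff ((Fml.eq 0 1).or (.mem 0 1))))))))

lemma LE_nat_iff {D : Set ZFSet.{0}} (hD : ∀ a ∈ D, ∀ b ∈ a, b ∈ D) {z : ZFSet} (hz : z ∈ D)
    (v : ℕ → ZFSet) : Sat D (II ρ L Lt) LE_nat (cons z v) ↔ ∃ n, z = num n := by
  have e : Sat D (II ρ L Lt) LE_nat (cons z v) ↔
      ∀ y, (y ∈ z ∨ y = z) → y = ∅ ∨ ∃ w, y = insert w w := by
    simp only [LE_nat, sat_all, sat_imp, sat_or, sat_mem, sat_eq, sat_not, sat_ex, sat_and,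
      sat_iff, cons_zero, cons_succ, LE_II0]
    constructor
    · intro H y hy
      have hyD : y ∈ D := by
        rcases hy with hy | rfl
        · exact hD _ hz _ hy
        · exact hz
      rcases H y hyD hy with h1 | ⟨w, hw, -, h1⟩
      · exact Or.inl ((ZFSet.eq_empty y).2 fun u hu => h1 u (hD _ hyD _ hu) hu)
      · refine Or.inr ⟨w, ZFSet.ext fun u => ?_⟩
        rw [ZFSet.mem_insert_iff]
        constructor
        · intro hu; exact (h1 u (hD _ hyD _ hu)).1 hu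
        · intro hu
          have huD : u ∈ D := by
            rcases hu with rfl | hu
            · exact hw
            · exact hD _ hw _ hu
          exact (h1 u huD).2 hu
    · intro H y hyD hy
      rcases H y hy with rfl | ⟨w, rfl⟩
      · exact Or.inl fun u _ => ZFSet.notMem_empty u
      · have : w ∈ (insert w w : ZFSet) := ZFSet.mem_insert_iff.2 (Or.inl rfl)
        exact Or.inr ⟨w, hD _ hyD _ this, this, fun u _ => ZFSet.mem_insert_iff⟩
  rw [e]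
  clear e hz
  constructor
  · induction z using ZFSet.inductionOn with
    | _ z ih =>
      intro H
      rcases H z (Or.inr rfl) with rfl | ⟨w, rfl⟩
      · exact ⟨0, rfl⟩
      · have hw : w ∈ (insert w w : ZFSet) := ZFSet.mem_insert_iff.2 (Or.inl rfl)
        obtain ⟨n, rfl⟩ := ih w hw fun y hy => H y (Or.inl (ZFSet.mem_insert_iff.2 hy.symm))
        exact ⟨n + 1, rfl⟩
  · rintro ⟨n, rfl⟩ y hy
    have : ∃ m, y = num m := by
      rcases hy with hy | rfl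
      · obtain ⟨m, -, hm⟩ := mem_num.1 hy
        exact ⟨m, hm⟩
      · exact ⟨n, rfl⟩
    obtain ⟨m, rfl⟩ := this
    cases m with
    | zero => exact Or.inl rfl
    | succ m => exact Or.inr ⟨num m, rfl⟩

/-- unordered pairs appear one level later -/
lemma LE_pair (h : Hier ρ L Lt) {α β : Ordinal} (hab : α < β) {a b : ZFSet} (ha : a ∈ L α)
    (hb : b ∈ L α) : ({a, b} : ZFSet) ∈ L β := by
  have := h.sep_mem hab ((Fml.eq 0 1).or (.eq 0 2)) (cons a fun _ => b)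
    fun i _ => cons_mem (D := (L α : Set ZFSet)) ha (fun _ => hb) i
  have e : ({a, b} : ZFSet) = (L α).sep fun z => Sat (L α : Set ZFSet) (II ρ L Lt)
      ((Fml.eq 0 1).or (.eq 0 2)) (cons z (cons a fun _ => b)) := by
    ext z
    simp only [ZFSet.mem_sep, sat_or, sat_eq, cons_zero, cons_succ, ZFSet.mem_pair]
    refine ⟨fun hz => ⟨?_, hz⟩, fun hz => hz.2⟩
    rcases hz with rfl | rfl
    · exact ha
    · exact hb
  rw [e]
  exact this

lemma LE_union (h : Hier ρ L Lt) {α β : Ordinal} (hab : α < β) {a : ZFSet} (ha : a ∈ L α) :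
    ZFSet.sUnion a ∈ L β := by
  have := h.sep_mem hab (Fml.ex ((Fml.mem 0 2).and (.mem 1 0))) (fun _ => a) fun i _ => ha
  have e : ZFSet.sUnion a = (L α).sep fun z => Sat (L α : Set ZFSet) (II ρ L Lt)
      (Fml.ex ((Fml.mem 0 2).and (.mem 1 0))) (cons z fun _ => a) := by
    ext z
    simp only [ZFSet.mem_sep, sat_ex, sat_and, sat_mem, cons_zero, cons_succ, ZFSet.mem_sUnion,
      LE_II0]
    constructor
    · rintro ⟨y, hy, hz⟩
      exact ⟨h.trans (h.trans ha hy) hz, y, h.trans ha hy, hy, hz⟩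
    · rintro ⟨-, y, -, hy, hz⟩
      exact ⟨y, hy, hz⟩
  rw [e]
  exact this

lemma LE_opair (h : Hier ρ L Lt) {α : Ordinal} {a b : ZFSet} (ha : a ∈ L α)
    (hb : b ∈ L α) : ZFSet.pair a b ∈ L (α + 1 + 1) := by
  have h1 := LE_pair h (lt_add_one α) ha ha
  have h2 := LE_pair h (lt_add_one α) ha hb
  have h3 := LE_pair h (lt_add_one (α + 1)) h1 h2
  have e : ({a, a} : ZFSet) = {a} := by ext z; simp
  rw [e] at h3
  exact h3

/-- variable `0` is the unordered pair of the variables `i`, `j` -/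
def LE_up (i j : ℕ) : Fml := .all ((Fml.mem 0 1).iff ((Fml.eq 0 (i + 1)).or (.eq 0 (j + 1))))

lemma LE_up_iff {D : Set ZFSet.{0}} (hD : ∀ a ∈ D, ∀ b ∈ a, b ∈ D) {v : ℕ → ZFSet}
    (hv : ∀ i, v i ∈ D) (i j : ℕ) :
    Sat D (II ρ L Lt) (LE_up i j) v ↔ v 0 = {v i, v j} := by
  simp only [LE_up, sat_all, sat_iff, sat_or, sat_mem, sat_eq, cons_zero, cons_succ, LE_II0]
  constructor
  · intro H
    ext u
    rw [ZFSet.mem_pair]
    constructor
    · intro hu; exact (H u (hD _ (hv 0) _ hu)).1 hu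
    · intro hu
      refine (H u ?_).2 hu
      rcases hu with rfl | rfl <;> exact hv _
  · intro H u _
    rw [H, ZFSet.mem_pair]

/-- the graph of the least element function: variables `y, x, p` -/
def LE_ch : Fml :=
  (Fml.ex ((LE_up 2 2).and (Fml.ex ((LE_up 3 2).and
    (Fml.all ((Fml.mem 0 5).iff ((Fml.eq 0 2).or (.eq 0 1)))))))).and
  ((Fml.mem 0 1).and (.all (.imp (.mem 0 2) (Fml.rel 2 0 1).not)))

lemma LE_ch_iff {D : Set ZFSet.{0}} (hD : ∀ a ∈ D, ∀ b ∈ a, b ∈ D) {y x p : ZFSet}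
    {v : ℕ → ZFSet} (hy : y ∈ D) (hx : x ∈ D) (hp : p ∈ D) (hv : ∀ i, v i ∈ D) :
    Sat D (II ρ L Lt) LE_ch (cons y (cons x (cons p v))) ↔
      p = ZFSet.pair x y ∧ y ∈ x ∧ ∀ u ∈ x, ¬ Lt u y := by
  have hw : ∀ i, cons y (cons x (cons p v)) i ∈ D := cons_mem hy (cons_mem hx (cons_mem hp hv))
  rw [LE_ch, sat_and, sat_and]
  refine and_congr ?_ (and_congr Iff.rfl ?_)
  · rw [sat_ex]
    constructor
    · rintro ⟨s, hs, H⟩
      rw [sat_and, LE_up_iff hD (cons_mem hs hw), sat_ex] at H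
      obtain ⟨H1, t, ht, H⟩ := H
      rw [sat_and, LE_up_iff hD (cons_mem ht (cons_mem hs hw))] at H
      obtain ⟨H2, H3⟩ := H
      simp only [sat_all, sat_iff, sat_or, sat_mem, sat_eq, cons_zero, cons_succ,
        LE_II0] at H1 H2 H3
      have e : ({x, x} : ZFSet) = {x} := by ext z; simp
      rw [e] at H1
      ext u
      rw [ZFSet.pair, ZFSet.mem_pair, ← H1, ← H2]
      constructor
      · intro hu; exact (H3 u (hD _ hp _ hu)).1 hu
      · intro hu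
        refine (H3 u ?_).2 hu
        rcases hu with rfl | rfl
        · exact hs
        · exact ht
    · rintro rfl
      have e : ({x, x} : ZFSet) = {x} := by ext z; simp
      have hs : ({x} : ZFSet) ∈ D := hD _ hp _ (by simp [ZFSet.pair])
      have ht : ({x, y} : ZFSet) ∈ D := hD _ hp _ (by simp [ZFSet.pair])
      refine ⟨_, hs, ?_⟩
      rw [sat_and, LE_up_iff hD (cons_mem hs hw), sat_ex]
      refine ⟨e.symm, _, ht, ?_⟩
      rw [sat_and, LE_up_iff hD (cons_mem ht (cons_mem hs hw))]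
      refine ⟨rfl, ?_⟩
      simp only [sat_all, sat_iff, sat_or, sat_mem, sat_eq, cons_zero, cons_succ, LE_II0]
      intro u _
      rw [ZFSet.pair, ZFSet.mem_pair]
  · simp only [sat_all, sat_imp, sat_not, sat_mem, sat_rel, cons_zero, cons_succ, LE_II0, LE_II2]
    exact ⟨fun H u hu => H u (hD _ hx _ hu) hu, fun H u _ hu => H u hu⟩

/-- the renaming that skips the variables `2, 3` -/
def LE_sk22 : ℕ → ℕ := cons 0 (cons 1 fun n => n + 4)

lemma LE_sk22_eq {α : Type*} (y x a b : α) (v : ℕ → α) :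
    cons y (cons x (cons a (cons b v))) ∘ LE_sk22 = cons y (cons x v) := by
  funext n
  rcases n with _ | _ | n <;> rfl

theorem Hier.exists_ground (h : Hier ρ L Lt) : ∃ δ : Ordinal, Mdl (L δ) (II ρ L Lt) ∧
    (L δ : Set ZFSet).Countable ∧ (∀ β, β < δ → β + 1 < δ) ∧
    ZFSet.omega.sep (fun a => ∃ n ∈ ρ, a = num n) ∈ L δ := by
  obtain ⟨δ, hc, h0, tr⟩ := LE_transfer (ρ := ρ) (Lt := Lt) h
  have htr : ∀ a ∈ L δ, ∀ b ∈ a, b ∈ L δ := fun a ha b hb => h.trans ha hb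
  have htr' : ∀ a ∈ (L δ : Set ZFSet), ∀ b ∈ a, b ∈ (L δ : Set ZFSet) := htr
  have htc : ∀ a ∈ LE_Lc L, ∀ b ∈ a, b ∈ LE_Lc L := fun a ha b hb => LE_trans h ha hb
  -- every element lies in a lower level
  have hlow : ∀ a ∈ L δ, ∃ γ, γ < δ ∧ a ∈ L γ := by
    intro a ha
    have := tr (Fml.ex ((Fml.rel 1 0 0).and (.mem 1 0))) (fun v hv => by
      obtain ⟨γ, hγ⟩ := hv 0
      simp only [sat_ex, sat_and, sat_rel, sat_mem, cons_zero, cons_succ, LE_II0, LE_II1]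
      exact ⟨L γ, LE_lev h γ, ⟨⟨γ, rfl⟩, trivial⟩, hγ⟩) (fun _ => a) fun _ => ha
    simp only [sat_ex, sat_and, sat_rel, sat_mem, cons_zero, cons_succ, LE_II0, LE_II1] at this
    obtain ⟨l, hl, ⟨⟨γ, rfl⟩, -⟩, hγ⟩ := this
    exact ⟨γ, h.mem_iff_lt.1 hl, hγ⟩
  have hlim : ∀ β, β < δ → β + 1 < δ := by
    intro β hβ
    obtain ⟨γ, hγ, hβγ⟩ := hlow _ (h.mem_iff_lt.2 hβ)
    exact lt_of_le_of_lt (Order.add_one_le_of_lt (h.mem_iff_lt.1 hβγ)) hγ
  have hsep : ∀ (φ : Fml) (v : ℕ → ZFSet), (∀ i, v i ∈ L δ) → ∀ a ∈ L δ,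
      a.sep (fun x => Sat (L δ : Set ZFSet) (II ρ L Lt) φ (cons x v)) ∈ L δ := by
    intro φ v hv a ha
    have := tr (Fml.ex (.all ((Fml.mem 0 1).iff ((Fml.mem 0 2).and (φ.ren (LE_sk 2))))))
      (fun u hu => by
        have e : u = cons (u 0) (u ∘ Nat.succ) := by funext n; cases n <;> rfl
        rw [e, sat_ex]
        refine ⟨_, LE_sep h φ (u ∘ Nat.succ) (fun i => hu _) (hu 0), fun z _ => ?_⟩
        simp only [sat_iff, sat_and, sat_ren, LE_sk2, sat_mem, cons_zero, cons_succ, LE_II0,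
          ZFSet.mem_sep]) (cons a v) (cons_mem (D := (L δ : Set ZFSet)) ha hv)
    rw [sat_ex] at this
    obtain ⟨c, hcδ, H⟩ := this
    have e : a.sep (fun x => Sat (L δ : Set ZFSet) (II ρ L Lt) φ (cons x v)) = c := by
      ext z
      have H' : ∀ z ∈ L δ, z ∈ c ↔ z ∈ a ∧ Sat (L δ : Set ZFSet) (II ρ L Lt) φ (cons z v) := by
        intro z hz
        have := H z hz
        rwa [sat_iff, sat_and, sat_ren, LE_sk2] at this
      rw [ZFSet.mem_sep]
      exact ⟨fun hz => (H' z (htr _ ha _ hz.1)).2 hz, fun hz => (H' z (htr _ hcδ _ hz)).1 hz⟩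
    rw [e]
    exact hcδ
  have hemp : (∅ : ZFSet) ∈ L δ := LE_empty h h0
  have hnum : ∀ n, num n ∈ L δ := by
    have : ∀ n : ℕ, (n : Ordinal) < δ := by
      intro n
      induction n with
      | zero => simpa using h0
      | succ n ih => rw [Nat.cast_succ]; exact hlim _ ih
    exact fun n => h.mono (hlim _ (this n)).le (h.num_mem n)
  have homega : ZFSet.omega ∈ L δ := by
    have := tr (Fml.ex (.all (.imp LE_nat (.mem 0 1)))) (fun u hu => by
      obtain ⟨β, hβ⟩ := LE_val h (v := num) fun n => ⟨_, h.num_mem n⟩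
      rw [sat_ex]
      refine ⟨L β, LE_lev h β, fun z hz => ?_⟩
      rw [sat_imp, LE_nat_iff htc hz]
      rintro ⟨n, rfl⟩
      exact hβ n) (fun _ => ∅) fun _ => hemp
    rw [sat_ex] at this
    obtain ⟨l, hl, H⟩ := this
    have h2 := hsep LE_nat (fun _ => ∅) (fun _ => hemp) l hl
    have e : ZFSet.omega = l.sep fun x =>
        Sat (L δ : Set ZFSet) (II ρ L Lt) LE_nat (cons x fun _ => ∅) := by
      ext z
      rw [ZFSet.mem_sep, mem_omega]
      constructor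
      · rintro ⟨n, rfl⟩
        have h3 : ∀ v, Sat (L δ : Set ZFSet) (II ρ L Lt) LE_nat (cons (num n) v) :=
          fun v => (LE_nat_iff htr' (hnum n) v).2 ⟨n, rfl⟩
        exact ⟨H _ (hnum n) (h3 _), h3 _⟩
      · rintro ⟨h1, h2⟩
        exact (LE_nat_iff htr' (htr _ hl _ h1) _).1 h2
    rw [e]
    exact h2
  refine ⟨δ, ⟨⟨fun a b => Iff.rfl, htr, ?_, ?_, ?_, homega, hsep, ?_⟩, ?_⟩, hc, hlim, ?_⟩
  · intro a ha b hb
    obtain ⟨α, hα, ha'⟩ := hlow a ha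
    obtain ⟨β, hβ, hb'⟩ := hlow b hb
    exact LE_pair h (max_lt hα hβ) (h.mono (le_max_left _ _) ha') (h.mono (le_max_right _ _) hb')
  · intro a ha
    obtain ⟨α, hα, ha'⟩ := hlow a ha
    exact LE_union h hα ha'
  · intro a ha
    have := tr (Fml.ex (.all (.imp (.all (.imp (.mem 0 1) (.mem 0 3))) (.mem 0 1))))
      (fun u hu => by
        obtain ⟨β, hβ⟩ := LE_bdd h (fun (t : ↥(ZFSet.powerset (u 0))) x => x = (t : ZFSet))
        simp only [sat_ex, sat_all, sat_imp, sat_mem, cons_zero, cons_succ, LE_II0]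
        refine ⟨L β, LE_lev h β, fun x hx H => ?_⟩
        have hs : x ∈ ZFSet.powerset (u 0) :=
          ZFSet.mem_powerset.2 fun z hz => H z (htc _ hx _ hz) hz
        obtain ⟨y, hy, rfl⟩ := hβ ⟨x, hs⟩ ⟨x, hx, rfl⟩
        exact hy) (fun _ => a) fun _ => ha
    simp only [sat_ex, sat_all, sat_imp, sat_mem, cons_zero, cons_succ, LE_II0] at this
    obtain ⟨b, hb, H⟩ := this
    exact ⟨b, hb, fun x hx hxa => H x hx fun z _ hz => hxa hz⟩
  · intro φ v hv a ha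
    have := tr (Fml.ex (.all (.imp (.mem 0 2) (.imp (Fml.ex (φ.ren LE_sk22))
      (Fml.ex ((Fml.mem 0 2).and (φ.ren LE_sk22)))))))
      (fun u hu => by
        have e : u = cons (u 0) (u ∘ Nat.succ) := by funext n; cases n <;> rfl
        obtain ⟨β, hβ⟩ := LE_bdd h (fun (t : ↥(u 0)) y =>
          Sat (LE_Lc L) (II ρ L Lt) φ (cons y (cons (t : ZFSet) (u ∘ Nat.succ))))
        rw [e]
        simp only [sat_ex, sat_all, sat_imp, sat_and, sat_mem, sat_ren, LE_sk22_eq, cons_zero,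
          cons_succ, LE_II0]
        refine ⟨L β, LE_lev h β, fun x _ hx H => ?_⟩
        obtain ⟨y, hy, H'⟩ := hβ ⟨x, hx⟩ H
        exact ⟨y, LE_sub hy, hy, H'⟩) (cons a v) (cons_mem (D := (L δ : Set ZFSet)) ha hv)
    simp only [sat_ex, sat_all, sat_imp, sat_and, sat_mem, sat_ren, LE_sk22_eq, cons_zero,
      cons_succ, LE_II0] at this
    obtain ⟨b, hb, H⟩ := this
    refine ⟨b, hb, fun x hx hy => ?_⟩
    obtain ⟨y, -, hy1, hy2⟩ := H x (htr _ ha _ hx) hx hy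
    exact ⟨y, hy1, hy2⟩
  · intro a ha
    obtain ⟨α, hα, ha'⟩ := hlow a ha
    have hl : L (α + 1 + 1) ∈ L δ := h.mem_iff_lt.2 (hlim _ (hlim _ hα))
    refine ⟨_, hsep LE_ch.ex.ex (fun _ => ∅) (fun _ => hemp) _ hl, fun x hx hne => ?_⟩
    have hxα : x ∈ L α := h.trans ha' hx
    have hxδ : x ∈ L δ := htr _ ha _ hx
    obtain ⟨y, hy, hmin⟩ := h.lt_wf.has_min {y | y ∈ x} (by
      by_contra hn
      exact hne ((ZFSet.eq_empty x).2 fun y hy => hn ⟨y, hy⟩))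
    have hyα : y ∈ L α := h.trans hxα hy
    refine ⟨y, hy, ?_, fun y' hy' => ?_⟩
    · have hp := LE_opair h hxα hyα
      rw [ZFSet.mem_sep, sat_ex]
      refine ⟨hp, x, hxδ, ?_⟩
      rw [sat_ex]
      refine ⟨y, htr _ hxδ _ hy, ?_⟩
      exact (LE_ch_iff htr' (htr _ hxδ _ hy) hxδ (htr _ hl _ hp) fun _ => hemp).2
        ⟨rfl, hy, fun u hu => hmin u hu⟩
    · rw [ZFSet.mem_sep, sat_ex] at hy'
      obtain ⟨hp, x1, hx1, H⟩ := hy'
      rw [sat_ex] at H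
      obtain ⟨y1, hy1, H⟩ := H
      obtain ⟨e, h1, h2⟩ := (LE_ch_iff htr' hy1 hx1 (htr _ hl _ hp) fun _ => hemp).1 H
      obtain ⟨rfl, rfl⟩ := ZFSet.pair_inj.1 e
      rcases h.lt_total (h.trans hxα h1) hyα with h3 | h3 | h3
      · exact absurd h3 (hmin _ h1)
      · exact h3
      · exact absurd h3 (h2 _ hy)
  · have := hsep (.rel 3 0 0) (fun _ => ∅) (fun _ => hemp) _ homega
    have e : ZFSet.omega.sep (fun a => ∃ n ∈ ρ, a = num n) = ZFSet.omega.sep fun x =>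
        Sat (L δ : Set ZFSet) (II ρ L Lt) (.rel 3 0 0) (cons x fun _ => ∅) := by
      ext z
      simp only [ZFSet.mem_sep, sat_rel, cons_zero, LE_II3, and_true]
    rw [e]
    exact this

end Pool.Agent.MP_c70ddc_lc.H1
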