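import Pool.Agent.MP_c70ddc_lc.H1.LCond
import Pool.Agent.MP_c70ddc_lc.H1.LHull

/-! Levels where a new real appears are pointwise definable (module LD). -/

namespace Pool.Agent.MP_c70ddc_lc.H1

variable {ρ : Set ℕ} {L : Ordinal.{0} → ZFSet.{0}} {Lt : ZFSet.{0} → ZFSet.{0} → Prop}

/-- variable 0 is empty -/
def ldEmp : Fml := .all (Fml.mem 0 1).not

/-- variable 0 is the successor of variable 1 -/
def ldSucc : Fml := .all ((Fml.mem 0 1).iff ((Fml.eq 0 2).or (Fml.mem 0 2)))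

/-- variable 0 is a numeral -/
def ldNat : Fml :=
  .all (.imp ((Fml.mem 0 1).or (Fml.eq 0 1))
    (ldEmp.or (((Fml.mem 0 1).and (ldSucc.ren (fun i => 1 - i))).ex)))

/-- variable 0 is a set of numerals lying in no level -/
def ldNew : Fml :=
  (Fml.all (.imp (Fml.mem 0 1) ldNat)).and (((Fml.rel 1 0 0).and (Fml.mem 1 0)).ex).not

section
variable {D : Set ZFSet.{0}}

lemma ld_ii0 {a b : ZFSet} : II ρ L Lt 0 a b ↔ a ∈ b := Iff.rfl
lemma ld_ii1 {a b : ZFSet} : II ρ L Lt 1 a b ↔ (∃ β, a = L β) ∧ a = b := Iff.rfl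

lemma ld_emp (hD : ∀ a ∈ D, ∀ b ∈ a, b ∈ D) {v : ℕ → ZFSet} (hv : v 0 ∈ D) :
    Sat D (II ρ L Lt) ldEmp v ↔ v 0 = ∅ := by
  simp only [ldEmp, sat_all, sat_not, sat_mem, cons_zero, cons_succ, ld_ii0]
  constructor
  · intro h
    exact ZFSet.eq_empty _ |>.2 fun y hy => h y (hD _ hv _ hy) hy
  · intro h x _
    rw [h]
    exact ZFSet.notMem_empty x

lemma ld_succ (hD : ∀ a ∈ D, ∀ b ∈ a, b ∈ D) {v : ℕ → ZFSet} (hv : v 0 ∈ D) (hv1 : v 1 ∈ D) :
    Sat D (II ρ L Lt) ldSucc v ↔ v 0 = insert (v 1) (v 1) := by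
  simp only [ldSucc, sat_all, sat_iff, sat_or, sat_eq, sat_mem, cons_zero, cons_succ, ld_ii0]
  constructor
  · intro h
    ext z
    rw [ZFSet.mem_insert_iff]
    constructor
    · intro hz
      exact (h z (hD _ hv _ hz)).1 hz
    · rintro (rfl | hz)
      · exact (h _ hv1).2 (Or.inl rfl)
      · exact (h z (hD _ hv1 _ hz)).2 (Or.inr hz)
  · intro h x _
    rw [h, ZFSet.mem_insert_iff]

lemma ld_nat_aux (z : ZFSet.{0})
    (hz : ∀ y, y ∈ z ∨ y = z → y = ∅ ∨ ∃ w, y = insert w w) : ∃ n, z = num n := by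
  induction z using ZFSet.inductionOn with
  | h z ih =>
    rcases hz z (Or.inr rfl) with h | ⟨w, hw⟩
    · exact ⟨0, h⟩
    · have hwz : w ∈ z := by rw [hw]; exact ZFSet.mem_insert _ _
      obtain ⟨n, hn⟩ := ih w hwz fun y hy => hz y (Or.inl (by
        rw [hw, ZFSet.mem_insert_iff]; exact hy.symm))
      exact ⟨n + 1, by rw [hw, hn]; rfl⟩

lemma ld_nat (hD : ∀ a ∈ D, ∀ b ∈ a, b ∈ D) {v : ℕ → ZFSet} (hv : v 0 ∈ D) :
    Sat D (II ρ L Lt) ldNat v ↔ ∃ n, v 0 = num n := by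
  have key : ∀ y ∈ D, Sat D (II ρ L Lt)
      (ldEmp.or (((Fml.mem 0 1).and (ldSucc.ren (fun i => 1 - i))).ex)) (cons y v) ↔
      y = ∅ ∨ ∃ w, y = insert w w := by
    intro y hy
    rw [sat_or, ld_emp hD (v := cons y v) hy, sat_ex]
    refine or_congr Iff.rfl ⟨?_, ?_⟩
    · rintro ⟨w, hw, h⟩
      rw [sat_and, sat_ren, ld_succ hD (by exact hy) (by exact hw)] at h
      exact ⟨w, h.2⟩
    · rintro ⟨w, hw⟩
      have hwy : w ∈ y := by rw [hw]; exact ZFSet.mem_insert _ _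
      refine ⟨w, hD _ hy _ hwy, ?_⟩
      rw [sat_and, sat_ren, ld_succ hD (by exact hy) (by exact hD _ hy _ hwy)]
      exact ⟨hwy, hw⟩
  rw [ldNat, sat_all]
  constructor
  · intro h
    refine ld_nat_aux _ fun y hy => ?_
    have hyD : y ∈ D := by
      rcases hy with hy | hy
      · exact hD _ hv _ hy
      · exact hy ▸ hv
    exact (key y hyD).1 (h y hyD (sat_or.2 hy))
  · rintro ⟨n, hn⟩ y hy h
    refine (key y hy).2 ?_
    have : ∃ m, y = num m := by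
      rcases sat_or.1 h with h | h
      · have h' : y ∈ v 0 := h
        rw [hn] at h'
        obtain ⟨m, _, hm⟩ := mem_num.1 h'
        exact ⟨m, hm⟩
      · exact ⟨n, (show y = v 0 from h).trans hn⟩
    obtain ⟨m, rfl⟩ := this
    cases m with
    | zero => exact Or.inl rfl
    | succ m => exact Or.inr ⟨num m, rfl⟩

lemma ld_new (hD : ∀ a ∈ D, ∀ b ∈ a, b ∈ D) {v : ℕ → ZFSet} (hv : v 0 ∈ D) :
    Sat D (II ρ L Lt) ldNew v ↔
      (∀ z ∈ v 0, ∃ n, z = num n) ∧ ∀ β, L β ∈ D → v 0 ∉ L β := by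
  rw [ldNew, sat_and, sat_all, sat_not, sat_ex]
  refine and_congr ⟨fun h z hz => ?_, fun h z hz hz' => ?_⟩ ⟨fun h β hβ hm => ?_, ?_⟩
  · exact (ld_nat hD (v := cons z v) (hD _ hv _ hz)).1 (h z (hD _ hv _ hz) hz)
  · exact (ld_nat hD (v := cons z v) hz).2 (h z hz')
  · exact h ⟨L β, hβ, sat_and.2 ⟨⟨⟨β, rfl⟩, rfl⟩, hm⟩⟩
  · rintro h ⟨l, hl, hs⟩
    obtain ⟨⟨⟨β, hβ⟩, -⟩, hm⟩ := sat_and.1 hs
    have hβ' : l = L β := hβ
    subst hβ'
    exact h β hl hm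

end

lemma ld_countable {M : Type*} (D : Set M) (I : ℕ → M → M → Prop) :
    {a | ∃ ψ, Defines D I ψ a}.Countable := by
  rw [Set.ofPred_exists]
  refine Set.countable_iUnion fun ψ => Set.Subsingleton.countable fun a ha b hb => ?_
  exact (hb.2 a ha.1).1 ((ha.2 a ha.1).2 rfl)

/-- witnesses of existential statements can be found in an elementary substructure -/
lemma ld_wit {M : Type*} {D H : Set M} {I : ℕ → M → M → Prop} (hH : Elem D I H) (φ : Fml)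
    {v : ℕ → M} (hv : ∀ i, v i ∈ H) {x : M} (hx : x ∈ D) (h : Sat D I φ (cons x v)) :
    ∃ y ∈ H, Sat D I φ (cons y v) := by
  obtain ⟨y, hy, hs⟩ := sat_ex.1 ((hH.2 φ.ex v fun i _ => hv i).2 (sat_ex.2 ⟨x, hx, h⟩))
  exact ⟨y, hy, (hH.2 φ _ fun i _ => cons_mem hy hv i).1 hs⟩

theorem Hier.new_real (h : Hier ρ L Lt) {r : ZFSet} {α : Ordinal} (hr : r ∈ L α)
    (hω : r ⊆ ZFSet.omega) : ∃ β, β ≤ α ∧ PtDef (L β : Set ZFSet) (II ρ L Lt) ∧ r ∈ L β := by
  classical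
  -- the least level containing `r`
  obtain ⟨γ, hγ, hmin⟩ := Ordinal.lt_wf.has_min {γ | r ∈ L γ} ⟨α, hr⟩
  have hγ' : r ∈ L γ := hγ
  have hγα : γ ≤ α := not_lt.1 (hmin α hr)
  obtain ⟨β, hβγ, φ, v, hd⟩ := (h.mem γ r).1 hγ'
  have hγβ : ∀ δ, β < δ → γ ≤ δ := fun δ hδ =>
    not_lt.1 (hmin δ ((h.mem δ r).2 ⟨β, hδ, φ, v, hd⟩))
  have hD : ∀ a ∈ (L γ : Set ZFSet), ∀ b ∈ a, b ∈ (L γ : Set ZFSet) :=
    fun a ha b hb => h.trans ha hb
  have htot : ∀ a ∈ (L γ : Set ZFSet), ∀ b ∈ (L γ : Set ZFSet),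
      II ρ L Lt 2 a b ∨ a = b ∨ II ρ L Lt 2 b a := fun a ha b hb => h.lt_total ha hb
  have hwf : WellFounded (II ρ L Lt 2) := h.lt_wf
  set H : Set ZFSet := {a | ∃ ψ, Defines (L γ : Set ZFSet) (II ρ L Lt) ψ a} with hHdef
  have hH : Elem (L γ : Set ZFSet) (II ρ L Lt) H := elem_hull hwf htot
  have hwf0 : ∀ E : Set ZFSet.{0}, WellFounded fun a b => a ∈ E ∧ II ρ L Lt 0 a b :=
    fun E => Subrelation.wf (fun {_ _} hab => hab.2) ZFSet.mem_wf
  have hg : Good H (II ρ L Lt) ρ := (h.good γ).of_elem (hwf0 _) hwf htot hH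
  obtain ⟨δ, π, hπ, hI⟩ := h.condensation (ld_countable _ _) hg (hwf0 _)
  -- the empty set is in the hull
  have h0 : (∅ : ZFSet) ∈ L γ := by
    refine h.mono ?_ (h.num_mem 0)
    simpa using Order.succ_le_of_lt (lt_of_le_of_lt zero_le hβγ)
  have h0H : (∅ : ZFSet) ∈ H :=
    ⟨ldEmp, h0, fun z hz => ld_emp hD (v := fun _ => z) hz⟩
  -- the collapse fixes sets whose elements it fixes
  have hfix : ∀ a ∈ H, (∀ z ∈ a, z ∈ H ∧ π z = z) → π a = a := by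
    intro a ha hz
    ext z
    constructor
    · intro hza
      obtain ⟨w, hw, rfl⟩ := hπ.surjOn (h.trans (hπ.mapsTo ha) hza)
      have hwa : w ∈ a := (hI 0 w hw a ha).2 hza
      rw [(hz w hwa).2]
      exact hwa
    · intro hza
      rw [← (hz z hza).2]
      exact (hI 0 z (hz z hza).1 a ha).1 hza
  have hnumH : ∀ n, num n ∈ L γ → num n ∈ H := by
    intro n
    induction n with
    | zero => exact fun _ => h0H
    | succ n ih =>
      intro hn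
      have hn' : num n ∈ L γ := h.trans hn (num_mem_num.2 n.lt_succ_self)
      obtain ⟨y, hy, hs⟩ := ld_wit hH ldSucc (v := fun _ => num n) (fun _ => ih hn') hn
        ((ld_succ hD (by exact hn) (by exact hn')).2 rfl)
      have := (ld_succ hD (by exact hH.1 hy) (by exact hn')).1 hs
      have e : y = num (n + 1) := this
      exact e ▸ hy
  have hnum : ∀ n, num n ∈ L γ → π (num n) = num n := by
    intro n
    induction n using Nat.strong_induction_on with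
    | _ n ih =>
      intro hn
      refine hfix _ (hnumH n hn) fun z hz => ?_
      have hz' := h.trans hn hz
      obtain ⟨m, hm, rfl⟩ := mem_num.1 hz
      exact ⟨hnumH m hz', ih m hm hz'⟩
  -- a new real in the hull
  obtain ⟨a, ha, hs⟩ := ld_wit hH ldNew (v := fun _ => ∅) (fun _ => h0H) hγ'
    ((ld_new hD (by exact hγ')).2 ⟨fun z hz => mem_omega.1 (hω hz),
      fun β' hβ' hm => hmin β' hm (h.mem_iff_lt.1 hβ')⟩)
  obtain ⟨ha1, ha2⟩ := (ld_new hD (by exact hH.1 ha)).1 hs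
  have hπa : π a = a := hfix a ha fun z hz => by
    have hz' := h.trans (hH.1 ha) hz
    obtain ⟨n, rfl⟩ := ha1 z hz
    exact ⟨hnumH n hz', hnum n hz'⟩
  have hγδ : γ ≤ δ := by
    refine hγβ δ (not_le.1 fun hle => ha2 β (h.mem_iff_lt.2 hβγ) (h.mono hle ?_))
    have := hπ.mapsTo ha
    rwa [hπa] at this
  -- the collapse does not raise the index of a level
  have hlev : ∀ c, L c ∈ L δ → ∃ c', L c' ∈ H ∧ π (L c') = L c := by
    intro c hc
    obtain ⟨l, hl, e⟩ := hπ.surjOn hc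
    obtain ⟨⟨c', rfl⟩, -⟩ := (hI 1 l hl l hl).2 ⟨⟨c, e⟩, rfl⟩
    exact ⟨c', hl, e⟩
  have hidx : ∀ c c', L c' ∈ H → π (L c') = L c → c ≤ c' := by
    intro c
    induction c using WellFoundedLT.induction with
    | ind c ih =>
      intro c' hc' e
      refine not_lt.1 fun hlt => ?_
      have h1 : L c' ∈ π (L c') := e ▸ h.mem_iff_lt.2 hlt
      obtain ⟨c'', hc'', e'⟩ := hlev c' (h.trans (hπ.mapsTo hc') h1)
      have h2 : L c'' ∈ L c' := (hI 0 _ hc'' _ hc').2 (by rw [e']; exact h1)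
      exact absurd (ih c' hlt c'' hc'' e') (not_le.2 (h.mem_iff_lt.1 h2))
  have hδγ : δ ≤ γ := by
    refine not_lt.1 fun hlt => ?_
    obtain ⟨c', hc', e⟩ := hlev γ (h.mem_iff_lt.2 hlt)
    exact absurd (hidx γ c' hc' e) (not_le.2 (h.mem_iff_lt.1 (hH.1 hc')))
  refine ⟨δ, hδγ.trans hγα, fun b hb => ?_, h.mono hγδ hγ'⟩
  obtain ⟨b', hb', rfl⟩ := hπ.surjOn hb
  obtain ⟨ψ, hψ⟩ := id hb'
  refine ⟨ψ, hb, fun z hz => ?_⟩
  obtain ⟨z', hz', rfl⟩ := hπ.surjOn hz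
  have e1 := sat_map (φ := ψ) (v := fun _ => z') π hπ hI fun _ _ => hz'
  have e2 := hH.2 ψ (fun _ => z') fun _ _ => hz'
  have e3 := hψ.2 z' (hH.1 hz')
  exact (e1.symm.trans (e2.trans e3)).trans ⟨fun e => congrArg π e, fun e => hπ.injOn hz' hb' e⟩

end Pool.Agent.MP_c70ddc_lc.H1
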