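import Pool.Agent.MP_c70ddc_lc.H1.LBasic

/-! The codes of pointwise definable levels form a thin set (module LG). -/

namespace Pool.Agent.MP_c70ddc_lc.H1

lemma g_name_eq {M : Type*} {D : Set M} {I : ℕ → M → M → Prop} {d : ℕ} {a b : M}
    (ha : Name D I d a) (hb : Name D I d b) : a = b := by
  obtain ⟨ψ, e, h1, -⟩ := ha
  obtain ⟨ψ', e', h2, -⟩ := hb
  obtain rfl := Fml.enc_inj ψ ψ' (e.trans e'.symm)
  exact (h2.2 a h1.1).1 ((h1.2 a h1.1).2 rfl)

lemma g_exists_name {M : Type*} {D : Set M} {I : ℕ → M → M → Prop} (h : PtDef D I) {a : M}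
    (ha : a ∈ D) : ∃ d, Name D I d a := by
  classical
  have hex : ∃ d, ∃ ψ : Fml, ψ.enc = d ∧ Defines D I ψ a :=
    let ⟨ψ, hψ⟩ := h a ha
    ⟨_, ψ, rfl, hψ⟩
  obtain ⟨ψ, e, hψ⟩ := Nat.find_spec hex
  exact ⟨_, ψ, e, hψ, fun ψ' h' => Nat.find_min' hex ⟨ψ', rfl, h'⟩⟩

lemma g_code_zero {I : ℕ → ZFSet.{0} → ZFSet.{0} → Prop} {l : ZFSet.{0}} {i j : ℕ} :
    code I l (Nat.pair 0 (Nat.pair i j)) = true ↔
      ∃ a b, Name (l : Set ZFSet) I i a ∧ Name (l : Set ZFSet) I j b ∧ I 0 a b := by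
  rw [code, @decide_eq_true_iff _ (_)]
  simp [CodeP]

lemma g_code_five {I : ℕ → ZFSet.{0} → ZFSet.{0} → Prop} {l : ZFSet.{0}} {i j : ℕ} :
    code I l (Nat.pair 5 (Nat.pair i j)) = true ↔ Name (l : Set ZFSet) I j (num i) := by
  rw [code, @decide_eq_true_iff _ (_)]
  simp [CodeP]

lemma g_pre_eq {x y : ℕ → Bool} {n m : ℕ} (h : pre x n = pre y m) :
    n = m ∧ ∀ i, i < n → x i = y i := by
  have e : n = m := by simpa [pre] using congrArg List.length h
  subst e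
  exact ⟨rfl, by simpa [pre, List.map_inj_left] using h⟩

/-- the tree of attempts to build a point of `P` with a descending membership chain -/
def gR (P : Set (ℕ → Bool)) (p q : List Bool × ℕ) : Prop :=
  ∃ x ∈ P, ∃ k k' : ℕ, q.1 = pre x k ∧ p.1 = pre x k' ∧ k < k' ∧
    Nat.pair 0 (Nat.pair p.2 q.2) < k' ∧ x (Nat.pair 0 (Nat.pair p.2 q.2)) = true

lemma g_wf {ρ : Set ℕ} {P : Set (ℕ → Bool)} (hP : IsClosed P) (h : P ⊆ AA ρ) :
    WellFounded (gR P) := by
  rw [wellFounded_iff_isEmpty_descending_chain]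
  refine ⟨fun ⟨f, hf⟩ => ?_⟩
  choose x hx k k' h1 h2 h3 h4 h5 using hf
  have e : ∀ n, k (n + 1) = k' n ∧ ∀ i, i < k (n + 1) → x (n + 1) i = x n i := fun n =>
    g_pre_eq ((h1 (n + 1)).symm.trans (h2 n))
  have hm : StrictMono k' := strictMono_nat_of_lt_succ fun n => (e n).1 ▸ h3 (n + 1)
  have hn : ∀ n, n < k' n := fun n => by
    induction n with
    | zero => exact (Nat.zero_le _).trans_lt (h3 0)
    | succ n ih => exact lt_of_le_of_lt ih (hm n.lt_succ_self)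
  have ag : ∀ n m, n ≤ m → ∀ i, i < k' n → x m i = x n i := fun n m hnm i hi => by
    induction m, hnm using Nat.le_induction with
    | base => rfl
    | succ m hnm ih => rw [(e m).2 i ((e m).1 ▸ hi.trans_le (hm.monotone hnm)), ih]
  have hy : ∀ n i, i < k' n → x i i = x n i := fun n i hi => by
    rcases le_total n i with h6 | h6
    · exact ag n i h6 i hi
    · exact (ag i n h6 i (hn i)).symm
  have hmem : (fun i => x i i) ∈ P := by
    refine hP.mem_of_tendsto (f := x) (b := Filter.atTop) (tendsto_pi_nhds.2 fun i => ?_)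
      (Filter.Eventually.of_forall hx)
    refine tendsto_const_nhds.congr' ?_
    filter_upwards [Filter.eventually_ge_atTop i] with n hn'
    exact (ag i n hn' i (hn i)).symm
  obtain ⟨L, Lt, β, -, -, hc⟩ := h hmem
  have key : ∀ n, ∃ a b, Name (L β : Set ZFSet) (II ρ L Lt) (f (n + 1)).2 a ∧
      Name (L β : Set ZFSet) (II ρ L Lt) (f n).2 b ∧ a ∈ b := fun n => by
    have h6 := (hy n _ (h4 n)).trans (h5 n)
    rw [show ∀ i, x i i = code (II ρ L Lt) (L β) i from congrFun hc] at h6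
    exact g_code_zero.1 h6
  choose a b ha hb hab using key
  have := (wellFounded_iff_isEmpty_descending_chain.1 ZFSet.mem_wf).false
  exact this ⟨b, fun n => g_name_eq (ha n) (hb (n + 1)) ▸ hab n⟩

theorem thin_AA (ρ : Set ℕ) (P : Set (ℕ → Bool)) (hP : IsClosed P) (h : P ⊆ AA ρ) :
    P.Countable := by
  obtain ⟨L, Lt, H⟩ := exists_hier ρ
  have : IsWellFounded _ (gR P) := ⟨g_wf hP h⟩
  let S : Set Ordinal.{0} := Set.range (IsWellFounded.rank (gR P))
  have hS : S.Countable := Set.countable_range _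
  have hB : {b : Ordinal.{0} | ∀ c, c < b → c ∈ S}.Countable := by
    have h1 : {b : Ordinal.{0} | (∀ c, c < b → c ∈ S) ∧ b ∉ S}.Subsingleton := by
      intro b₁ h₁ b₂ h₂
      rcases lt_trichotomy b₁ b₂ with h3 | h3 | h3
      · exact absurd (h₂.1 _ h3) h₁.2
      · exact h3
      · exact absurd (h₁.1 _ h3) h₂.2
    refine (hS.union h1.countable).mono fun b hb => ?_
    by_cases h2 : b ∈ S
    · exact Or.inl h2
    · exact Or.inr ⟨hb, h2⟩
  have hL : ∀ c : Ordinal.{0}, c ≤ (L c).rank := fun c => by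
    induction c using WellFoundedLT.induction with
    | ind c ih =>
      exact le_of_forall_lt fun c' hc' =>
        (ih c' hc').trans_lt (ZFSet.rank_lt_of_mem (H.mem_iff_lt.2 hc'))
  refine (hB.image fun b => code (II ρ L Lt) (L b)).mono fun x hx => ?_
  obtain ⟨L', Lt', β, H', hd, hc⟩ := h hx
  obtain ⟨rfl, rfl⟩ := H.unique H'
  refine ⟨β, fun c hcβ => ?_, hc.symm⟩
  have key : ∀ a : ZFSet.{0}, ∀ d k, Name (L β : Set ZFSet) (II ρ L Lt) d a →
      a.rank ≤ IsWellFounded.rank (gR P) (pre x k, d) := fun a => by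
    refine ZFSet.inductionOn a fun a ih d k ha => ?_
    have ha' : a ∈ L β := by
      obtain ⟨ψ, -, h1, -⟩ := ha
      exact h1.1
    refine ZFSet.rank_le_iff.2 fun z hz => ?_
    obtain ⟨d', hd'⟩ := g_exists_name hd (a := z) (H.trans ha' hz)
    refine (ih z hz d' (max k (Nat.pair 0 (Nat.pair d' d)) + 1) hd').trans_lt
      (IsWellFounded.rank_lt_of_rel ⟨x, hx, k, _, rfl, rfl, ?_, ?_, ?_⟩)
    · exact Nat.lt_succ_of_le (le_max_left _ _)
    · exact Nat.lt_succ_of_le (le_max_right _ _)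
    · rw [hc]
      exact g_code_zero.2 ⟨z, a, hd', ha, hz⟩
  obtain ⟨d, hd'⟩ := g_exists_name hd (a := L c) (H.mem_iff_lt.2 hcβ)
  exact IsWellFounded.mem_range_rank_of_le ((hL c).trans (key _ d 0 hd'))

theorem exists_col {I : ℕ → ZFSet.{0} → ZFSet.{0} → Prop} (h0 : ∀ a b, I 0 a b ↔ a ∈ b)
    {l r : ZFSet.{0}} (hl : PtDef (l : Set ZFSet) I) (hr : r ∈ l) (hs : r ⊆ l) :
    ∃ d, col (code I l) d = {n | num n ∈ r} := by
  obtain ⟨d, hd⟩ := g_exists_name hl (a := r) hr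
  refine ⟨d, Set.ext fun n => ⟨fun ⟨e, h1, h2⟩ => ?_, fun hn => ?_⟩⟩
  · obtain ⟨a, b, ha, hb, hab⟩ := g_code_zero.1 h2
    rw [g_name_eq ha (g_code_five.1 h1), g_name_eq hb hd, h0] at hab
    exact hab
  · obtain ⟨e, he⟩ := g_exists_name hl (a := num n) (hs hn)
    exact ⟨e, g_code_five.2 he, g_code_zero.2 ⟨_, _, he, hd, (h0 _ _).2 hn⟩⟩

end Pool.Agent.MP_c70ddc_lc.H1
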