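import Pool.Agent.MP_c70ddc_lc.H1.Code

/-! Formulas with countably many binary relation symbols, satisfaction over a domain,
transitive models. -/

namespace Pool.Agent.MP_c70ddc_lc.H1

inductive Fml : Type
  | rel (k i j : ℕ) : Fml
  | eq (i j : ℕ) : Fml
  | bot : Fml
  | imp (φ ψ : Fml) : Fml
  | all (φ : Fml) : Fml

/-- push a value on a valuation -/
def cons {α : Type*} (x : α) (v : ℕ → α) : ℕ → α
  | 0 => x
  | n + 1 => v n

@[simp] lemma cons_zero {α : Type*} (x : α) (v : ℕ → α) : cons x v 0 = x := rfl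
@[simp] lemma cons_succ {α : Type*} (x : α) (v : ℕ → α) (n : ℕ) : cons x v (n + 1) = v n := rfl

lemma comp_cons {α β : Type*} (f : α → β) (x : α) (v : ℕ → α) :
    f ∘ cons x v = cons (f x) (f ∘ v) := by
  funext n; cases n <;> rfl

lemma cons_mem {α : Type*} {D : Set α} {x : α} {v : ℕ → α} (hx : x ∈ D) (hv : ∀ i, v i ∈ D) :
    ∀ i, cons x v i ∈ D
  | 0 => hx
  | n + 1 => hv n

/-- lift a renaming under a binder -/
def up (σ : ℕ → ℕ) : ℕ → ℕ := cons 0 (fun n => σ n + 1)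

lemma cons_comp_up {α : Type*} (x : α) (v : ℕ → α) (σ : ℕ → ℕ) :
    cons x v ∘ up σ = cons x (v ∘ σ) := by
  funext n; cases n <;> rfl

namespace Fml

def mem (i j : ℕ) : Fml := rel 0 i j
def not (φ : Fml) : Fml := imp φ bot
def and (φ ψ : Fml) : Fml := not (imp φ (not ψ))
def or (φ ψ : Fml) : Fml := imp (not φ) ψ
def iff (φ ψ : Fml) : Fml := and (imp φ ψ) (imp ψ φ)
def ex (φ : Fml) : Fml := not (all (not φ))

def ren : Fml → (ℕ → ℕ) → Fml
  | rel k i j, σ => rel k (σ i) (σ j)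
  | eq i j, σ => eq (σ i) (σ j)
  | bot, _ => bot
  | imp φ ψ, σ => imp (φ.ren σ) (ψ.ren σ)
  | all φ, σ => all (φ.ren (up σ))

/-- all free variables are below this bound -/
def bound : Fml → ℕ
  | rel _ i j => max i j + 1
  | eq i j => max i j + 1
  | bot => 0
  | imp φ ψ => max φ.bound ψ.bound
  | all φ => φ.bound

/-- relativization of all quantifiers to the elements of the variable `l` -/
def rlt : Fml → ℕ → Fml
  | rel k i j, _ => rel k i j
  | eq i j, _ => eq i j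
  | bot, _ => bot
  | imp φ ψ, l => imp (φ.rlt l) (ψ.rlt l)
  | all φ, l => all (imp (mem 0 (l + 1)) (φ.rlt (l + 1)))

def enc : Fml → ℕ
  | rel k i j => Nat.pair 0 (Nat.pair k (Nat.pair i j))
  | eq i j => Nat.pair 1 (Nat.pair i j)
  | bot => Nat.pair 2 0
  | imp φ ψ => Nat.pair 3 (Nat.pair φ.enc ψ.enc)
  | all φ => Nat.pair 4 φ.enc

lemma enc_inj : ∀ φ ψ : Fml, φ.enc = ψ.enc → φ = ψ := by
  intro φ
  induction φ with
  | rel k i j => intro ψ; cases ψ <;> simp [enc, Nat.pair_eq_pair]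
  | eq i j => intro ψ; cases ψ <;> simp [enc, Nat.pair_eq_pair]
  | bot => intro ψ; cases ψ <;> simp [enc, Nat.pair_eq_pair]
  | imp a b iha ihb =>
    intro ψ; cases ψ <;> simp [enc, Nat.pair_eq_pair]
    exact fun h1 h2 => ⟨iha _ h1, ihb _ h2⟩
  | all a iha =>
    intro ψ; cases ψ <;> simp [enc, Nat.pair_eq_pair]
    exact iha _

instance : Countable Fml := ⟨⟨enc, enc_inj⟩⟩

end Fml

/-- Tarski satisfaction; quantifiers range over `D`, the `k`-th relation symbol means `I k` -/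
def Sat {M : Type*} (D : Set M) (I : ℕ → M → M → Prop) : Fml → (ℕ → M) → Prop
  | .rel k i j, v => I k (v i) (v j)
  | .eq i j, v => v i = v j
  | .bot, _ => False
  | .imp φ ψ, v => Sat D I φ v → Sat D I ψ v
  | .all φ, v => ∀ x ∈ D, Sat D I φ (cons x v)

section sat

variable {M : Type*} {D : Set M} {I : ℕ → M → M → Prop} {v w : ℕ → M} {φ ψ : Fml}

@[simp] lemma sat_rel {k i j : ℕ} : Sat D I (.rel k i j) v ↔ I k (v i) (v j) := Iff.rfl
@[simp] lemma sat_mem {i j : ℕ} : Sat D I (.mem i j) v ↔ I 0 (v i) (v j) := Iff.rfl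
@[simp] lemma sat_eq {i j : ℕ} : Sat D I (.eq i j) v ↔ v i = v j := Iff.rfl
@[simp] lemma sat_bot : Sat D I .bot v ↔ False := Iff.rfl
@[simp] lemma sat_imp : Sat D I (.imp φ ψ) v ↔ (Sat D I φ v → Sat D I ψ v) := Iff.rfl
@[simp] lemma sat_all : Sat D I (.all φ) v ↔ ∀ x ∈ D, Sat D I φ (cons x v) := Iff.rfl
@[simp] lemma sat_not : Sat D I φ.not v ↔ ¬ Sat D I φ v := Iff.rfl
@[simp] lemma sat_and : Sat D I (φ.and ψ) v ↔ Sat D I φ v ∧ Sat D I ψ v := by simp [Fml.and]
@[simp] lemma sat_or : Sat D I (φ.or ψ) v ↔ Sat D I φ v ∨ Sat D I ψ v := by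
  simp [Fml.or, or_iff_not_imp_left]
@[simp] lemma sat_iff : Sat D I (φ.iff ψ) v ↔ (Sat D I φ v ↔ Sat D I ψ v) := by
  simp [Fml.iff, iff_def]
@[simp] lemma sat_ex : Sat D I φ.ex v ↔ ∃ x ∈ D, Sat D I φ (cons x v) := by simp [Fml.ex]

lemma sat_ren (σ : ℕ → ℕ) : Sat D I (φ.ren σ) v ↔ Sat D I φ (v ∘ σ) := by
  induction φ generalizing σ v with
  | rel k i j => rfl
  | eq i j => rfl
  | bot => rfl
  | imp a b iha ihb => simp [Fml.ren, iha, ihb]
  | all a iha => simp [Fml.ren, iha, cons_comp_up]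

lemma sat_congr (h : ∀ i, i < φ.bound → v i = w i) : Sat D I φ v ↔ Sat D I φ w := by
  induction φ generalizing v w with
  | rel k i j =>
    rw [sat_rel, sat_rel, h i (by simp only [Fml.bound]; omega),
      h j (by simp only [Fml.bound]; omega)]
  | eq i j =>
    rw [sat_eq, sat_eq, h i (by simp only [Fml.bound]; omega),
      h j (by simp only [Fml.bound]; omega)]
  | bot => rfl
  | imp a b iha ihb =>
    exact imp_congr (iha fun i hi => h i (by simp only [Fml.bound]; omega))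
      (ihb fun i hi => h i (by simp only [Fml.bound]; omega))
  | all a iha =>
    refine forall_congr' fun x => forall_congr' fun _ => iha fun i hi => ?_
    cases i with
    | zero => rfl
    | succ i => exact h i (by simp only [Fml.bound]; omega)

lemma sat_rlt (l : ℕ) : Sat D I (φ.rlt l) v ↔ Sat {x | x ∈ D ∧ I 0 x (v l)} I φ v := by
  induction φ generalizing l v with
  | rel k i j => rfl
  | eq i j => rfl
  | bot => rfl
  | imp a b iha ihb => simp [Fml.rlt, iha, ihb]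
  | all a iha => simp [Fml.rlt, iha]

/-- satisfaction is invariant under maps that are isomorphisms between the domains -/
lemma sat_map {M' : Type*} {D' : Set M'} {I' : ℕ → M' → M' → Prop} (π : M → M')
    (hπ : Set.BijOn π D D') (hI : ∀ k, ∀ a ∈ D, ∀ b ∈ D, I k a b ↔ I' k (π a) (π b))
    (hv : ∀ i, i < φ.bound → v i ∈ D) : Sat D I φ v ↔ Sat D' I' φ (π ∘ v) := by
  induction φ generalizing v with
  | rel k i j =>
    exact hI k _ (hv i (by simp only [Fml.bound]; omega)) _ (hv j (by simp only [Fml.bound]; omega))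
  | eq i j =>
    exact ⟨fun h => congrArg π h, fun h => hπ.injOn (hv i (by simp only [Fml.bound]; omega))
      (hv j (by simp only [Fml.bound]; omega)) h⟩
  | bot => rfl
  | imp a b iha ihb =>
    exact imp_congr (iha fun i hi => hv i (by simp only [Fml.bound]; omega))
      (ihb fun i hi => hv i (by simp only [Fml.bound]; omega))
  | all a iha =>
    have key : ∀ x ∈ D, Sat D I a (cons x v) ↔ Sat D' I' a (cons (π x) (π ∘ v)) := by
      intro x hx
      rw [← comp_cons]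
      refine iha fun i hi => ?_
      cases i with
      | zero => exact hx
      | succ i => exact hv i (by simp only [Fml.bound]; omega)
    constructor
    · intro h y hy
      obtain ⟨x, hx, rfl⟩ := hπ.surjOn hy
      exact (key x hx).1 (h x hx)
    · intro h x hx
      exact (key x hx).2 (h _ (hπ.mapsTo hx))

end sat

lemma num_mem_num {m n : ℕ} : num m ∈ num n ↔ m < n :=
  ⟨fun h => by obtain ⟨k, hk, e⟩ := mem_num.1 h; rwa [num_inj e], fun h => mem_num.2 ⟨m, h, rfl⟩⟩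

lemma mem_omega {x : ZFSet} : x ∈ ZFSet.omega ↔ ∃ n, x = num n := by
  have key : ∀ n, ZFSet.mk (PSet.ofNat n) = num n := by
    intro n
    induction n with
    | zero => rfl
    | succ n ih => rw [num, ← ih]; rfl
  induction x using Quotient.inductionOn with
  | h x =>
    change ZFSet.mk x ∈ ZFSet.mk PSet.omega ↔ _
    rw [ZFSet.mk_mem_iff]
    constructor
    · rintro ⟨n, hn⟩
      exact ⟨n.down, (key _) ▸ ZFSet.sound hn⟩
    · rintro ⟨n, hn⟩
      exact ⟨⟨n⟩, ZFSet.exact (hn.trans (key n).symm)⟩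

/-- a transitive set that models ZF with collection, in the language interpreted by `I` -/
structure Mdl0 (W : ZFSet.{0}) (I : ℕ → ZFSet → ZFSet → Prop) : Prop where
  h0 : ∀ a b, I 0 a b ↔ a ∈ b
  trans : ∀ a ∈ W, ∀ b ∈ a, b ∈ W
  pair : ∀ a ∈ W, ∀ b ∈ W, ({a, b} : ZFSet) ∈ W
  union : ∀ a ∈ W, ZFSet.sUnion a ∈ W
  power : ∀ a ∈ W, ∃ b ∈ W, ∀ x ∈ W, x ⊆ a → x ∈ b
  omega : ZFSet.omega ∈ W
  sep : ∀ (φ : Fml) (v : ℕ → ZFSet), (∀ i, v i ∈ W) → ∀ a ∈ W,
    a.sep (fun x => Sat (W : Set ZFSet) I φ (cons x v)) ∈ W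
  coll : ∀ (φ : Fml) (v : ℕ → ZFSet), (∀ i, v i ∈ W) → ∀ a ∈ W, ∃ b ∈ W, ∀ x ∈ a,
    (∃ y ∈ W, Sat (W : Set ZFSet) I φ (cons y (cons x v))) →
      ∃ y ∈ b, Sat (W : Set ZFSet) I φ (cons y (cons x v))

/-- the same with the choice principle -/
structure Mdl (W : ZFSet.{0}) (I : ℕ → ZFSet → ZFSet → Prop) : Prop extends Mdl0 W I where
  choice : ∀ a ∈ W, ∃ c ∈ W, ∀ x ∈ a, x ≠ ∅ →
    ∃ y ∈ x, ZFSet.pair x y ∈ c ∧ ∀ y', ZFSet.pair x y' ∈ c → y' = y

end Pool.Agent.MP_c70ddc_lc.H1
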