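import Pool.Agent.MP_c70ddc_lc.H1.KCore
import Pool.Agent.MP_c70ddc_lc.H1.Stmt

/-! Transitive models satisfy the axioms as stated with Mathlib definability (module ZZ). -/

namespace Pool.Agent.MP_c70ddc_lc.H1

open FirstOrder

set_option synthInstance.maxSize 100000

lemma dfF_realize {M : Md} {β : Type 1} {n : ℕ} (φ : setLang.BoundedFormula β n) :
    ∀ (α : Type 1) [Cd α] (t : β ⊕ Fin n → α → ZFSet.{0}), (∀ x, DfF M (t x)) →
      ∃ p : α → Prop, DfF M p ∧ ∀ a, InW M.W a → ∀ (v : β → M.W) (w : Fin n → M.W),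
        (∀ x, (Sum.elim v w x).1 = t x a) → (p a ↔ @Language.BoundedFormula.Realize setLang M.W
          (memStr fun a b : M.W => a.1 ∈ b.1) β n φ v w) := by
  let := memStr fun a b : M.W => a.1 ∈ b.1
  have ht : ∀ {γ : Type 1} (t : setLang.Term γ), ∃ x : γ, ∀ u : γ → M.W, t.realize u = u x := by
    intro γ t
    cases t with
    | var x => exact ⟨x, fun _ => rfl⟩
    | func f _ => exact Empty.elim f
  induction φ with
  | falsum => exact fun α _ t _ => ⟨fun _ => False, inferInstance, fun _ _ _ _ _ => Iff.rfl⟩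
  | equal t₁ t₂ =>
    intro α _ t h
    obtain ⟨x, hx⟩ := ht t₁
    obtain ⟨y, hy⟩ := ht t₂
    refine ⟨fun a => t x a = t y a, (h x).eq (h y), fun a _ v w e => ?_⟩
    simp only [Language.BoundedFormula.Realize, hx, hy, ← e, Subtype.val_inj]
  | rel R ts =>
    intro α _ t h
    cases R
    obtain ⟨x, hx⟩ := ht (ts 0)
    obtain ⟨y, hy⟩ := ht (ts 1)
    refine ⟨fun a => t x a ∈ t y a, (h x).zmem (h y), fun a _ v w e => ?_⟩
    change _ ↔ ((ts 0).realize (Sum.elim v w)).1 ∈ ((ts 1).realize (Sum.elim v w)).1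
    rw [hx, hy, e, e]
  | imp a b iha ihb =>
    intro α _ t h
    obtain ⟨p, hp, hp'⟩ := iha α t h
    obtain ⟨q, hq, hq'⟩ := ihb α t h
    exact ⟨fun a => p a → q a, hp.imp hq, fun a ha v w e =>
      imp_congr (hp' a ha v w e) (hq' a ha v w e)⟩
  | @all n ψ ih =>
    intro α _ t h
    obtain ⟨p, hp, hp'⟩ := ih (α × ZFSet) (Sum.elim (fun b a => t (.inl b) a.1)
      (Fin.snoc (α := fun _ => α × ZFSet → ZFSet) (fun i a => t (.inr i) a.1) fun a => a.2)) (by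
      rintro (b | i)
      · exact (h _).comp DfF.id.fst
      · refine Fin.lastCases ?_ (fun j => ?_) i
        · simpa using DfF.id.snd
        · simpa using (h _).comp DfF.id.fst)
    refine ⟨fun a => ∀ z, z ∈ M.W → p (a, z), DfF.zallW hp, fun a ha v w e => ?_⟩
    have key : ∀ z : M.W, p (a, z.1) ↔ ψ.Realize v (Fin.snoc w z) := fun z =>
      hp' _ (ha.pair ⟨z.2⟩) _ _ (by
        rintro (b | i)
        · exact e (.inl b)
        · refine Fin.lastCases ?_ (fun j => ?_) i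
          · simp
          · simpa using e (.inr j))
    exact ⟨fun h z => (key z).1 (h z.1 z.2), fun h z hz => (key ⟨z, hz⟩).2 (h ⟨z, hz⟩)⟩

lemma dfF_definable {M : Md} {k : ℕ} {C : Set (Fin k → M.W)}
    (hC : @Set.Definable M.W Set.univ setLang (memStr fun a b : M.W => a.1 ∈ b.1) _ C)
    {α : Type 1} [Cd α] (t : Fin k → α → ZFSet.{0}) (ht : ∀ i, DfF M (t i)) :
    ∃ p : α → Prop, DfF M p ∧ ∀ a, InW M.W a → ∀ w : Fin k → M.W, (∀ i, (w i).1 = t i a) →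
      (p a ↔ w ∈ C) := by
  let := memStr fun a b : M.W => a.1 ∈ b.1
  obtain ⟨φ, hφ⟩ := Set.definable_iff_exists_formula_sum.1 hC
  obtain ⟨p, hp, hp'⟩ := dfF_realize (M := M) φ α
    (Sum.elim (Sum.elim (fun m _ => m.1.1) t) fun i => i.elim0) (by
      rintro ((m | i) | i)
      exacts [DfF.const ⟨m.1.2⟩, ht i, i.elim0])
  refine ⟨p, hp, fun a ha w e => ?_⟩
  rw [hφ, Set.mem_ofPred_eq, Language.Formula.Realize]
  refine hp' a ha _ _ ?_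
  rintro ((m | i) | i)
  exacts [rfl, e i, i.elim0]

theorem Md.isZFC (M : Md) [hM : Ch M] : IsZFC fun a b : M.W => a.1 ∈ b.1 := by
  have h := hM.mdl
  have tr := h.trans
  have mk : ∀ {c : ZFSet}, InW M.W c → ∀ {P : M.W → Prop}, (∀ x : M.W, x.1 ∈ c ↔ P x) →
      ∃ b : M.W, ∀ x : M.W, x.1 ∈ b.1 ↔ P x := fun hc _ e => ⟨⟨_, hc.mem⟩, e⟩
  refine ⟨fun a b e => Subtype.ext (ZFSet.ext fun z => ⟨fun hz => (e ⟨z, tr _ a.2 _ hz⟩).1 hz,
    fun hz => (e ⟨z, tr _ b.2 _ hz⟩).2 hz⟩), fun a ⟨x, hx⟩ => ?_, fun a b => ?_, fun a => ?_,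
    fun a => ?_, ?_, fun C hC a => ?_, fun C hC a hu => ?_, fun a hne hd => ?_⟩
  · obtain ⟨y, hy, hm⟩ := ZFSet.mem_wf.has_min (a.1 : Set ZFSet) ⟨x.1, hx⟩
    exact ⟨⟨y, tr _ a.2 _ hy⟩, hy, fun z hz hz' => hm z.1 hz' hz⟩
  · exact mk (c := {a.1, b.1}) ⟨h.pair _ a.2 _ b.2⟩ fun x => by
      rw [ZFSet.mem_pair, Subtype.ext_iff, Subtype.ext_iff]
  · refine mk (c := ZFSet.sUnion a.1) ⟨h.union _ a.2⟩ fun x => ?_
    rw [ZFSet.mem_sUnion]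
    exact ⟨fun ⟨y, hy, e⟩ => ⟨⟨y, tr _ a.2 _ hy⟩, hy, e⟩, fun ⟨y, hy, e⟩ => ⟨y.1, hy, e⟩⟩
  · have ha : InW M.W a.1 := ⟨a.2⟩
    refine mk (c := M.W.sep fun z => z ⊆ a.1) inferInstance fun x => ?_
    rw [ZFSet.mem_sep]
    exact ⟨fun e y hy => e.2 hy, fun e => ⟨x.2, fun y hy => e ⟨y, tr _ x.2 _ hy⟩ hy⟩⟩
  · refine ⟨⟨_, h.omega⟩, ⟨⟨num 0, (inW_num (M := M) 0).mem⟩, mem_omega.2 ⟨0, rfl⟩,
      fun x => ZFSet.notMem_empty _⟩, fun x hx => ?_⟩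
    obtain ⟨n, hn⟩ := mem_omega.1 hx
    refine ⟨⟨num (n + 1), (inW_num (M := M) _).mem⟩, mem_omega.2 ⟨_, rfl⟩, fun y => ?_⟩
    simp only [num, ZFSet.mem_insert_iff, Subtype.ext_iff, hn, or_comm]
  · obtain ⟨p, hp, hp'⟩ := dfF_definable (M := M) hC (fun _ (z : ZFSet) => z) fun _ => DfF.id
    have ha : InW M.W a.1 := ⟨a.2⟩
    refine mk (c := a.1.sep p) inferInstance fun x => ?_
    rw [ZFSet.mem_sep, hp' x.1 ⟨x.2⟩ (fun _ => x) fun _ => rfl]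
    rfl
  · obtain ⟨p, hp, hp'⟩ := dfF_definable (M := M) hC
      ![fun z : ZFSet × ZFSet => z.1, fun z => z.2] (by
        intro i
        fin_cases i
        exacts [DfF.id.fst, DfF.id.snd])
    have key : ∀ x y : M.W, p (x.1, y.1) ↔ (x, y) ∈ C := fun x y =>
      hp' _ (InW.pair ⟨x.2⟩ ⟨y.2⟩) ![x, y] (by intro i; fin_cases i <;> rfl)
    obtain ⟨t, ht, ht'⟩ := DfF.coll (p := fun x y : ZFSet => p (x, y)) hp a.2
    have ha : InW M.W a.1 := ⟨a.2⟩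
    have ht : InW M.W t := ⟨ht⟩
    refine mk (c := t.sep fun y => ∃ x, x ∈ a.1 ∧ p (x, y)) inferInstance fun y => ?_
    rw [ZFSet.mem_sep]
    refine ⟨fun ⟨_, x, hx, e⟩ => ⟨⟨x, tr _ a.2 _ hx⟩, hx, (key ⟨x, _⟩ y).1 e⟩, fun ⟨x, hx, e⟩ => ?_⟩
    obtain ⟨y', hy', e'⟩ := ht' x.1 hx ⟨y.1, ⟨y.2⟩, (key x y).2 e⟩
    have := hu x hx y ⟨y', tr _ ht.mem _ hy'⟩ e ((key x ⟨y', _⟩).1 e')
    exact ⟨by rw [this]; exact hy', x.1, hx, (key x y).2 e⟩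
  · obtain ⟨c, hc, hc'⟩ := h.choice a.1 a.2
    have ha : InW M.W a.1 := ⟨a.2⟩
    have hc : InW M.W c := ⟨hc⟩
    have hb : InW M.W ((ZFSet.sUnion a.1).sep fun y => ∃ x, x ∈ a.1 ∧ ZFSet.pair x y ∈ c) :=
      inferInstance
    have hs : ∀ x : M.W, x.1 ∈ a.1 → ∃ y ∈ x.1, ZFSet.pair x.1 y ∈ c ∧
        ∀ y', ZFSet.pair x.1 y' ∈ c → y' = y := fun x hx => hc' x.1 hx fun e => by
      obtain ⟨y, hy⟩ := hne x hx
      exact ZFSet.notMem_empty _ (e ▸ hy)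
    refine ⟨⟨_, inW_zf.1 hb⟩, fun x hx => ?_⟩
    obtain ⟨y, hy, h1, h2⟩ := hs x hx
    refine ⟨⟨y, tr _ x.2 _ hy⟩, ⟨hy, ?_⟩, fun z ⟨hz, hz'⟩ => Subtype.ext ?_⟩
    · rw [ZFSet.mem_sep]
      exact ⟨ZFSet.mem_sUnion.2 ⟨_, hx, hy⟩, _, hx, h1⟩
    rw [ZFSet.mem_sep] at hz'
    obtain ⟨-, x', hx', e⟩ := hz'
    obtain ⟨y', hy', -, h3⟩ := hs ⟨x', tr _ a.2 _ hx'⟩ hx'
    have := hd x ⟨x', tr _ a.2 _ hx'⟩ z hx hx' hz (by rw [h3 _ e]; exact hy')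
    exact h2 _ (by rw [this]; exact e)

theorem Mdl.isZFC {W : ZFSet.{0}} {I : ℕ → ZFSet.{0} → ZFSet.{0} → Prop} (h : Mdl W I) :
    IsZFC fun a b : W => a.1 ∈ b.1 :=
  Md.isZFC ⟨W, I, h.toMdl0⟩ (hM := ⟨h⟩)

end Pool.Agent.MP_c70ddc_lc.H1
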