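import Pool.Agent.MP_c70ddc_lc.H1.RTuk
import Pool.Agent.MP_c70ddc_lc.H1.LCode
import Pool.Agent.MP_c70ddc_lc.H1.ZFC
import Pool.Agent.MP_c70ddc_lc.H1.FMdl
import Pool.Agent.MP_c70ddc_lc.H1.FCover
import Pool.Agent.MP_c70ddc_lc.H1.LNew
import Pool.Agent.MP_c70ddc_lc.H1.LGround
import Pool.Agent.MP_c70ddc_lc.H1.LBorel
import Pool.Agent.MP_c70ddc_lc.H1.LThin

/-! Assembly: Cohen reals over a countable level of the hierarchy. -/

namespace Pool.Agent.MP_c70ddc_lc.H1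

set_option synthInstance.maxSize 100000

/-- the tree that projects to the complement of the set of codes -/
noncomputable def tree1 : Nd → Nd → List ℕ → Prop := exists_tree.choose

/-- all oracle facts -/
def OrcAll (W : ZFSet.{0}) : Prop :=
  OrcS W ∧ OrcF W ∧ InW W (enc '' {p : Nd × Nd × List ℕ | tree1 p.1 p.2.1 p.2.2})

lemma avail_all : Avail OrcAll := avail_orcS.and (avail_orcF.and (Avail.base _))

open Classical in
/-- the tree with the oracle plugged in -/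
noncomputable def tree (ρ : Set ℕ) : Nd → List ℕ → Prop :=
  fun s t => tree1 s (pre (fun n => decide (n ∈ ρ)) s.length) t

lemma mem_bset_tree {ρ : Set ℕ} {x : ℕ → Bool} : x ∈ Bset (tree ρ) ↔ x ∉ AA ρ := by
  classical
  have := exists_tree.choose_spec (fun n => decide (n ∈ ρ)) x
  simp only [decide_eq_true_eq, Set.ofPred_mem_eq] at this
  rw [this]
  simp only [Bset, tree, tree1, Set.mem_ofPred_eq, length_pre]

lemma thin_tree (ρ : Set ℕ) : Thin (tree ρ) := fun P hP h =>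
  thin_AA ρ P hP fun x hx => by simpa [mem_bset_tree] using h x hx

lemma inW_tree {M : Md} {ρ : Set ℕ} (h : OrcAll M.W) (hρ : InW M.W ρ) : InW M.W (tree ρ) := by
  obtain ⟨h1, -, h3⟩ := h
  have h4 : DfF M fun p : Nd × Nd × List ℕ => tree1 p.1 p.2.1 p.2.2 := DfF.pred_of_enc h3
  have h5 : DfF M fun x : Nd × List ℕ => tree ρ x.1 x.2 := by
    unfold tree
    exact h4.comp (f := fun x : Nd × List ℕ => (x.1, pre _ x.1.length, x.2)) inferInstance
  exact DfF.inW_fun (DfF.lam h5)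

lemma dfF_col {M : Md} : DfF M fun p : (ℕ → Bool) × ℕ => col p.1 p.2 := by
  unfold col
  infer_instance

section ext

variable {M : Md} [Ch M] {ι : Type} [Cd ι] [Ty M ι] {F : Fo M ι} {G : Set ι}

/-- the extension as a model -/
noncomputable def Fo.Gen.md (hG : F.Gen G) : Md := ⟨ext M.W G, IMem, hG.mdl0⟩

/-- ground model reals stay uncountable -/
lemma ground_unc (hG : F.Gen G) (hc : F.CCC) :
    ¬ CtW (ext M.W G) {r : Set ℕ | InW M.W r} := by
  classical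
  rintro ⟨e, he, hs⟩
  let N := hG.md
  have he : InW N.W e := he
  have hR : InW N.W {r : Set ℕ | InW M.W r} := hG.inW_ext Ty.univ
  generalize hR0 : {r : Set ℕ | InW M.W r} = R0 at hR
  have hg : InW N.W (gr Set.univ fun n => if e n ∈ R0 then e n else ∅) := inferInstance
  obtain ⟨Φ, hΦ, h⟩ := hG.cover hc HF.univ hg (d := ∅) (fun n _ => by
    split_ifs with h
    · rw [← hR0] at h; exact h
    · infer_instance) inferInstance
  refine not_ctW_pow (M := M) ⟨fun j => Φ j.unpair.1 j.unpair.2, inferInstance, fun r hr => ?_⟩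
  obtain ⟨n, rfl⟩ := hs hr
  obtain ⟨k, hk⟩ := h n trivial
  rw [if_pos (hR0 ▸ hr)] at hk
  exact ⟨Nat.pair n k, by simp [hk]⟩

/-- sequences of finite sets of ground model points are covered by ground model sequences -/
lemma ground_cover (hG : F.Gen G) (hc : F.CCC) {A : ℕ → Set (ℕ → Bool)} (hA : InW (ext M.W G) A)
    (h : ∀ k, (A k).Finite ∧ ∀ x ∈ A k, InW M.W x) :
    ∃ H : ℕ → ℕ → Bool, InW M.W H ∧ ∀ k, A k ⊆ Set.range H := by
  classical
  let N := hG.md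
  have hA : InW N.W A := hA
  have hg : InW N.W (gr Set.univ A) := inferInstance
  obtain ⟨Φ, hΦ, h'⟩ := hG.cover hc HF.univ hg (d := ∅)
    (fun n _ => InW.finite (h n).1 (h n).2) inferInstance
  have h1 : InW M.W fun j : ℕ =>
      if (Φ j.unpair.1 j.unpair.2).Finite then Φ j.unpair.1 j.unpair.2 else ∅ := inferInstance
  obtain ⟨H, hH, hs⟩ := ctW_iUnion h1 fun j => by
    have h2 := h1.app j
    refine ctW_of_finite ?_ (fun x hx => h2.of_mem hx) (d := fun _ => true) inferInstance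
    split_ifs with h3
    exacts [h3, Set.finite_empty]
  refine ⟨H, hH, fun k x hx => hs ?_⟩
  obtain ⟨n, hn⟩ := h' k trivial
  refine Set.mem_iUnion.2 ⟨Nat.pair k n, ?_⟩
  simp only [Nat.unpair_pair, ← hn, if_pos (h k).1, hx]

end ext

/-- after adding Cohen reals the continuum is larger than the set of old sequences -/
lemma cohen_large {M : Md} [Ch M] {G : Set (Set (Set (((ℕ → ℕ → Bool) × ℕ) × ℕ) × ℕ × Bool))}
    (hG : (cohen M _).Gen G) {e : (ℕ → ℕ → Bool) → ℕ → Set ℕ} (he : DfF hG.md e) :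
    ∃ r : Set ℕ, InW (ext M.W G) r ∧ ∀ H, InW M.W H → ∀ n, e H n ≠ r := by
  classical
  by_contra hcon
  push Not at hcon
  let N := hG.md
  have hGN : InW N.W G := hG.inW_gen
  have hR : DfF N (cohR G) := by unfold cohR; infer_instance
  have hΛ : InW N.W {a : Set (((ℕ → ℕ → Bool) × ℕ) × ℕ) | InW M.W a} := hG.inW_ext Ty.univ
  have hS : InW N.W {a : (ℕ → ℕ → Bool) × ℕ | InW M.W a} := hG.inW_ext Ty.univ
  have hinj := cohR_injOn hG
  generalize hΛ0 : {a : Set (((ℕ → ℕ → Bool) × ℕ) × ℕ) | InW M.W a} = Λ at hΛ hinj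
  let g : (ℕ → ℕ → Bool) × ℕ → Set (((ℕ → ℕ → Bool) × ℕ) × ℕ) :=
    fun p => ⋃₀ {a | a ∈ Λ ∧ cohR G a = e p.1 p.2}
  have hg : DfF N g := inferInstance
  have key : ∀ p a, a ∈ Λ → cohR G a = e p.1 p.2 → g p = a := by
    intro p a ha h
    have : {a | a ∈ Λ ∧ cohR G a = e p.1 p.2} = {a} :=
      Set.eq_singleton_iff_unique_mem.2 ⟨⟨ha, h⟩, fun b hb => hinj hb.1 ha (hb.2.trans h.symm)⟩
    simp only [g, this, Set.sUnion_singleton]
  have hgr : InW N.W (gr {a : (ℕ → ℕ → Bool) × ℕ | InW M.W a} g) := by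
    generalize {a : (ℕ → ℕ → Bool) × ℕ | InW M.W a} = S at hS
    infer_instance
  obtain ⟨Φ, hΦ, h⟩ := hG.cover (cohen_ccc M _) Ty.univ hgr (d := ∅) (fun p _ => by
    by_cases h : ∃ a ∈ Λ, cohR G a = e p.1 p.2
    · obtain ⟨a, ha, h⟩ := h
      rw [key p a ha h]
      rw [← hΛ0] at ha
      exact ha
    · have : {a | a ∈ Λ ∧ cohR G a = e p.1 p.2} = ∅ := Set.eq_empty_of_forall_notMem fun a ha =>
        h ⟨a, ha⟩
      simp only [g, this, Set.sUnion_empty]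
      infer_instance) inferInstance
  obtain ⟨S0, hS0, hne⟩ := cantor (M := M) (e := fun x : ((ℕ → ℕ → Bool) × ℕ) × ℕ => Φ x.1 x.2)
    inferInstance
  obtain ⟨H, hH, m, hm⟩ := hcon (cohR G S0) (hR.inW (hG.inW_ext hS0))
  have hp : InW M.W (H, m) := inferInstance
  obtain ⟨n, hn⟩ := h (H, m) hp
  rw [key (H, m) S0 (hΛ0 ▸ hS0) hm.symm] at hn
  exact hne ((H, m), n) inferInstance hn.symm

section levels

variable {ρ : Set ℕ} {L : Ordinal.{0} → ZFSet.{0}} {Lt : ZFSet.{0} → ZFSet.{0} → Prop}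

lemma II_big : ∀ k, 4 ≤ k → ∀ a b, ¬ II ρ L Lt k a b := by
  intro k hk a b
  obtain ⟨j, rfl⟩ := Nat.exists_eq_add_of_le' hk
  exact id

lemma col_of_mem (h : Hier ρ L Lt) {β : Ordinal} (hp : PtDef (L β : Set ZFSet) (II ρ L Lt))
    {r : Set ℕ} (hr : cd r ∈ L β) : ∃ d, col (code (II ρ L Lt) (L β)) d = r := by
  obtain ⟨d, hd⟩ := exists_col (I := II ρ L Lt) (fun _ _ => Iff.rfl) hp hr
    fun _ hz => h.trans hr hz
  exact ⟨d, hd.trans (Set.ext fun n => cd_mem_cd (a := n))⟩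

end levels

theorem exists_exotic : ∃ W : ZFSet.{0}, W.IsTransitive ∧ (IsZFC fun a b : W => a.1 ∈ b.1) ∧
    Exotic W := by
  classical
  obtain ⟨ρ, hρ⟩ := avail_all.exists_set
  obtain ⟨L, Lt, h⟩ := exists_hier ρ
  obtain ⟨δ, hm, hct, hlim, hρ'⟩ := h.exists_ground
  let M : Md := ⟨L δ, II ρ L Lt, hm.toMdl0⟩
  have : Ch M := ⟨hm⟩
  have hρM : InW M.W ρ := ⟨by
    have : cd ρ = ZFSet.omega.sep fun a => ∃ n ∈ ρ, a = num n := by
      ext z
      simp only [mem_cd_set, ZFSet.mem_sep, mem_omega, cd_nat]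
      exact ⟨fun ⟨n, hn, e⟩ => ⟨⟨n, e.symm⟩, n, hn, e.symm⟩, fun ⟨_, n, hn, e⟩ => ⟨n, hn, e.symm⟩⟩
    exact this ▸ hρ'⟩
  have hwo : M.WO := ⟨Lt, DfF.rel (M := M) 2 inferInstance inferInstance, h.lt_wf,
    fun a ha b hb => h.lt_total ha hb⟩
  obtain ⟨G, hG⟩ := (cohen M (Set (((ℕ → ℕ → Bool) × ℕ) × ℕ))).exists_gen hct
  have hc := cohen_ccc M (Set (((ℕ → ℕ → Bool) × ℕ) × ℕ))
  let N := hG.md
  have : Ch N := ⟨hG.mdl hwo⟩
  have hρN : InW N.W ρ := hG.inW_ext hρM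
  have : OrcF M.W := (hρ M hρM).2.1
  have : OrcS N.W := (hρ N hρN).1
  have hT : InW N.W (tree ρ) := inW_tree (hρ N hρN) hρN
  have hcol : DfF N fun p : (ℕ → Bool) × ℕ => col p.1 p.2 := dfF_col
  have hcode : ∀ β, β < δ → InW M.W (code (II ρ L Lt) (L β)) := fun β hβ =>
    inW_code (M := M) II_big (h.mem_iff_lt.2 hβ)
  have hA : ∀ x ∈ AW N.W (tree ρ), InW M.W x := by
    rintro x ⟨hx, hx'⟩
    rw [mem_bset_tree, not_not] at hx'
    obtain ⟨L', Lt', β, h', hp, rfl⟩ := hx'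
    obtain ⟨rfl, rfl⟩ := h.unique h'
    rcases lt_or_ge β δ with hβ | hβ
    · exact hcode β hβ
    · generalize hx0 : code (II ρ L Lt) (L β) = x at hx
      refine absurd ⟨fun d => col x d, (inferInstance : InW N.W _), fun r hr => ?_⟩
        (ground_unc hG hc)
      exact hx0 ▸ col_of_mem h hp (h.mono hβ hr.mem)
  have hU : ¬ CtW N.W (AW N.W (tree ρ)) := by
    rintro ⟨e, he, hs⟩
    refine ground_unc hG hc ⟨fun j => col (e j.unpair.1) j.unpair.2,
      (inferInstance : InW N.W _), fun r hr => ?_⟩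
    obtain ⟨β, hβ, hd⟩ := (h.mem δ _).1 hr.mem
    have h1 : cd r ∈ L (β + 1) := (h.mem _ _).2 ⟨β, lt_add_one β, hd⟩
    obtain ⟨γ, hγ, hp, hr'⟩ := h.new_real h1 fun z hz => by
      obtain ⟨n, -, rfl⟩ := mem_cd_set.1 hz
      exact mem_omega.2 ⟨n, rfl⟩
    obtain ⟨d, hd⟩ := col_of_mem h hp hr'
    obtain ⟨i, hi⟩ := hs (a := code (II ρ L Lt) (L γ))
      ⟨hG.inW_ext (hcode γ (hγ.trans_lt (hlim β hβ))), fun hb =>
        mem_bset_tree.1 hb ⟨L, Lt, γ, h, hp, rfl⟩⟩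
    exact ⟨Nat.pair i d, by simp [hi, hd]⟩
  refine ⟨N.W, fun a ha b hb => N.h.trans a ha b hb, (hG.mdl hwo).isZFC, XW N.W (tree ρ),
    nrm (tree ρ), sepBanach, ⟨inW_kBall, inferInstance, inW_baire, inW_kRat, inW_finC⟩,
    fun h => not_le_zero hU h.1, fun h => not_le_baire hU h.1, fun h => not_le_kRat hU h.1,
    fun h => finC_not_le (thin_tree ρ) (C := {H | InW M.W H}) (hG.inW_ext Ty.univ)
      (fun A hA' h' => ground_cover hG hc hA' fun k => ⟨(h' k).1, fun x hx => hA x ((h' k).2 hx)⟩)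
      (fun e he => cohen_large hG he) h.2⟩

end Pool.Agent.MP_c70ddc_lc.H1
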