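import Pool.Agent.MP_c70ddc_lc.H1.SpBasic

/-! Sets without an `ℓ¹` sequence live on finitely many branches up to small error (module C). -/

namespace Pool.Agent.MP_c70ddc_lc.H1

open Filter Topology MeasureTheory

variable {T : Nd → List ℕ → Prop} {D : Set (Nd → ℝ)}

/-- recursive choice of levels and functionals -/
lemma c_rec {α : Type} (P : ℕ → ℕ → α → (Nd →₀ ℚ) → Prop) (b : ℕ → ℕ)
    (h : ∀ j l, ∃ a g, P j l a g) :
    ∃ (m : ℕ → ℕ) (a : ℕ → α) (g : ℕ → Nd →₀ ℚ), (∀ j, b j ≤ m j) ∧ (∀ j, m j < m (j + 1)) ∧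
      (∀ j, P j (m j) (a j) (g j)) ∧ ∀ j, ∀ s ∈ (g j).support, s.length < m (j + 1) := by
  choose A G hP using h
  let m : ℕ → ℕ := fun n => Nat.rec (b 0)
    (fun j mj => max (b (j + 1)) (max (mj + 1) ((G j mj).support.sup List.length + 1))) n
  have hm : ∀ j, m (j + 1) =
      max (b (j + 1)) (max (m j + 1) ((G j (m j)).support.sup List.length + 1)) := fun j => rfl
  refine ⟨m, fun j => A j (m j), fun j => G j (m j), ?_, ?_, fun j => hP j (m j), ?_⟩
  · intro j
    cases j with
    | zero => exact le_rfl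
    | succ j => rw [hm]; exact le_max_left _ _
  · intro j
    rw [hm]
    omega
  · intro j s hs
    have : s.length ≤ (G j (m j)).support.sup List.length := Finset.le_sup (f := List.length) hs
    rw [hm]
    omega

lemma c_supp_sum {g : ℕ → Nd →₀ ℚ} {n : ℕ} {s : Nd}
    (hs : s ∈ (∑ j ∈ Finset.range n, g j).support) : ∃ j, j < n ∧ s ∈ (g j).support := by
  classical
  have := Finsupp.support_finsetSum hs
  simp only [Finset.mem_biUnion, Finset.mem_range] at this
  exact this

/-- functionals that leave a fixed branch higher and higher give an `ℓ¹` sequence -/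
lemma c_L1_inc (x : ℕ → Bool) {δ : ℚ} (hδ : 0 < δ)
    (h : ∀ l, ∃ u ∈ D, ∃ g, Nm T g ∧ (δ : ℝ) ≤ pr g u ∧
      ∀ s ∈ g.support, pre x l <+: s ∧ ¬ On x s) : L1 T D := by
  obtain ⟨m, u, g, hb, hm, hP, hl⟩ := c_rec
    (fun (_ l : ℕ) (u : Nd → ℝ) (g : Nd →₀ ℚ) => u ∈ D ∧ Nm T g ∧ (δ : ℝ) ≤ pr g u ∧
      ∀ s ∈ g.support, pre x l <+: s ∧ ¬ On x s) (fun _ => 1)
    (fun _ l => by
      obtain ⟨u, hu, g, hg⟩ := h l
      exact ⟨u, g, hu, hg⟩)
  have hmono : StrictMono m := strictMono_nat_of_lt_succ hm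
  have hlev : ∀ j, ∀ s ∈ (g j).support, m j ≤ s.length ∧ s.length < m (j + 1) := by
    intro j s hs
    refine ⟨?_, hl j s hs⟩
    have := ((hP j).2.2.2 s hs).1.length_le
    simpa using this
  have hsum : ∀ n, Nm T (∑ j ∈ Finset.range n, g j) := by
    intro n
    induction n with
    | zero => simpa using Nm.zero
    | succ n ih =>
      rw [Finset.sum_range_succ]
      refine Nm.inc _ _ ih (hP n).2.1 ?_
      intro s hs t ht
      obtain ⟨j, hj, hsj⟩ := c_supp_sum hs
      have h1 : s.length < m n := lt_of_lt_of_le (hlev j s hsj).2 (hmono.monotone hj)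
      have h2 := (hlev n t ht).1
      refine ⟨fun hst => ?_, fun hts => ?_⟩
      · apply ((hP j).2.2.2 s hsj).2
        have h3 : pre x (m n) <+: t := ((hP n).2.2.2 t ht).1
        have h4 : s <+: pre x (m n) :=
          List.prefix_of_prefix_length_le hst h3 (by simpa using h1.le)
        have h5 := List.prefix_iff_eq_take.1 h4
        rw [take_pre x h1.le] at h5
        exact h5
      · have := hts.length_le
        omega
  refine ⟨δ, u, g, m, fun j => (hP j).1, hδ, hm, hlev, fun j => (hP j).2.2.1, fun n => ?_⟩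
  have := Nm.adm (T := T) 1 (fun i => if i = 0 then m 0 else m n)
    (fun _ => ∑ j ∈ Finset.range n, g j) ?_ (fun _ _ => hsum n) ?_
  · simpa using this
  · intro i j hij
    by_cases hi : i = 0 <;> by_cases hj : j = 0
    · simp [hi, hj]
    · simpa [hi, hj] using hmono.monotone (Nat.zero_le n)
    · omega
    · simp [hi, hj]
  · intro i hi s hs
    obtain rfl : i = 0 := by omega
    obtain ⟨j, hj, hsj⟩ := c_supp_sum hs
    refine ⟨?_, ?_, Or.inl ?_⟩
    · simpa using (hmono.monotone (Nat.zero_le j)).trans (hlev j s hsj).1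
    · simpa using lt_of_lt_of_le (hlev j s hsj).2 (hmono.monotone hj)
    · simpa using hb 0

/-- functionals on admissible nodes give an `ℓ¹` sequence -/
lemma c_L1_adm (z : ℕ → ℕ) {δ : ℚ} (hδ : 0 < δ)
    (h : ∀ i l, ∃ u ∈ D, ∃ g, Nm T g ∧ (δ : ℝ) ≤ pr g u ∧ ∀ s ∈ g.support, l ≤ s.length ∧
      ∃ y : ℕ → ℕ, (∀ j, j ≤ i → y j ≤ z j) ∧ ∀ k, k ≤ i + 1 → T (s.take k) (pre y k)) :
    L1 T D := by
  obtain ⟨m, u, g, hb, hm, hP, hl⟩ := c_rec
    (fun (i l : ℕ) (u : Nd → ℝ) (g : Nd →₀ ℚ) => u ∈ D ∧ Nm T g ∧ (δ : ℝ) ≤ pr g u ∧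
      ∀ s ∈ g.support, l ≤ s.length ∧
      ∃ y : ℕ → ℕ, (∀ j, j ≤ i → y j ≤ z j) ∧ ∀ k, k ≤ i + 1 → T (s.take k) (pre y k))
    (fun j => max (z j) (j + 1))
    (fun i l => by
      obtain ⟨u, hu, g, hg⟩ := h i l
      exact ⟨u, g, hu, hg⟩)
  have hmono : StrictMono m := strictMono_nat_of_lt_succ hm
  have hlev : ∀ j, ∀ s ∈ (g j).support, m j ≤ s.length ∧ s.length < m (j + 1) :=
    fun j s hs => ⟨((hP j).2.2.2 s hs).1, hl j s hs⟩
  refine ⟨δ, u, g, m, fun j => (hP j).1, hδ, hm, hlev, fun j => (hP j).2.2.1, fun n => ?_⟩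
  refine Nm.adm n m g hmono.monotone (fun i _ => (hP i).2.1) ?_
  intro i _ s hs
  refine ⟨(hlev i s hs).1, (hlev i s hs).2, Or.inr ⟨?_, ?_⟩⟩
  · exact ((le_max_right _ _).trans (hb i)).trans (hlev i s hs).1
  · obtain ⟨y, hy, hT⟩ := ((hP i).2.2.2 s hs).2
    exact ⟨y, fun j hj => (hy j hj).trans ((le_max_left _ _).trans (hb j)), hT⟩

lemma c_isOpen (A : Nd → Prop) (l : ℕ) : IsOpen {x : ℕ → Bool | A (pre x l)} := by
  rw [isOpen_iff_mem_nhds]
  intro x hx
  have : {y : ℕ → Bool | ∀ i ∈ Finset.range l, y i = x i} ∈ 𝓝 x := by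
    have : {y : ℕ → Bool | ∀ i ∈ Finset.range l, y i = x i} =
        ⋂ i ∈ Finset.range l, (fun y : ℕ → Bool => y i) ⁻¹' {x i} := by
      ext y; simp
    rw [this, Filter.biInter_finset_mem]
    intro i _
    exact (continuous_apply i).continuousAt.preimage_mem_nhds
      ((isOpen_discrete _).mem_nhds rfl)
  filter_upwards [this] with y hy
  have : pre y l = pre x l := pre_eq_iff.2 fun i hi => hy i (Finset.mem_range.2 hi)
  simpa [this] using hx

lemma c_isClopen (A : Nd → Prop) (l : ℕ) : IsClopen {x : ℕ → Bool | A (pre x l)} :=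
  ⟨⟨c_isOpen (fun s => ¬ A s) l⟩, c_isOpen A l⟩

/-- an infinite set of branches accumulates at a branch -/
lemma c_acc {S : Set (ℕ → Bool)} (hS : S.Infinite) :
    ∃ x : ℕ → Bool, ∀ l, ∃ y ∈ S, ∃ n, ∀ s, On y s → n ≤ s.length →
      pre x l <+: s ∧ ¬ On x s := by
  obtain ⟨x, hx⟩ := hS.exists_accPt_principal
  refine ⟨x, fun l => ?_⟩
  obtain ⟨y, ⟨hy1, hy2⟩, hyx⟩ := accPt_iff_nhds.1 hx _
    ((c_isOpen (fun s => s = pre x l) l).mem_nhds rfl)
  obtain ⟨n, hn⟩ := Function.ne_iff.1 hyx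
  refine ⟨y, hy2, max l (n + 1), fun s hs hl => ⟨?_, fun hxs => hn ?_⟩⟩
  · have h1 : pre y l = pre x l := hy1
    rw [← h1, hs]
    exact pre_prefix y ((le_max_left _ _).trans hl)
  · have h1 : pre y s.length = pre x s.length := (show s = _ from hs).symm.trans hxs
    exact pre_eq_iff.1 h1 n (by omega)

lemma L1_of_infinite {S : Set (ℕ → Bool)} (hS : S.Infinite)
    (hD : ∀ x ∈ S, ∀ s, On x s → Pi.single s (1 : ℝ) ∈ D) : L1 T D := by
  obtain ⟨x, hx⟩ := c_acc hS
  refine c_L1_inc x (δ := 1) one_pos fun l => ?_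
  obtain ⟨y, hy, n, hn⟩ := hx l
  refine ⟨_, hD y hy _ (on_pre y n), Finsupp.single (pre y n) 1, Nm.single _, ?_, ?_⟩
  · rw [pr_single]; simp
  · intro s hs
    have : s = pre y n := by
      have := Finsupp.support_single_subset hs
      simpa using this
    subst this
    exact hn _ (on_pre y n) (by simp)

/-- a failed bound on a restriction gives a functional supported in the set -/
lemma c_not_le {S : Set Nd} {u : Nd → ℝ} {η : ℝ} (h : ¬ Le T (cut S u) η) :
    ∃ g, Nm T g ∧ η < pr g u ∧ ∀ s ∈ g.support, s ∈ S := by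
  classical
  unfold Le at h
  push Not at h
  obtain ⟨f, hf, hlt⟩ := h
  rw [pr_cut] at hlt
  refine ⟨_, hf.filter _, hlt, fun s hs => ?_⟩
  rw [Finsupp.support_filter, Finset.mem_filter] at hs
  exact hs.2

lemma At_finite (hD : ∀ u ∈ D, Le T u 1) (h : ¬ L1 T D) {η : ℝ} (hη : 0 < η) :
    (At T D η).Finite := by
  by_contra hS
  obtain ⟨x, hx⟩ := c_acc hS
  obtain ⟨δ, hδ, hδη⟩ := exists_rat_btwn hη
  refine h (c_L1_inc x (δ := δ) (by exact_mod_cast hδ) fun l => ?_)
  obtain ⟨y, hy, n, hn⟩ := hx l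
  obtain ⟨u, hu, hle⟩ := hy n
  obtain ⟨g, hg, hlt, hs⟩ := c_not_le hle
  exact ⟨u, hu, g, hg, (hδη.trans hlt).le, fun s h => hn s (hs s h).1 (hs s h).2⟩

lemma At_notMem (hD : ∀ u ∈ D, Le T u 1) (h : ¬ L1 T D) {η : ℝ} (hη : 0 < η) :
    ∀ x ∈ At T D η, x ∉ Bset T := by
  rintro x hx ⟨y, hy⟩
  obtain ⟨δ, hδ, hδη⟩ := exists_rat_btwn hη
  refine h (c_L1_adm y (δ := δ) (by exact_mod_cast hδ) fun i l => ?_)
  obtain ⟨u, hu, hle⟩ := hx (max l (i + 1))
  obtain ⟨g, hg, hlt, hs⟩ := c_not_le hle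
  refine ⟨u, hu, g, hg, (hδη.trans hlt).le, fun s h => ⟨(le_max_left _ _).trans (hs s h).2,
    y, fun _ _ => le_rfl, fun k hk => ?_⟩⟩
  have h1 : s = pre x s.length := (hs s h).1
  have h2 : k ≤ s.length := hk.trans ((le_max_right _ _).trans (hs s h).2)
  rw [h1, take_pre x h2]
  exact hy k

lemma c_pr_filter (f : Nd →₀ ℚ) (p : Nd → Prop) [DecidablePred p] (u : Nd → ℝ) :
    pr (f.filter p) u = ∑ s ∈ f.support, if p s then (f s : ℝ) * |u s| else 0 := by
  rw [pr_eq_sum (F := f.support) (by rw [Finsupp.support_filter]; exact Finset.filter_subset _ _)]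
  refine Finset.sum_congr rfl fun s _ => ?_
  rw [Finsupp.filter_apply]
  split_ifs <;> simp

lemma c_pre_getD (s : Nd) {l : ℕ} (hl : l ≤ s.length) :
    pre (fun i => s.getD i false) l = s.take l := by
  apply List.ext_getElem
  · simp [hl]
  · intro i h1 h2
    have h3 : i < l := by simpa using h1
    have h4 : i < s.length := by omega
    simp [pre, h4]

open Classical in
/-- the limit measure on the branches -/
lemma c_limit (f : ℕ → Nd →₀ ℚ) (u : ℕ → Nd → ℝ) (hf : ∀ j, Nm T (f j))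
    (hu : ∀ j, Le T (u j) 1) (hl : ∀ j, ∀ s ∈ (f j).support, j ≤ s.length) :
    ∃ (ν : Measure (ℕ → Bool)) (U : Ultrafilter ℕ), IsFiniteMeasure ν ∧ (U : Filter ℕ) ≤ atTop ∧
      ∀ (A : Nd → Prop) (l : ℕ), Tendsto
        (fun j => pr ((f j).filter fun s => A (s.take l)) (u j)) U
        (𝓝 (ν.real {x | A (pre x l)})) := by
  let w : ℕ → Nd → NNReal := fun j s =>
    ⟨(f j s : ℝ) * |u j s|, mul_nonneg (by exact_mod_cast (hf j).nonneg s) (abs_nonneg _)⟩
  let e : Nd → ℕ → Bool := fun s i => s.getD i false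
  let μ : ℕ → FiniteMeasure (ℕ → Bool) := fun j =>
    ⟨∑ s ∈ (f j).support, w j s • Measure.dirac (e s), inferInstance⟩
  have hμ : ∀ j (K : Set (ℕ → Bool)), MeasurableSet K → (μ j : Measure (ℕ → Bool)).real K =
      ∑ s ∈ (f j).support, if e s ∈ K then (f j s : ℝ) * |u j s| else 0 := by
    intro j K hK
    change (∑ s ∈ (f j).support, w j s • Measure.dirac (e s)).real K = _
    rw [measureReal_def, Measure.finsetSum_apply, ENNReal.toReal_sum]
    · refine Finset.sum_congr rfl fun s _ => ?_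
      rw [Measure.smul_apply, Measure.dirac_apply' _ hK]
      by_cases h : e s ∈ K
      · have hw : ((w j s : NNReal) : ℝ) = (f j s : ℝ) * |u j s| := rfl
        simp [h, hw]
      · simp [h]
    · intro s _
      exact measure_ne_top _ _
  have hmass : ∀ j, (μ j).mass ≤ 1 := by
    intro j
    have h1 := hμ j Set.univ MeasurableSet.univ
    simp only [Set.mem_univ, if_true] at h1
    have h2 : ((μ j).mass : ℝ) = pr (f j) (u j) := by
      rw [pr, ← h1]
      rfl
    have h3 := hu j _ (hf j)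
    rw [← h2] at h3
    exact_mod_cast h3
  let U : Ultrafilter ℕ := hyperfilter ℕ
  obtain ⟨ν, -, hν⟩ := (isCompact_setOfPred_finiteMeasure_le_of_compactSpace (ℕ → Bool)
    1).ultrafilter_le_nhds' (U.map μ) (by
      rw [Ultrafilter.mem_map]
      exact Filter.univ_mem' fun j => hmass j)
  have hU : (U : Filter ℕ) ≤ atTop := Nat.hyperfilter_le_atTop
  refine ⟨ν, U, inferInstance, hU, fun A l => ?_⟩
  have hK := c_isClopen A l
  have h1 := FiniteMeasure.tendsto_iff_forall_integral_tendsto.1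
    (show Tendsto μ U (𝓝 ν) from hν) (BoundedContinuousFunction.indicator _ hK)
  have h2 : ∀ ρ : Measure (ℕ → Bool),
      ∫ x, BoundedContinuousFunction.indicator _ hK x ∂ρ = ρ.real {x | A (pre x l)} :=
    fun ρ => integral_indicator_one hK.isOpen.measurableSet
  simp only [h2] at h1
  refine h1.congr' ?_
  filter_upwards [hU (eventually_ge_atTop l)] with j hj
  rw [hμ j _ hK.isOpen.measurableSet, c_pr_filter]
  refine Finset.sum_congr rfl fun s hs => ?_
  have : pre (e s) l = s.take l := c_pre_getD s (le_trans hj (hl j s hs))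
  simp only [Set.mem_ofPred_eq, this]

/-- bounds on the witnesses that keep positive measure -/
lemma c_bound (ν : Measure (ℕ → Bool)) {δ : ENNReal} (h : δ < ν (Bset T)) :
    ∃ z : ℕ → ℕ, ∀ n, δ < ν {x | ∃ y : ℕ → ℕ, (∀ j, j < n → y j ≤ z j) ∧
      ∀ k, T (pre x k) (pre y k)} := by
  let B : (ℕ → ℕ) → ℕ → Set (ℕ → Bool) := fun z n =>
    {x | ∃ y : ℕ → ℕ, (∀ j, j < n → y j ≤ z j) ∧ ∀ k, T (pre x k) (pre y k)}
  have step : ∀ n z, ∃ N, δ < ν (B z n) → δ < ν (B (Function.update z n N) (n + 1)) := by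
    intro n z
    by_cases hz : δ < ν (B z n)
    · have h1 : B z n = ⋃ N, B (Function.update z n N) (n + 1) := by
        ext x
        simp only [B, Set.mem_ofPred_eq, Set.mem_iUnion]
        constructor
        · rintro ⟨y, hy, hT⟩
          refine ⟨y n, y, fun j hj => ?_, hT⟩
          rcases Nat.lt_succ_iff_lt_or_eq.1 hj with hj | rfl
          · rw [Function.update_of_ne hj.ne]; exact hy j hj
          · simp
        · rintro ⟨N, y, hy, hT⟩
          refine ⟨y, fun j hj => ?_, hT⟩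
          have := hy j (by omega)
          rwa [Function.update_of_ne hj.ne] at this
      have h2 : Monotone fun N => B (Function.update z n N) (n + 1) := by
        rintro N N' hN x ⟨y, hy, hT⟩
        refine ⟨y, fun j hj => (hy j hj).trans ?_, hT⟩
        by_cases hjn : j = n
        · subst hjn; simpa using hN
        · simp [Function.update_of_ne hjn]
      rw [h1, h2.measure_iUnion, lt_iSup_iff] at hz
      obtain ⟨N, hN⟩ := hz
      exact ⟨N, fun _ => hN⟩
    · exact ⟨0, fun h => absurd h hz⟩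
  choose N hN using step
  let W : ℕ → ℕ → ℕ := fun n => Nat.rec (fun _ => 0) (fun n w => Function.update w n (N n w)) n
  have hW : ∀ n, W (n + 1) = Function.update (W n) n (N n (W n)) := fun n => rfl
  have hWn : ∀ n, δ < ν (B (W n) n) := by
    intro n
    induction n with
    | zero =>
      refine lt_of_lt_of_le h (measure_mono ?_)
      rintro x ⟨y, hy⟩
      exact ⟨y, fun j hj => absurd hj (Nat.not_lt_zero j), hy⟩
    | succ n ih => exact hN n (W n) ih
  have hst : ∀ j n, j < n → W n j = W (j + 1) j := by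
    intro j n hjn
    induction n with
    | zero => omega
    | succ n ih =>
      rcases Nat.lt_succ_iff_lt_or_eq.1 hjn with hj | rfl
      · rw [hW, Function.update_of_ne hj.ne, ih hj]
      · rfl
  refine ⟨fun j => W (j + 1) j, fun n => lt_of_lt_of_le (hWn n) (measure_mono ?_)⟩
  rintro x ⟨y, hy, hT⟩
  exact ⟨y, fun j hj => (hy j hj).trans (hst j n hj).le, hT⟩

lemma c_full (hT : Thin T) (ν : Measure (ℕ → Bool)) [IsFiniteMeasure ν]
    (hν : ∀ x, ν {x} = 0) : ν Set.univ ≤ ν (Bset T) := by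
  by_contra hlt
  push Not at hlt
  have : NullSingletonClass ν := ⟨hν⟩
  obtain ⟨V, hBV, hV, hνV⟩ := (Bset T).exists_isOpen_lt_of_lt _ hlt
  have h1 : (Vᶜ).Countable := hT _ hV.isClosed_compl fun x hx hB => hx (hBV hB)
  have h2 : ν Set.univ ≤ ν V + ν Vᶜ := by
    rw [← Set.union_compl_self V]
    exact measure_union_le _ _
  rw [h1.measure_zero ν, add_zero] at h2
  exact absurd hνV (not_lt.2 h2)

lemma dichotomy (hT : Thin T) (hD : ∀ u ∈ D, Le T u 1) (h : ¬ L1 T D) {ε : ℝ} (hε : 0 < ε) :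
    ∃ j : ℕ, ∀ u ∈ D,
      Le T (cut {s | j ≤ s.length ∧ ∀ x ∈ At T D (1 / ((j : ℝ) + 1)), ¬ On x s} u) ε := by
  classical
  by_contra hcon
  push Not at hcon
  choose u hu hle using hcon
  choose f hf hlt hs using fun j => c_not_le (hle j)
  obtain ⟨ν, U, hfin, hU, hlim⟩ := c_limit f u hf (fun j => hD _ (hu j)) fun j s h => (hs j s h).1
  by_cases hat : ∀ x, ν {x} = 0
  · have h0 : ε ≤ ν.real Set.univ := by
      have := hlim (fun _ => True) 0
      simp only [Set.ofPred_true] at this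
      refine ge_of_tendsto this (Eventually.of_forall fun j => ?_)
      have h2 : ∀ d : DecidablePred fun _ : Nd => True,
          @Finsupp.filter _ _ _ (fun _ => True) d (f j) = f j := by
        intro d; ext s; simp
      beta_reduce
      rw [h2]
      exact (hlt j).le
    obtain ⟨δ, hδ, hδε⟩ := exists_rat_btwn hε
    have h1 : ENNReal.ofReal δ < ν (Bset T) := by
      refine lt_of_lt_of_le ?_ (c_full hT ν hat)
      rw [ENNReal.ofReal_lt_iff_lt_toReal hδ.le (measure_ne_top _ _)]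
      exact hδε.trans_le h0
    obtain ⟨z, hz⟩ := c_bound ν h1
    refine h (c_L1_adm z (δ := δ) (by exact_mod_cast hδ) fun i l => ?_)
    let A : Nd → Prop := fun t =>
      ∃ y : ℕ → ℕ, (∀ j, j ≤ i → y j ≤ z j) ∧ ∀ k, k ≤ i + 1 → T (t.take k) (pre y k)
    have h2 : (δ : ℝ) < ν.real {x | A (pre x (i + 1))} := by
      rw [measureReal_def, ← ENNReal.ofReal_lt_iff_lt_toReal hδ.le (measure_ne_top _ _)]
      refine lt_of_lt_of_le (hz (i + 1)) (measure_mono ?_)
      rintro x ⟨y, hy, hT⟩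
      refine ⟨y, fun j hj => hy j (by omega), fun k hk => ?_⟩
      rw [take_pre x hk]
      exact hT k
    have h3 := ((hlim A (i + 1)).eventually (lt_mem_nhds h2)).and (hU (eventually_ge_atTop l))
    obtain ⟨j, hj, hjl⟩ := h3.exists
    refine ⟨u j, hu j, _, (hf j).filter _, hj.le, fun s hs' => ?_⟩
    rw [Finsupp.support_filter, Finset.mem_filter] at hs'
    refine ⟨le_trans hjl (hs j s hs'.1).1, ?_⟩
    obtain ⟨y, hy, hT⟩ := hs'.2
    refine ⟨y, hy, fun k hk => ?_⟩
    have := hT k hk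
    rwa [List.take_take, min_eq_left hk] at this
  · push Not at hat
    obtain ⟨x, hx⟩ := hat
    have ha : 0 < ν.real {x} := ENNReal.toReal_pos hx (measure_ne_top _ _)
    obtain ⟨δ, hδ, hδa⟩ := exists_rat_btwn (half_pos ha)
    obtain ⟨j0, hj0⟩ := exists_nat_one_div_lt hδ
    have hon : ∀ᶠ j in atTop, pr ((f j).filter (On x)) (u j) ≤ δ := by
      by_cases hA : x ∈ At T D (1 / ((j0 : ℝ) + 1))
      · filter_upwards [eventually_ge_atTop j0] with j hj
        have hA' : x ∈ At T D (1 / ((j : ℝ) + 1)) := by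
          intro m
          obtain ⟨v, hv, hle⟩ := hA m
          exact ⟨v, hv, fun h' => hle (h'.mono (Nat.one_div_le_one_div hj))⟩
        rw [c_pr_filter, Finset.sum_eq_zero]
        · exact hδ.le
        · intro s hs'
          rw [if_neg ((hs j s hs').2 x hA')]
      · simp only [At, Set.mem_ofPred_eq] at hA
        push Not at hA
        obtain ⟨m0, hm0⟩ := hA
        filter_upwards [eventually_ge_atTop m0] with j hj
        have h1 := hm0 _ (hu j) _ (hf j)
        rw [pr_cut, c_pr_filter] at h1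
        rw [c_pr_filter]
        refine le_trans (le_of_eq ?_) (h1.trans hj0.le)
        refine Finset.sum_congr rfl fun s hs' => ?_
        have : m0 ≤ s.length := le_trans hj (hs j s hs').1
        simp [this]
    refine h (c_L1_inc x (δ := δ) (by exact_mod_cast hδ) fun l => ?_)
    have h2 : 2 * (δ : ℝ) < ν.real {y | pre y l = pre x l} := by
      have : ν.real {x} ≤ ν.real {y | pre y l = pre x l} :=
        measureReal_mono (by rintro y rfl; rfl)
      linarith
    have h3 := (((hlim (fun t => t = pre x l) l).eventually (lt_mem_nhds h2)).and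
      (hU hon))
    obtain ⟨j, hj, hjon⟩ := h3.exists
    refine ⟨u j, hu j, _, (hf j).filter fun s => pre x l <+: s ∧ ¬ On x s, ?_, fun s hs' => ?_⟩
    · rw [c_pr_filter] at hj hjon ⊢
      have : (∑ s ∈ (f j).support, if s.take l = pre x l then (f j s : ℝ) * |u j s| else 0) ≤
          (∑ s ∈ (f j).support, if pre x l <+: s ∧ ¬ On x s then (f j s : ℝ) * |u j s| else 0) +
          ∑ s ∈ (f j).support, if On x s then (f j s : ℝ) * |u j s| else 0 := by
        rw [← Finset.sum_add_distrib]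
        refine Finset.sum_le_sum fun s _ => ?_
        have h0 : 0 ≤ (f j s : ℝ) * |u j s| :=
          mul_nonneg (by exact_mod_cast (hf j).nonneg s) (abs_nonneg _)
        by_cases h1 : s.take l = pre x l
        · have h4 : pre x l <+: s := h1 ▸ List.take_prefix l s
          by_cases h5 : On x s <;> simp [h1, h4, h5]
        · rw [if_neg h1]
          split_ifs <;> linarith
      have hj' : 2 * (δ : ℝ) <
          ∑ s ∈ (f j).support, if s.take l = pre x l then (f j s : ℝ) * |u j s| else 0 := by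
        refine lt_of_lt_of_le hj (le_of_eq (Finset.sum_congr rfl fun s _ => ?_))
        split_ifs <;> rfl
      linarith
    · rw [Finsupp.support_filter, Finset.mem_filter] at hs'
      exact hs'.2

end Pool.Agent.MP_c70ddc_lc.H1
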