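import Pool.Agent.MP_c70ddc_lc.H1.RDef
import Pool.Agent.MP_c70ddc_lc.H1.SpDich

/-! Sets without an `ℓ¹` sequence lie in a basic set of the model (module RD). -/

namespace Pool.Agent.MP_c70ddc_lc.H1

set_option synthInstance.maxSize 100000

/-- a point of a finite set of branches is determined by an initial segment -/
lemma rd_sep {S : Set (ℕ → Bool)} (hS : S.Finite) (x : ℕ → Bool) :
    ∃ k, ∀ y ∈ S, pre y k = pre x k → y = x := by
  classical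
  have h : ∀ y : ℕ → Bool, ∃ k, y ≠ x → y k ≠ x k := fun y => by
    by_cases e : y = x
    · exact ⟨0, fun h => absurd e h⟩
    · obtain ⟨k, hk⟩ := Function.ne_iff.1 e
      exact ⟨k, fun _ => hk⟩
  choose k hk using h
  refine ⟨hS.toFinset.sup k + 1, fun y hy e => ?_⟩
  by_contra hne
  exact hk y hne (pre_eq_iff.1 e _
    (Nat.lt_succ_of_le (Finset.le_sup (f := k) (hS.mem_toFinset.2 hy))))

lemma rd_pr_cut {g : Nd →₀ ℚ} {S : Set Nd} (u : Nd → ℝ) (h : ∀ s ∈ g.support, s ∈ S) :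
    pr g (cut S u) = pr g u :=
  Finset.sum_congr rfl fun s hs => by simp [cut, h s hs]

/-- mass along a branch only depends on an initial segment of the branch -/
lemma rd_loc {T : Nd → List ℕ → Prop} {x : ℕ → Bool} {m : ℕ} {u : Nd → ℝ} {η : ℝ}
    (h : ¬ Le T (cut {s | On x s ∧ m ≤ s.length} u) η) :
    ∃ k, ∀ z : ℕ → Bool, (∀ i, i < k → z i = x i) →
      ¬ Le T (cut {s | On z s ∧ m ≤ s.length} u) η := by
  obtain ⟨g, hg, hlt, hs⟩ := c_not_le h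
  refine ⟨g.support.sup List.length, fun z hz hle => ?_⟩
  have h1 := hle g hg
  rw [rd_pr_cut u] at h1
  · exact absurd h1 (not_le.2 hlt)
  · intro s hsg
    refine ⟨?_, (hs s hsg).2⟩
    have h2 : s = pre x s.length := (hs s hsg).1
    have h3 : pre x s.length = pre z s.length := pre_eq_iff.2 fun i hi =>
      (hz i (hi.trans_le (Finset.le_sup (f := List.length) hsg))).symm
    exact h2.trans h3

variable {M : Md} [OrcS M.W] [Ch M] {T : Nd → List ℕ → Prop} [hT : InW M.W T]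

theorem At_inW {K : Set (Nd → ℝ)} (hK : InW M.W K) {η : ℝ} (hη : InW M.W η)
    (hf : (At T K η).Finite) : ∀ x ∈ At T K η, InW M.W x := by
  intro x hx
  obtain ⟨k0, hk0⟩ := rd_sep hf x
  obtain ⟨w, hw⟩ : ∃ w : Nd, w = pre x k0 := ⟨_, rfl⟩
  have hQ : DfF M fun y : ℕ × (ℕ → Bool) => pre y.2 k0 = w ∧
      ∃ u, u ∈ K ∧ ¬ Le T (cut {s | On y.2 s ∧ y.1 ≤ s.length} u) η := inferInstance
  obtain ⟨z, hz, h⟩ := exists_seq (M := M) (Q := fun m z => pre z k0 = w ∧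
      ∃ u, u ∈ K ∧ ¬ Le T (cut {s | On z s ∧ m ≤ s.length} u) η) hQ x (fun _ => InW.hf _)
    fun m => by
      obtain ⟨u, hu, h1⟩ := hx m
      obtain ⟨k, hk⟩ := rd_loc h1
      refine ⟨max k0 k, fun z _ hz => ⟨?_, u, hu, hk z fun i hi => hz i (lt_max_of_lt_right hi)⟩⟩
      rw [hw]
      exact pre_eq_iff.2 fun i hi => hz i (lt_max_of_lt_left hi)
  have e : z = x := hk0 z (fun m => (h m).2) ((h 0).1.trans hw)
  exact e ▸ hz

/-- the heavy branches that lie in the model -/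
def rdA (W : ZFSet.{0}) (T : Nd → List ℕ → Prop) (K : Set (Nd → ℝ)) (j : ℕ) : Set (ℕ → Bool) :=
  {x | InW W x ∧ x ∈ At T K (1 / ((j : ℝ) + 1))}

/-- the first level that works -/
noncomputable def rdM (W : ZFSet.{0}) (T : Nd → List ℕ → Prop) (K : Set (Nd → ℝ)) (k : ℕ) : ℕ :=
  sInf {j | ∀ u, u ∈ K →
    Le T (cut {s | j ≤ s.length ∧ ∀ x, x ∈ rdA W T K j → ¬ On x s} u) (1 / ((k : ℝ) + 1))}

omit [Ch M] in
lemma rd_dfA : DfF M fun y : Set (Nd → ℝ) × ℕ => rdA M.W T y.1 y.2 := by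
  unfold rdA
  infer_instance

omit [Ch M] in
lemma rd_dfA' {α : Type} [Cd α] {K : α → Set (Nd → ℝ)} {j : α → ℕ} (hK : DfF M K)
    (hj : DfF M j) : DfF M fun a => rdA M.W T (K a) (j a) :=
  DfF.comp2 (k := rdA M.W T) rd_dfA hK hj

instance (priority := 9000) rd_dfA_inst {α : Type} [Cd α] {K : α → Set (Nd → ℝ)} {j : α → ℕ}
    [hK : DfF M K] [hj : DfF M j] : DfP M fun a => rdA M.W T (K a) (j a) :=
  ⟨rd_dfA' hK hj⟩

omit [Ch M] in
lemma rd_dfM : DfF M fun y : Set (Nd → ℝ) × ℕ => rdM M.W T y.1 y.2 := by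
  unfold rdM
  infer_instance

theorem exists_basic (hthin : Thin T) :
    ∃ (F : Set (Nd → ℝ) → ℕ → Set (ℕ → Bool)) (m : Set (Nd → ℝ) → ℕ → ℕ), DfF M F ∧ DfF M m ∧
      ∀ K, InW M.W K → (∀ u ∈ K, Le T u 1) → ¬ L1 T K →
        (∀ k, (F K k).Finite ∧ F K k ⊆ AW M.W T) ∧ K ⊆ KK T (F K) (m K) := by
  refine ⟨fun K k => rdA M.W T K (rdM M.W T K k), rdM M.W T,
    DfF.lam (rd_dfA' (DfF.fst DfF.id) rd_dfM), DfF.lam rd_dfM, fun K hK hD hL => ?_⟩
  have hpos : ∀ j : ℕ, (0 : ℝ) < 1 / ((j : ℝ) + 1) := fun j => by positivity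
  have hA : ∀ j : ℕ, rdA M.W T K j = At T K (1 / ((j : ℝ) + 1)) := fun j => by
    refine Set.ext fun x => ⟨fun h => h.2, fun h => ⟨?_, h⟩⟩
    exact At_inW hK inferInstance (At_finite hD hL (hpos j)) x h
  refine ⟨fun k => ⟨?_, fun x hx => ⟨hx.1, At_notMem hD hL (hpos _) x hx.2⟩⟩,
    fun u hu => ⟨hD u hu, fun k => ?_⟩⟩
  · exact (At_finite hD hL (hpos _)).subset fun _ h => h.2
  · have hne : {j | ∀ u, u ∈ K → Le T (cut {s | j ≤ s.length ∧
        ∀ x, x ∈ rdA M.W T K j → ¬ On x s} u) (1 / ((k : ℝ) + 1))}.Nonempty := by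
      obtain ⟨j, hj⟩ := dichotomy hthin hD hL (hpos k)
      refine ⟨j, fun u hu => ?_⟩
      rw [hA]
      exact hj u hu
    exact Nat.sInf_mem hne u hu

omit [Ch M] in
lemma KK_mono {F F' : ℕ → Set (ℕ → Bool)} {m m' : ℕ → ℕ} (hF : ∀ k, F k ⊆ F' k) (hm : m ≤ m') :
    KK T F m ⊆ KK T F' m' := fun _ hu =>
  ⟨hu.1, fun k => (hu.2 k).cut_mono fun _ hs =>
    ⟨(hm k).trans hs.1, fun x hx => hs.2 x (hF k hx)⟩⟩

end Pool.Agent.MP_c70ddc_lc.H1
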