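import Pool.Agent.MP_c70ddc_lc.H1.RDef
import Pool.Agent.MP_c70ddc_lc.H1.Stmt

/-! The space of the model is a separable Banach space; its dual (module RB). -/

namespace Pool.Agent.MP_c70ddc_lc.H1

set_option synthInstance.maxSize 100000

variable {M : Md} [OrcS M.W] {T : Nd → List ℕ → Prop} [hT : InW M.W T]

lemma rb_zero : (0 : Vec) ∈ XW M.W T := ⟨inferInstance, 0, le_zero⟩

lemma rb_add {u v : Vec} (hu : u ∈ XW M.W T) (hv : v ∈ XW M.W T) : u + v ∈ XW M.W T := by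
  obtain ⟨h1, C, hC⟩ := hu
  obtain ⟨h2, D, hD⟩ := hv
  exact ⟨inferInstance, _, hC.add hD⟩

lemma rb_smul {c : ℝ} (hc : InW M.W c) {u : Vec} (hu : u ∈ XW M.W T) : c • u ∈ XW M.W T := by
  obtain ⟨h1, C, hC⟩ := hu
  exact ⟨inferInstance, _, hC.smul c⟩

lemma rb_single (s : Nd) : (Pi.single s 1 : Vec) ∈ XW M.W T := ⟨inferInstance, 1, le_single s⟩

lemma rb_rat (q : Nd →₀ ℚ) : (fun s => (q s : ℝ)) ∈ XW M.W T :=
  ⟨inferInstance, _, le_of_support q.support fun s hs => by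
    rw [Finsupp.notMem_support_iff.1 hs, Rat.cast_zero]⟩

theorem sepBanach : SepBanach M.W (XW M.W T) (nrm T) := by
  refine ⟨inW_XW, inferInstance, rb_zero, fun u hu v hv => rb_add hu hv,
    fun c hc u hu => rb_smul hc hu, fun u hu v hv => nrm_add_le hu.2 hv.2,
    fun c _ u hu => nrm_smul hu.2 c, fun u hu h => eq_zero_of_nrm hu.2 h, ?_, ?_⟩
  · intro z hz hX hc
    obtain ⟨a, ha, h1, h2⟩ := exists_limit z (fun n => (hX n).2) fun ε hε => by
      obtain ⟨q, hq, hq'⟩ := exists_rat_btwn hε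
      obtain ⟨N, hN⟩ := hc q (by exact_mod_cast hq)
      exact ⟨N, fun n hn k hk => (hN n hn k hk).trans hq'⟩
    exact ⟨a, ⟨InW.of_tendsto_pi hz h1, ha⟩, fun ε hε => h2 ε (by exact_mod_cast hε)⟩
  · obtain ⟨e, he, h1⟩ := exists_enum (M := M) (κ := Nd →₀ ℚ)
    refine ⟨fun n s => (e n s : ℝ), inferInstance, fun n => rb_rat _, fun u hu ε hε => ?_⟩
    have h2 : (0 : ℝ) < ε := by exact_mod_cast hε
    obtain ⟨q, hq⟩ := exists_rat_approx hu.2 (half_pos h2)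
    refine ⟨enc q, ?_⟩
    show nrm T (u - fun s => (e (enc q) s : ℝ)) < ε
    rw [h1]
    exact hq.nrm_le.trans_lt (half_lt_self h2)

theorem isDual_ev {γ : Nd → ℝ} (hγ : InW M.W γ) {C : ℝ} (h : Bd T γ C) :
    IsDual M.W (XW M.W T) (nrm T) (ev γ) := by
  refine ⟨inferInstance, fun u hu v hv => h.ev_add hu.2 hv.2, fun c _ u _ => ev_smul γ u c,
    ⌈C⌉₊, fun u hu => ?_⟩
  exact (h.abs_ev_le (le_nrm hu.2)).trans
    (mul_le_mul_of_nonneg_right (Nat.le_ceil C) (le_nrm hu.2).nonneg)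

lemma rb_trunc {φ : Vec → ℝ} (h : IsDual M.W (XW M.W T) (nrm T) φ) {u : Vec} (hu : InW M.W u)
    (F : Finset Nd) : cut (F : Set Nd) u ∈ XW M.W T ∧
      φ (cut (F : Set Nd) u) = ∑ s ∈ F, φ (Pi.single s 1) * u s := by
  induction F using Finset.induction_on with
  | empty =>
    have h1 : cut ((∅ : Finset Nd) : Set Nd) u = 0 := by
      funext s
      simp [cut]
    have h2 := h.smul 0 inferInstance 0 rb_zero
    rw [zero_smul, zero_mul] at h2
    rw [h1, h2]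
    exact ⟨rb_zero, rfl⟩
  | insert a F ha ih =>
    have h1 : cut ((insert a F : Finset Nd) : Set Nd) u =
        u a • (Pi.single a 1 : Vec) + cut (F : Set Nd) u := by
      funext s
      by_cases h2 : s = a
      · subst h2
        simp [cut, ha]
      · by_cases h3 : s ∈ F <;> simp [cut, h2, h3]
    have h2 := rb_smul (hu.app a) (rb_single (M := M) (T := T) a)
    rw [h1, Finset.sum_insert ha, h.add _ h2 _ ih.1, h.smul _ (hu.app a) _ (rb_single a), ih.2,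
      mul_comm]
    exact ⟨rb_add h2 ih.1, rfl⟩

theorem IsDual.exists_ev {φ : Vec → ℝ} (h : IsDual M.W (XW M.W T) (nrm T) φ) :
    ∃ γ : Nd → ℝ, InW M.W γ ∧ (∃ C : ℕ, Bd T γ C) ∧ ∀ u ∈ XW M.W T, φ u = ev γ u := by
  obtain ⟨C, hC⟩ := h.bdd
  have h0 := DfF.of_gr h.mem (d := 0) inferInstance
  have h1 : DfF M fun s : Nd => (Pi.single s 1 : Vec) := inferInstance
  have h2 : DfF M fun s : Nd => φ (Pi.single s 1) :=
    (h0.comp h1).congr fun s _ => if_pos (rb_single s)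
  have hB : Bd T (fun s => φ (Pi.single s 1)) C := by
    refine bd_of_rat (Nat.cast_nonneg C) fun q => ?_
    have h3 : cut (q.support : Set Nd) (fun s => (q s : ℝ)) = fun s => (q s : ℝ) := by
      funext s
      by_cases h4 : q s = 0 <;> simp [cut, h4]
    have h4 := (rb_trunc h (rb_rat (M := M) (T := T) q).1 q.support).2
    rw [h3] at h4
    rw [← h4]
    exact hC _ (rb_rat q)
  refine ⟨_, h2.inW_fun, ⟨C, hB⟩, fun u hu => ?_⟩
  refine eq_of_forall_dist_le fun ε hε => ?_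
  have hη : 0 < ε / (2 * ((C : ℝ) + 1)) := by positivity
  obtain ⟨m, hm⟩ := exists_tail hu.2 hη
  have h3 := hB.ev_sub_sum hu.2 m hm
  obtain ⟨h4, h5⟩ := rb_trunc h hu.1 (lev m)
  have h6 : cut {s | m ≤ s.length} u ∈ XW M.W T := by
    have := hu.1
    exact ⟨inferInstance, _, hm⟩
  have h7 : u = cut (lev m : Set Nd) u + cut {s | m ≤ s.length} u := by
    funext s
    by_cases h8 : s.length < m
    · simp [cut, h8, not_le.2 h8]
    · simp [cut, h8, not_lt.1 h8]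
  have h8 : φ u = ∑ s ∈ lev m, φ (Pi.single s 1) * u s + φ (cut {s | m ≤ s.length} u) := by
    rw [← h5, ← h.add _ h4 _ h6, ← h7]
  have h9 := (hC _ h6).trans (mul_le_mul_of_nonneg_left hm.nrm_le (Nat.cast_nonneg C))
  have h10 : (C : ℝ) * (ε / (2 * ((C : ℝ) + 1))) ≤ ε / 2 := by
    rw [← mul_div_assoc, div_le_div_iff₀ (by positivity) (by positivity)]
    nlinarith
  rw [Real.dist_eq, h8]
  rw [abs_le] at h3 h9 ⊢
  constructor <;> linarith [h3.1, h3.2, h9.1, h9.2]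

theorem wopen_iff {U : Set Vec} : WOpen M.W (XW M.W T) (nrm T) U ↔ U ⊆ XW M.W T ∧
    ∀ x ∈ U, ∃ Γ : ℕ → Nd → ℝ, InW M.W Γ ∧ ∃ (n : ℕ) (ε : ℚ), 0 < ε ∧
      (∀ i, i < n → ∃ C : ℕ, Bd T (Γ i) C) ∧
      ∀ y ∈ XW M.W T, (∀ i, i < n → |ev (Γ i) y - ev (Γ i) x| < ε) → y ∈ U := by
  refine and_congr_right fun hU => forall₂_congr fun x hx => ⟨?_, ?_⟩
  · rintro ⟨n, φ, ε, hε, h1, h2⟩
    have h3 : ∀ i, ∃ γ : Nd → ℝ, i < n →
        InW M.W γ ∧ (∃ C : ℕ, Bd T γ C) ∧ ∀ u ∈ XW M.W T, φ i u = ev γ u := by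
      intro i
      by_cases hi : i < n
      · obtain ⟨γ, hγ⟩ := (h1 i hi).exists_ev
        exact ⟨γ, fun _ => hγ⟩
      · exact ⟨0, fun h => absurd h hi⟩
    choose G hG using h3
    obtain ⟨Γ, hΓ, h4⟩ := exists_inW_eq G n (fun i hi => (hG i hi).1)
      (rb_zero (M := M) (T := T)).1
    refine ⟨Γ, hΓ, n, ε, hε, fun i hi => by rw [h4 i hi]; exact (hG i hi).2.1,
      fun y hy h5 => h2 y hy fun i hi => ?_⟩
    rw [(hG i hi).2.2 y hy, (hG i hi).2.2 x (hU hx), ← h4 i hi]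
    exact h5 i hi
  · rintro ⟨Γ, hΓ, n, ε, hε, h1, h2⟩
    refine ⟨n, fun i => ev (Γ i), ε, hε, fun i hi => ?_, h2⟩
    obtain ⟨C, hC⟩ := h1 i hi
    exact isDual_ev (hΓ.app i) hC

lemma rb_wopen : DfF M fun U : Set Vec => WOpen M.W (XW M.W T) (nrm T) U := by
  refine DfF.congr_iff ?_ fun U _ => wopen_iff.symm
  infer_instance

theorem inW_kBall : InW M.W (KBall M.W (XW M.W T) (nrm T)) := by
  have h1 : DfF M fun x : (ℕ × Set Vec) × Set (Set Vec) =>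
      ∀ U, U ∈ x.2 → WOpen M.W (XW M.W T) (nrm T) U :=
    DfF.ball inferInstance (rb_wopen.comp inferInstance)
  have h2 : KBall M.W (XW M.W T) (nrm T) = {K | InW M.W K ∧
      ((∀ u ∈ K, u ∈ XW M.W T ∧ nrm T u ≤ 1) ∧ ∀ 𝒰 : Set (Set Vec), InW M.W 𝒰 →
        (∀ U, U ∈ 𝒰 → WOpen M.W (XW M.W T) (nrm T) U) → K ⊆ ⋃₀ 𝒰 →
          ∃ 𝒱 : Set (Set Vec), InW M.W 𝒱 ∧ 𝒱 ⊆ 𝒰 ∧ 𝒱.Finite ∧ K ⊆ ⋃₀ 𝒱)} := by
    ext K
    refine and_congr_right fun _ => and_congr_right fun _ => forall₂_congr fun 𝒰 h𝒰 =>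
      imp_congr_right fun _ => imp_congr_right fun _ => exists_congr fun 𝒱 => ?_
    exact ⟨fun h => ⟨InW.finite h.2.1 fun a ha => h𝒰.of_mem (h.1 ha), h⟩, fun h => h.2⟩
  rw [h2]
  refine InW.of_df (DfF.setW (DfF.and inferInstance (DfF.allW (DfF.imp h1 ?_))))
  infer_instance

theorem KBall.le_one {K : Set Vec} (h : K ∈ KBall M.W (XW M.W T) (nrm T)) : ∀ u ∈ K, Le T u 1 :=
  fun u hu => (le_nrm (h.2.1 u hu).1.2).mono (h.2.1 u hu).2

end Pool.Agent.MP_c70ddc_lc.H1
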