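import Pool.Agent.MP_c70ddc_lc.H1.SpBasic

/-! The basis is shrinking along branches outside the projection of `T` (module B). -/

namespace Pool.Agent.MP_c70ddc_lc.H1

open Filter Topology

variable {T : Nd → List ℕ → Prop} {γ : Nd → ℝ} {C : ℝ}

/-- nonnegative vectors of norm at most one, finitely supported on the branch `x` -/
def b_Vec (T : Nd → List ℕ → Prop) (x : ℕ → Bool) (w : Nd → ℝ) : Prop :=
  (∀ s, 0 ≤ w s) ∧ (∃ N, ∀ s, w s ≠ 0 → On x s ∧ s.length < N) ∧ Le T w 1

/-- vanishing below level `M` -/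
def b_Bey (M : ℕ) (w : Nd → ℝ) : Prop := ∀ s : Nd, s.length < M → w s = 0

/-- a convex family of vectors on the branch with members arbitrarily far out -/
structure b_Sys (T : Nd → List ℕ → Prop) (x : ℕ → Bool) (S : Set (Nd → ℝ)) : Prop where
  vec : ∀ w ∈ S, b_Vec T x w
  conv : Convex ℝ S
  far : ∀ M, ∃ w ∈ S, b_Bey M w

/-- the data of an admissible sum -/
def b_Data (T : Nd → List ℕ → Prop) (k : ℕ) (m : ℕ → ℕ) (F : ℕ → Nd →₀ ℚ) : Prop :=
  Monotone m ∧ (∀ i, i < k → Nm T (F i)) ∧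
    ∀ i, i < k → ∀ s ∈ (F i).support, m i ≤ s.length ∧ s.length < m (i + 1) ∧ Adm T s m i

/-- admissible sums with prescribed first levels are small on `w` -/
def b_Good (T : Nd → List ℕ → Prop) (n : ℕ) (t : ℕ → ℕ) (c : ℝ) (w : Nd → ℝ) : Prop :=
  ∀ k m F, b_Data T k m F → (∀ i, i < n → m i = t i) →
    pr ((1 / 2 : ℚ) • ∑ i ∈ Finset.range k, F i) w ≤ c

/-- the inductive claim -/
def b_Claim (T : Nd → List ℕ → Prop) (x : ℕ → Bool) (n : ℕ) (t : ℕ → ℕ) : Prop :=
  ∀ S, b_Sys T x S → ∀ ε : ℝ, 0 < ε → ∀ M, ∃ w ∈ S, b_Bey M w ∧ b_Good T n t (1 / 2 + ε) w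

/-- admissibility along the branch -/
def b_AdmX (T : Nd → List ℕ → Prop) (x : ℕ → Bool) (m : ℕ → ℕ) (i : ℕ) : Prop :=
  i + 1 ≤ m 0 ∨ ∃ y : ℕ → ℕ, (∀ j, j ≤ i → y j ≤ m j) ∧ ∀ k, k ≤ i + 1 → T (pre x k) (pre y k)

lemma b_Data.nm {k : ℕ} {m : ℕ → ℕ} {F : ℕ → Nd →₀ ℚ} (h : b_Data T k m F) :
    Nm T ((1 / 2 : ℚ) • ∑ i ∈ Finset.range k, F i) := Nm.adm k m F h.1 h.2.1 h.2.2

lemma b_pr_add_le {f : Nd →₀ ℚ} (hf : Nm T f) (u v : Nd → ℝ) :
    pr f (u + v) ≤ pr f u + pr f v := by
  unfold pr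
  rw [← Finset.sum_add_distrib]
  refine Finset.sum_le_sum fun s _ => ?_
  have h0 : (0 : ℝ) ≤ f s := by exact_mod_cast hf.nonneg s
  rw [← mul_add]
  exact mul_le_mul_of_nonneg_left (abs_add_le _ _) h0

lemma b_pr_smul (f : Nd →₀ ℚ) {c : ℝ} (hc : 0 ≤ c) (u : Nd → ℝ) :
    pr f (c • u) = c * pr f u := by
  unfold pr
  rw [Finset.mul_sum]
  refine Finset.sum_congr rfl fun s _ => ?_
  rw [Pi.smul_apply, smul_eq_mul, abs_mul, abs_of_nonneg hc]; ring

lemma b_pr_sum_le {f : Nd →₀ ℚ} (hf : Nm T f) (w : ℕ → Nd → ℝ) (N : ℕ) :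
    pr f (∑ r ∈ Finset.range N, w r) ≤ ∑ r ∈ Finset.range N, pr f (w r) := by
  induction N with
  | zero => simp [pr]
  | succ N ih =>
    rw [Finset.sum_range_succ, Finset.sum_range_succ]
    exact (b_pr_add_le hf _ _).trans (by linarith)

lemma b_pr_zero {f : Nd →₀ ℚ} {w : Nd → ℝ} (h : ∀ s ∈ f.support, w s = 0) : pr f w = 0 := by
  unfold pr
  exact Finset.sum_eq_zero fun s hs => by rw [h s hs]; simp

/-- if a single summand sees `w`, the admissible sum is at most one half -/
lemma b_half {k : ℕ} {m : ℕ → ℕ} {F : ℕ → Nd →₀ ℚ} (h : b_Data T k m F) {w : Nd → ℝ}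
    (hw : Le T w 1) (j : ℕ) (hj : ∀ i, i < k → i ≠ j → ∀ s ∈ (F i).support, w s = 0) :
    pr ((1 / 2 : ℚ) • ∑ i ∈ Finset.range k, F i) w ≤ 1 / 2 := by
  rw [pr_smul_left, pr_sum_left]
  have h1 : ∑ i ∈ Finset.range k, pr (F i) w ≤ 1 := by
    by_cases hk : j < k
    · rw [Finset.sum_eq_single j]
      · exact hw _ (h.2.1 j hk)
      · intro i hi hij
        exact b_pr_zero (hj i (Finset.mem_range.1 hi) hij)
      · intro hn
        exact absurd (Finset.mem_range.2 hk) hn
    · rw [Finset.sum_eq_zero]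
      · exact zero_le_one
      · intro i hi
        have hi' := Finset.mem_range.1 hi
        exact b_pr_zero (hj i hi' (by omega))
  push_cast
  linarith

lemma b_sys_good {x : ℕ → Bool} {S : Set (Nd → ℝ)} (hS : b_Sys T x S) {n : ℕ} {t : ℕ → ℕ}
    (h : b_Claim T x n t) {ε : ℝ} (hε : 0 < ε) :
    b_Sys T x {w | w ∈ S ∧ b_Good T n t (1 / 2 + ε) w} := by
  refine ⟨fun w hw => hS.vec w hw.1, ?_, fun M => ?_⟩
  · intro u hu v hv a b ha hb hab
    refine ⟨hS.conv hu.1 hv.1 ha hb hab, fun k m F hd hm => ?_⟩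
    have h1 := hu.2 k m F hd hm
    have h2 := hv.2 k m F hd hm
    have h3 := b_pr_add_le hd.nm (a • u) (b • v)
    rw [b_pr_smul _ ha, b_pr_smul _ hb] at h3
    have h4 := mul_le_mul_of_nonneg_left h1 ha
    have h5 := mul_le_mul_of_nonneg_left h2 hb
    have h6 : a * (1 / 2 + ε) + b * (1 / 2 + ε) = 1 / 2 + ε := by rw [← add_mul, hab, one_mul]
    linarith
  · obtain ⟨w, hw, h1, h2⟩ := h S hS ε hε M
    exact ⟨w, ⟨hw, h2⟩, h1⟩

lemma b_many {x : ℕ → Bool} {S : Set (Nd → ℝ)} (hS : b_Sys T x S) {n : ℕ} {t : ℕ → ℕ}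
    (h : ∀ a, b_Claim T x (n + 1) (Function.update t n a)) {ε : ℝ} (hε : 0 < ε) (A : ℕ) :
    b_Sys T x {w | w ∈ S ∧ ∀ a, a < A →
      b_Good T (n + 1) (Function.update t n a) (1 / 2 + ε) w} := by
  induction A with
  | zero => simpa using hS
  | succ A ih =>
    have h1 := b_sys_good ih (h A) hε
    have h2 : {w | w ∈ S ∧ ∀ a, a < A + 1 →
        b_Good T (n + 1) (Function.update t n a) (1 / 2 + ε) w} =
        {w | w ∈ {w | w ∈ S ∧ ∀ a, a < A →
          b_Good T (n + 1) (Function.update t n a) (1 / 2 + ε) w} ∧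
          b_Good T (n + 1) (Function.update t n A) (1 / 2 + ε) w} := by
      ext w
      simp only [Set.mem_ofPred_eq]
      constructor
      · rintro ⟨h3, h4⟩
        exact ⟨⟨h3, fun a ha => h4 a (by omega)⟩, h4 A (by omega)⟩
      · rintro ⟨⟨h3, h4⟩, h5⟩
        refine ⟨h3, fun a ha => ?_⟩
        rcases Nat.lt_succ_iff_lt_or_eq.1 ha with h6 | h6
        · exact h4 a h6
        · rw [h6]; exact h5
    rw [h2]
    exact h1

/-- the claim passes from all children to the parent -/
lemma b_step {x : ℕ → Bool} {n : ℕ} {t : ℕ → ℕ}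
    (h : ∀ a, b_Claim T x (n + 1) (Function.update t n a)) : b_Claim T x n t := by
  intro S hS ε hε M
  have h1 : ∀ L : ℕ, ∃ w L', w ∈ S ∧ b_Bey L w ∧ (∀ a, a < L + 1 →
      b_Good T (n + 1) (Function.update t n a) (1 / 2 + ε / 2) w) ∧ L ≤ L' ∧
      ∀ s : Nd, w s ≠ 0 → s.length < L' := by
    intro L
    obtain ⟨w, ⟨hw, hg⟩, hb⟩ := (b_many hS h (half_pos hε) (L + 1)).far L
    obtain ⟨N, hN⟩ := (hS.vec w hw).2.1
    exact ⟨w, max L N, hw, hb, hg, le_max_left _ _,
      fun s hs => lt_of_lt_of_le (hN s hs).2 (le_max_right _ _)⟩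
  choose W g hW hb hg hle hsupp using h1
  obtain ⟨N0, hN0⟩ := exists_nat_gt (2 / ε)
  set N := N0 + 1 with hN
  have hNpos : (0 : ℝ) < N := by rw [hN]; positivity
  have hNε : 1 / (N : ℝ) ≤ ε / 2 := by
    rw [div_le_iff₀ hNpos]
    have h2 : 2 / ε < N := by rw [hN]; push_cast; linarith
    rw [div_lt_iff₀ hε] at h2
    linarith
  set M0 := max M ((Finset.range n).sup t) with hM0
  set L : ℕ → ℕ := fun r => g^[r] M0 with hL
  have hLs : ∀ r, L (r + 1) = g (L r) := fun r => Function.iterate_succ_apply' g r M0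
  have hLm : Monotone L := monotone_nat_of_le_succ fun r => by rw [hLs]; exact hle _
  have hL0 : ∀ r, M0 ≤ L r := fun r => hLm (Nat.zero_le r)
  refine ⟨∑ r ∈ Finset.range N, (1 / (N : ℝ)) • W (L r), ?_, ?_, ?_⟩
  · refine hS.conv.sum_mem (fun _ _ => by positivity) ?_ fun r _ => hW _
    rw [Finset.sum_const, Finset.card_range, nsmul_eq_mul]
    field_simp
  · intro s hs
    rw [Finset.sum_apply]
    refine Finset.sum_eq_zero fun r _ => ?_
    rw [Pi.smul_apply, hb (L r) s (lt_of_lt_of_le hs ((le_max_left _ _).trans (hL0 r))), smul_zero]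
  · intro k m F hd hm
    classical
    have h2 : ∀ r, pr ((1 / 2 : ℚ) • ∑ i ∈ Finset.range k, F i) (W (L r)) ≤
        (1 / 2 + ε / 2) + if L r < m n ∧ m n < L (r + 1) then 1 else 0 := by
      intro r
      split_ifs with hc
      · have := (hS.vec _ (hW (L r))).2.2 _ hd.nm
        linarith
      · by_cases h3 : m n ≤ L r
        · rw [add_zero]
          refine hg (L r) (m n) (by omega) k m F hd fun i hi => ?_
          rcases Nat.lt_succ_iff_lt_or_eq.1 hi with h4 | h4
          · rw [Function.update_of_ne (by omega)]; exact hm i h4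
          · rw [h4, Function.update_self]
        · have h4 : L (r + 1) ≤ m n := by omega
          have h5 := b_half hd (hS.vec _ (hW (L r))).2.2 (n - 1) fun i hi hin s hs => by
            obtain ⟨h6, h7, -⟩ := hd.2.2 i hi s hs
            by_cases h8 : n ≤ i
            · by_contra h9
              have h10 := hsupp (L r) s h9
              have h11 := hd.1 h8
              rw [← hLs] at h10
              omega
            · refine hb (L r) s ?_
              have h9 : i + 1 < n := by omega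
              have h10 : t (i + 1) ≤ (Finset.range n).sup t :=
                Finset.le_sup (Finset.mem_range.2 h9)
              have h11 := hL0 r
              rw [hm _ h9] at h7
              have h12 : (Finset.range n).sup t ≤ M0 := le_max_right _ _
              omega
          linarith
    have h3 : ∑ r ∈ Finset.range N, (if L r < m n ∧ m n < L (r + 1) then (1 : ℝ) else 0) ≤ 1 := by
      rw [Finset.sum_boole]
      have : ((Finset.range N).filter fun r => L r < m n ∧ m n < L (r + 1)).card ≤ 1 := by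
        refine Finset.card_le_one.2 fun a ha b hb' => ?_
        obtain ⟨-, h4, h5⟩ := Finset.mem_filter.1 ha
        obtain ⟨-, h6, h7⟩ := Finset.mem_filter.1 hb'
        by_contra hne
        rcases lt_or_gt_of_ne hne with h8 | h8
        · have := hLm (Nat.succ_le_of_lt h8)
          simp only [Nat.succ_eq_add_one] at this
          omega
        · have := hLm (Nat.succ_le_of_lt h8)
          simp only [Nat.succ_eq_add_one] at this
          omega
      exact_mod_cast this
    refine (b_pr_sum_le hd.nm _ N).trans ?_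
    have h4 : ∑ r ∈ Finset.range N,
        pr ((1 / 2 : ℚ) • ∑ i ∈ Finset.range k, F i) ((1 / (N : ℝ)) • W (L r)) =
        (1 / (N : ℝ)) * ∑ r ∈ Finset.range N,
          pr ((1 / 2 : ℚ) • ∑ i ∈ Finset.range k, F i) (W (L r)) := by
      rw [Finset.mul_sum]
      exact Finset.sum_congr rfl fun r _ => b_pr_smul _ (by positivity) _
    have h5 := Finset.sum_le_sum fun r (_ : r ∈ Finset.range N) => h2 r
    rw [Finset.sum_add_distrib, Finset.sum_const, Finset.card_range, nsmul_eq_mul] at h5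
    rw [h4]
    have h6 : (1 / (N : ℝ)) * ((N : ℝ) * (1 / 2 + ε / 2) + 1) = 1 / 2 + ε / 2 + 1 / N := by
      field_simp
    have h7 := mul_le_mul_of_nonneg_left (h5.trans (add_le_add le_rfl h3))
      (show (0 : ℝ) ≤ 1 / N by positivity)
    linarith

/-- the claim is trivial at levels that are not admissible along the branch -/
lemma b_stop {x : ℕ → Bool} {n : ℕ} {t : ℕ → ℕ} (h : ¬ b_AdmX T x t n) :
    b_Claim T x (n + 1) t := by
  intro S hS ε hε M
  obtain ⟨w, hw, hb⟩ := hS.far (max M ((Finset.range (n + 1)).sup t))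
  refine ⟨w, hw, fun s hs => hb s (lt_of_lt_of_le hs (le_max_left _ _)), fun k m F hd hm => ?_⟩
  have h1 := b_half hd (hS.vec w hw).2.2 (k + n) fun i hi _ s hs => by
    obtain ⟨h6, h7, h8⟩ := hd.2.2 i hi s hs
    by_cases h9 : n ≤ i
    · by_contra h10
      obtain ⟨N, hN⟩ := (hS.vec w hw).2.1
      have h11 : On x s := (hN s h10).1
      apply h
      rcases h8 with h8 | ⟨h12, y, h13, h14⟩
      · left
        rw [← hm 0 (by omega)]
        omega
      · right
        refine ⟨y, fun j hj => ?_, fun j hj => ?_⟩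
        · rw [← hm j (by omega)]
          exact h13 j (by omega)
        · have h15 := h14 j (by omega)
          have h16 : s.take j = pre x j := by
            have h17 : s = pre x s.length := h11
            rw [h17]
            exact take_pre x (by omega)
          rwa [h16] at h15
    · refine hb s ?_
      have h10 : t (i + 1) ≤ (Finset.range (n + 1)).sup t :=
        Finset.le_sup (Finset.mem_range.2 (by omega))
      rw [hm _ (by omega)] at h7
      exact lt_of_lt_of_le h7 (h10.trans (le_max_right _ _))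
  linarith

/-- compactness: admissibility at every length puts the branch into the projection -/
lemma b_koenig {x : ℕ → Bool} {m : ℕ → ℕ} (h : ∀ i, b_AdmX T x m i) : x ∈ Bset T := by
  have hK : IsCompact (Set.pi Set.univ fun j => Set.Iic (m j)) :=
    isCompact_univ_pi fun j => (Set.finite_Iic (m j)).isCompact
  let A : ℕ → Set (ℕ → ℕ) := fun i =>
    (Set.pi Set.univ fun j => Set.Iic (m j)) ∩ {y | ∀ k, k ≤ i → T (pre x k) (pre y k)}
  have hcl : ∀ i, IsClosed {y : ℕ → ℕ | ∀ k, k ≤ i → T (pre x k) (pre y k)} := by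
    intro i
    rw [← isOpen_compl_iff, isOpen_iff_mem_nhds]
    intro y hy
    have h1 : ∀ᶠ z in 𝓝 y, ∀ j ∈ Finset.range i, z j = y j := by
      rw [Filter.eventually_all_finset]
      intro j _
      have h2 : Tendsto (fun z : ℕ → ℕ => z j) (𝓝 y) (𝓝 (y j)) :=
        (continuous_apply j).continuousAt
      exact h2.eventually (p := fun a => a = y j) (by rw [nhds_discrete]; simp)
    refine h1.mono fun z hz hz' => hy fun k hk => ?_
    have h2 : pre z k = pre y k :=
      pre_eq_iff.2 fun j hj => hz j (Finset.mem_range.2 (by omega))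
    rw [← h2]
    exact hz' k hk
  have hne : ∀ i, (A i).Nonempty := by
    intro i
    rcases h (i + m 0) with h1 | ⟨y, h1, h2⟩
    · omega
    · refine ⟨fun j => if j < i then y j else 0, fun j _ => ?_, fun k hk => ?_⟩
      · show (if j < i then y j else 0) ≤ m j
        split_ifs with hj
        · exact h1 j (by omega)
        · exact Nat.zero_le _
      · have h3 : pre (fun j => if j < i then y j else 0) k = pre y k :=
          pre_eq_iff.2 fun j hj => if_pos (by omega)
        rw [h3]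
        exact h2 k (by omega)
  obtain ⟨y, hy⟩ := IsCompact.nonempty_iInter_of_sequence_nonempty_isCompact_isClosed A
    (fun i z hz => ⟨hz.1, fun k hk => hz.2 k (by omega)⟩) hne
    (hK.inter_right (hcl 0)) fun i => hK.isClosed.inter (hcl i)
  exact ⟨y, fun k => (Set.mem_iInter.1 hy k).2 k le_rfl⟩

lemma b_root {x : ℕ → Bool} (hx : x ∉ Bset T) : b_Claim T x 0 0 := by
  by_contra h0
  have h1 : ∀ n t, ∃ a, ¬ b_Claim T x n t → ¬ b_Claim T x (n + 1) (Function.update t n a) := by
    intro n t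
    by_cases h : b_Claim T x n t
    · exact ⟨0, fun h' => absurd h h'⟩
    · by_contra h2
      push Not at h2
      exact h (b_step fun a => (h2 a).2)
  choose g hg using h1
  let q : ℕ → ℕ → ℕ := fun n => Nat.rec 0 (fun n t => Function.update t n (g n t)) n
  have hq : ∀ n, q (n + 1) = Function.update (q n) n (g n (q n)) := fun n => rfl
  have h2 : ∀ n, ¬ b_Claim T x n (q n) := by
    intro n
    induction n with
    | zero => exact h0
    | succ n ih => rw [hq]; exact hg n _ ih
  have h3 : ∀ n i, i < n → q n i = q (i + 1) i := by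
    intro n
    induction n with
    | zero => intro i hi; omega
    | succ n ih =>
      intro i hi
      rcases Nat.lt_succ_iff_lt_or_eq.1 hi with h4 | h4
      · rw [hq n, Function.update_of_ne (by omega)]; exact ih i h4
      · rw [h4]
  refine hx (b_koenig (m := fun i => q (i + 1) i) fun i => ?_)
  by_contra h4
  refine h2 (i + 1) (b_stop fun h5 => h4 ?_)
  rcases h5 with h5 | ⟨y, h5, h6⟩
  · left
    exact h5.trans (h3 (i + 1) 0 (by omega)).le
  · right
    refine ⟨y, fun j hj => ?_, h6⟩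
    exact (h5 j hj).trans (h3 (i + 1) j (by omega)).le

/-- every system has a member of norm at most `3 / 5` -/
lemma b_small {x : ℕ → Bool} (hx : x ∉ Bset T) {S : Set (Nd → ℝ)} (hS : b_Sys T x S) :
    ∃ w ∈ S, Le T w (3 / 5) := by
  have hG := b_sys_good hS (b_root hx) (show (0 : ℝ) < 1 / 10 by norm_num)
  obtain ⟨u, hu, -⟩ := hG.far 0
  obtain ⟨N, hN⟩ := (hG.vec u hu).2.1
  obtain ⟨v, hv, hb⟩ := hG.far N
  have hw := hG.conv hu hv (show (0 : ℝ) ≤ 1 / 2 by norm_num) (show (0 : ℝ) ≤ 1 / 2 by norm_num)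
    (by norm_num)
  set w := (1 / 2 : ℝ) • u + (1 / 2 : ℝ) • v with hwd
  obtain ⟨N', hN'⟩ := (hG.vec w hw).2.1
  refine ⟨w, hw.1, fun f hf => ?_⟩
  induction hf with
  | zero => simp only [pr, Finsupp.support_zero, Finset.sum_empty]; norm_num
  | single s =>
    rw [pr_single]
    have h1 := (hG.vec u hu).2.2.abs_le s
    have h2 := (hG.vec v hv).2.2.abs_le s
    have h3 : w s = 1 / 2 * u s + 1 / 2 * v s := rfl
    rw [abs_le] at h1 h2 ⊢
    by_cases h4 : u s = 0
    · constructor <;> linarith [h1.1, h1.2, h2.1, h2.2]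
    · have h5 := hb s (hN s h4).2
      constructor <;> linarith [h1.1, h1.2, h2.1, h2.2]
  | inc f g _ _ hfg ihf ihg =>
    rw [pr_add_left]
    by_cases h1 : ∀ s ∈ f.support, w s = 0
    · rw [b_pr_zero h1]; linarith
    · push Not at h1
      obtain ⟨s, hs, hs'⟩ := h1
      have h2 : ∀ s' ∈ g.support, w s' = 0 := by
        intro s' h3
        by_contra h4
        rcases (hN' s hs').1.comparable (hN' s' h4).1 with h5 | h5
        · exact (hfg s hs s' h3).1 h5
        · exact (hfg s hs s' h3).2 h5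
      rw [b_pr_zero h2]; linarith
  | adm k m F h1 h2 h3 _ =>
    have := hw.2 k m F ⟨h1, h2, h3⟩ (fun i hi => absurd hi (Nat.not_lt_zero i))
    linarith

lemma b_bd_nonneg {R : ℝ} (h : Bd T γ R) : 0 ≤ R := by
  have := h 0 1 ∅ (le_zero.mono zero_le_one)
  simpa using this

lemma b_bd_mono {R R' : ℝ} (h : Bd T γ R) (hR : R ≤ R') : Bd T γ R' := fun w D F hw =>
  (h w D F hw).trans (mul_le_mul_of_nonneg_right hR hw.nonneg)

lemma b_bd_cut {R : ℝ} {A B : Set Nd} (h : Bd T (cut B γ) R) (hAB : A ⊆ B) :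
    Bd T (cut A γ) R := by
  intro w D F hw
  refine le_trans (Finset.sum_le_sum fun s _ => ?_) (h w D F hw)
  refine mul_le_mul_of_nonneg_right ?_ (abs_nonneg _)
  by_cases hs : s ∈ A
  · simp only [cut, Set.indicator_of_mem hs, Set.indicator_of_mem (hAB hs), le_refl]
  · simp only [cut, Set.indicator_of_notMem hs, abs_zero, abs_nonneg]

lemma b_improve {x : ℕ → Bool} (hx : x ∉ Bset T) {R : ℝ} {M0 : ℕ}
    (h : Bd T (cut {s | On x s ∧ M0 ≤ s.length} γ) R) :
    ∃ M : ℕ, Bd T (cut {s | On x s ∧ M ≤ s.length} γ) (7 / 10 * R) := by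
  classical
  by_contra hn
  push Not at hn
  have hR := b_bd_nonneg h
  have hS : b_Sys T x {w | b_Vec T x w ∧ b_Bey M0 w ∧
      ∃ F : Finset Nd, 7 / 10 * R < ∑ s ∈ F, |γ s| * w s} := by
    refine ⟨fun w hw => hw.1, ?_, fun M => ?_⟩
    · rintro u ⟨⟨hu0, ⟨Nu, hNu⟩, hu1⟩, hub, Fu, hFu⟩ v ⟨⟨hv0, ⟨Nv, hNv⟩, hv1⟩, hvb, Fv, hFv⟩
        a b ha hb hab
      refine ⟨⟨fun s => ?_, ⟨max Nu Nv, fun s hs => ?_⟩, ?_⟩, fun s hs => ?_, Fu ∪ Fv, ?_⟩
      · exact add_nonneg (mul_nonneg ha (hu0 s)) (mul_nonneg hb (hv0 s))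
      · by_cases h1 : u s = 0
        · by_cases h2 : v s = 0
          · exact absurd (show a * u s + b * v s = 0 by rw [h1, h2]; ring) hs
          · exact ⟨(hNv s h2).1, lt_of_lt_of_le (hNv s h2).2 (le_max_right _ _)⟩
        · exact ⟨(hNu s h1).1, lt_of_lt_of_le (hNu s h1).2 (le_max_left _ _)⟩
      · refine ((hu1.smul a).add (hv1.smul b)).mono ?_
        rw [abs_of_nonneg ha, abs_of_nonneg hb]; linarith
      · show a * u s + b * v s = 0
        rw [hub s hs, hvb s hs]; ring
      · have h1 : ∑ s ∈ Fu, |γ s| * u s ≤ ∑ s ∈ Fu ∪ Fv, |γ s| * u s :=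
          Finset.sum_le_sum_of_subset_of_nonneg Finset.subset_union_left
            fun s _ _ => mul_nonneg (abs_nonneg _) (hu0 s)
        have h2 : ∑ s ∈ Fv, |γ s| * v s ≤ ∑ s ∈ Fu ∪ Fv, |γ s| * v s :=
          Finset.sum_le_sum_of_subset_of_nonneg Finset.subset_union_right
            fun s _ _ => mul_nonneg (abs_nonneg _) (hv0 s)
        have h3 : ∑ s ∈ Fu ∪ Fv, |γ s| * (a • u + b • v) s =
            a * ∑ s ∈ Fu ∪ Fv, |γ s| * u s + b * ∑ s ∈ Fu ∪ Fv, |γ s| * v s := by
          rw [Finset.mul_sum, Finset.mul_sum, ← Finset.sum_add_distrib]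
          refine Finset.sum_congr rfl fun s _ => ?_
          show |γ s| * (a * u s + b * v s) = _
          ring
        rw [h3]
        have h4 := hFu.trans_le h1
        have h5 := hFv.trans_le h2
        have h6 : 7 / 10 * R = a * (7 / 10 * R) + b * (7 / 10 * R) := by
          rw [← add_mul, hab, one_mul]
        rcases eq_or_lt_of_le ha with h7 | h7
        · have h8 : b = 1 := by linarith
          rw [← h7, h8]; linarith
        · have h8 := mul_lt_mul_of_pos_left h4 h7
          have h9 := mul_le_mul_of_nonneg_left h5.le hb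
          linarith
    · have h1 := hn (max M M0)
      unfold Bd at h1
      push Not at h1
      obtain ⟨w, D, F, hw, hF⟩ := h1
      have hD : 0 < D := by
        rcases eq_or_lt_of_le hw.nonneg with h2 | h2
        · exfalso
          rw [Finset.sum_eq_zero, ← h2] at hF
          · simp at hF
          · intro s _
            have h3 := hw.abs_le s
            rw [← h2] at h3
            rw [le_antisymm h3 (abs_nonneg _), mul_zero]
        · exact h2
      let v : Nd → ℝ := fun s => if s ∈ F ∧ On x s ∧ max M M0 ≤ s.length then |w s| / D else 0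
      have hvb : ∀ s : Nd, s.length < max M M0 → v s = 0 := fun s hs =>
        if_neg fun h2 => absurd h2.2.2 (by omega)
      refine ⟨v, ⟨⟨fun s => ?_, ⟨F.sup List.length + 1, fun s hs => ?_⟩, ?_⟩,
        fun s hs => hvb s (lt_of_lt_of_le hs (le_max_right _ _)), F, ?_⟩,
        fun s hs => hvb s (lt_of_lt_of_le hs (le_max_left _ _))⟩
      · show 0 ≤ if s ∈ F ∧ On x s ∧ max M M0 ≤ s.length then |w s| / D else 0
        split_ifs
        · positivity
        · exact le_rfl
      · have h2 : s ∈ F ∧ On x s ∧ max M M0 ≤ s.length := by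
          by_contra h3
          exact hs (if_neg h3)
        exact ⟨h2.2.1, Nat.lt_succ_of_le (Finset.le_sup (f := List.length) h2.1)⟩
      · have h2 := hw.smul D⁻¹
        rw [abs_of_pos (inv_pos.2 hD), inv_mul_cancel₀ hD.ne'] at h2
        refine h2.of_abs_le fun s => ?_
        show |if s ∈ F ∧ On x s ∧ max M M0 ≤ s.length then |w s| / D else 0| ≤ |D⁻¹ * w s|
        split_ifs
        · rw [abs_mul, abs_div, abs_abs, abs_inv, div_eq_inv_mul]
        · simp only [abs_zero, abs_nonneg]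
      · have h2 : ∑ s ∈ F, |γ s| * v s =
            (∑ s ∈ F, |cut {s | On x s ∧ max M M0 ≤ s.length} γ s| * |w s|) / D := by
          rw [Finset.sum_div]
          refine Finset.sum_congr rfl fun s hs => ?_
          by_cases h3 : On x s ∧ max M M0 ≤ s.length
          · have h4 : v s = |w s| / D := if_pos ⟨hs, h3⟩
            have h5 : cut {s | On x s ∧ max M M0 ≤ s.length} γ s = γ s :=
              Set.indicator_of_mem (show s ∈ {s | On x s ∧ max M M0 ≤ s.length} from h3) γ
            rw [h4, h5]; ring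
          · have h4 : v s = 0 := if_neg fun h5 => h3 h5.2
            have h5 : cut {s | On x s ∧ max M M0 ≤ s.length} γ s = 0 :=
              Set.indicator_of_notMem (show s ∉ {s | On x s ∧ max M M0 ≤ s.length} from h3) γ
            rw [h4, h5]; simp
        rw [h2, lt_div_iff₀ hD]
        exact hF
  obtain ⟨w, ⟨⟨hw0, ⟨N, hN⟩, -⟩, hwb, F, hF⟩, hw⟩ := b_small hx hS
  have h1 := h w _ F hw
  have h2 : ∑ s ∈ F, |cut {s | On x s ∧ M0 ≤ s.length} γ s| * |w s| = ∑ s ∈ F, |γ s| * w s := by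
    refine Finset.sum_congr rfl fun s _ => ?_
    by_cases h3 : w s = 0
    · rw [h3]; simp
    · have h4 : M0 ≤ s.length := by
        by_contra h5
        exact h3 (hwb s (by omega))
      have h5 : cut {s | On x s ∧ M0 ≤ s.length} γ s = γ s :=
        Set.indicator_of_mem (show s ∈ {s | On x s ∧ M0 ≤ s.length} from ⟨(hN s h3).1, h4⟩) γ
      rw [h5, abs_of_nonneg (hw0 s)]
  rw [h2] at h1
  linarith

lemma shrinking {x : ℕ → Bool} (hx : x ∉ Bset T) (h : Bd T γ C) {ε : ℝ} (hε : 0 < ε) :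
    ∃ M : ℕ, Bd T (cut {s | On x s ∧ M ≤ s.length} γ) ε := by
  have h1 : ∀ j : ℕ, ∃ M : ℕ, Bd T (cut {s | On x s ∧ M ≤ s.length} γ) ((7 / 10) ^ j * C) := by
    intro j
    induction j with
    | zero =>
      refine ⟨0, b_bd_cut (B := Set.univ) ?_ (Set.subset_univ _)⟩
      simpa [cut] using h
    | succ j ih =>
      obtain ⟨M0, hM0⟩ := ih
      obtain ⟨M, hM⟩ := b_improve hx hM0
      exact ⟨M, b_bd_mono hM (le_of_eq (by ring))⟩
  have h2 : Tendsto (fun j : ℕ => (7 / 10 : ℝ) ^ j * C) atTop (𝓝 (0 * C)) :=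
    (tendsto_pow_atTop_nhds_zero_of_lt_one (by norm_num) (by norm_num)).mul_const C
  rw [zero_mul] at h2
  obtain ⟨j, hj⟩ := (h2.eventually (gt_mem_nhds hε)).exists
  obtain ⟨M, hM⟩ := h1 j
  exact ⟨M, b_bd_mono hM hj.le⟩

lemma KK_unif {F : ℕ → Set (ℕ → Bool)} {m : ℕ → ℕ} (hF : ∀ k, (F k).Finite)
    (hB : ∀ k, ∀ x ∈ F k, x ∉ Bset T) (h : Bd T γ C) {ε : ℝ} (hε : 0 < ε) :
    ∃ M : ℕ, ∀ M' ≥ M, ∀ u ∈ KK T F m, |ev γ u - ∑ s ∈ lev M', γ s * u s| ≤ ε := by
  classical
  have hC := b_bd_nonneg h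
  obtain ⟨k, hk⟩ := exists_nat_gt (2 * C / ε)
  have hk' : C * (1 / ((k : ℝ) + 1)) ≤ ε / 2 := by
    rw [div_lt_iff₀ hε] at hk
    rw [mul_one_div, div_le_iff₀ (by positivity)]
    nlinarith
  set G := (hF k).toFinset with hG
  have hη : 0 < ε / 2 / ((G.card : ℝ) + 1) := by positivity
  have h1 : ∀ x, ∃ M : ℕ, x ∈ F k →
      Bd T (cut {s | On x s ∧ M ≤ s.length} γ) (ε / 2 / ((G.card : ℝ) + 1)) := by
    intro x
    by_cases hx : x ∈ F k
    · obtain ⟨M, hM⟩ := shrinking (hB k x hx) h hη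
      exact ⟨M, fun _ => hM⟩
    · exact ⟨0, fun h' => absurd h' hx⟩
  choose Mx hMx using h1
  refine ⟨max (m k) (G.sup Mx), fun M' hM' u hu => ?_⟩
  have h2 : ∀ E : Finset Nd, (∀ s ∈ E, M' ≤ s.length) → ∑ s ∈ E, |γ s| * |u s| ≤ ε := by
    intro E hE
    have h3 : ∀ s ∈ E, |γ s| * |u s| ≤
        |γ s| * |cut {s | m k ≤ s.length ∧ ∀ x ∈ F k, ¬ On x s} u s| +
          ∑ x ∈ G, |cut {s | On x s ∧ Mx x ≤ s.length} γ s| * |u s| := by
      intro s hs
      have h4 := hE s hs
      have h5 : 0 ≤ ∑ x ∈ G, |cut {s | On x s ∧ Mx x ≤ s.length} γ s| * |u s| :=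
        Finset.sum_nonneg fun x _ => by positivity
      by_cases h6 : ∀ x ∈ F k, ¬ On x s
      · have h7 : cut {s | m k ≤ s.length ∧ ∀ x ∈ F k, ¬ On x s} u s = u s :=
          Set.indicator_of_mem (show s ∈ {s | m k ≤ s.length ∧ ∀ x ∈ F k, ¬ On x s} from
            ⟨((le_max_left _ _).trans hM').trans h4, h6⟩) u
        rw [h7]; linarith
      · push Not at h6
        obtain ⟨x, hx, hxs⟩ := h6
        have hxG : x ∈ G := (hF k).mem_toFinset.2 hx
        have h7 : Mx x ≤ s.length :=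
          ((Finset.le_sup (f := Mx) hxG).trans ((le_max_right _ _).trans hM')).trans h4
        have h8 : cut {s | On x s ∧ Mx x ≤ s.length} γ s = γ s :=
          Set.indicator_of_mem (show s ∈ {s | On x s ∧ Mx x ≤ s.length} from ⟨hxs, h7⟩) γ
        have h9 := Finset.single_le_sum
          (f := fun x => |cut {s | On x s ∧ Mx x ≤ s.length} γ s| * |u s|)
          (fun x _ => by positivity) hxG
        simp only [h8] at h9
        have h10 : 0 ≤ |γ s| * |cut {s | m k ≤ s.length ∧ ∀ x ∈ F k, ¬ On x s} u s| := by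
          positivity
        linarith
    have h4 := Finset.sum_le_sum h3
    rw [Finset.sum_add_distrib, Finset.sum_comm] at h4
    have h5 := h _ _ E (hu.2 k)
    have h6 : ∑ x ∈ G, ∑ s ∈ E, |cut {s | On x s ∧ Mx x ≤ s.length} γ s| * |u s| ≤
        G.card • (ε / 2 / ((G.card : ℝ) + 1)) := by
      refine Finset.sum_le_card_nsmul _ _ _ fun x hx => ?_
      have h7 := hMx x ((hF k).mem_toFinset.1 hx) u 1 E hu.1
      rwa [mul_one] at h7
    have h7 : G.card • (ε / 2 / ((G.card : ℝ) + 1)) ≤ ε / 2 := by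
      rw [nsmul_eq_mul, ← mul_div_assoc, div_le_iff₀ (by positivity)]
      nlinarith
    linarith
  have h3 := ((h.tendsto_ev ⟨1, hu.1⟩).sub_const (∑ s ∈ lev M', γ s * u s)).abs
  refine le_of_tendsto h3 (Filter.eventually_atTop.2 ⟨M', fun M'' hM'' => ?_⟩)
  have h4 : lev M' ⊆ lev M'' := fun s hs => mem_lev.2 (lt_of_lt_of_le (mem_lev.1 hs) hM'')
  show |∑ s ∈ lev M'', γ s * u s - ∑ s ∈ lev M', γ s * u s| ≤ ε
  rw [← Finset.sum_sdiff h4, add_sub_cancel_right]
  refine (Finset.abs_sum_le_sum_abs _ _).trans ?_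
  simp only [abs_mul]
  refine h2 _ fun s hs => ?_
  have h5 := (Finset.mem_sdiff.1 hs).2
  rw [mem_lev] at h5
  omega

end Pool.Agent.MP_c70ddc_lc.H1
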