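import Pool.Agent.MP_c70ddc_lc.H1.RBan
import Pool.Agent.MP_c70ddc_lc.H1.KCpt
import Pool.Agent.MP_c70ddc_lc.H1.SpShrink

/-! Weakly compact sets of the model (module RC). -/

namespace Pool.Agent.MP_c70ddc_lc.H1

set_option synthInstance.maxSize 100000

variable {M : Md} [OrcS M.W] [Ch M] {T : Nd → List ℕ → Prop} [hT : InW M.W T]

theorem KW_mem {F : ℕ → Set (ℕ → Bool)} {m : ℕ → ℕ} (hF : InW M.W F) (hm : InW M.W m)
    (h : ∀ k, (F k).Finite ∧ ∀ x ∈ F k, x ∉ Bset T) :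
    KW M.W T F m ∈ KBall M.W (XW M.W T) (nrm T) := by
  have hK : InW M.W (KW M.W T F m) := inferInstance
  refine ⟨hK, fun u hu => ⟨⟨hu.1, 1, hu.2.1⟩, hu.2.1.nrm_le⟩, fun 𝒰 h𝒰 hO hc => ?_⟩
  refine compact_cover (isCompact_KK T F m) hK h𝒰 fun a ha haW => ?_
  obtain ⟨U, hU, haU⟩ := hc (show a ∈ KW M.W T F m from ⟨haW, ha⟩)
  obtain ⟨Γ, -, n, ε, hε, h1, h2⟩ := (wopen_iff.1 (hO U hU)).2 a haU
  have hε' : (0 : ℝ) < (ε : ℝ) / 3 := by
    have : (0 : ℝ) < ε := by exact_mod_cast hε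
    positivity
  refine ⟨U, hU, ?_⟩
  have h3 : ∀ i ∈ Finset.range n, ∀ᶠ u in nhds a,
      u ∈ KK T F m → |ev (Γ i) u - ev (Γ i) a| < ε := by
    intro i hi
    obtain ⟨C, hC⟩ := h1 i (Finset.mem_range.1 hi)
    obtain ⟨N, hN⟩ := KK_unif (m := m) (fun k => (h k).1) (fun k => (h k).2) hC hε'
    have h4 : Continuous fun u : Nd → ℝ => ∑ s ∈ lev N, Γ i s * u s := by fun_prop
    have h5 := Metric.tendsto_nhds.1 (h4.tendsto a) _ hε'
    refine h5.mono fun u hu huK => ?_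
    have h6 := hN N le_rfl u huK
    have h7 := hN N le_rfl a ha
    rw [Real.dist_eq, abs_lt] at hu
    rw [abs_le] at h6 h7
    rw [abs_lt]
    constructor <;> linarith [hu.1, hu.2, h6.1, h6.2, h7.1, h7.2]
  refine ((Filter.eventually_all_finset _).2 h3).mono fun u hu huK huW => ?_
  exact h2 u ⟨huW, 1, huK.1⟩ fun i hi => hu i (Finset.mem_range.2 hi) huK

end Pool.Agent.MP_c70ddc_lc.H1
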