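import Pool.Agent.MP_c70ddc_lc.H1.KSum
import Pool.Agent.MP_c70ddc_lc.H1.KAbs
import Pool.Agent.MP_c70ddc_lc.H1.SpBasic

/-! The notions attached to the space are definable in the model (module RA). -/

namespace Pool.Agent.MP_c70ddc_lc.H1

universe u

set_option synthInstance.maxSize 100000

noncomputable instance enNats : En (List ℕ) := En.ofCountable _
noncomputable instance cdNats : Cd (List ℕ) := Cd.ofEn _
noncomputable instance enFs : En (Nd →₀ ℚ) := En.ofCountable _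
noncomputable instance cdFs : Cd (Nd →₀ ℚ) := Cd.ofEn _
noncomputable instance enTau : En (Finset (Nd × List ℕ)) := En.ofCountable _
noncomputable instance cdTau : Cd (Finset (Nd × List ℕ)) := Cd.ofEn _

/-- `W` contains the combinatorics of words and of rational finitely supported vectors -/
class OrcS (W : ZFSet.{0}) : Prop extends OrcQ W where
  hS : InW W (Set.range (enc : Nd → ℕ)) ∧
    InW W (Set.range (enc : List ℕ → ℕ)) ∧
    InW W (Set.range (enc : (Nd →₀ ℚ) → ℕ)) ∧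
    InW W (Set.range (enc : Finset (Nd × List ℕ) → ℕ)) ∧
    InW W (enc '' {p : Nd × ℕ | p.2 = p.1.length}) ∧
    InW W (enc '' {p : (Nd × Bool) × Nd | p.2 = p.1.1 ++ [p.1.2]}) ∧
    InW W (enc '' {p : (List ℕ × ℕ) × List ℕ | p.2 = p.1.1 ++ [p.1.2]}) ∧
    InW W (enc '' {p : ((Nd →₀ ℚ) × Nd) × ℚ | p.2 = p.1.1 p.1.2}) ∧
    InW W (enc '' {p : ((Nd →₀ ℚ) × (Nd →₀ ℚ)) × (Nd →₀ ℚ) | p.2 = p.1.1 + p.1.2}) ∧
    InW W (enc '' {p : (ℚ × (Nd →₀ ℚ)) × (Nd →₀ ℚ) | p.2 = p.1.1 • p.1.2}) ∧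
    InW W (enc '' {p : Finset (Nd × List ℕ) × (Nd →₀ ℚ) | Nm (fun s t => (s, t) ∈ p.1) p.2}) ∧
    InW W (enc '' {p : (Nd × List ℕ) × Finset (Nd × List ℕ) | p.1 ∈ p.2})

lemma avail_orcS : Avail OrcS :=
  Avail.mono (fun _ h => { toOrcQ := h.1, hS := h.2 }) (avail_orcQ.and
    ((Avail.base _).and ((Avail.base _).and ((Avail.base _).and ((Avail.base _).and
    ((Avail.base _).and ((Avail.base _).and ((Avail.base _).and ((Avail.base _).and
    ((Avail.base _).and ((Avail.base _).and ((Avail.base _).and (Avail.base _)))))))))))))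

variable {M : Md} [OrcS M.W] {α : Type u} [Cd α]

instance : HF M Nd := HF.ofEn (OrcS.hS (W := M.W)).1
instance : HF M (List ℕ) := HF.ofEn (OrcS.hS (W := M.W)).2.1
instance : HF M (Nd →₀ ℚ) := HF.ofEn (OrcS.hS (W := M.W)).2.2.1
instance : EnD M (List ℕ) := EnD.ofEn
instance : EnD M (Nd →₀ ℚ) := EnD.ofEn
instance ra_hfTau : HF M (Finset (Nd × List ℕ)) := HF.ofEn (OrcS.hS (W := M.W)).2.2.2.1
instance ra_enDTau : EnD M (Finset (Nd × List ℕ)) := EnD.ofEn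

lemma ra_pre_succ {κ : Type} (x : ℕ → κ) (n : ℕ) : pre x (n + 1) = pre x n ++ [x n] := by
  simp only [pre, List.range_succ, List.map_append, List.map_cons, List.map_nil]

omit [OrcS M.W] in
lemma ra_pre {κ : Type} [Cd κ] [HF M κ] [Cd (List κ)] [HF M (List κ)]
    (h : DfF M fun p : List κ × κ => p.1 ++ [p.2]) :
    DfF M fun p : (ℕ → κ) × ℕ => pre p.1 p.2 :=
  DfF.natRec (z := fun _ => ([] : List κ)) (s := fun a n l => l ++ [a n])
    (F := fun a n => pre a n) (DfF.constHF _)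
    (h.comp (f := fun y : (ℕ → κ) × ℕ × List κ => (y.2.2, y.1 y.2.1))
      (DfF.id.snd.snd.prodMk (DfF.app DfF.id.fst DfF.id.snd.fst)))
    (fun _ => rfl) fun a n => ra_pre_succ a n

variable {s : α → Nd} {x : α → ℕ → Bool} {n : α → ℕ} {f g : α → Nd →₀ ℚ} {u v : α → Nd → ℝ}
  {c : α → ℝ}

lemma DfF.length (hs : DfF M s) : DfF M fun a => (s a).length :=
  DfF.comp (g := fun l : Nd => l.length)
    (DfF.of_enc (f := fun l : Nd => l.length) (OrcS.hS (W := M.W)).2.2.2.2.1) hs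
instance (priority := 9000) DfF_length_inst [hs : DfF M s] :
    DfP M fun a => (s a).length :=
  ⟨DfF.length hs⟩
lemma DfF.pre (hx : DfF M x) (hn : DfF M n) : DfF M fun a => pre (x a) (n a) :=
  DfF.comp2 (k := fun (y : ℕ → Bool) (j : ℕ) => H1.pre y j)
    (ra_pre (DfF.of_enc (f := fun p : Nd × Bool => p.1 ++ [p.2])
      (OrcS.hS (W := M.W)).2.2.2.2.2.1)) hx hn
instance (priority := 9000) DfF_pre_inst [hx : DfF M x] [hn : DfF M n] :
    DfP M fun a => pre (x a) (n a) :=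
  ⟨DfF.pre hx hn⟩
lemma DfF.preNat {y : α → ℕ → ℕ} (hy : DfF M y) (hn : DfF M n) :
    DfF M fun a => H1.pre (y a) (n a) :=
  DfF.comp2 (k := fun (y : ℕ → ℕ) (j : ℕ) => H1.pre y j)
    (ra_pre (DfF.of_enc (f := fun p : List ℕ × ℕ => p.1 ++ [p.2])
      (OrcS.hS (W := M.W)).2.2.2.2.2.2.1)) hy hn
instance (priority := 9000) DfF_preNat_inst {y : α → ℕ → ℕ} [hy : DfF M y] [hn : DfF M n] :
    DfP M fun a => H1.pre (y a) (n a) :=
  ⟨DfF.preNat hy hn⟩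
lemma DfF.on (hx : DfF M x) (hs : DfF M s) : DfF M fun a => On (x a) (s a) :=
  DfF.eq hs (DfF.pre hx hs.length)
instance (priority := 9000) DfF_on_inst [hx : DfF M x] [hs : DfF M s] :
    DfP M fun a => On (x a) (s a) :=
  ⟨DfF.on hx hs⟩
lemma DfF.memLev (hs : DfF M s) (hn : DfF M n) : DfF M fun a => s a ∈ lev (n a) :=
  (DfF.nlt hs.length hn).congr_iff fun _ _ => mem_lev.symm
instance (priority := 9000) DfF_memLev_inst [hs : DfF M s] [hn : DfF M n] :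
    DfP M fun a => s a ∈ lev (n a) :=
  ⟨DfF.memLev hs hn⟩
lemma DfF.fsApp (hf : DfF M f) (hs : DfF M s) : DfF M fun a => f a (s a) :=
  DfF.comp2 (k := fun (q : Nd →₀ ℚ) (t : Nd) => q t)
    (DfF.of_enc (f := fun p : (Nd →₀ ℚ) × Nd => p.1 p.2)
      (OrcS.hS (W := M.W)).2.2.2.2.2.2.2.1) hf hs
instance (priority := 9000) DfF_fsApp_inst [hf : DfF M f] [hs : DfF M s] :
    DfP M fun a => f a (s a) :=
  ⟨DfF.fsApp hf hs⟩
lemma DfF.memSupport (hs : DfF M s) (hf : DfF M f) : DfF M fun a => s a ∈ (f a).support :=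
  (DfF.eq (DfF.fsApp hf hs) (DfF.constHF (0 : ℚ))).not.congr_iff fun _ _ =>
    Finsupp.mem_support_iff.symm
instance (priority := 9000) DfF_memSupport_inst [hs : DfF M s] [hf : DfF M f] :
    DfP M fun a => s a ∈ (f a).support :=
  ⟨DfF.memSupport hs hf⟩
lemma DfF.fsAdd (hf : DfF M f) (hg : DfF M g) : DfF M fun a => f a + g a :=
  DfF.comp2 (k := fun q r : Nd →₀ ℚ => q + r)
    (DfF.of_enc (f := fun p : (Nd →₀ ℚ) × (Nd →₀ ℚ) => p.1 + p.2)
      (OrcS.hS (W := M.W)).2.2.2.2.2.2.2.2.1) hf hg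
instance (priority := 9000) DfF_fsAdd_inst [hf : DfF M f] [hg : DfF M g] :
    DfP M fun a => f a + g a :=
  ⟨DfF.fsAdd hf hg⟩
lemma DfF.fsSmul {q : α → ℚ} (hq : DfF M q) (hf : DfF M f) : DfF M fun a => q a • f a :=
  DfF.comp2 (k := fun (r : ℚ) (t : Nd →₀ ℚ) => r • t)
    (DfF.of_enc (f := fun p : ℚ × (Nd →₀ ℚ) => p.1 • p.2)
      (OrcS.hS (W := M.W)).2.2.2.2.2.2.2.2.2.1) hq hf
instance (priority := 9000) DfF_fsSmul_inst {q : α → ℚ} [hq : DfF M q] [hf : DfF M f] :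
    DfP M fun a => q a • f a :=
  ⟨DfF.fsSmul hq hf⟩
lemma DfF.fsSum {k : α → ℕ → Nd →₀ ℚ} (hk : DfF M fun y : α × ℕ => k y.1 y.2) (hn : DfF M n) :
    DfF M fun a => ∑ i ∈ Finset.range (n a), k a i :=
  DfF.comp2 (k := fun (z : ℕ → Nd →₀ ℚ) (j : ℕ) => ∑ i ∈ Finset.range j, z i)
    (DfF.natRec (z := fun _ => (0 : Nd →₀ ℚ)) (s := fun z j b => b + z j)
      (F := fun (z : ℕ → Nd →₀ ℚ) (j : ℕ) => ∑ i ∈ Finset.range j, z i) (DfF.constHF _)
      (DfF.fsAdd (f := fun y : (ℕ → Nd →₀ ℚ) × ℕ × (Nd →₀ ℚ) => y.2.2) (g := fun y => y.1 y.2.1)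
        DfF.id.snd.snd (DfF.app DfF.id.fst DfF.id.snd.fst))
      (fun _ => Finset.sum_range_zero _) fun z j => Finset.sum_range_succ z j)
    (DfF.lam hk) hn
instance (priority := 9000) DfF_fsSum_inst {k : α → ℕ → Nd →₀ ℚ}
    [hk : DfF M fun y : α × ℕ => k y.1 y.2] [hn : DfF M n] :
    DfP M fun a => ∑ i ∈ Finset.range (n a), k a i :=
  ⟨DfF.fsSum hk hn⟩
lemma DfF.pr (hf : DfF M f) (hu : DfF M u) : DfF M fun a => pr (f a) (u a) :=
  DfF.finsum (k := fun a t => (f a t : ℝ) * |u a t|) (F := fun a => (f a).support)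
    (DfF.rmul (DfF.ratCast (DfF.fsApp (hf.comp DfF.id.fst) DfF.id.snd))
      (DfF.rabs (DfF.app (hu.comp DfF.id.fst) DfF.id.snd)))
    (DfF.memSupport DfF.id.snd (hf.comp DfF.id.fst))
instance (priority := 9000) DfF_pr_inst [hf : DfF M f] [hu : DfF M u] :
    DfP M fun a => pr (f a) (u a) :=
  ⟨DfF.pr hf hu⟩
lemma DfF.cut {S : α → Set Nd} (hS : DfF M S) (hu : DfF M u) : DfF M fun a => cut (S a) (u a) :=
  DfF.lam (F := fun a t => H1.cut (S a) (u a) t)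
    (DfF.ite (d := fun y : α × Nd => Classical.propDecidable (y.2 ∈ S y.1))
      (DfF.mem DfF.id.snd (hS.comp DfF.id.fst)) (DfF.app (hu.comp DfF.id.fst) DfF.id.snd) DfF.rzero)
instance (priority := 9000) DfF_cut_inst {S : α → Set Nd} [hS : DfF M S] [hu : DfF M u] :
    DfP M fun a => cut (S a) (u a) :=
  ⟨DfF.cut hS hu⟩
lemma DfF.ev (hu : DfF M u) (hv : DfF M v) : DfF M fun a => ev (u a) (v a) :=
  DfF.tsum (k := fun a t => u a t * v a t)
    (DfF.rmul (DfF.app (hu.comp DfF.id.fst) DfF.id.snd) (DfF.app (hv.comp DfF.id.fst) DfF.id.snd))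
instance (priority := 9000) DfF_ev_inst [hu : DfF M u] [hv : DfF M v] :
    DfP M fun a => ev (u a) (v a) :=
  ⟨DfF.ev hu hv⟩

variable {T : Nd → List ℕ → Prop}

omit [OrcS M.W] in
lemma ra_tree (hT : InW M.W T) {t : α → List ℕ} (hs : DfF M s) (ht : DfF M t) :
    DfF M fun a => T (s a) (t a) :=
  DfF.app (F := fun a => T (s a)) (DfF.app (F := fun _ => T) (DfF.const hT) hs) ht

lemma DfF.nm (hT : InW M.W T) (hf : DfF M f) : DfF M fun a => Nm T (f a) := by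
  have h1 : DfF M fun p : Finset (Nd × List ℕ) × (Nd →₀ ℚ) => Nm (fun s t => (s, t) ∈ p.1) p.2 :=
    DfF.pred_of_enc (OrcS.hS (W := M.W)).2.2.2.2.2.2.2.2.2.2.1
  have h2 : DfF M fun p : (Nd × List ℕ) × Finset (Nd × List ℕ) => p.1 ∈ p.2 :=
    DfF.pred_of_enc (OrcS.hS (W := M.W)).2.2.2.2.2.2.2.2.2.2.2
  have h3 : DfF M fun τ : Finset (Nd × List ℕ) => ∀ p, p ∈ τ → T p.1 p.2 :=
    DfF.allHF (s := fun (τ : Finset (Nd × List ℕ)) (p : Nd × List ℕ) => p ∈ τ → T p.1 p.2)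
      (DfF.imp (h2.comp (DfF.id.snd.prodMk DfF.id.fst))
        (ra_tree hT DfF.id.snd.fst DfF.id.snd.snd))
  refine DfF.congr_iff ?_ fun _ _ => nm_iff_finite.symm
  exact DfF.exHF (s := fun a (τ : Finset (Nd × List ℕ)) =>
      (∀ p ∈ τ, T p.1 p.2) ∧ Nm (fun s t => (s, t) ∈ τ) (f a))
    (DfF.and (h3.comp DfF.id.snd) (h1.comp (DfF.id.snd.prodMk (hf.comp DfF.id.fst))))
instance (priority := 9000) DfF_nm_inst [hT : InW M.W T] [hf : DfF M f] :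
    DfP M fun a => Nm T (f a) :=
  ⟨DfF.nm hT hf⟩
lemma DfF.le' (hT : InW M.W T) (hu : DfF M u) (hc : DfF M c) : DfF M fun a => Le T (u a) (c a) :=
  DfF.allHF (s := fun a (q : Nd →₀ ℚ) => Nm T q → H1.pr q (u a) ≤ c a)
    (DfF.imp (DfF.nm hT DfF.id.snd)
      (DfF.rle (DfF.pr DfF.id.snd (hu.comp DfF.id.fst)) (hc.comp DfF.id.fst)))
instance (priority := 9000) DfF_leP_inst [hT : InW M.W T] [hu : DfF M u] [hc : DfF M c] :
    DfP M fun a => Le T (u a) (c a) :=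
  ⟨DfF.le' hT hu hc⟩
lemma DfF.memXX (hT : InW M.W T) (hu : DfF M u) : DfF M fun a => u a ∈ XX T :=
  (DfF.exHF (s := fun a (j : ℕ) => Le T (u a) (j : ℝ))
    (DfF.le' hT (hu.comp DfF.id.fst) (DfF.natCast DfF.id.snd))).congr_iff fun _ _ =>
    ⟨fun ⟨j, h⟩ => ⟨j, h⟩, fun ⟨C, h⟩ => (exists_nat_ge C).imp fun _ hj => h.mono hj⟩
instance (priority := 9000) DfF_memXX_inst [hT : InW M.W T] [hu : DfF M u] :
    DfP M fun a => u a ∈ XX T :=
  ⟨DfF.memXX hT hu⟩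
lemma DfF.nrm (hT : InW M.W T) (hu : DfF M u) : DfF M fun a => nrm T (u a) :=
  (DfF.rsSup (DfF.image (g := fun a (q : Nd →₀ ℚ) => H1.pr q (u a))
    (DfF.pr DfF.id.snd (hu.comp DfF.id.fst))
    (DfF.setHF (s := fun (_ : α) (q : Nd →₀ ℚ) => Nm T q) (DfF.nm hT DfF.id.snd)))).congr
    fun _ _ => congrArg sSup (Set.ext fun _ =>
      ⟨fun ⟨q, h, e⟩ => ⟨q, h, e.symm⟩, fun ⟨q, h, e⟩ => ⟨q, h, e.symm⟩⟩)
instance (priority := 9000) DfF_nrm_inst [hT : InW M.W T] [hu : DfF M u] :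
    DfP M fun a => nrm T (u a) :=
  ⟨DfF.nrm hT hu⟩
lemma ra_bd_iff {γ : Nd → ℝ} {C : ℝ} : Bd T γ C ↔ 0 ≤ C ∧ ∀ q : Nd →₀ ℚ,
    |∑ s ∈ q.support, γ s * (q s : ℝ)| ≤ C * nrm T fun s => (q s : ℝ) := by
  refine ⟨fun h => ⟨?_, fun q => ?_⟩, fun h => bd_of_rat h.1 h.2⟩
  · simpa using h 0 1 ∅ (le_zero.mono zero_le_one)
  · have hq : (fun s => (q s : ℝ)) ∈ XX T :=
      ⟨_, le_of_support q.support fun s hs => by simp [Finsupp.notMem_support_iff.1 hs]⟩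
    refine (Finset.abs_sum_le_sum_abs _ _).trans ?_
    simpa only [abs_mul] using h _ _ q.support (le_nrm hq)

lemma DfF.bd (hT : InW M.W T) (hu : DfF M u) (hc : DfF M c) : DfF M fun a => Bd T (u a) (c a) := by
  refine DfF.congr_iff (DfF.and (DfF.rle DfF.rzero hc) ?_) fun _ _ => ra_bd_iff.symm
  refine DfF.allHF (s := fun a (q : Nd →₀ ℚ) =>
    |∑ s ∈ q.support, u a s * (q s : ℝ)| ≤ c a * H1.nrm T fun s => (q s : ℝ)) ?_
  refine DfF.rle (DfF.rabs ?_) (DfF.rmul (hc.comp DfF.id.fst) (DfF.nrm hT ?_))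
  · exact DfF.finsum (k := fun (y : α × (Nd →₀ ℚ)) t => u y.1 t * (y.2 t : ℝ))
      (F := fun y => y.2.support)
      (DfF.rmul (DfF.app (hu.comp DfF.id.fst.fst) DfF.id.snd)
        (DfF.ratCast (DfF.fsApp DfF.id.fst.snd DfF.id.snd)))
      (DfF.memSupport DfF.id.snd DfF.id.fst.snd)
  · exact DfF.lam (F := fun (y : α × (Nd →₀ ℚ)) t => (y.2 t : ℝ))
      (DfF.ratCast (DfF.fsApp DfF.id.fst.snd DfF.id.snd))
instance (priority := 9000) DfF_bd_inst [hT : InW M.W T] [hu : DfF M u] [hc : DfF M c] :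
    DfP M fun a => Bd T (u a) (c a) :=
  ⟨DfF.bd hT hu hc⟩
lemma DfF.memKK (hT : InW M.W T) {F : α → ℕ → Set (ℕ → Bool)} {m : α → ℕ → ℕ} (hu : DfF M u)
    (hF : DfF M F) (hm : DfF M m) : DfF M fun a => u a ∈ KK T (F a) (m a) := by
  refine DfF.and (DfF.le' hT hu DfF.rone) (DfF.allHF (s := fun a (k : ℕ) =>
    Le T (H1.cut {s | m a k ≤ s.length ∧ ∀ x ∈ F a k, ¬ On x s} (u a)) (1 / ((k : ℝ) + 1))) ?_)
  refine DfF.le' hT (DfF.cut ?_ (hu.comp DfF.id.fst))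
    (DfF.rdiv DfF.rone (DfF.radd (DfF.natCast DfF.id.snd) DfF.rone))
  refine DfF.setHF (s := fun (y : α × ℕ) (s : Nd) =>
    m y.1 y.2 ≤ s.length ∧ ∀ x ∈ F y.1 y.2, ¬ On x s) ?_
  refine DfF.and (DfF.nle (DfF.app (hm.comp DfF.id.fst.fst) DfF.id.fst.snd) DfF.id.snd.length) ?_
  exact DfF.ball (S := fun y : (α × ℕ) × Nd => F y.1.1 y.1.2) (s := fun y x => ¬ On x y.2)
    (DfF.app (hF.comp DfF.id.fst.fst) DfF.id.fst.snd) (DfF.on DfF.id.snd DfF.id.fst.snd).not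
instance (priority := 9000) DfF_memKK_inst [hT : InW M.W T] {F : α → ℕ → Set (ℕ → Bool)}
    {m : α → ℕ → ℕ} [hu : DfF M u] [hF : DfF M F] [hm : DfF M m] :
    DfP M fun a => u a ∈ KK T (F a) (m a) :=
  ⟨DfF.memKK hT hu hF hm⟩
lemma DfF.memAt (hT : InW M.W T) {D : α → Set (Nd → ℝ)} (hx : DfF M x) (hD : DfF M D)
    (hc : DfF M c) : DfF M fun a => x a ∈ At T (D a) (c a) := by
  refine DfF.allHF (s := fun a (m : ℕ) =>
    ∃ w ∈ D a, ¬ Le T (H1.cut {s | On (x a) s ∧ m ≤ s.length} w) (c a)) ?_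
  refine DfF.bex (S := fun y : α × ℕ => D y.1)
    (s := fun y w => ¬ Le T (H1.cut {s | On (x y.1) s ∧ y.2 ≤ s.length} w) (c y.1))
    (hD.comp DfF.id.fst) ?_
  refine (DfF.le' hT (DfF.cut ?_ DfF.id.snd) (hc.comp DfF.id.fst.fst)).not
  exact DfF.setHF (s := fun (y : (α × ℕ) × (Nd → ℝ)) (s : Nd) => On (x y.1.1) s ∧ y.1.2 ≤ s.length)
    (DfF.and (DfF.on (hx.comp DfF.id.fst.fst.fst) DfF.id.snd)
      (DfF.nle DfF.id.fst.fst.snd DfF.id.snd.length))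
instance (priority := 9000) DfF_memAt_inst [hT : InW M.W T] {D : α → Set (Nd → ℝ)} [hx : DfF M x]
    [hD : DfF M D] [hc : DfF M c] :
    DfP M fun a => x a ∈ At T (D a) (c a) :=
  ⟨DfF.memAt hT hx hD hc⟩
lemma DfF.memBset [Ch M] (hT : InW M.W T) (hx : DfF M x) : DfF M fun a => x a ∈ Bset T := by
  have h : DfF M fun a => ∃ y : ℕ → ℕ, InW M.W y ∧ ∀ k, T (H1.pre (x a) k) (H1.pre y k) :=
    DfF.exW (r := fun a (y : ℕ → ℕ) => ∀ k, T (H1.pre (x a) k) (H1.pre y k))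
      (DfF.allHF (s := fun (z : α × (ℕ → ℕ)) (k : ℕ) => T (H1.pre (x z.1) k) (H1.pre z.2 k))
        (ra_tree hT (DfF.pre (hx.comp DfF.id.fst.fst) DfF.id.snd)
          (DfF.preNat DfF.id.fst.snd DfF.id.snd)))
  refine h.congr_iff fun a ha => ⟨fun ⟨y, _, hy⟩ => ⟨y, hy⟩, fun ⟨y, hy⟩ => ?_⟩
  refine exists_seq (Q := fun k z => T (H1.pre (x a) k) (H1.pre z k))
    (ra_tree hT (DfF.pre (DfF.const (hx.inW ha)) DfF.id.fst) (DfF.preNat DfF.id.snd DfF.id.fst))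
    y (fun _ => InW.hf _) fun k => ⟨k, fun z _ hz => ?_⟩
  rw [pre_eq_iff.2 hz]
  exact hy k
instance (priority := 9000) DfF_memBset_inst [Ch M] [hT : InW M.W T] [hx : DfF M x] :
    DfP M fun a => x a ∈ Bset T :=
  ⟨DfF.memBset hT hx⟩

/-- the space of the model -/
def XW (W : ZFSet.{0}) (T : Nd → List ℕ → Prop) : Set (Nd → ℝ) := {u | InW W u ∧ u ∈ XX T}

/-- the basic weakly compact sets of the model -/
def KW (W : ZFSet.{0}) (T : Nd → List ℕ → Prop) (F : ℕ → Set (ℕ → Bool)) (m : ℕ → ℕ) :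
    Set (Nd → ℝ) := {u | InW W u ∧ u ∈ KK T F m}

/-- the coanalytic set of the model -/
def AW (W : ZFSet.{0}) (T : Nd → List ℕ → Prop) : Set (ℕ → Bool) := {x | InW W x ∧ x ∉ Bset T}

instance inW_XW [InW M.W T] : InW M.W (XW M.W T) := by unfold XW; infer_instance
instance inW_AW [Ch M] [InW M.W T] : InW M.W (AW M.W T) := by unfold AW; infer_instance

lemma DfF.kw (hT : InW M.W T) {F : α → ℕ → Set (ℕ → Bool)} {m : α → ℕ → ℕ} (hF : DfF M F)
    (hm : DfF M m) : DfF M fun a => KW M.W T (F a) (m a) := by unfold KW; infer_instance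
instance (priority := 9000) DfF_kw_inst [hT : InW M.W T] {F : α → ℕ → Set (ℕ → Bool)}
    {m : α → ℕ → ℕ} [hF : DfF M F] [hm : DfF M m] :
    DfP M fun a => KW M.W T (F a) (m a) :=
  ⟨DfF.kw hT hF hm⟩

end Pool.Agent.MP_c70ddc_lc.H1
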