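import Pool.Agent.MP_c70ddc_lc.H1.SpBasic

/-! An `ℓ¹` sequence is separated from its coordinatewise limit by a functional (module D). -/

namespace Pool.Agent.MP_c70ddc_lc.H1

open Filter Topology

variable {T : Nd → List ℕ → Prop} {D : Set (Nd → ℝ)}

section
variable {δ : ℚ} {u : ℕ → Nd → ℝ} {f : ℕ → Nd →₀ ℚ} {m : ℕ → ℕ}

lemma L1Seq.d_mono (h : L1Seq T δ u f m) : StrictMono m := strictMono_nat_of_lt_succ h.mono

lemma L1Seq.d_uniq (h : L1Seq T δ u f m) {s : Nd} {i j : ℕ} (hi : s ∈ (f i).support)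
    (h1 : m j ≤ s.length) (h2 : s.length < m (j + 1)) : i = j := by
  have a := h.d_mono.lt_iff_lt.1 ((h.lev i s hi).1.trans_lt h2)
  have b := h.d_mono.lt_iff_lt.1 (h1.trans_lt (h.lev i s hi).2)
  omega

lemma L1Seq.d_apply (h : L1Seq T δ u f m) {s : Nd} {j n : ℕ} (hj : s ∈ (f j).support)
    (hn : j < n) : (∑ i ∈ Finset.range n, f i) s = f j s := by
  rw [Finsupp.finsetSum_apply, Finset.sum_eq_single j]
  · intro i _ hij
    by_contra hne
    exact hij (h.d_uniq (Finsupp.mem_support_iff.2 hne) (h.lev j s hj).1 (h.lev j s hj).2)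
  · intro hj'
    exact absurd (Finset.mem_range.2 hn) hj'

lemma L1Seq.d_nonneg (h : L1Seq T δ u f m) (j : ℕ) (s : Nd) : 0 ≤ f j s := by
  by_cases hs : s ∈ (f j).support
  · have := (h.nm (j + 1)).nonneg s
    rw [Finsupp.smul_apply, h.d_apply hs (Nat.lt_succ_self j), smul_eq_mul] at this
    linarith
  · exact (Finsupp.notMem_support_iff.1 hs).ge

end

lemma d_le_cut (M : ℕ) (w : Nd → ℝ) :
    Le T (cut {s | s.length < M} w) (∑ s ∈ lev M, |w s|) := by
  have := le_of_support (T := T) (u := cut {s | s.length < M} w) (lev M) fun s hs =>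
    Set.indicator_of_notMem (by simpa using hs) _
  refine this.mono (Finset.sum_le_sum fun s hs => le_of_eq ?_)
  unfold cut
  rw [Set.indicator_of_mem (by simpa using hs)]

lemma L1.strengthen (hD : ∀ u ∈ D, Le T u 1) (h : L1 T D) :
    ∃ δ u f m, (∀ j, u j ∈ D) ∧ L1Str T δ u f m := by
  classical
  obtain ⟨δ, u, f, m, hu, h⟩ := h
  have δ0 : (0 : ℝ) < δ := by exact_mod_cast h.pos
  obtain ⟨a, -, φ, hφ, hlim⟩ := (isCompact_univ_pi fun _ : Nd =>
    isCompact_Icc (a := (-1 : ℝ)) (b := 1)).tendsto_subseq (x := u)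
    fun n s _ => abs_le.1 ((hD _ (hu n)).abs_le s)
  have pick : ∀ (M j : ℕ), ∃ i, M ≤ m i ∧ ∑ s ∈ lev M, |u i s - a s| ≤ δ / 2 ^ (j + 6) := by
    intro M j
    have t : Tendsto (fun n => ∑ s ∈ lev M, |u (φ n) s - a s|) atTop
        (𝓝 (∑ s ∈ lev M, |a s - a s|)) :=
      tendsto_finsetSum _ fun s _ => ((tendsto_pi_nhds.1 hlim s).sub_const _).abs
    simp only [sub_self, abs_zero, Finset.sum_const_zero] at t
    obtain ⟨n, a1, a2⟩ := ((t.eventually (ge_mem_nhds
      (show (0 : ℝ) < δ / 2 ^ (j + 6) by positivity))).and (eventually_ge_atTop M)).exists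
    exact ⟨φ n, a2.trans (hφ.le_apply.trans h.d_mono.le_apply), a1⟩
  choose p p1 p2 using pick
  choose t ht using fun i => exists_tail (T := T) (u := u i) ⟨1, hD _ (hu i)⟩
    (show (0 : ℝ) < δ / 8 by linarith)
  let M : ℕ → ℕ := fun j => Nat.rec 0 (fun j M => max (m (p M j + 1)) (t (p M j))) j
  have Ms : ∀ j, M (j + 1) = max (m (p (M j) j + 1)) (t (p (M j) j)) := fun _ => rfl
  clear_value M
  have a1 : ∀ j, m (p (M j) j + 1) ≤ M (j + 1) := fun j => Ms j ▸ le_max_left _ _
  have a2 : ∀ j, M j < M (j + 1) := fun j => ((p1 _ _).trans_lt (h.mono _)).trans_le (a1 j)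
  have a3 : StrictMono fun j => p (M j) j := strictMono_nat_of_lt_succ fun j =>
    h.d_mono.le_iff_le.1 ((a1 j).trans (p1 _ _))
  refine ⟨δ, fun j => u (p (M j) j), fun j => f (p (M j) j), M, fun j => hu _,
    ⟨h.pos, a2, fun j s hs => ⟨(p1 _ _).trans (h.lev _ s hs).1, (h.lev _ s hs).2.trans_le (a1 j)⟩,
      fun j => h.big _, fun n => ?_⟩, fun j => ?_, fun j => ?_⟩
  · have e : (1 / 2 : ℚ) • ∑ j ∈ Finset.range n, f (p (M j) j) =
        ((1 / 2 : ℚ) • ∑ j ∈ Finset.range (p (M n) n), f j).filter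
          fun s => ∃ j < n, s ∈ (f (p (M j) j)).support := by
      ext s
      rw [Finsupp.filter_apply, Finsupp.smul_apply, Finsupp.smul_apply]
      split_ifs with c
      · obtain ⟨j, c1, c2⟩ := c
        rw [h.d_apply c2 (a3 c1), Finsupp.finsetSum_apply, Finset.sum_eq_single j]
        · intro i _ hij
          by_contra hne
          exact hij (a3.injective
            (h.d_uniq (Finsupp.mem_support_iff.2 hne) (h.lev _ s c2).1 (h.lev _ s c2).2))
        · intro hj'
          exact absurd (Finset.mem_range.2 c1) hj'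
      · rw [Finsupp.finsetSum_apply, Finset.sum_eq_zero, smul_zero]
        intro i hi
        by_contra hne
        exact c ⟨i, Finset.mem_range.1 hi, Finsupp.mem_support_iff.2 hne⟩
    rw [e]
    exact (h.nm _).filter _
  · refine (d_le_cut _ _).mono ?_
    have b1 := p2 (M j) j
    have b2 : ∑ s ∈ lev (M j), |u (p (M (j + 1)) (j + 1)) s - a s| ≤ δ / 2 ^ (j + 1 + 6) :=
      (Finset.sum_le_sum_of_subset_of_nonneg
        (fun s hs => mem_lev.2 ((mem_lev.1 hs).trans (a2 j))) fun _ _ _ => abs_nonneg _).trans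
        (p2 (M (j + 1)) (j + 1))
    have b3 : ∑ s ∈ lev (M j), |(u (p (M (j + 1)) (j + 1)) - u (p (M j) j)) s| ≤
        ∑ s ∈ lev (M j), |u (p (M (j + 1)) (j + 1)) s - a s| +
          ∑ s ∈ lev (M j), |u (p (M j) j) s - a s| := by
      rw [← Finset.sum_add_distrib]
      refine Finset.sum_le_sum fun s _ => ?_
      rw [Pi.sub_apply, abs_sub_comm (u (p (M j) j) s)]
      exact abs_sub_le _ _ _
    have b4 : (δ : ℝ) / 2 ^ (j + 5) = δ / 2 ^ (j + 6) + δ / 2 ^ (j + 6) := by
      field_simp; ring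
    have b5 : (δ : ℝ) / 2 ^ (j + 1 + 6) ≤ δ / 2 ^ (j + 6) :=
      div_le_div_of_nonneg_left δ0.le (by positivity)
        (pow_le_pow_right₀ (by norm_num) (by omega))
    linarith
  · exact (ht _).cut_mono fun s (hs : M (j + 1) ≤ s.length) =>
      le_trans (le_max_right _ _) ((Ms j).ge.trans hs)

variable {δ : ℚ} {u : ℕ → Nd → ℝ} {f : ℕ → Nd →₀ ℚ} {m : ℕ → ℕ} {γ : Nd → ℝ}

lemma L1Str.exists_lim (h : L1Str T δ u f m) :
    ∃ a : Nd → ℝ, ∀ s, Tendsto (fun j => u j s) atTop (𝓝 (a s)) := by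
  have : ∀ s, ∃ a, Tendsto (fun j => u j s) atTop (𝓝 a) := fun s => by
    refine cauchySeq_tendsto_of_complete (cauchySeq_of_summable_dist ?_)
    refine Summable.of_norm_bounded_eventually_nat
      (g := fun j => (δ : ℝ) / 32 * (1 / 2) ^ j) (summable_geometric_two.mul_left _) ?_
    filter_upwards [eventually_gt_atTop s.length] with j hj
    have b := (h.head j).abs_le s
    unfold cut at b
    rw [Set.indicator_of_mem (show s ∈ {s : Nd | s.length < m j} from
      hj.trans_le h.toL1Seq.d_mono.le_apply)] at b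
    rw [Real.norm_eq_abs, abs_dist, Real.dist_eq, abs_sub_comm]
    refine b.trans (le_of_eq ?_)
    rw [one_div, inv_pow, pow_add]
    field_simp
    norm_num
  choose a ha using this
  exact ⟨a, ha⟩

lemma L1Seq.bd (h : L1Seq T δ u f m)
    (h1 : ∀ j, ∀ s ∈ (f j).support, |γ s| = (f j s : ℝ))
    (h0 : ∀ s, (∀ j, s ∉ (f j).support) → γ s = 0) : Bd T γ 2 := by
  classical
  intro w C F hw
  set n := F.sup List.length + 1
  have a := hw _ (h.nm n)
  rw [pr_smul_left, pr_eq_sum (F := F ∪ (∑ j ∈ Finset.range n, f j).support)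
    Finset.subset_union_right] at a
  have b : ∑ s ∈ F, |γ s| * |w s| = ∑ s ∈ F, ((∑ j ∈ Finset.range n, f j) s : ℝ) * |w s| := by
    refine Finset.sum_congr rfl fun s hs => ?_
    by_cases c : ∃ j, s ∈ (f j).support
    · obtain ⟨j, c⟩ := c
      have d : j < n := Nat.lt_succ_of_le ((h.d_mono.le_apply.trans (h.lev j s c).1).trans
        (Finset.le_sup (f := List.length) hs))
      rw [h.d_apply c d, h1 j s c]
    · push Not at c
      rw [h0 s c, Finsupp.finsetSum_apply, Finset.sum_eq_zero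
        fun j _ => Finsupp.notMem_support_iff.1 (c j)]
      simp
  have c : ∑ s ∈ F, ((∑ j ∈ Finset.range n, f j) s : ℝ) * |w s| ≤
      ∑ s ∈ F ∪ (∑ j ∈ Finset.range n, f j).support,
        ((∑ j ∈ Finset.range n, f j) s : ℝ) * |w s| := by
    refine Finset.sum_le_sum_of_subset_of_nonneg Finset.subset_union_left fun s _ _ =>
      mul_nonneg ?_ (abs_nonneg _)
    rw [Finsupp.finsetSum_apply]
    exact_mod_cast Finset.sum_nonneg fun j _ => h.d_nonneg j s
  push_cast at a c b
  linarith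

lemma L1Str.sep (h : L1Str T δ u f m) (hu : ∀ j, u j ∈ XX T)
    (h1 : ∀ j, ∀ s ∈ (f j).support, γ s = if 0 ≤ u j s then (f j s : ℝ) else -(f j s : ℝ))
    (h0 : ∀ s, (∀ j, s ∉ (f j).support) → γ s = 0) {a : Nd → ℝ} (ha : a ∈ XX T)
    (hlim : ∀ s, Tendsto (fun j => u j s) atTop (𝓝 (a s))) :
    ∃ J, ∀ j ≥ J, ev γ a + (δ : ℝ) / 4 ≤ ev γ (u j) := by
  classical
  have δ0 : (0 : ℝ) < δ := by exact_mod_cast h.pos
  have hs := h.toL1Seq
  have hb : Bd T γ 2 := hs.bd (fun j s c => by
    have : (0 : ℝ) ≤ f j s := by exact_mod_cast hs.d_nonneg j s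
    rw [h1 j s c]
    split_ifs
    · exact abs_of_nonneg this
    · rw [abs_neg, abs_of_nonneg this]) h0
  have hd : ∀ j, Le T (cut {s | s.length < m j} (a - u j)) (δ / 16) := fun j => by
    have e : ∀ k, Le T (cut {s | s.length < m j} (u (j + k) - u j))
        (δ / 16 - δ / 2 ^ (k + 4)) := fun k => by
      induction k with
      | zero =>
        refine (le_zero.of_abs_le fun s => ?_).mono (by norm_num)
        simp [cut]
      | succ k ih =>
        have b := (h.head (j + k)).cut_mono (S := {s | s.length < m j})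
          fun s (c : s.length < m j) => c.trans_le (hs.d_mono.monotone (Nat.le_add_right j k))
        refine ((ih.add b).of_abs_le fun s => le_of_eq ?_).mono ?_
        · congr 1
          by_cases c : s ∈ {s : Nd | s.length < m j}
          · simp only [cut, Pi.add_apply, Set.indicator_of_mem c, Pi.sub_apply, ← add_assoc]
            ring
          · simp only [cut, Pi.add_apply, Set.indicator_of_notMem c, add_zero]
        · have b4 : (δ : ℝ) / 2 ^ (k + 4) = δ / 2 ^ (k + 1 + 4) + δ / 2 ^ (k + 1 + 4) := by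
            field_simp; ring
          have b5 : (δ : ℝ) / 2 ^ (j + k + 5) ≤ δ / 2 ^ (k + 1 + 4) :=
            div_le_div_of_nonneg_left δ0.le (by positivity)
              (pow_le_pow_right₀ (by norm_num) (by omega))
          linarith
    refine (isClosed_le T {s | s.length < m j} (δ / 16)).mem_of_tendsto
      (f := fun k => u (j + k) - u j) (b := atTop) (tendsto_pi_nhds.2 fun s => ?_)
      (Eventually.of_forall fun k => (e k).mono (sub_le_self _ (by positivity)))
    have := (hlim s).comp (tendsto_add_atTop_nat j)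
    simpa only [Function.comp_def, add_comm j, Pi.sub_apply] using this.sub_const (u j s)
  obtain ⟨J, hJ⟩ := eventually_atTop.1 (((hb.tendsto_ev ha).comp hs.d_mono.tendsto_atTop).eventually
    (le_mem_nhds (show ev γ a - δ / 8 < ev γ a by linarith)))
  refine ⟨J, fun j hj => ?_⟩
  have c1 : ev γ a - δ / 8 ≤ ∑ s ∈ lev (m j), γ s * a s := hJ j hj
  have c2 := (abs_le.1 (hb.ev_sub_sum (hu j) _ (h.tail j))).1
  have c3 : ∑ s ∈ lev (m j), γ s * a s - ∑ s ∈ lev (m j), γ s * u j s ≤ 2 * (δ / 16) := by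
    refine le_trans ?_ (hb _ _ (lev (m j)) (hd j))
    rw [← Finset.sum_sub_distrib]
    refine Finset.sum_le_sum fun s c => ?_
    unfold cut
    rw [Set.indicator_of_mem (by simpa using c), ← mul_sub, ← abs_mul]
    exact le_abs_self _
  have sub : lev (m j) ⊆ lev (m (j + 1)) := fun s c => mem_lev.2 ((mem_lev.1 c).trans (hs.mono j))
  have c4 : ∑ s ∈ lev (m (j + 1)) \ lev (m j), γ s * u j s = pr (f j) (u j) := by
    rw [pr_eq_sum (F := lev (m (j + 1)) \ lev (m j)) fun s c => Finset.mem_sdiff.2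
      ⟨mem_lev.2 (hs.lev j s c).2, fun d => absurd (mem_lev.1 d) (not_lt.2 (hs.lev j s c).1)⟩]
    refine Finset.sum_congr rfl fun s c => ?_
    rw [Finset.mem_sdiff, mem_lev, mem_lev, not_lt] at c
    by_cases d : s ∈ (f j).support
    · rw [h1 j s d]
      split_ifs with e
      · rw [abs_of_nonneg e]
      · rw [abs_of_neg (not_le.1 e)]; ring
    · rw [h0 s fun i hi => d (hs.d_uniq hi c.2 c.1 ▸ hi), Finsupp.notMem_support_iff.1 d]
      simp
  have c5 := Finset.sum_sdiff (f := fun s => γ s * u j s) sub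
  have c6 := hs.big j
  linarith

end Pool.Agent.MP_c70ddc_lc.H1
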