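import Pool.Agent.MP_c70ddc_lc.H1.RBan
import Pool.Agent.MP_c70ddc_lc.H1.SpL1

/-! Weakly compact sets of the model contain no `ℓ¹` sequence (module RF). -/

namespace Pool.Agent.MP_c70ddc_lc.H1

set_option synthInstance.maxSize 100000

variable {M : Md} [OrcS M.W] [Ch M] {T : Nd → List ℕ → Prop} [hT : InW M.W T]

open Filter Topology

/-- the clauses of `L1Str` at one index -/
def rfQ (T : Nd → List ℕ → Prop) (K : Set Vec) (δ : ℚ) (n : ℕ)
    (z : ℕ → Vec × (Nd →₀ ℚ) × ℕ) : Prop :=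
  (z n).1 ∈ K ∧ (z n).2.2 < (z (n + 1)).2.2 ∧
    (∀ s, s ∈ (z n).2.1.support → (z n).2.2 ≤ s.length ∧ s.length < (z (n + 1)).2.2) ∧
    (δ : ℝ) ≤ pr (z n).2.1 (z n).1 ∧ Nm T ((1 / 2 : ℚ) • ∑ j ∈ Finset.range n, (z j).2.1) ∧
    Le T (cut {s | s.length < (z n).2.2} ((z (n + 1)).1 - (z n).1)) ((δ / 2 ^ (n + 5) : ℚ) : ℝ) ∧
    Le T (cut {s | (z (n + 1)).2.2 ≤ s.length} (z n).1) ((δ / 8 : ℚ) : ℝ)

lemma rf_seq {K : Set Vec} (h : K ∈ KBall M.W (XW M.W T) (nrm T)) (hL : L1 T K) :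
    ∃ δ u f m, InW M.W u ∧ InW M.W f ∧ InW M.W m ∧ (∀ j, u j ∈ K) ∧ L1Str T δ u f m := by
  obtain ⟨δ, u, f, m, hu, hs⟩ := L1.strengthen (KBall.le_one h) hL
  have hK : InW M.W K := h.1
  have hQ : DfF M fun x : ℕ × (ℕ → Vec × (Nd →₀ ℚ) × ℕ) => rfQ T K δ x.1 x.2 := by
    unfold rfQ
    infer_instance
  obtain ⟨z, hz, hq⟩ := exists_seq hQ (fun n => (u n, f n, m n))
    (fun n => (hK.of_mem (hu n)).pair (InW.hf _)) fun n => ⟨n + 2, fun z _ e => by
      have e1 : ∑ j ∈ Finset.range n, (z j).2.1 = ∑ j ∈ Finset.range n, f j :=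
        Finset.sum_congr rfl fun j hj => by rw [e j (by have := Finset.mem_range.1 hj; omega)]
      unfold rfQ
      rw [e1, e n (by omega), e (n + 1) (by omega)]
      exact ⟨hu n, hs.mono n, hs.lev n, hs.big n, hs.nm n, by push_cast; exact hs.head n,
        by push_cast; exact hs.tail n⟩⟩
  refine ⟨δ, fun n => (z n).1, fun n => (z n).2.1, fun n => (z n).2.2, inferInstance,
    inferInstance, inferInstance, fun j => (hq j).1, ⟨hs.pos, fun j => (hq j).2.1,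
    fun j => (hq j).2.2.1, fun j => (hq j).2.2.2.1, fun j => (hq j).2.2.2.2.1⟩, fun j => ?_,
    fun j => ?_⟩
  · have := (hq j).2.2.2.2.2.1
    push_cast at this
    exact this
  · have := (hq j).2.2.2.2.2.2
    push_cast at this
    exact this

open Classical in
/-- the separating functional -/
noncomputable def rfG (u : ℕ → Nd → ℝ) (f : ℕ → Nd →₀ ℚ) (s : Nd) : ℝ :=
  if 0 ≤ u (sInf {j | s ∈ (f j).support}) s then (f (sInf {j | s ∈ (f j).support}) s : ℝ)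
  else -(f (sInf {j | s ∈ (f j).support}) s : ℝ)

lemma rfG_zero {u : ℕ → Nd → ℝ} {f : ℕ → Nd →₀ ℚ} (s : Nd) (h : ∀ j, s ∉ (f j).support) :
    rfG u f s = 0 := by
  unfold rfG
  rw [Finsupp.notMem_support_iff.1 (h _)]
  simp

lemma rfG_eq {T : Nd → List ℕ → Prop} {δ : ℚ} {u : ℕ → Nd → ℝ} {f : ℕ → Nd →₀ ℚ} {m : ℕ → ℕ}
    (h : L1Seq T δ u f m) (j : ℕ) (s : Nd) (hs : s ∈ (f j).support) :
    rfG u f s = if 0 ≤ u j s then (f j s : ℝ) else -(f j s : ℝ) := by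
  have hm : Monotone m := (strictMono_nat_of_lt_succ h.mono).monotone
  have h1 : s ∈ (f (sInf {j | s ∈ (f j).support})).support :=
    Nat.sInf_mem (s := {j | s ∈ (f j).support}) ⟨j, hs⟩
  have h2 : sInf {j | s ∈ (f j).support} ≤ j := Nat.sInf_le hs
  have e : sInf {j | s ∈ (f j).support} = j := by
    by_contra hne
    have h3 := hm (show sInf {j | s ∈ (f j).support} + 1 ≤ j by omega)
    have h4 := (h.lev _ s h1).2
    have h5 := (h.lev _ s hs).1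
    omega
  unfold rfG
  rw [e]

lemma rfG_bd {T : Nd → List ℕ → Prop} {δ : ℚ} {u : ℕ → Nd → ℝ} {f : ℕ → Nd →₀ ℚ} {m : ℕ → ℕ}
    (h : L1Seq T δ u f m) : Bd T (rfG u f) 2 := by
  refine h.bd (fun j s hs => ?_) rfG_zero
  have h0 : 0 ≤ f j s := by
    have h1 := (h.nm (j + 1)).nonneg s
    have hm : Monotone m := (strictMono_nat_of_lt_succ h.mono).monotone
    rw [Finsupp.smul_apply, Finsupp.finsetSum_apply, Finset.sum_range_succ,
      Finset.sum_eq_zero fun i hi => ?_] at h1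
    · simp only [smul_eq_mul] at h1
      linarith
    · by_contra hne
      have h3 := hm (show i + 1 ≤ j from Finset.mem_range.1 hi)
      have h4 := (h.lev _ s (Finsupp.mem_support_iff.2 hne)).2
      have h5 := (h.lev _ s hs).1
      omega
  have h0' : (0 : ℝ) ≤ f j s := by exact_mod_cast h0
  rw [rfG_eq h j s hs]
  split_ifs
  · exact abs_of_nonneg h0'
  · rw [abs_neg, abs_of_nonneg h0']

/-- the points that some functional of the family keeps away from the tail of the sequence -/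
def rfU (W : ZFSet.{0}) (T : Nd → List ℕ → Prop) (u : ℕ → Nd → ℝ) (g : Nd → ℝ) (J : ℕ) :
    Set Vec :=
  {y | y ∈ XW W T ∧ ((∃ s : Nd, ∃ q : ℚ, 0 < q ∧ ∀ j, J ≤ j → (q : ℝ) < |y s - u j s|) ∨
    ∃ q : ℚ, 0 < q ∧ ∀ j, J ≤ j → (q : ℝ) < |ev g y - ev g (u j)|)}

omit [Ch M] in
lemma rfU_open {u : ℕ → Nd → ℝ} {g : Nd → ℝ} (hg : InW M.W g) (hb : Bd T g 2) (J : ℕ) :
    WOpen M.W (XW M.W T) (nrm T) (rfU M.W T u g J) := by
  have key : ∀ a b c : ℝ, ∀ q : ℚ, (q : ℝ) < |a - c| → |b - a| < ((q / 2 : ℚ) : ℝ) →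
      ((q / 2 : ℚ) : ℝ) < |b - c| := fun a b c q h1 h2 => by
    have := abs_sub_le a b c
    rw [abs_sub_comm a b] at this
    push_cast at h2 ⊢
    linarith
  refine ⟨fun y hy => hy.1, fun x hx => ?_⟩
  rcases hx.2 with ⟨s, q, hq, h⟩ | ⟨q, hq, h⟩
  · refine ⟨1, fun _ => ev (Pi.single s 1), q / 2, half_pos hq,
      fun _ _ => isDual_ev inferInstance (bd_single s), fun y hy h1 => ⟨hy, Or.inl ⟨s, q / 2,
        half_pos hq, fun j hj => key _ _ _ q (h j hj) ?_⟩⟩⟩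
    simpa only [ev_single] using h1 0 one_pos
  · exact ⟨1, fun _ => ev g, q / 2, half_pos hq, fun _ _ => isDual_ev hg hb,
      fun y hy h1 => ⟨hy, Or.inr ⟨q / 2, half_pos hq, fun j hj =>
        key _ _ _ q (h j hj) (h1 0 one_pos)⟩⟩⟩

lemma rfU_notMem {W : ZFSet.{0}} {T : Nd → List ℕ → Prop} {u : ℕ → Nd → ℝ} {g : Nd → ℝ}
    {J j : ℕ} (hj : J ≤ j) : u j ∉ rfU W T u g J := by
  rintro ⟨-, ⟨s, q, hq, h⟩ | ⟨q, hq, h⟩⟩ <;>
  · have h1 := h j hj
    have h2 : (0 : ℝ) < q := by exact_mod_cast hq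
    rw [sub_self, abs_zero] at h1
    linarith

theorem KBall.not_L1 {K : Set Vec} (h : K ∈ KBall M.W (XW M.W T) (nrm T)) : ¬ L1 T K := by
  intro hL
  obtain ⟨δ, u, f, m, hu, hf, hm, hK, hs⟩ := rf_seq h hL
  have hg : InW M.W (rfG u f) := DfF.inW_fun (by unfold rfG; infer_instance)
  have hb := rfG_bd hs.toL1Seq
  obtain ⟨a, ha⟩ := hs.exists_lim
  have hU : InW M.W (Set.range (rfU M.W T u (rfG u f))) := by
    have : InW M.W (rfU M.W T u (rfG u f)) := DfF.inW_fun (by unfold rfU; infer_instance)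
    infer_instance
  obtain ⟨V, hV, hfin, hc⟩ := h.2.2 _ hU (by rintro _ ⟨J, rfl⟩; exact rfU_open hg hb J) (by
    intro y hy
    have hX := (h.2.1 y hy).1
    by_cases e : y = a
    · subst e
      obtain ⟨J, hJ⟩ := hs.sep (fun j => (h.2.1 _ (hK j)).1.2) (rfG_eq hs.toL1Seq) rfG_zero hX.2 ha
      refine ⟨_, ⟨J, rfl⟩, hX, Or.inr ⟨δ / 8, by have := hs.pos; positivity, fun j hj => ?_⟩⟩
      have h1 := hJ j hj
      have h2 : (0 : ℝ) < δ := by exact_mod_cast hs.pos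
      rw [abs_sub_comm]
      push_cast
      exact lt_of_lt_of_le (by linarith) (le_abs_self _)
    · obtain ⟨s, hs⟩ := Function.ne_iff.1 e
      obtain ⟨q, hq0, hq⟩ := exists_rat_btwn (abs_pos.2 (sub_ne_zero.2 hs))
      have h1 : Tendsto (fun j => |y s - u j s|) atTop (𝓝 |y s - a s|) :=
        (tendsto_const_nhds.sub (ha s)).abs
      obtain ⟨J, hJ⟩ := eventually_atTop.1 (h1.eventually (lt_mem_nhds hq))
      exact ⟨_, ⟨J, rfl⟩, hX, Or.inl ⟨s, q, by exact_mod_cast hq0, hJ⟩⟩)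
  have h1 : ∀ U ∈ V, ∀ᶠ j in atTop, u j ∉ U := fun U hU => by
    obtain ⟨J, rfl⟩ := hV hU
    exact eventually_atTop.2 ⟨J, fun j hj => rfU_notMem hj⟩
  obtain ⟨j, hj⟩ := ((eventually_all_finite hfin).2 h1).exists
  obtain ⟨U, hU, hj'⟩ := hc (hK j)
  exact hj U hU hj'

end Pool.Agent.MP_c70ddc_lc.H1
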