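import Pool.Agent.MP_c70ddc_lc.H1.RCpt
import Pool.Agent.MP_c70ddc_lc.H1.RL1
import Pool.Agent.MP_c70ddc_lc.H1.RAt

/-! The Tukey type of the weakly compact sets of the model (module RE). -/

namespace Pool.Agent.MP_c70ddc_lc.H1

set_option synthInstance.maxSize 100000

variable {M : Md} [OrcS M.W] [Ch M] {T : Nd → List ℕ → Prop} [hT : InW M.W T]

omit [OrcS M.W] [Ch M] in
lemma e_nonempty {κ : Type} [Cd κ] [Ty M κ] {S : Set κ} (h : ¬ CtW M.W S) {d : κ}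
    (hd : InW M.W d) : S.Nonempty := by
  rcases S.eq_empty_or_nonempty with rfl | h'
  · exact absurd (ctW_of_finite Set.finite_empty (fun _ ha => ha.elim) hd) h
  · exact h'

lemma e_not_le {β : Type} [Cd β] [LE β] {Q : Set β} {d : β} (hd : InW M.W d)
    (hb : ∀ c : (ℕ → Bool) → β, DfF M c → (∀ x ∈ AW M.W T, c x ∈ Q) →
      ∃ e : ℕ → ℕ → Bool, InW M.W e ∧ Function.Injective e ∧ (∀ n, e n ∈ AW M.W T) ∧
        ∃ b ∈ Q, ∀ n, c (e n) ≤ b) :
    ¬ TukeyLe M.W (KBall M.W (XW M.W T) (nrm T)) Q := by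
  classical
  rintro ⟨f, hf, hfQ, hT'⟩
  have hf1 := DfF.of_gr hf hd
  have hK : DfF M fun x : ℕ → Bool => KW M.W T (fun _ => {x}) (fun _ => 0) := inferInstance
  have hKB : ∀ x ∈ AW M.W T,
      KW M.W T (fun _ => {x}) (fun _ => 0) ∈ KBall M.W (XW M.W T) (nrm T) := by
    intro x hx
    have := hx.1
    exact KW_mem inferInstance inferInstance fun k =>
      ⟨Set.finite_singleton x, fun y hy => by rw [hy]; exact hx.2⟩
  obtain ⟨e, he, hinj, heA, b, hbQ, hle⟩ := hb _ (hf1.comp hK) fun x hx => by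
    rw [if_pos (hKB x hx)]
    exact hfQ _ (hKB x hx)
  refine hT' (Set.range fun n => KW M.W T (fun _ => {e n}) (fun _ => 0)) ?_ inferInstance ?_
    ⟨b, hbQ, ?_⟩
  · rintro _ ⟨n, rfl⟩
    exact hKB _ (heA n)
  · rintro ⟨K, hK, hK'⟩
    refine KBall.not_L1 hK (L1_of_infinite (Set.infinite_range_of_injective hinj) ?_)
    rintro _ ⟨n, rfl⟩ s hs
    refine hK' _ ⟨n, rfl⟩ ⟨inferInstance, le_single s, fun k => ?_⟩
    refine (le_zero.mono (by positivity)).of_abs_le fun t => ?_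
    by_cases ht : t = s
    · subst ht
      rw [cut, Set.indicator_of_notMem fun h => h.2 _ rfl hs]
      simp
    · by_cases h2 : t ∈ {s : Nd | 0 ≤ s.length ∧ ∀ x ∈ ({e n} : Set (ℕ → Bool)), ¬ On x s}
      · rw [cut, Set.indicator_of_mem h2, Pi.single_eq_of_ne ht]
        simp
      · rw [cut, Set.indicator_of_notMem h2]
        simp
  · rintro _ ⟨n, rfl⟩
    have := hle n
    rwa [if_pos (hKB _ (heA n))] at this

theorem not_le_zero (h : ¬ CtW M.W (AW M.W T)) :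
    ¬ TukeyLe M.W (KBall M.W (XW M.W T) (nrm T)) ({0} : Set ℕ) := by
  refine e_not_le (d := 0) inferInstance fun c _ hc => ?_
  obtain ⟨e, b, he, -, h1, h2, -⟩ := exists_bdd_seq (S := AW M.W T) inferInstance
    (e_nonempty h (d := fun _ => false) inferInstance) h (c := fun _ _ => 0) inferInstance
  exact ⟨e, he, h1, h2, 0, rfl, fun n => le_of_eq (hc _ (h2 n))⟩

theorem not_le_baire (h : ¬ CtW M.W (AW M.W T)) :
    ¬ TukeyLe M.W (KBall M.W (XW M.W T) (nrm T)) (Baire M.W) := by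
  refine e_not_le (d := fun _ => 0) inferInstance fun c hc _ => ?_
  obtain ⟨e, b, he, hb, h1, h2, h3⟩ := exists_bdd_seq (S := AW M.W T) inferInstance
    (e_nonempty h (d := fun _ => false) inferInstance) h hc
  exact ⟨e, he, h1, h2, b, hb, h3⟩

theorem not_le_kRat (h : ¬ CtW M.W (AW M.W T)) :
    ¬ TukeyLe M.W (KBall M.W (XW M.W T) (nrm T)) (KRat M.W) :=
  e_not_le (d := ∅) inferInstance fun _ hc hQ => exists_bdd_kRat (S := AW M.W T) inferInstance
    (e_nonempty h (d := fun _ => false) inferInstance) h hc hQ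

theorem finC_not_le (hthin : Thin T) {C : Set (ℕ → ℕ → Bool)} (hC : InW M.W C)
    (hcov : ∀ F : ℕ → Set (ℕ → Bool), InW M.W F → (∀ k, (F k).Finite ∧ F k ⊆ AW M.W T) →
      ∃ H ∈ C, ∀ k, F k ⊆ Set.range H)
    (hsm : ∀ e : (ℕ → ℕ → Bool) → ℕ → Set ℕ, DfF M e →
      ∃ r : Set ℕ, InW M.W r ∧ ∀ H ∈ C, ∀ n, e H n ≠ r) :
    ¬ TukeyLe M.W (FinC M.W) (KBall M.W (XW M.W T) (nrm T)) := by
  classical
  rintro ⟨g, hg, hgQ, hT'⟩
  have hsing : ∀ r : Set ℕ, InW M.W r → ({r} : Set (Set ℕ)) ∈ FinC M.W := fun r hr =>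
    ⟨inferInstance, Set.finite_singleton r⟩
  have hK : DfF M fun r : Set ℕ => g {r} :=
    ((DfF.of_gr hg (d := ∅) inferInstance).comp (DfF.singleton DfF.id)).congr fun r hr =>
      if_pos (hsing r hr)
  obtain ⟨K, hKe⟩ : ∃ K : Set ℕ → Set Vec, ∀ r, K r = g {r} := ⟨_, fun _ => rfl⟩
  replace hK : DfF M K := hK.congr fun r _ => (hKe r).symm
  have hKB : ∀ r, InW M.W r → K r ∈ KBall M.W (XW M.W T) (nrm T) := fun r hr =>
    hKe r ▸ hgQ _ (hsing r hr)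
  obtain ⟨F, m, hF, hm, hFm⟩ := exists_basic (M := M) hthin
  have hb := fun r hr => hFm (K r) (hKB r hr).1 (KBall.le_one (hKB r hr)) (KBall.not_L1 (hKB r hr))
  obtain ⟨H, hH, hH'⟩ := DfF.choice (M := M)
    (p := fun (r : Set ℕ) (H : ℕ → ℕ → Bool) => H ∈ C ∧ ∀ k, F (K r) k ⊆ Set.range H)
    inferInstance (A := {r : Set ℕ | InW M.W r}) inferInstance (fun r hr => by
      obtain ⟨H, h1, h2⟩ := hcov (F (K r)) (hF.inW (hK.inW hr)) (hb r hr).1
      exact ⟨H, hC.of_mem h1, h1, h2⟩) (d := fun _ _ => false) inferInstance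
  obtain ⟨H₀, hH₀, hn⟩ : ∃ H₀ ∈ C, ¬ CtW M.W {r : Set ℕ | InW M.W r ∧ H r = H₀} := by
    by_contra hcon
    push Not at hcon
    obtain ⟨e, he, he'⟩ := DfF.choice (M := M)
      (p := fun (H₀ : ℕ → ℕ → Bool) (e : ℕ → Set ℕ) =>
        {r : Set ℕ | InW M.W r ∧ H r = H₀} ⊆ Set.range e)
      inferInstance hC hcon (d := fun _ => ∅) inferInstance
    obtain ⟨r, hr, hr'⟩ := hsm e he
    obtain ⟨n, hn⟩ := he' _ (hH' r hr).1 ⟨hr, rfl⟩
    exact hr' _ (hH' r hr).1 n hn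
  have hH₀W := hC.of_mem hH₀
  obtain ⟨e, b, he, hbW, hinj, heS, hle⟩ := exists_bdd_seq
    (S := {r : Set ℕ | InW M.W r ∧ H r = H₀}) inferInstance
    (e_nonempty hn (d := ∅) inferInstance) hn
    (c := fun r k => sInf {p | F (K r) k ⊆ H₀ '' {i | i < p}} + m (K r) k) inferInstance
  refine hT' (Set.range fun n => {e n}) ?_ inferInstance ?_
    ⟨KW M.W T (fun k => {x | x ∈ H₀ '' {i | i < b k} ∧ x ∉ Bset T}) b,
      KW_mem inferInstance hbW fun k => ⟨((Set.finite_lt_nat _).image _).subset fun _ h => h.1,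
        fun _ h => h.2⟩, ?_⟩
  · rintro _ ⟨n, rfl⟩
    exact hsing _ (heS n).1
  · rintro ⟨B, hB, hB'⟩
    refine Set.infinite_range_of_injective hinj (hB.2.subset ?_)
    rintro _ ⟨n, rfl⟩
    exact hB' _ ⟨n, rfl⟩ rfl
  · rintro _ ⟨n, rfl⟩ u hu
    have hr := (heS n).1
    rw [← hKe] at hu
    refine ⟨(hKB _ hr).1.of_mem hu, KK_mono (fun k x hx => ?_)
      (fun k => (Nat.le_add_left _ _).trans (hle n k)) ((hb _ hr).2 hu)⟩
    refine ⟨?_, (((hb _ hr).1 k).2 hx).2⟩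
    have hne : {p | F (K (e n)) k ⊆ H₀ '' {i | i < p}}.Nonempty := by
      have h1 := (hH' _ hr).2 k
      rw [(heS n).2, ← Set.image_univ] at h1
      obtain ⟨I, -, hI, h2⟩ := Set.Finite.exists_subset_finite_image_eq ((hb _ hr).1 k).1 h1
      obtain ⟨p, hp⟩ := hI.bddAbove
      exact ⟨p + 1, h2 ▸ Set.image_mono fun i hi => Nat.lt_succ_of_le (hp hi)⟩
    obtain ⟨i, hi, rfl⟩ := Nat.sInf_mem hne hx
    exact ⟨i, lt_of_lt_of_le hi ((Nat.le_add_right _ _).trans (hle n k)), rfl⟩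

end Pool.Agent.MP_c70ddc_lc.H1
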